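import Pool.Agent.Zk62.Tw.V13
import Pool.Agent.W558.Var

/-!
Quotients of products of proper curves and surfaces.
-/

set_option autoImplicit false
set_option linter.unusedVariables false
set_option linter.unusedSectionVars false

open AlgebraicGeometry CategoryTheory Limits

namespace Pool.Agent.Zk10.Sch

open Pool.Agent.Zk10.Act Pool.Agent.W558.WT Pool.Agent.N98.PJ Pool.Agent.W558
  Pool.Agent.Zk10.Ord Pool.Agent.Zk10.Ram Pool.Agent.Zk10.Cur

section defs

variable {k K : Type} [Field k] [Field K] [Algebra k K]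

/-- The stabilizer of a point. -/
def stG (Γ : Set (K ≃ₐ[k] K)) (V : ValuationSubring K) : Set (K ≃ₐ[k] K) :=
  {s | s ∈ Γ ∧ ∀ x ∈ V, s x ∈ V}

/-- The local condition. -/
def MildG (Γ : Set (K ≃ₐ[k] K)) (p : ℕ) (V : ValuationSubring K) : Prop :=
  ¬ p ^ 2 ∣ Nat.card (stG Γ V) ∨
  (∀ s ∈ stG Γ V, (∀ (x : V) (h : s x - x ∈ V),
    (⟨s x - x, h⟩ : V) ∈ IsLocalRing.maximalIdeal V ^ 3) → s = 1) ∨
  ∃ (θ : (K ≃ₐ[k] K) → k) (b : K),
    (∀ s ∈ stG Γ V, ∀ t ∈ stG Γ V, θ (s * t) = θ s + θ t) ∧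
    (∀ s ∈ stG Γ V, θ s = 0 → ∃ m : ℕ, ¬ p ∣ m ∧ s ^ m = 1) ∧
    (∀ s ∈ Γ, s b = b) ∧
    (b ∈ V ∨ ∀ a : K, (∀ s ∈ Γ, s a = a) → V.valuation a ^ p ≠ V.valuation b) ∧
    ∀ lam : (K ≃ₐ[k] K) → ZMod p,
      (∀ s ∈ stG Γ V, ∀ t ∈ stG Γ V, lam (s * t) = lam s + lam t) →
      ∃ (w : K) (c : k), (∀ s ∈ stG Γ V, s w = w + ((lam s).val : K)) ∧
        w ^ p - w - algebraMap k K c * b ∈ V

/-- The conditions on the factors. -/
def FacG (p : ℕ) (Γ : Set (K ≃ₐ[k] K)) : Prop :=
  (Algebra.trdeg k K = 1 ∧ IsOrd p k K) ∨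
  (Algebra.trdeg k K = 1 ∧ ∀ V : ValuationSubring K, (∀ c : k, algebraMap k K c ∈ V) → V ≠ ⊤ →
    MildG Γ p V) ∨
  (Algebra.trdeg k K = 2 ∧ ¬ p ^ 2 ∣ Nat.card Γ ∧
    ∃ (N : ℕ) (H : Fin (N + 1) → K), (∀ l, H l ≠ 0) ∧
      (∀ j, Algebra.Smooth k (Algebra.adjoin k (Set.range fun l => H l / H j))) ∧
      ∀ j (f : K), (∀ s ∈ Γ, s f = f) ↔
        ∃ u ∈ Algebra.adjoin k (Set.range fun l => H l / H j),
        ∃ v ∈ Algebra.adjoin k (Set.range fun l => H l / H j), v ≠ 0 ∧ f = u / v)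

end defs

/-- The conditions for the function fields of schemes. -/
theorem fac_of {p : ℕ} [Fact p.Prime] {k A K : Type} [Field k] [IsAlgClosed k] [CharP k p]
    [CommRing A] [IsDomain A] [Algebra k A] [Algebra.FiniteType k A] [Field K] [Algebra k K]
    [Algebra A K] [IsScalarTower k A K] [IsFractionRing A K] {P C : Type} [Group P] [Finite P]
    [CommGroup C] [Finite C] (hP : IsPGroup p P) (hC : ¬ p ∣ Nat.card C)
    (ρ : P × C →* (A ≃ₐ[k] A)) {Γ : Set (K ≃ₐ[k] K)} (hΓ : Γ = ind K ρ) (h : FacG p Γ) :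
    Fac p (lf K ρ).range := by
  classical
  subst hΓ
  obtain ⟨N, hN⟩ := prj_prod (p := p) (P := P) (C := C) hP hC
  have hN' : Prj p N (lf K ρ).range := by
    refine hN.of_surj (lf K ρ) ?_
    rintro _ ⟨g, rfl⟩
    exact ⟨g, trivial, rfl⟩
  have htr : Algebra.trdeg k K = Algebra.trdeg k A := Pool.Agent.W348.WTM.trdeg_frac k A K
  rcases h with ⟨h1, h2⟩ | ⟨h1, h2⟩ | ⟨h1, h2, M, H, h3, h4, h5⟩
  · rw [htr] at h1
    exact fac_mild K ρ p hN' h1 fun V hk hV => mild_ord K ρ p h1 h2 V hk hV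
  · rw [htr] at h1
    exact fac_mild K ρ p hN' h1 fun V hk hV => h2 V hk hV
  · rw [htr] at h1
    refine fac_surface K ρ p hN' h1 ?_ M H h3 h4 ?_
    · intro hd
      apply h2
      have hker : (lf K ρ).ker = ρ.ker := by
        ext g
        rw [MonoidHom.mem_ker, MonoidHom.mem_ker]
        constructor
        · exact lf_one K ρ
        · intro h
          apply AlgEquiv.ext
          intro y
          refine frac_ext2 (C := A) ((lf K ρ g : K ≃ₐ[k] K) : K →+* K) (RingHom.id K) ?_ y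
          intro a
          change lf K ρ g (algebraMap A K a) = algebraMap A K a
          rw [lf_app, h]
          rfl
      have h6 : Nat.card (lf K ρ).range = Nat.card ρ.range := by
        rw [← Nat.card_congr (QuotientGroup.quotientKerEquivRange ρ).toEquiv,
          ← Nat.card_congr (QuotientGroup.quotientKerEquivRange (lf K ρ)).toEquiv, hker]
      have h7 : Nat.card (ind K ρ) = Nat.card (lf K ρ).range :=
        Nat.card_congr (Equiv.subtypeEquivRight fun s => mem_ind K ρ)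
      rw [h7, h6]
      exact hd
    · intro j a b hb
      rw [← h5 j]
      have hb0 : ∀ g, algebraMap A K (ρ g b) ≠ 0 := by
        intro g h0
        apply hb
        apply (ρ g).injective
        rw [map_zero]
        exact IsFractionRing.injective A K (h0.trans (map_zero _).symm)
      have hb1 : algebraMap A K b ≠ 0 := fun h0 =>
        hb (IsFractionRing.injective A K (h0.trans (map_zero _).symm))
      constructor
      · intro h s hs
        obtain ⟨g, hg⟩ := hs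
        rw [map_div₀, hg, hg, div_eq_div_iff (hb0 g) hb1, ← map_mul, ← map_mul, h g]
      · intro h g
        have h8 := h (lf K ρ g) ((mem_ind K ρ).2 ⟨g, rfl⟩)
        rw [map_div₀, lf_app, lf_app, div_eq_div_iff (hb0 g) hb1, ← map_mul, ← map_mul] at h8
        exact IsFractionRing.injective A K h8

end Pool.Agent.Zk10.Sch
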