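import Pool.Agent.Zk62.Tw.U8

/-!
Ordinary curves: functions which are locally `p`-th powers up to regular functions and a simple
pole at one point.
-/

set_option autoImplicit false
set_option linter.unusedVariables false
set_option linter.unusedSectionVars false

universe u

open Polynomial IntermediateField

namespace Pool.Agent.Zk10.Ord

open Pool.Agent.W558 Pool.Agent.H920R2 Pool.Agent.Zk10.Ram Pool.Agent.Zk10.Cur

section ker

variable {k F : Type u} [Field k] [IsAlgClosed k] [Field F] [Algebra k F]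

/-- A `p`-linear map to a vector space of smaller dimension has a kernel. -/
lemma ker_lemma (p : ℕ) [Fact p.Prime] [CharP k p] [CharP F p] (W N : Submodule k F)
    (S : Finset F) (hS : ∀ x ∈ W, ∃ y ∈ N, ∃ z ∈ Submodule.span k (S : Set F), x = y + z)
    (hWp : ∀ x ∈ W, x ^ p ∈ W) {τ : F} (hτ : τ ∈ W) :
    ∃ r ∈ W, ∃ d : k, r ^ p + algebraMap k F (d ^ p) * τ ∈ N ∧ (d ≠ 0 ∨ r ∉ N) := by
  classical
  have hp : p.Prime := Fact.out
  let π : F →ₗ[k] F ⧸ N := N.mkQ
  have hπ : ∀ x, π x = 0 ↔ x ∈ N := fun x => by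
    change N.mkQ x = 0 ↔ _
    rw [Submodule.mkQ_apply, Submodule.Quotient.mk_eq_zero]
  let H : Submodule k (F ⧸ N) := W.map π
  have hle : H ≤ (Submodule.span k (S : Set F)).map π := by
    rintro _ ⟨x, hx, rfl⟩
    obtain ⟨y, hy, z, hz, rfl⟩ := hS x hx
    refine ⟨z, hz, ?_⟩
    rw [map_add, (hπ y).2 hy, zero_add]
  have hfd1 : FiniteDimensional k (Submodule.span k (S : Set F)) :=
    FiniteDimensional.span_finset k S
  have hfd2 : FiniteDimensional k ((Submodule.span k (S : Set F)).map π) := inferInstance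
  have hfd : FiniteDimensional k H := Submodule.finiteDimensional_of_le hle
  let b := Module.finBasis k H
  set h := Module.finrank k H with hh
  choose r hrW hr using fun i => (b i).2
  have hrp : ∀ i, π (r i ^ p) ∈ H := fun i => ⟨_, hWp _ (hrW i), rfl⟩
  let v : Option (Fin h) → H := fun o => o.elim ⟨π τ, ⟨τ, hτ, rfl⟩⟩ fun i => ⟨π (r i ^ p), hrp i⟩
  have hv : ¬ LinearIndependent k v := by
    intro hl
    have h1 := hl.fintype_card_le_finrank
    rw [Fintype.card_option, Fintype.card_fin] at h1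
    omega
  rw [Fintype.not_linearIndependent_iff] at hv
  obtain ⟨c, hc, i0, hi0⟩ := hv
  have hroot : ∀ x : k, ∃ y : k, y ^ p = x := fun x => IsAlgClosed.exists_pow_nat_eq x hp.pos
  choose d hd using fun o => hroot (c o)
  refine ⟨∑ i : Fin h, d (some i) • r i, W.sum_mem fun i _ => W.smul_mem _ (hrW i), d none, ?_, ?_⟩
  · rw [← hπ, sum_pow_char]
    have h1 : (∑ i : Fin h, (d (some i) • r i) ^ p) = ∑ i : Fin h, c (some i) • r i ^ p :=
      Finset.sum_congr rfl fun i _ => by rw [_root_.smul_pow, hd]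
    rw [h1, hd, ← Algebra.smul_def, map_add, map_sum, map_smul]
    have h2 := congrArg Subtype.val hc
    rw [Fintype.sum_option] at h2
    simp only [Submodule.coe_add, Submodule.coe_smul, Submodule.coe_zero] at h2
    rw [add_comm]
    rw [← h2]
    congr 1
    rw [AddSubmonoidClass.coe_finsetSum]
    refine Finset.sum_congr rfl fun i _ => ?_
    rw [map_smul]
    rfl
  · by_contra hcon
    push Not at hcon
    obtain ⟨h1, h2⟩ := hcon
    rw [← hπ, map_sum] at h2
    have h3 : ∑ i : Fin h, d (some i) • b i = 0 := by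
      apply Subtype.ext
      rw [AddSubmonoidClass.coe_finsetSum, Submodule.coe_zero, ← h2]
      refine Finset.sum_congr rfl fun i _ => ?_
      rw [map_smul, hr]
      rfl
    have h4 := Fintype.linearIndependent_iff.1 b.linearIndependent _ h3
    apply hi0
    rw [← hd i0]
    rcases i0 with _ | i
    · rw [h1, zero_pow hp.ne_zero]
    · rw [h4 i, zero_pow hp.ne_zero]

end ker

section fin

variable {k F : Type u} [Field k] [Field F] [Algebra k F] {T : F}

/-- The functions with poles in the zeros and poles of `T`. -/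
def WT (k : Type u) {F : Type u} [Field k] [Field F] [Algebra k F] (T : F) : Submodule k F where
  carrier := {x | ∃ n : ℕ, T ^ n * x ∈ CC k T}
  add_mem' := by
    rintro x y ⟨n, hn⟩ ⟨m, hm⟩
    refine ⟨n + m, ?_⟩
    have h1 : T ^ (n + m) * (x + y) = T ^ m * (T ^ n * x) + T ^ n * (T ^ m * y) := by ring
    rw [h1]
    exact (CC k T).add_mem ((CC k T).mul_mem ((CC k T).pow_mem (u_mem_CC k T) _) hn)
      ((CC k T).mul_mem ((CC k T).pow_mem (u_mem_CC k T) _) hm)
  zero_mem' := ⟨0, by rw [mul_zero]; exact (CC k T).zero_mem⟩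
  smul_mem' := by
    rintro c x ⟨n, hn⟩
    refine ⟨n, ?_⟩
    rw [mul_smul_comm]
    exact (CC k T).smul_mem hn c

/-- The regular functions at the poles or at the zeros of `T`. -/
def NT (k : Type u) {F : Type u} [Field k] [Field F] [Algebra k F] (T : F) : Submodule k F :=
  (CC k T).toSubmodule ⊔ (CC k T⁻¹).toSubmodule

lemma mem_NT {x : F} : x ∈ NT k T ↔ ∃ a ∈ CC k T, ∃ b ∈ CC k T⁻¹, a + b = x := by
  unfold NT
  rw [Submodule.mem_sup]
  rfl

/-- Finiteness of the first cohomology of the structure sheaf. -/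
lemma fin_H1 (hT0 : T ≠ 0) [FiniteDimensional k⟮T⟯ F] [Algebra.IsSeparable k⟮T⟯ F] :
    ∃ S : Finset F, ∀ x ∈ WT k T, ∃ y ∈ NT k T, ∃ z ∈ Submodule.span k (S : Set F), x = y + z := by
  classical
  obtain ⟨-, hfin, -⟩ := CC_dedekind k T
  obtain ⟨S0, hS0⟩ := hfin.fg_top
  -- denominators
  choose n hn using fun z : integralClosure (Algebra.adjoin k {T}) F =>
    CC_denom k T hT0 (z : F) z.2
  let M : ℕ := ∑ z ∈ S0, n z
  have hM : ∀ z ∈ S0, T⁻¹ ^ M * (z : F) ∈ CC k T⁻¹ := by
    intro z hz
    obtain ⟨e, he⟩ := Nat.exists_eq_add_of_le (Finset.single_le_sum (f := n)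
      (fun _ _ => Nat.zero_le _) hz)
    change T⁻¹ ^ (∑ z ∈ S0, n z) * (z : F) ∈ _
    rw [he, add_comm, pow_add, mul_assoc]
    exact (CC k T⁻¹).mul_mem ((CC k T⁻¹).pow_mem (u_mem_CC k _) _) (hn z)
  let S : Finset F := (S0 ×ˢ Finset.range M).image fun q => T⁻¹ ^ q.2 * (q.1 : F)
  let U : Submodule k F := NT k T ⊔ Submodule.span k (S : Set F)
  have hgen : ∀ z ∈ S0, ∀ e : ℤ, T ^ e * (z : F) ∈ U := by
    intro z hz e
    rcases le_or_gt 0 e with he | he
    · obtain ⟨m, rfl⟩ := Int.eq_ofNat_of_zero_le he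
      refine Submodule.mem_sup_left (Submodule.mem_sup_left ?_)
      change T ^ ((m : ℕ) : ℤ) * (z : F) ∈ CC k T
      rw [zpow_natCast]
      exact (CC k T).mul_mem ((CC k T).pow_mem (u_mem_CC k T) _) z.2
    · obtain ⟨m, hm⟩ := Int.eq_ofNat_of_zero_le (neg_nonneg.2 he.le)
      have he' : T ^ e = T⁻¹ ^ m := by
        rw [inv_pow, ← zpow_natCast, ← zpow_neg, ← hm, neg_neg]
      rw [he']
      rcases lt_or_ge m M with h1 | h1
      · refine Submodule.mem_sup_right (Submodule.subset_span ?_)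
        rw [Finset.mem_coe, Finset.mem_image]
        exact ⟨(z, m), Finset.mem_product.2 ⟨hz, Finset.mem_range.2 h1⟩, rfl⟩
      · obtain ⟨l, rfl⟩ := Nat.exists_eq_add_of_le h1
        refine Submodule.mem_sup_left (Submodule.mem_sup_right ?_)
        change T⁻¹ ^ (M + l) * (z : F) ∈ CC k T⁻¹
        rw [add_comm, pow_add, mul_assoc]
        exact (CC k T⁻¹).mul_mem ((CC k T⁻¹).pow_mem (u_mem_CC k _) _) (hM z hz)
  have hadj : ∀ c ∈ Algebra.adjoin k {T}, ∀ z : F, (∀ e : ℤ, T ^ e * z ∈ U) →
      ∀ e : ℤ, T ^ e * (c * z) ∈ U := by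
    intro c hc
    induction hc using Algebra.adjoin_induction with
    | mem x hx =>
      rw [Set.mem_singleton_iff] at hx
      subst hx
      intro z hz e
      have h1 : x ^ e * (x * z) = x ^ (e + 1) * z := by
        rw [zpow_add_one₀ hT0, mul_assoc]
      rw [h1]
      exact hz _
    | algebraMap r =>
      intro z hz e
      have h1 : T ^ e * (algebraMap k F r * z) = r • (T ^ e * z) := by
        rw [Algebra.smul_def]
        ring
      rw [h1]
      exact U.smul_mem _ (hz e)
    | add x y _ _ hx hy =>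
      intro z hz e
      have h1 : T ^ e * ((x + y) * z) = T ^ e * (x * z) + T ^ e * (y * z) := by ring
      rw [h1]
      exact U.add_mem (hx z hz e) (hy z hz e)
    | mul x y _ _ hx hy =>
      intro z hz e
      rw [mul_assoc]
      exact hx _ (hy z hz) e
  have hCC : ∀ z : integralClosure (Algebra.adjoin k {T}) F, ∀ e : ℤ, T ^ e * (z : F) ∈ U := by
    intro z
    have h1 : z ∈ Submodule.span (Algebra.adjoin k {T})
        (S0 : Set (integralClosure (Algebra.adjoin k {T}) F)) := by
      rw [hS0]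
      trivial
    induction h1 using Submodule.span_induction with
    | mem x hx => exact hgen x hx
    | zero =>
      intro e
      change T ^ e * (0 : F) ∈ U
      rw [mul_zero]
      exact U.zero_mem
    | add x y _ _ hx hy =>
      intro e
      change T ^ e * ((x : F) + (y : F)) ∈ U
      rw [mul_add]
      exact U.add_mem (hx e) (hy e)
    | smul c x _ hx =>
      intro e
      change T ^ e * ((c : F) * (x : F)) ∈ U
      exact hadj _ c.2 _ hx e
  refine ⟨S, ?_⟩
  rintro x ⟨m, hm⟩
  have h1 := hCC ⟨_, hm⟩ (-(m : ℤ))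
  change T ^ (-(m : ℤ)) * (T ^ m * x) ∈ U at h1
  rw [← mul_assoc, ← zpow_natCast, ← zpow_add₀ hT0, neg_add_cancel, zpow_zero, one_mul] at h1
  obtain ⟨y, hy, z, hz, h2⟩ := Submodule.mem_sup.1 h1
  exact ⟨y, hy, z, hz, h2.symm⟩

end fin

end Pool.Agent.Zk10.Ord
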