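import Pool.Agent.Zk62.Tw.N1

/-!
Functions which are locally `p`-th powers up to regular functions and a simple pole at one point.
-/

set_option autoImplicit false
set_option linter.unusedVariables false
set_option linter.unusedSectionVars false

universe u

open IntermediateField

namespace Pool.Agent.Zk10.Ord

open Pool.Agent.W558 Pool.Agent.H920R2 Pool.Agent.Zk10.Ram Pool.Agent.Zk10.Cur

section resid

variable {k E : Type u} [Field k] [IsAlgClosed k] [Field E] [Algebra k E] {D : Subalgebra k E}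
  [IsDedekindDomain D] [IsFractionRing D E] [Algebra.FiniteType k D]

lemma resV {V : ValuationSubring E} (hDV : ∀ x ∈ D, x ∈ V) (hV : V ≠ ⊤) {x : E} (hx : x ∈ V) :
    ∃ c : k, V.valuation (x - algebraMap k E c) < 1 := by
  have hk : ∀ c : k, algebraMap k E c ∈ V := fun c => hDV _ (D.algebraMap_mem c)
  obtain ⟨s, hs, hs1, hsx⟩ := exists_loc hDV hx
  obtain ⟨c1, hc1⟩ := res_of (k := k) hDV hV s hs
  obtain ⟨c2, hc2⟩ := res_of (k := k) hDV hV _ hsx
  have hs0 : s ≠ 0 := by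
    rintro rfl
    rw [map_zero] at hs1
    exact zero_ne_one hs1
  have hc10 : c1 ≠ 0 := by
    rintro rfl
    rw [map_zero, sub_zero, hs1] at hc1
    exact lt_irrefl _ hc1
  refine ⟨c2 / c1, ?_⟩
  have h1 : x - algebraMap k E (c2 / c1) =
      ((s * x - algebraMap k E c2) - (s - algebraMap k E c1) * algebraMap k E (c2 / c1)) * s⁻¹ := by
    have h2 : algebraMap k E (c2 / c1) * algebraMap k E c1 = algebraMap k E c2 := by
      rw [← map_mul, div_mul_cancel₀ _ hc10]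
    rw [← div_eq_mul_inv, eq_div_iff hs0]
    linear_combination -h2
  rw [h1]
  exact v_lt_mul (v_sub_lt hc2 (v_lt_mul hc1 (hk _))) (v_inv_mem hs1)

end resid

section glob

variable {k F : Type u} [Field k] [IsAlgClosed k] [Field F] [Algebra k F]
  [Algebra.EssFiniteType k F]

lemma pow_mem_CC {n : ℕ} (hn : 0 < n) {u x : F} (h : x ^ n ∈ CC k u) : x ∈ CC k u :=
  IsIntegral.of_pow hn h

/-- Existence of exact differentials with double poles. -/
theorem exists_glob (p : ℕ) [Fact p.Prime] [CharP k p] {T : F} (hT : SepEl k T)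
    {P0 : ValuationSubring F} (hk0 : ∀ c : k, algebraMap k F c ∈ P0) (hP0 : P0 ≠ ⊤)
    (hTP : T ∉ P0) {τ0 : F} (hτ0 : P0.valuation τ0⁻¹ < 1)
    (hβ : ∀ z, P0.valuation z < 1 → z * τ0 ∈ P0) (hγ : ∀ r : F, τ0 - r ^ p ∉ P0) :
    ∃ g : F, (∀ h, g ≠ h ^ p) ∧ (∀ Q : ValuationSubring F,
      (∀ c : k, algebraMap k F c ∈ Q) → Q ≠ P0 → ∃ r, g - r ^ p ∈ Q) ∧
      ∃ (r : F) (c : k), g - r ^ p - algebraMap k F c * τ0 ∈ P0 := by
  classical
  have hp : p.Prime := Fact.out
  have hcF : CharP F p := charP_of_injective_algebraMap (algebraMap k F).injective p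
  have hT0 : T ≠ 0 := by
    rintro rfl
    exact hTP P0.zero_mem
  have hTi := hT.inv
  have i1 := hT.finite
  have i2 := hT.2
  have i3 := hTi.finite
  have i4 := hTi.2
  obtain ⟨d1, -, d2⟩ := CC_dedekind k T⁻¹
  have d3 := CC_finiteType k T⁻¹
  have hTv : P0.valuation T⁻¹ < 1 := by
    rw [map_inv₀]
    apply inv_lt_one_of_one_lt₀
    rw [← not_le, v_le]
    exact hTP
  have hD0 : ∀ x ∈ CC k T⁻¹, x ∈ P0 := fun x hx => CC_le_val k T⁻¹ P0 hk0 (v_lt_mem hTv) x hx
  obtain ⟨𝔮, h𝔮p, h𝔮, h𝔮0⟩ := exists_center (k := k) hD0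
  have h𝔮m : 𝔮.IsMaximal := h𝔮p.isMaximal (h𝔮0 hP0)
  let t : CC k T⁻¹ := ⟨T⁻¹, u_mem_CC k T⁻¹⟩
  have ht0 : t ≠ 0 := fun h => inv_ne_zero hT0 (congrArg Subtype.val h)
  let I : Ideal (CC k T⁻¹) := Ideal.span {t}
  have hI0 : I ≠ ⊥ := by
    rw [Ne, Ideal.span_singleton_eq_bot]
    exact ht0
  have hI𝔮 : I ≤ 𝔮 := by
    rw [Ideal.span_singleton_le_iff_mem]
    exact (h𝔮 t).2 hTv
  obtain ⟨J, hJ⟩ := Ideal.dvd_iff_le.2 hI𝔮
  obtain ⟨z, hzJ, hzI⟩ : ∃ z ∈ J, z ∉ I := by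
    by_contra hcon
    push Not at hcon
    have h1 : J ≤ I := fun z hz => hcon z hz
    have h2 : I ≤ J := by
      rw [hJ]
      exact Ideal.mul_le_right (I := 𝔮) (J := J)
    have h3 : J = I := le_antisymm h1 h2
    rw [h3] at hJ
    have h4 : 1 * I = 𝔮 * I := by rw [one_mul]; exact hJ
    have h5 := mul_right_cancel₀ hI0 h4
    exact h𝔮m.ne_top (by rw [← h5, Ideal.one_eq_top])
  let τ : F := T * z
  have hqτ : ∀ q ∈ 𝔮, (q : F) * τ ∈ CC k T⁻¹ := by
    intro q hq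
    have h1 : q * z ∈ I := by
      rw [hJ]
      exact Ideal.mul_mem_mul hq hzJ
    obtain ⟨d, hd⟩ := Ideal.mem_span_singleton'.1 h1
    have h2 : (q : F) * τ = (d : F) := by
      have h3 : (d : F) * T⁻¹ = (q : F) * z := congrArg Subtype.val hd
      change (q : F) * (T * z) = d
      have h4 : (q : F) * (T * z) = T * ((q : F) * z) := by ring
      rw [h4, ← h3, mul_comm, mul_assoc, inv_mul_cancel₀ hT0, mul_one]
    rw [h2]
    exact d.2
  have hτD : τ ∉ CC k T⁻¹ := by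
    intro h
    apply hzI
    refine Ideal.mem_span_singleton'.2 ⟨⟨τ, h⟩, Subtype.ext ?_⟩
    change T * z * T⁻¹ = z
    rw [mul_comm, ← mul_assoc, inv_mul_cancel₀ hT0, one_mul]
  have hτW : τ ∈ WT k T := by
    obtain ⟨n, hn⟩ := CC_denom k T⁻¹ (inv_ne_zero hT0) z z.2
    rw [inv_inv] at hn
    refine ⟨n, ?_⟩
    have h1 : T ^ n * τ = T * (T ^ n * z) := by
      change T ^ n * (T * z) = _
      ring
    rw [h1]
    exact (CC k T).mul_mem (u_mem_CC k T) hn
  have hτQ : ∀ Q : ValuationSubring F, (∀ c : k, algebraMap k F c ∈ Q) → T⁻¹ ∈ Q → Q ≠ P0 →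
      τ ∈ Q := by
    intro Q hkQ hTQ hne
    have hDQ : ∀ x ∈ CC k T⁻¹, x ∈ Q := fun x hx => CC_le_val k T⁻¹ Q hkQ hTQ x hx
    by_cases hQ : Q = ⊤
    · rw [hQ]
      exact ValuationSubring.mem_top _
    obtain ⟨P, hPp, hP, hPb⟩ := exists_center (k := k) hDQ
    by_cases hle : 𝔮 ≤ P
    · exfalso
      apply hne
      have heq := h𝔮m.eq_of_le hPp.ne_top hle
      refine eq_of_center hDQ hD0 fun a ha => ?_
      have h1 := hP ⟨a, ha⟩
      have h2 := h𝔮 ⟨a, ha⟩
      rw [heq] at h2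
      exact h1.symm.trans h2
    · obtain ⟨q, hq, hqP⟩ := SetLike.not_le_iff_exists.1 hle
      have h1 : Q.valuation (q : F) = 1 := v_one_of (hDQ q q.2) fun h => hqP ((hP q).2 h)
      have h2 := hDQ _ (hqτ q hq)
      have hq0 : (q : F) ≠ 0 := by
        intro h
        rw [h, map_zero] at h1
        exact zero_ne_one h1
      have h3 : τ = (q : F)⁻¹ * (q * τ) := by
        rw [← mul_assoc, inv_mul_cancel₀ hq0, one_mul]
      rw [h3]
      exact Q.mul_mem _ _ (v_inv_mem h1) h2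
  have hτ00 : τ0 ≠ 0 := by
    rintro rfl
    refine hγ 0 ?_
    rw [zero_pow hp.ne_zero, sub_zero]
    exact P0.zero_mem
  -- comparison of `τ` and `τ0`
  obtain ⟨c0, hc0⟩ : ∃ c0 : k, τ - algebraMap k F c0 * τ0 ∈ P0 := by
    have h1 : τ0⁻¹ * τ ∈ P0 := by
      obtain ⟨s, hs, hs1, hsx⟩ := exists_loc hD0 (v_lt_mem hτ0)
      have h2 : (⟨s * τ0⁻¹, hsx⟩ : CC k T⁻¹) ∈ 𝔮 := by
        rw [h𝔮]
        change P0.valuation (s * τ0⁻¹) < 1
        rw [map_mul, hs1, one_mul]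
        exact hτ0
      have h3 := hD0 _ (hqτ _ h2)
      have hs0 : s ≠ 0 := by
        rintro rfl
        rw [map_zero] at hs1
        exact zero_ne_one hs1
      have h4 : τ0⁻¹ * τ = s⁻¹ * (s * τ0⁻¹ * τ) := by
        rw [mul_assoc s, ← mul_assoc s⁻¹, inv_mul_cancel₀ hs0, one_mul]
      rw [h4]
      exact P0.mul_mem _ _ (v_inv_mem hs1) h3
    obtain ⟨c0, hc0⟩ := resV (k := k) hD0 hP0 h1
    refine ⟨c0, ?_⟩
    have h2 := hβ _ hc0
    have h3 : (τ0⁻¹ * τ - algebraMap k F c0) * τ0 = τ - algebraMap k F c0 * τ0 := by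
      rw [sub_mul, mul_comm (τ0⁻¹ * τ), ← mul_assoc, mul_inv_cancel₀ hτ00, one_mul]
    rw [← h3]
    exact h2
  have hc00 : c0 ≠ 0 := by
    rintro rfl
    rw [map_zero, zero_mul, sub_zero] at hc0
    apply hτD
    refine mem_of_val fun Q hQ => ?_
    by_cases hne : Q = P0
    · rw [hne]
      exact hc0
    · exact hτQ Q (fun c => hQ _ ((CC k T⁻¹).algebraMap_mem c)) (hQ _ (u_mem_CC k T⁻¹)) hne
  obtain ⟨S, hS⟩ := fin_H1 (k := k) (T := T) hT0
  obtain ⟨r, hr, d, hrd, hne⟩ := ker_lemma p (WT k T) (NT k T) S hS (by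
    rintro x ⟨n, hn⟩
    refine ⟨n * p, ?_⟩
    have h1 : T ^ (n * p) * x ^ p = (T ^ n * x) ^ p := by rw [mul_pow, pow_mul]
    rw [h1]
    exact (CC k T).pow_mem hn p) hτW
  obtain ⟨α, hα, β, hβ', hαβ⟩ := mem_NT.1 hrd
  have hαe : α - r ^ p = algebraMap k F (d ^ p) * τ - β := by
    rw [← add_left_inj β, sub_add_cancel, ← sub_eq_zero]
    have : α - r ^ p + β - algebraMap k F (d ^ p) * τ =
      (α + β) - (r ^ p + algebraMap k F (d ^ p) * τ) := by ring
    rw [this, hαβ, sub_self]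
  refine ⟨α, ?_, ?_, ?_⟩
  · -- not a `p`-th power
    rintro h rfl
    have hh : h ∈ CC k T := pow_mem_CC hp.pos hα
    have hβe : β = (r - h) ^ p + algebraMap k F (d ^ p) * τ := by
      rw [sub_pow_char]
      linear_combination hαβ
    by_cases hd : d = 0
    · have h1 : r - h ∈ CC k T⁻¹ := by
        apply pow_mem_CC hp.pos
        rw [hd, zero_pow hp.ne_zero, map_zero, zero_mul, add_zero] at hβe
        rw [← hβe]
        exact hβ'
      refine (hne.resolve_left (fun h => h hd)) (mem_NT.2 ⟨h, hh, r - h, h1, by ring⟩)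
    · have h1 : (r - h) ^ p + algebraMap k F (d ^ p) * τ ∈ P0 := by
        rw [← hβe]
        exact hD0 _ hβ'
      obtain ⟨e, he⟩ : ∃ e : k, e ^ p = d ^ p * c0 := IsAlgClosed.exists_pow_nat_eq _ hp.pos
      have he0 : e ≠ 0 := by
        rintro rfl
        rw [zero_pow hp.ne_zero] at he
        exact mul_ne_zero (pow_ne_zero _ hd) hc00 he.symm
      have heF : algebraMap k F e ≠ 0 := (_root_.map_ne_zero _).2 he0
      refine hγ (-(r - h) / algebraMap k F e) ?_
      have h2 : τ0 - (-(r - h) / algebraMap k F e) ^ p =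
          algebraMap k F (e⁻¹ ^ p) * (((r - h) ^ p + algebraMap k F (d ^ p) * τ) -
            algebraMap k F (d ^ p) * (τ - algebraMap k F c0 * τ0)) := by
        have h3 : (-(r - h)) ^ p = -((r - h) ^ p) := by
          have h4 : ((0 : F) - (r - h)) ^ p = 0 ^ p - (r - h) ^ p := sub_pow_char _ _
          rw [zero_sub, zero_pow hp.ne_zero, zero_sub] at h4
          exact h4
        have h5 : algebraMap k F (e⁻¹ ^ p) * algebraMap k F (d ^ p) * algebraMap k F c0 = 1 := by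
          rw [← map_mul, ← map_mul, mul_assoc, ← he, ← mul_pow, inv_mul_cancel₀ he0, one_pow, map_one]
        have h6 : algebraMap k F (e⁻¹ ^ p) * algebraMap k F e ^ p = 1 := by
          rw [← map_pow, ← map_mul, ← mul_pow, inv_mul_cancel₀ he0, one_pow, map_one]
        rw [div_pow, h3]
        have h7 : -((r - h) ^ p) / algebraMap k F e ^ p =
            -(algebraMap k F (e⁻¹ ^ p) * (r - h) ^ p) := by
          rw [div_eq_iff (pow_ne_zero _ heF)]
          linear_combination ((r - h) ^ p) * h6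
        rw [h7]
        linear_combination (-τ0) * h5
      rw [h2]
      exact P0.mul_mem _ _ (hk0 _) (P0.sub_mem h1 (P0.mul_mem _ _ (hk0 _) hc0))
  · intro Q hkQ hQ
    by_cases hTQ : T ∈ Q
    · refine ⟨0, ?_⟩
      rw [zero_pow hp.ne_zero, sub_zero]
      exact CC_le_val k T Q hkQ hTQ α hα
    · have hTQ' : T⁻¹ ∈ Q := (Q.mem_or_inv_mem T).resolve_left hTQ
      refine ⟨r, ?_⟩
      rw [hαe]
      exact Q.sub_mem (Q.mul_mem _ _ (hkQ _) (hτQ Q hkQ hTQ' hQ))
        (CC_le_val k T⁻¹ Q hkQ hTQ' β hβ')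
  · refine ⟨r, d ^ p * c0, ?_⟩
    have h1 : α - r ^ p - algebraMap k F (d ^ p * c0) * τ0 =
        algebraMap k F (d ^ p) * (τ - algebraMap k F c0 * τ0) - β := by
      rw [hαe, map_mul]
      ring
    rw [h1]
    exact P0.sub_mem (P0.mul_mem _ _ (hk0 _) hc0) (hD0 _ hβ')

end glob

end Pool.Agent.Zk10.Ord
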