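import Pool.Agent.Zk62.Tw.U6

/-!
The local condition: tame points, points with a group of order `p`, weakly ramified points.
-/

set_option autoImplicit false
set_option linter.unusedVariables false
set_option linter.unusedSectionVars false

universe u

namespace Pool.Agent.Zk10.Cur

open Pool.Agent.W558 Pool.Agent.H920R2 Pool.Agent.Zk10.Ram Polynomial IntermediateField
  Pool.Agent.W435.WT.Gal Pool.Agent.Zk10 Pool.Agent.W177.WD Pool.Agent.TH214

section prj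

/-- The power map `s ↦ s ^ N` is the projection to the `p`-part of a product of a `p`-group and a
group without `p`-torsion. -/
structure Prj {G : Type*} [Group G] (p N : ℕ) (Γ : Subgroup G) : Prop where
  mul : ∀ s ∈ Γ, ∀ t ∈ Γ, (s * t) ^ N = s ^ N * t ^ N
  pp : ∀ s ∈ Γ, ∃ n : ℕ, (s ^ N) ^ p ^ n = 1
  pc : ∀ s ∈ Γ, ∃ m : ℕ, ¬ p ∣ m ∧ (s * (s ^ N)⁻¹) ^ m = 1

variable {G : Type*} [Group G] {p N : ℕ} {Γ : Subgroup G}

lemma eq_one_of {p : ℕ} [Fact p.Prime] {s : G} {n m : ℕ} (h1 : s ^ p ^ n = 1) (hm : ¬ p ∣ m)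
    (h2 : s ^ m = 1) : s = 1 := by
  have hp : p.Prime := Fact.out
  have h3 : orderOf s ∣ Nat.gcd (p ^ n) m :=
    Nat.dvd_gcd (orderOf_dvd_of_pow_eq_one h1) (orderOf_dvd_of_pow_eq_one h2)
  have h4 : Nat.gcd (p ^ n) m = 1 :=
    Nat.Coprime.pow_left n ((Nat.Prime.coprime_iff_not_dvd hp).2 hm)
  rw [h4, Nat.dvd_one, orderOf_eq_one_iff] at h3
  exact h3

lemma Prj.mono {Γ' : Subgroup G} (h : Prj p N Γ) (hle : Γ' ≤ Γ) : Prj p N Γ' :=
  ⟨fun s hs t ht => h.mul s (hle hs) t (hle ht), fun s hs => h.pp s (hle hs),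
    fun s hs => h.pc s (hle hs)⟩

lemma Prj.idem [Fact p.Prime] (h : Prj p N Γ) {s : G} (hs : s ∈ Γ) (hp : ∃ n : ℕ, s ^ p ^ n = 1) :
    s ^ N = s := by
  obtain ⟨n, hn⟩ := hp
  obtain ⟨m, hm, hm1⟩ := h.pc s hs
  have h1 : (s * (s ^ N)⁻¹) ^ p ^ n = 1 := by
    have hc : Commute s (s ^ N)⁻¹ := ((Commute.refl s).pow_right N).inv_right
    rw [hc.mul_pow, hn, one_mul, inv_pow, ← pow_mul, mul_comm, pow_mul, hn, one_pow, inv_one]
  have h2 := eq_one_of h1 hm hm1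
  rw [mul_inv_eq_one] at h2
  exact h2.symm

lemma Prj.comm [Fact p.Prime] (h : Prj p N Γ) {s t : G} (hs : s ∈ Γ) (ht : t ∈ Γ)
    (hsp : ∃ n : ℕ, s ^ p ^ n = 1) (htp : t ^ N = 1) : s * t = t * s := by
  have h1 := h.idem hs hsp
  have hs' := Γ.inv_mem hs
  have ht' := Γ.inv_mem ht
  have h2 : (s * t * s⁻¹ * t⁻¹) ^ N = 1 := by
    rw [h.mul _ (Γ.mul_mem (Γ.mul_mem hs ht) hs') _ ht', h.mul _ (Γ.mul_mem hs ht) _ hs',
      h.mul _ hs _ ht, htp, inv_pow, inv_pow, htp, inv_one, mul_one, mul_one, mul_inv_cancel]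
  have h3 : (s * t * s⁻¹ * t⁻¹) ^ N = s * t * s⁻¹ * t⁻¹ := by
    have e : s * t * s⁻¹ * t⁻¹ = s * (t * s⁻¹ * t⁻¹) := by group
    rw [e, h.mul _ hs _ (Γ.mul_mem (Γ.mul_mem ht hs') ht'), conj_pow, inv_pow, h1]
  rw [h3] at h2
  have h4 : s * t = (s * t * s⁻¹ * t⁻¹) * (t * s) := by group
  rw [h4, h2, one_mul]

lemma Prj.one_pow' [Fact p.Prime] (h : Prj p N Γ) {s : G} (hs : s ∈ Γ) :
    (s * (s ^ N)⁻¹) ^ N = 1 := by
  have hsN := Γ.pow_mem hs N
  rw [h.mul _ hs _ (Γ.inv_mem hsN), inv_pow, h.idem hsN (h.pp s hs), mul_inv_cancel]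

lemma Prj.of_surj {G' : Type*} [Group G'] (f : G →* G') (h : Prj p N Γ) {Γ' : Subgroup G'}
    (hf : ∀ s ∈ Γ', ∃ t ∈ Γ, f t = s) : Prj p N Γ' := by
  refine ⟨?_, ?_, ?_⟩
  · intro s hs t ht
    obtain ⟨s', hs', rfl⟩ := hf s hs
    obtain ⟨t', ht', rfl⟩ := hf t ht
    rw [← map_mul, ← map_pow, h.mul s' hs' t' ht', map_mul, map_pow, map_pow]
  · intro s hs
    obtain ⟨s', hs', rfl⟩ := hf s hs
    obtain ⟨n, hn⟩ := h.pp s' hs'
    exact ⟨n, by rw [← map_pow, ← map_pow, hn, map_one]⟩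
  · intro s hs
    obtain ⟨s', hs', rfl⟩ := hf s hs
    obtain ⟨m, hm, hm1⟩ := h.pc s' hs'
    exact ⟨m, hm, by rw [← map_pow, ← map_inv, ← map_mul, ← map_pow, hm1, map_one]⟩

/-- A `p`-group. -/
lemma Prj.of_pgroup (hp : ∀ s ∈ Γ, ∃ n : ℕ, s ^ p ^ n = 1) [hpp : Fact p.Prime] : Prj p 1 Γ :=
  ⟨fun s _ t _ => by simp, fun s hs => by simpa using hp s hs,
    fun s _ => ⟨1, fun h => hpp.out.one_lt.ne' (Nat.dvd_one.1 h), by simp⟩⟩

end prj

section lam

variable {G : Type*} [Group G] {I : Subgroup G} {p : ℕ} {lam : G → ZMod p}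
  (hl : ∀ s ∈ I, ∀ t ∈ I, lam (s * t) = lam s + lam t)

include hl

lemma lam_one : lam 1 = 0 := by
  have h := hl 1 I.one_mem 1 I.one_mem
  rw [one_mul] at h
  simpa using h

lemma lam_pow {s : G} (hs : s ∈ I) (n : ℕ) : lam (s ^ n) = n * lam s := by
  induction n with
  | zero => rw [pow_zero, lam_one hl]; simp
  | succ n ih =>
    rw [pow_succ, hl _ (I.pow_mem hs n) _ hs, ih]
    push_cast
    ring

lemma lam_tame [Fact p.Prime] {s : G} (hs : s ∈ I) {m : ℕ} (hm : ¬ p ∣ m) (h : s ^ m = 1) :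
    lam s = 0 := by
  have h1 := lam_pow hl hs m
  rw [h, lam_one hl] at h1
  rcases mul_eq_zero.1 h1.symm with h2 | h2
  · exact absurd ((ZMod.natCast_eq_zero_iff m p).1 h2) hm
  · exact h2

end lam

section tame

variable {k E : Type u} [Field k] [Field E] [Algebra k E] {p : ℕ} [Fact p.Prime]
  {Γ : Subgroup (E ≃ₐ[k] E)} [Finite Γ] {F : IntermediateField k E} {V : ValuationSubring E}

/-- Tame points. -/
lemma ga_tame (h : ∀ s ∈ dec V Γ, ∃ m : ℕ, ¬ p ∣ m ∧ s ^ m = 1) : GA p Γ F V := by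
  have hp : p.Prime := Fact.out
  refine ⟨⟨fun _ => 0, fun _ _ _ _ => (add_zero 0).symm, fun s hs _ => h s hs⟩, 0,
    fun h0 => absurd V.zero_mem h0, fun lam hl => ⟨0, 0, fun s hs => ?_, ?_⟩⟩
  · obtain ⟨m, hm, hm1⟩ := h s hs
    rw [lam_tame hl hs hm hm1]
    simp
  · rw [zero_pow hp.ne_zero, map_zero]
    simp only [sub_zero, zero_mul]
    exact V.zero_mem

end tame

section weak

variable {k E : Type u} [Field k] [Field E] [Algebra k E] {V : ValuationSubring E}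
  (hk : ∀ c : k, algebraMap k E c ∈ V) {t : E} (ht0 : t ≠ 0) (ht : V.valuation t < 1)
  (hlt : ∀ x : E, x ≠ 0 →
    ∃ (n : ℤ) (c : k) (z : E), c ≠ 0 ∧ z ∈ V ∧ x = t ^ n * (algebraMap k E c + t * z))

lemma fx_bot (x : E) : FX (⊥ : Subgroup (E ≃ₐ[k] E)) x := by
  intro σ hσ
  rw [Subgroup.mem_bot] at hσ
  rw [hσ]
  rfl

include ht0 ht hlt in
lemma lp_bot : LP V (⊥ : Subgroup (E ≃ₐ[k] E)) t⁻¹ := by
  refine ⟨fx_bot _, ?_, ?_⟩
  · rw [map_inv₀]
    exact (one_lt_inv₀ (zero_lt_iff.2 ((Valuation.ne_zero_iff _).2 ht0))).2 ht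
  · intro x _ hx
    obtain ⟨n, c, z, hc, hz, e⟩ := hlt x hx
    refine ⟨-n, c, z, hc, hz, ?_⟩
    rw [inv_inv, inv_zpow, zpow_neg, inv_inv]
    exact e

include hk ht0 ht hlt

lemma res_t {x : E} (hx : x ∈ V) : ∃ (c : k) (z : E), z ∈ V ∧ x = algebraMap k E c + t * z := by
  obtain ⟨c, z, hz, -, e⟩ := (lp_bot ht0 ht hlt).res hk (fx_bot x) hx
  exact ⟨c, z, hz, by rwa [inv_inv] at e⟩

lemma div_t {x : E} (hx : V.valuation x < 1) : ∃ z ∈ V, x = t * z := by
  obtain ⟨c, z, hz, e⟩ := res_t hk ht0 ht hlt (v_lt_mem hx)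
  have hc : c = 0 := by
    by_contra hc
    rw [e, v_add (v_k hk hc) (v_lt_mul ht hz)] at hx
    exact lt_irrefl _ hx
  refine ⟨z, hz, ?_⟩
  rw [e, hc, map_zero, zero_add]

/-- The action on the inverse of a uniformizer. -/
lemma act_u {I : Subgroup (E ≃ₐ[k] E)} (hIV : ∀ σ ∈ I, ∀ x ∈ V, σ x ∈ V) {σ : E ≃ₐ[k] E}
    (hσ : σ ∈ I) : ∃ α : k, α ≠ 0 ∧ σ t⁻¹ - algebraMap k E α * t⁻¹ ∈ V := by
  obtain ⟨y, hy, ey⟩ := div_t hk ht0 ht hlt (v_sigma hIV hσ ht)
  obtain ⟨y', hy', ey'⟩ := div_t hk ht0 ht hlt (v_sigma hIV (I.inv_mem hσ) ht)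
  have h1 : y * σ y' = 1 := by
    have h2 : σ (σ⁻¹ t) = t := σ.apply_symm_apply t
    rw [ey', map_mul, ey] at h2
    have h3 : t * (y * σ y') = t * 1 := by rw [mul_one, ← mul_assoc]; exact h2
    exact mul_left_cancel₀ ht0 h3
  have hvy : V.valuation y = 1 := by
    apply le_antisymm (v_le.2 hy)
    have h2 := congrArg V.valuation h1
    rw [map_mul, map_one] at h2
    calc (1 : V.ValueGroup) = V.valuation y * V.valuation (σ y') := h2.symm
      _ ≤ V.valuation y * 1 := mul_le_mul_right (v_le.2 (hIV σ hσ _ hy')) _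
      _ = _ := mul_one _
  obtain ⟨c, z, hz, ez⟩ := res_t hk ht0 ht hlt hy
  have hc0 : c ≠ 0 := by
    rintro rfl
    rw [ez, map_zero, zero_add] at hvy
    have := v_lt_mul ht hz
    rw [hvy] at this
    exact lt_irrefl _ this
  have hy0 : y ≠ 0 := by
    rintro rfl
    rw [map_zero] at hvy
    exact zero_ne_one hvy
  have hcE : algebraMap k E c ≠ 0 := (_root_.map_ne_zero _).2 hc0
  refine ⟨c⁻¹, inv_ne_zero hc0, ?_⟩
  have h2 : σ t⁻¹ - algebraMap k E c⁻¹ * t⁻¹ = -(z * (algebraMap k E c⁻¹ * y⁻¹)) := by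
    have h3 : z = (y - algebraMap k E c) * t⁻¹ := by
      rw [ez]
      field_simp
      ring
    rw [map_inv₀, ey, map_inv₀, h3, mul_inv]
    field_simp
    ring
  rw [h2]
  exact V.neg_mem _ (V.mul_mem _ _ hz (V.mul_mem _ _ (hk _) (v_inv_mem hvy)))

/-- The third power of the maximal ideal. -/
lemma one_of_lt {I : Subgroup (E ≃ₐ[k] E)} (hIV : ∀ σ ∈ I, ∀ x ∈ V, σ x ∈ V)
    (hW : ∀ σ ∈ I, (∀ x ∈ V, ∃ z ∈ V, σ x - x = t ^ 3 * z) → σ = 1) {σ : E ≃ₐ[k] E}
    (hσ : σ ∈ I) (h : V.valuation (σ t⁻¹ - t⁻¹) < 1) : σ = 1 := by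
  have hlp := lp_bot ht0 ht hlt
  obtain ⟨z2, hz2, e2⟩ := div_t hk ht0 ht hlt h
  set δ := σ t⁻¹ - t⁻¹ with hδ
  have hv : V.valuation (1 + t * δ) = 1 := v_add (map_one _) (v_lt_mul ht (v_lt_mem h))
  have hv0 : 1 + t * δ ≠ 0 := by
    intro h0
    rw [h0, map_zero] at hv
    exact zero_ne_one hv
  have hσt : σ t = t * (1 + t * δ)⁻¹ := by
    have h1 : σ t⁻¹ = t⁻¹ * (1 + t * δ) := by
      rw [mul_add, mul_one, ← mul_assoc, inv_mul_cancel₀ ht0, one_mul, hδ]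
      ring
    rw [map_inv₀] at h1
    rw [← inv_inv (σ t), h1, mul_inv, inv_inv]
  have hai := v_inv_mem hv
  set a := (1 + t * δ)⁻¹ with ha
  have haa : a = 1 - t * δ * a := by
    have h1 : (1 + t * δ) * a = 1 := mul_inv_cancel₀ hv0
    linear_combination h1
  refine hW σ hσ ?_
  intro x hx
  obtain ⟨c0, x1, hx1, e0⟩ := res_t hk ht0 ht hlt hx
  obtain ⟨c1, x2, hx2, e1⟩ := res_t hk ht0 ht hlt hx1
  obtain ⟨y, hy, ey⟩ := div_t hk ht0 ht hlt (hlp.triv hk hIV hσ (fx_bot x2) hx2)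
  refine ⟨-(algebraMap k E c1 * z2 * a) - t * z2 * a * (a + 1) * σ x2 + y, ?_, ?_⟩
  · refine V.add_mem _ _ (V.sub_mem (V.neg_mem _ (V.mul_mem _ _ (V.mul_mem _ _ (hk _) hz2) hai)) ?_) hy
    exact V.mul_mem _ _ (V.mul_mem _ _ (V.mul_mem _ _ (V.mul_mem _ _ (v_lt_mem ht) hz2) hai)
      (V.add_mem _ _ hai V.one_mem)) (hIV σ hσ _ hx2)
  · have h3 : σ x = algebraMap k E c0 + σ t * (algebraMap k E c1 + σ t * σ x2) := by
      rw [e0, e1]
      simp only [map_add, map_mul, AlgEquiv.commutes]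
    have h4 : x2 = σ x2 - t * y := by rw [← ey]; ring
    have h5 : σ t - t = -(t ^ 3 * z2 * a) := by
      rw [hσt]
      have h6 : t * a - t = -(t * (t * δ * a)) := by
        conv_lhs => rw [haa]
        ring
      rw [h6, e2]
      ring
    have h6 : σ x - x = algebraMap k E c1 * (σ t - t) + (σ t - t) * (σ t + t) * σ x2 +
        t ^ 3 * y := by
      rw [h3, e0, e1]
      linear_combination (-(t ^ 2)) * h4
    rw [h6, h5, hσt]
    ring

/-- A tame automorphism which commutes with a wild one. -/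
lemma tame_triv {p : ℕ} [Fact p.Prime] [CharP k p] {I : Subgroup (E ≃ₐ[k] E)}
    (hIV : ∀ σ ∈ I, ∀ x ∈ V, σ x ∈ V)
    (hW : ∀ σ ∈ I, (∀ x ∈ V, ∃ z ∈ V, σ x - x = t ^ 3 * z) → σ = 1) {π γ : E ≃ₐ[k] E}
    (hπ : π ∈ I) (hγ : γ ∈ I) (hπp : ∃ n : ℕ, π ^ p ^ n = 1) (hπ1 : π ≠ 1) {m : ℕ}
    (hm : ¬ p ∣ m) (hγm : γ ^ m = 1) (hc : π * γ = γ * π) : γ = 1 := by
  have hlp := lp_bot ht0 ht hlt
  have hle : Subgroup.zpowers π ≤ I := by
    rw [Subgroup.zpowers_le]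
    exact hπ
  have hwr : WR V (Subgroup.zpowers π) ⊥ t⁻¹ := WR.of_weak p hk ht0 ht hlt
    (fun σ hσ => hIV σ (hle hσ)) (by
      rintro σ ⟨j, rfl⟩
      obtain ⟨n, hn⟩ := hπp
      refine ⟨n, ?_⟩
      change (π ^ j) ^ p ^ n = 1
      rw [← zpow_natCast, ← zpow_mul, mul_comm, zpow_mul, zpow_natCast, hn, one_zpow])
    (fun σ hσ => hW σ (hle hσ))
  have hcV := hwr.ε π (Subgroup.mem_zpowers π)
  have hc1 : V.valuation (π t⁻¹ - t⁻¹) = 1 := v_one_of hcV fun h =>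
    hπ1 (Subgroup.mem_bot.1 (hwr.mem π (Subgroup.mem_zpowers π) h))
  have htriv : ∀ σ ∈ I, ∀ x ∈ V, V.valuation (σ x - x) < 1 := fun σ hσ x hx =>
    hlp.triv hk hIV hσ (fx_bot x) hx
  obtain ⟨α, hα0, he⟩ := act_u hk ht0 ht hlt hIV hγ
  set u := t⁻¹ with hu
  set c := π u - u with hcd
  set e := γ u - algebraMap k E α * u with hed
  have h1 : π (γ u) = γ (π u) := by
    change (π * γ) u = (γ * π) u
    rw [hc]
  have h2 : γ u = algebraMap k E α * u + e := by rw [hed]; ring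
  have h3 : π u = u + c := by rw [hcd]; ring
  have h4 : algebraMap k E (1 - α) * c = (π e - e) - (γ c - c) := by
    rw [h2, h3, map_add, map_mul, AlgEquiv.commutes, map_add, h3, h2] at h1
    rw [map_sub, map_one]
    linear_combination (-1) * h1
  have hα : α = 1 := by
    by_contra hne
    have h5 : V.valuation (algebraMap k E (1 - α) * c) = 1 := by
      rw [map_mul, hc1, v_k hk (sub_ne_zero.2 (Ne.symm hne)), mul_one]
    rw [h4] at h5
    have h6 := v_sub_lt (htriv π hπ e he) (htriv γ hγ c hcV)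
    rw [h5] at h6
    exact lt_irrefl _ h6
  subst hα
  rw [map_one, one_mul] at h2
  have h5 : ∀ j : ℕ, V.valuation ((γ ^ j) u - u - j * e) < 1 := by
    intro j
    induction j with
    | zero =>
      rw [pow_zero, Nat.cast_zero, zero_mul, sub_zero]
      change V.valuation (u - u) < 1
      rw [sub_self, map_zero]
      exact zero_lt_one
    | succ j ih =>
      have h6 : (γ ^ (j + 1)) u - u - ((j + 1 : ℕ) : E) * e =
          ((γ ^ j) e - e) + ((γ ^ j) u - u - j * e) := by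
        rw [pow_succ]
        change (γ ^ j) (γ u) - u - _ = _
        rw [h2, map_add]
        push_cast
        ring
      rw [h6]
      exact Valuation.map_add_lt _ (htriv _ (I.pow_mem hγ j) e he) ih
  have h6 := h5 m
  rw [hγm] at h6
  have h7 : (1 : E ≃ₐ[k] E) u - u - m * e = -(m * e) := by
    change u - u - m * e = _
    ring
  have hmk : (m : k) ≠ 0 := fun h0 => hm ((CharP.cast_eq_zero_iff k p m).1 h0)
  have h8 : (m : E) = algebraMap k E (m : k) := (map_natCast _ _).symm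
  rw [h7, Valuation.map_neg, map_mul, h8, v_k hk hmk, one_mul] at h6
  refine one_of_lt hk ht0 ht hlt hIV hW hγ ?_
  have h9 : γ u - u = e := by rw [h2]; ring
  rw [← hu, h9]
  exact h6

end weak

section main

variable {k E : Type u} [Field k] [IsAlgClosed k] [Field E] [Algebra k E]
  {Γ : Subgroup (E ≃ₐ[k] E)} [Finite Γ] {F : IntermediateField k E}
  (hF : ∀ x, x ∈ F ↔ FX Γ x) {p : ℕ} [Fact p.Prime] [CharP k p]

include hF in
/-- A chart of the curve of invariants at a point. -/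
theorem exists_chart (p : ℕ) [Fact p.Prime] [CharP k p] [Algebra.EssFiniteType k E]
    (htr : Algebra.trdeg k E = 1)
    {V : ValuationSubring E} (hk : ∀ c : k, algebraMap k E c ∈ V) :
    ∃ A : Subalgebra k F, IsDedekindDomain A ∧ IsFractionRing A F ∧ Algebra.FiniteType k A ∧
      ∀ a ∈ A, (a : E) ∈ V := by
  have hp : p.Prime := Fact.out
  obtain ⟨hsep, hfin⟩ := sep_fix hF
  have halg : Algebra.IsAlgebraic F E := Algebra.IsSeparable.isAlgebraic _ _
  have hess := essFiniteType_sub F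
  obtain ⟨u, huF, huE, hu⟩ := exists_uF hF hp (CharP.cast_eq_zero k p) htr
  obtain ⟨T, hT, M, hFrc, hDed, hCq, hS⟩ := exists_curveM huF ∅
  obtain ⟨t, ht⟩ := M.cv (V.comap (algebraMap F E)) (by
    intro a ha
    obtain ⟨c, rfl⟩ := Algebra.mem_bot.1 ha
    rw [ValuationSubring.mem_comap, ← IsScalarTower.algebraMap_apply]
    exact hk c)
  have := M.sm t
  exact ⟨M.A t, hDed t, isFrac_of (hFrc t), inferInstance, fun a ha => ht a ha⟩

variable {A : Subalgebra k F} [IsDedekindDomain A] [IsFractionRing A F] [Algebra.FiniteType k A]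
  {V : ValuationSubring E} (hVA : ∀ a ∈ A, (a : E) ∈ V) (hVt : V ≠ ⊤) {N : ℕ} (hN : Prj p N Γ)

include hF hVA hVt hN

/-- Points with a group of order `p`. -/
theorem ga_one (hA : ∃ s0 ∈ dec V Γ, s0 ^ p = 1 ∧ ∀ s ∈ dec V Γ, ∃ j : ℕ, s ^ N = s0 ^ j) :
    GA p Γ F V := by
  classical
  have hp : p.Prime := Fact.out
  have hcE : CharP E p := charP_of_injective_algebraMap (algebraMap k E).injective p
  have hle : dec V Γ ≤ Γ := fun s hs => hs.1
  have hND := hN.mono hle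
  obtain ⟨s0, hs0, hs0p, hgen⟩ := hA
  by_cases h1 : s0 = 1
  · refine ga_tame fun s hs => ?_
    obtain ⟨j, hj⟩ := hgen s hs
    obtain ⟨m, hm, hm1⟩ := hND.pc s hs
    rw [hj, h1, one_pow, inv_one, mul_one] at hm1
    exact ⟨m, hm, hm1⟩
  have hord : orderOf s0 = p := orderOf_eq_prime hs0p h1
  have hjj : ∀ a b : ℕ, s0 ^ a = s0 ^ b → (a : ZMod p) = (b : ZMod p) := by
    intro a b h
    rw [pow_eq_pow_iff_modEq, hord] at h
    exact (ZMod.natCast_eq_natCast_iff a b p).2 h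
  have hj : ∀ s : E ≃ₐ[k] E, ∃ j : ℕ, s ∈ dec V Γ → s ^ N = s0 ^ j := by
    intro s
    by_cases hs : s ∈ dec V Γ
    · obtain ⟨j, hj⟩ := hgen s hs
      exact ⟨j, fun _ => hj⟩
    · exact ⟨0, fun h => absurd h hs⟩
  choose j hj using hj
  let lam1 : (E ≃ₐ[k] E) → ZMod p := fun s => (j s : ZMod p)
  have hl1 : ∀ s ∈ dec V Γ, ∀ t ∈ dec V Γ, lam1 (s * t) = lam1 s + lam1 t := by
    intro s hs t ht
    have h2 : s0 ^ (j (s * t)) = s0 ^ (j s + j t) := by
      rw [pow_add, ← hj s hs, ← hj t ht, ← hj _ ((dec V Γ).mul_mem hs ht), hND.mul s hs t ht]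
    change ((j (s * t) : ℕ) : ZMod p) = (j s : ZMod p) + (j t : ZMod p)
    rw [hjj _ _ h2, Nat.cast_add]
  have hfin : Finite (dec V Γ) := Finite.of_injective (Subgroup.inclusion hle)
    (Subgroup.inclusion_injective hle)
  obtain ⟨w1, hw1⟩ := h90 p (dec V Γ) lam1 hl1
  let f := w1 ^ p - w1
  have hf : FX (dec V Γ) f := by
    intro s hs
    change s (w1 ^ p - w1) = w1 ^ p - w1
    rw [map_sub, map_pow, hw1 s hs, add_pow_char, ← map_pow, ZMod.pow_card]
    ring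
  obtain ⟨b1, hb1⟩ := dens hF hVA hVt f hf
  obtain ⟨a, ha⟩ := as_normal hVA hVt p b1
  let b : F := b1 - (a ^ p - a)
  have hbE : (b : E) = (b1 : E) - ((a : E) ^ p - (a : E)) := rfl
  let w : E := w1 - (a : E)
  have haF : ∀ s ∈ dec V Γ, s (a : E) = (a : E) := fun s hs => (hF _).1 a.2 s hs.1
  have hw : ∀ s ∈ dec V Γ, s w = w + zc p E (lam1 s) := by
    intro s hs
    change s (w1 - (a : E)) = _
    rw [map_sub, haF s hs, hw1 s hs]
    ring
  have hwb : w ^ p - w - (b : E) ∈ V := by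
    have h2 : w ^ p - w - (b : E) = -((b1 : E) - f) := by
      rw [hbE]
      change (w1 - (a : E)) ^ p - (w1 - (a : E)) - _ = -((b1 : E) - (w1 ^ p - w1))
      rw [sub_pow_char]
      ring
    rw [h2]
    exact V.neg_mem _ hb1
  refine ⟨⟨fun s => zc p k (lam1 s), fun s hs t ht => by
      change zc p k (lam1 (s * t)) = _
      rw [hl1 s hs t ht, map_add],
    fun s hs h0 => ?_⟩, b, fun hbV => ha.resolve_left hbV, ?_⟩
  · have h2 : lam1 s = 0 := (zc p k).injective (by rw [map_zero]; exact h0)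
    have h3 : p ∣ j s := (ZMod.natCast_eq_zero_iff _ _).1 h2
    obtain ⟨m, hm, hm1⟩ := hND.pc s hs
    refine ⟨m, hm, ?_⟩
    obtain ⟨q, hq⟩ := h3
    rw [hj s hs, hq, pow_mul, hs0p, one_pow, inv_one, mul_one] at hm1
    exact hm1
  · intro lam hl
    have hlam : ∀ s ∈ dec V Γ, lam s = lam s0 * lam1 s := by
      intro s hs
      obtain ⟨m, hm, hm1⟩ := hND.pc s hs
      have hsN := (dec V Γ).pow_mem hs N
      have h2 := lam_tame hl ((dec V Γ).mul_mem hs ((dec V Γ).inv_mem hsN)) hm hm1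
      have h3 : lam s = lam (s * (s ^ N)⁻¹) + lam (s ^ N) := by
        rw [← hl _ ((dec V Γ).mul_mem hs ((dec V Γ).inv_mem hsN)) _ hsN, inv_mul_cancel_right]
      rw [h3, h2, zero_add, hj s hs, lam_pow hl hs0]
      exact mul_comm _ _
    refine ⟨zc p E (lam s0) * w, zc p k (lam s0), fun s hs => ?_, ?_⟩
    · rw [map_mul, zc_fix, hw s hs, mul_add, ← map_mul, ← hlam s hs, zc_val p (lam s)]
    · have h2 : (zc p E (lam s0) * w) ^ p - zc p E (lam s0) * w -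
          algebraMap k E (zc p k (lam s0)) * (b : E) =
          zc p E (lam s0) * (w ^ p - w - (b : E)) := by
        rw [mul_pow, ← map_pow, ZMod.pow_card, zc_alg]
        ring
      rw [h2]
      refine V.mul_mem _ _ ?_ hwb
      rw [← zc_alg (k := k)]
      rw [IsScalarTower.algebraMap_apply k F E]
      exact hVA _ (A.algebraMap_mem _)

/-- Weakly ramified points. -/
theorem ga_weak (hW : ∀ s ∈ dec V Γ, (∀ (x : V) (h : s x - x ∈ V),
      (⟨s x - x, h⟩ : V) ∈ IsLocalRing.maximalIdeal V ^ 3) → s = 1) : GA p Γ F V := by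
  classical
  have hp : p.Prime := Fact.out
  have hcE : CharP E p := charP_of_injective_algebraMap (algebraMap k E).injective p
  obtain ⟨hsep, hfin⟩ := sep_fix hF
  have halg : Algebra.IsAlgebraic F E := Algebra.IsSeparable.isAlgebraic _ _
  have d1 : IsDedekindDomain (DD (E := E) A) := DD_dedekind.1
  have d2 : IsFractionRing (DD (E := E) A) E := DD_dedekind.2
  have d3 : Algebra.FiniteType k (DD (E := E) A) := DD_finiteType
  have hV : ∀ x ∈ DD (E := E) A, x ∈ V := fun z hz => int_mem hVA hz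
  have hσF : ∀ σ ∈ Γ, ∀ x ∈ F, σ x = x := fun σ hσ x hx => (hF x).1 hx σ hσ
  have hσD : ∀ σ ∈ Γ, ∀ x ∈ DD (E := E) A, σ x ∈ DD (E := E) A := fun σ hσ x hx =>
    DD_sigma σ (hσF σ hσ) x hx
  have hres := res_of (k := k) hV hVt
  have hk : ∀ c : k, algebraMap k E c ∈ V := fun c => hV _ ((DD (E := E) A).algebraMap_mem c)
  obtain ⟨t, ht0, ht, hlt⟩ := exists_unif hV hVt hres
  have hle : dec V Γ ≤ Γ := fun s hs => hs.1
  have hND := hN.mono hle
  have hfinI : Finite (dec V Γ) := Finite.of_injective (Subgroup.inclusion hle)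
    (Subgroup.inclusion_injective hle)
  have hIV : ∀ s ∈ dec V Γ, ∀ x ∈ V, s x ∈ V := fun s hs => hs.2
  have hW' : ∀ s ∈ dec V Γ, (∀ x ∈ V, ∃ z ∈ V, s x - x = t ^ 3 * z) → s = 1 := by
    intro s hs h
    refine hW s hs ?_
    intro x hx
    obtain ⟨z, hz, e⟩ := h x x.2
    have h2 : (⟨s x - x, hx⟩ : V) = (⟨t, v_lt_mem ht⟩ : V) ^ 3 * ⟨z, hz⟩ := Subtype.ext e
    rw [h2]
    refine Ideal.mul_mem_right _ _ (Ideal.pow_mem_pow ?_ 3)
    rw [ValuationSubring.valuation_lt_one_iff]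
    exact ht
  by_cases hex : ∃ s ∈ dec V Γ, s ^ N ≠ 1
  swap
  · push Not at hex
    refine ga_tame fun s hs => ?_
    obtain ⟨m, hm, hm1⟩ := hND.pc s hs
    rw [hex s hs, inv_one, mul_one] at hm1
    exact ⟨m, hm, hm1⟩
  obtain ⟨s1, hs1, hs1N⟩ := hex
  have hpI : ∀ s ∈ dec V Γ, ∃ n : ℕ, s ^ p ^ n = 1 := by
    intro s hs
    have hsN := (dec V Γ).pow_mem hs N
    have hπ := (dec V Γ).pow_mem hs1 N
    obtain ⟨m, hm, hm1⟩ := hND.pc s hs
    have hγ := (dec V Γ).mul_mem hs ((dec V Γ).inv_mem hsN)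
    have h2 := tame_triv hk ht0 ht hlt hIV hW' hπ hγ (hND.pp s1 hs1) hs1N hm hm1
      (hND.comm hπ hγ (hND.pp s1 hs1) (hND.one_pow' hs))
    rw [mul_inv_eq_one] at h2
    obtain ⟨n, hn⟩ := hND.pp s hs
    rw [← h2] at hn
    exact ⟨n, hn⟩
  have hwr : WR V (dec V Γ) ⊥ t⁻¹ := WR.of_weak p hk ht0 ht hlt hIV hpI hW'
  -- the uniformizer of the invariants
  let W : ValuationSubring F := V.comap (algebraMap F E)
  have hWA : ∀ a ∈ A, a ∈ W := fun a ha => hVA a ha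
  have hWt : W ≠ ⊤ := by
    intro h
    apply hVt
    rw [eq_top_iff]
    intro z _
    have h2 : IsIntegral F z := (Algebra.IsIntegral.isIntegral z : IsIntegral F z)
    obtain ⟨P, hP, hP0⟩ := h2
    let j : F →+* V :=
      { toFun := fun a => ⟨(a : E), by
          have h3 : a ∈ W := by rw [h]; exact ValuationSubring.mem_top _
          exact h3⟩
        map_one' := rfl
        map_mul' := fun a b => rfl
        map_zero' := rfl
        map_add' := fun a b => rfl }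
    have h1 : IsIntegral V z := by
      refine ⟨P.map j, hP.map j, ?_⟩
      rw [eval₂_map]
      exact hP0
    obtain ⟨y, hy⟩ := IsIntegrallyClosed.isIntegral_iff.1 h1
    rw [← hy]
    exact y.2
  obtain ⟨x, hx0, hx, hxlt⟩ := exists_unif hWA hWt (res_of hWA hWt)
  have hxV : V.valuation (x : E) < 1 := v_comap_lt.1 hx
  have hx0E : (x : E) ≠ 0 := fun h => hx0 ((algebraMap F E).injective (by rw [map_zero]; exact h))
  have hxv0 : V.valuation (x : E) ≠ 0 := by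
    rw [Valuation.ne_zero_iff]
    exact hx0E
  have hxp : 0 < V.valuation (x : E) := zero_lt_iff.2 hxv0
  have hexp : ∀ y : F, y ≠ 0 → ∃ (n : ℤ) (c : k) (z : F), c ≠ 0 ∧ (z : E) ∈ V ∧
      (y : E) = (x : E) ^ n * (algebraMap k E c + (x : E) * (z : E)) ∧
      V.valuation (y : E) = V.valuation (x : E) ^ n := by
    intro y hy
    obtain ⟨n, c, z, hc, hz, e⟩ := hxlt y hy
    have h1 : (y : E) = (x : E) ^ n * (algebraMap k E c + (x : E) * (z : E)) := by
      have h2 := congrArg (algebraMap F E) e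
      rw [map_mul, map_zpow₀, map_add, map_mul, ← IsScalarTower.algebraMap_apply] at h2
      exact h2
    have hz' : (z : E) ∈ V := hz
    refine ⟨n, c, z, hc, hz, h1, ?_⟩
    rw [h1, map_mul, map_zpow₀, v_add (v_k hk hc) (v_lt_mul hxV hz'), mul_one]
  have hlt' : ∀ m n : ℤ, V.valuation (x : E) ^ m ≤ V.valuation (x : E) ^ n → n ≤ m := by
    intro m n h
    by_contra hcon
    have h1 := zpow_lt_zpow_right_of_lt_one₀ hxp hxV (not_le.1 hcon)
    exact absurd h (not_le.2 h1)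
  have hbV : (x : E)⁻¹ ∉ V := fun h => v_inv_lt hxV h hx0E
  have hb : ∀ y, FX Γ y → V.valuation y < 1 → y * (x : E)⁻¹ ∈ V := by
    intro y hy hy1
    by_cases hy0 : y = 0
    · rw [hy0, zero_mul]; exact V.zero_mem
    have hyF : y ∈ F := (hF y).2 hy
    obtain ⟨n, c, z, hc, hz, e, hn⟩ := hexp ⟨y, hyF⟩ (fun h => hy0 (congrArg Subtype.val h))
    have hn' : V.valuation y = V.valuation (x : E) ^ n := hn
    have hn1 : 1 ≤ n := by
      by_contra hcon
      rw [hn'] at hy1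
      exact absurd hy1 (not_lt.2 (one_le_zpow_of_nonpos₀ hxp hxV.le (by omega)))
    rw [← v_le, map_mul, map_inv₀, hn', ← zpow_sub_one₀ hxv0]
    obtain ⟨q, hq⟩ := Int.eq_ofNat_of_zero_le (by omega : 0 ≤ n - 1)
    rw [hq, zpow_natCast]
    exact pow_le_one₀ zero_le hxV.le
  have hxF : FX Γ (x : E)⁻¹ := FX.inv ((hF _).1 x.2)
  have hxI : (((x⁻¹ : F)) : E) = (x : E)⁻¹ := rfl
  refine ⟨?_, x⁻¹, fun _ a h => ?_, fun lam hl => ?_⟩
  · obtain ⟨θ, h1, h2⟩ := hwr.theta hk hIV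
    exact ⟨θ, h1, fun s hs h0 => ⟨1, fun h => hp.one_lt.ne' (Nat.dvd_one.1 h), by
      rw [h2 s hs h0, one_pow]⟩⟩
  · rw [hxI, map_inv₀] at h
    have ha0 : a ≠ 0 := by
      rintro rfl
      have h4 : (((0 : F)) : E) = 0 := rfl
      rw [h4, map_zero, zero_pow hp.ne_zero] at h
      exact inv_ne_zero hxv0 h.symm
    obtain ⟨n, -, -, -, -, -, hn⟩ := hexp a ha0
    rw [hn, ← zpow_natCast, ← zpow_mul, ← zpow_neg_one] at h
    have h1 := hlt' _ _ h.le
    have h2 := hlt' _ _ h.ge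
    have h3 : n * p = -1 := le_antisymm h2 h1
    have h4 : (p : ℤ) ∣ 1 := ⟨-n, by linear_combination h3⟩
    have h5 : p ∣ 1 := by exact_mod_cast h4
    exact hp.one_lt.ne' (Nat.dvd_one.1 h5)
  · obtain ⟨w, hw1, hw2⟩ := hwr.gen p hk hIV lam hl
    obtain ⟨c, hc⟩ := hw2 (x : E)⁻¹ (fun s hs => hxF s hs.1) hbV
      (unif_dec hV hVt hres hσD hbV hb)
    exact ⟨w, c, fun s hs => by rw [hw1 s hs, zc_val], hc⟩

end main

end Pool.Agent.Zk10.Cur
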