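import Pool.Agent.Zk62.Tw.N2
import Pool.Agent.Zk62.Tw.U7

/-!
The second ramification group of a point with a group of order `p`: the norm of the inverse of a
uniformizer is a `p`-th power up to regular functions.
-/

set_option autoImplicit false
set_option linter.unusedVariables false
set_option linter.unusedSectionVars false

universe u

open Polynomial

namespace Pool.Agent.Zk10.Ord

open Pool.Agent.W558 Pool.Agent.H920R2 Pool.Agent.Zk10.Ram Pool.Agent.Zk10.Cur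

section g3

variable {k E : Type u} [Field k] [Field E] [Algebra k E] {V : ValuationSubring E}

/-- The second ramification group. -/
def G3 (V : ValuationSubring E) (t : E) (g : E ≃ₐ[k] E) : Prop :=
  (∀ x ∈ V, g x ∈ V) ∧ ∀ x ∈ V, ∃ z ∈ V, g x - x = t ^ 3 * z

lemma G3.one {t : E} : G3 (k := k) V t 1 :=
  ⟨fun x hx => hx, fun x hx => ⟨0, V.zero_mem, by
    change x - x = _
    rw [sub_self, mul_zero]⟩⟩

lemma G3.mul {t : E} {g h : E ≃ₐ[k] E} (hg : G3 V t g) (hh : G3 V t h) : G3 V t (g * h) := by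
  refine ⟨fun x hx => hg.1 _ (hh.1 x hx), fun x hx => ?_⟩
  obtain ⟨z1, hz1, e1⟩ := hh.2 x hx
  obtain ⟨z2, hz2, e2⟩ := hg.2 _ (hh.1 x hx)
  refine ⟨z2 + z1, V.add_mem _ _ hz2 hz1, ?_⟩
  change g (h x) - x = _
  rw [mul_add, ← e1, ← e2]
  ring

lemma G3.pow {t : E} {g : E ≃ₐ[k] E} (hg : G3 V t g) (n : ℕ) : G3 V t (g ^ n) := by
  induction n with
  | zero => rw [pow_zero]; exact G3.one
  | succ n ih => rw [pow_succ]; exact ih.mul hg

variable (hk : ∀ c : k, algebraMap k E c ∈ V) {t : E} (ht0 : t ≠ 0) (ht : V.valuation t < 1)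
  (hlt : ∀ x : E, x ≠ 0 →
    ∃ (n : ℤ) (c : k) (z : E), c ≠ 0 ∧ z ∈ V ∧ x = t ^ n * (algebraMap k E c + t * z))

include ht in
lemma v_one_t2 {z : E} (hz : z ∈ V) : V.valuation (1 + t ^ 2 * z) = 1 := by
  refine v_add (map_one _) ?_
  rw [sq, mul_assoc]
  exact v_lt_mul ht (V.mul_mem _ _ (v_lt_mem ht) hz)

include hk ht hlt in
lemma val_eq {x : E} (hx : x ≠ 0) : ∃ n : ℤ, V.valuation x = V.valuation t ^ n := by
  obtain ⟨n, c, z, hc, hz, e⟩ := hlt x hx
  refine ⟨n, ?_⟩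
  rw [e, map_mul, map_zpow₀, v_add (v_k hk hc) (v_lt_mul ht hz), mul_one]

include ht0 ht in
lemma val_inj {n m : ℤ} : V.valuation t ^ n ≤ V.valuation t ^ m ↔ m ≤ n := by
  have h0 : 0 < V.valuation t := zero_lt_iff.2 ((Valuation.ne_zero_iff _).2 ht0)
  exact zpow_le_zpow_iff_right_of_lt_one₀ h0 ht

include ht0 ht in
lemma val_inj' {n m : ℤ} (h : V.valuation t ^ n = V.valuation t ^ m) : n = m :=
  le_antisymm ((val_inj ht0 ht).1 h.ge) ((val_inj ht0 ht).1 h.le)

include hk ht0 ht hlt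

/-- The action on all elements. -/
lemma G3.act {g : E ≃ₐ[k] E} (hg : G3 V t g) (y : E) : ∃ z ∈ V, g y = y * (1 + t ^ 2 * z) := by
  have hmul : ∀ a b : E, (∃ z ∈ V, g a = a * (1 + t ^ 2 * z)) →
      (∃ z ∈ V, g b = b * (1 + t ^ 2 * z)) → ∃ z ∈ V, g (a * b) = a * b * (1 + t ^ 2 * z) := by
    rintro a b ⟨z1, hz1, e1⟩ ⟨z2, hz2, e2⟩
    refine ⟨z1 + z2 + t ^ 2 * z1 * z2, ?_, ?_⟩
    · exact V.add_mem _ _ (V.add_mem _ _ hz1 hz2) (V.mul_mem _ _ (V.mul_mem _ _
        (pow_mem (v_lt_mem ht) 2) hz1) hz2)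
    · rw [map_mul, e1, e2]
      ring
  have hinv : ∀ a : E, a ≠ 0 → (∃ z ∈ V, g a = a * (1 + t ^ 2 * z)) →
      ∃ z ∈ V, g a⁻¹ = a⁻¹ * (1 + t ^ 2 * z) := by
    rintro a ha ⟨z, hz, e⟩
    have h1 := v_one_t2 ht hz
    have h2 : (1 + t ^ 2 * z) ≠ 0 := by
      intro h
      rw [h, map_zero] at h1
      exact zero_ne_one h1
    refine ⟨-(z * (1 + t ^ 2 * z)⁻¹), V.neg_mem _ (V.mul_mem _ _ hz (v_inv_mem h1)), ?_⟩
    rw [map_inv₀, e, mul_inv]
    congr 1
    field_simp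
    ring
  have ht1 : ∃ z ∈ V, g t = t * (1 + t ^ 2 * z) := by
    obtain ⟨z, hz, e⟩ := hg.2 t (v_lt_mem ht)
    exact ⟨z, hz, by linear_combination e⟩
  have hpow : ∀ n : ℕ, ∃ z ∈ V, g (t ^ n) = t ^ n * (1 + t ^ 2 * z) := by
    intro n
    induction n with
    | zero => exact ⟨0, V.zero_mem, by rw [pow_zero, map_one]; ring⟩
    | succ n ih => rw [pow_succ]; exact hmul _ _ ih ht1
  have hzpow : ∀ n : ℤ, ∃ z ∈ V, g (t ^ n) = t ^ n * (1 + t ^ 2 * z) := by
    intro n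
    rcases Int.eq_nat_or_neg n with ⟨m, rfl | rfl⟩
    · rw [zpow_natCast]
      exact hpow m
    · rw [zpow_neg, zpow_natCast]
      exact hinv _ (pow_ne_zero _ ht0) (hpow m)
  by_cases hy : y = 0
  · rw [hy]
    exact ⟨0, V.zero_mem, by rw [map_zero, zero_mul]⟩
  obtain ⟨n, c, z, hc, hz, e⟩ := hlt y hy
  rw [e]
  refine hmul _ _ (hzpow n) ?_
  have hw : V.valuation (algebraMap k E c + t * z) = 1 := v_add (v_k hk hc) (v_lt_mul ht hz)
  set w := algebraMap k E c + t * z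
  have hw0 : w ≠ 0 := by
    intro h
    rw [h, map_zero] at hw
    exact zero_ne_one hw
  obtain ⟨z', hz', e'⟩ := hg.2 w (v_le.1 hw.le)
  refine ⟨t * z' * w⁻¹, V.mul_mem _ _ (V.mul_mem _ _ (v_lt_mem ht) hz') (v_inv_mem hw), ?_⟩
  have h1 : w * (1 + t ^ 2 * (t * z' * w⁻¹)) = w + t ^ 3 * z' * (w * w⁻¹) := by ring
  rw [h1, mul_inv_cancel₀ hw0, mul_one, ← e']
  ring

lemma G3.val {g : E ≃ₐ[k] E} (hg : G3 V t g) (y : E) : V.valuation (g y) = V.valuation y := by
  obtain ⟨z, hz, e⟩ := hg.act hk ht0 ht hlt y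
  rw [e, map_mul, v_one_t2 ht hz, mul_one]

/-- Elements of order prime to `p`. -/
lemma G3.tame (p : ℕ) [Fact p.Prime] [CharP k p] {g : E ≃ₐ[k] E} (hg : G3 V t g) {m : ℕ}
    (hm : ¬ p ∣ m) (hgm : g ^ m = 1) : g = 1 := by
  apply AlgEquiv.ext
  intro y
  change g y = y
  by_contra hne
  set w := g y - y with hw
  have hw0 : w ≠ 0 := sub_ne_zero.2 hne
  have key : ∀ i : ℕ, ∃ z ∈ V, (g ^ i) y - y = i * w + t * w * z := by
    intro i
    induction i with
    | zero =>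
      refine ⟨0, V.zero_mem, ?_⟩
      rw [pow_zero]
      change y - y = _
      rw [Nat.cast_zero]
      ring
    | succ i ih =>
      obtain ⟨z1, hz1, e1⟩ := ih
      obtain ⟨z2, hz2, e2⟩ := (hg.pow i).act hk ht0 ht hlt w
      refine ⟨z1 + t * z2, V.add_mem _ _ hz1 (V.mul_mem _ _ (v_lt_mem ht) hz2), ?_⟩
      have h1 : (g ^ (i + 1)) y - y = ((g ^ i) y - y) + (g ^ i) w := by
        rw [pow_succ]
        change (g ^ i) (g y) - y = _
        rw [hw, map_sub]
        ring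
      rw [h1, e1, e2]
      push_cast
      ring
  obtain ⟨z, hz, e⟩ := key m
  rw [hgm] at e
  change y - y = _ at e
  rw [sub_self] at e
  have h1 : (m : E) + t * z = 0 := by
    have h2 : w * ((m : E) + t * z) = 0 := by linear_combination -e
    exact (mul_eq_zero.1 h2).resolve_left hw0
  have hmk : (m : k) ≠ 0 := fun h0 => hm ((CharP.cast_eq_zero_iff k p m).1 h0)
  have h8 : (m : E) = algebraMap k E (m : k) := (map_natCast _ _).symm
  have h9 : V.valuation ((m : E) + t * z) = 1 := by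
    rw [h8]
    exact v_add (v_k hk hmk) (v_lt_mul ht hz)
  rw [h1, map_zero] at h9
  exact zero_ne_one h9

end g3

section grp

variable {k E : Type u} [Field k] [Field E] [Algebra k E] {V : ValuationSubring E}
  (hk : ∀ c : k, algebraMap k E c ∈ V) {t : E} (ht0 : t ≠ 0) (ht : V.valuation t < 1)
  (hlt : ∀ x : E, x ≠ 0 →
    ∃ (n : ℤ) (c : k) (z : E), c ≠ 0 ∧ z ∈ V ∧ x = t ^ n * (algebraMap k E c + t * z))
  {Γ : Subgroup (E ≃ₐ[k] E)} [Fintype Γ] (hΓ : ∀ g ∈ Γ, G3 V t g) (p : ℕ) [Fact p.Prime]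
  (hcard : Fintype.card Γ = p)

include hk ht0 ht hlt hΓ hcard

/-- The values of the invariants. -/
lemma dvd_val {z : E} (hz0 : z ≠ 0) (hz : ∀ g ∈ Γ, g z = z) {n : ℤ}
    (hn : V.valuation z = V.valuation t ^ n) : (p : ℤ) ∣ n := by
  classical
  have hp : p.Prime := Fact.out
  by_contra hpn
  have hco : IsCoprime n (p : ℤ) := by
    rw [isCoprime_comm]
    exact (Nat.prime_iff_prime_int.1 hp).coprime_iff_not_dvd.2 hpn
  obtain ⟨a, b, hab⟩ := hco
  let N : E := ∏ g : Γ, g.1 t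
  have hN : ∀ g ∈ Γ, g N = N := by
    intro g hg
    change g (∏ h : Γ, h.1 t) = _
    rw [map_prod]
    exact Fintype.prod_equiv (Equiv.mulLeft (⟨g, hg⟩ : Γ)) _ _ fun g => rfl
  have hNv : V.valuation N = V.valuation t ^ (p : ℤ) := by
    change V.valuation (∏ h : Γ, h.1 t) = _
    rw [map_prod, Finset.prod_congr rfl fun h _ => (hΓ h.1 h.2).val hk ht0 ht hlt t,
      Finset.prod_const, Finset.card_univ, hcard, zpow_natCast]
  let s : E := z ^ a * N ^ b
  have hs : ∀ g ∈ Γ, g s = s := by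
    intro g hg
    change g (z ^ a * N ^ b) = _
    rw [map_mul, map_zpow₀, map_zpow₀, hz g hg, hN g hg]
  have hsv : V.valuation s = V.valuation t := by
    have ht0' : V.valuation t ≠ 0 := (Valuation.ne_zero_iff _).2 ht0
    change V.valuation (z ^ a * N ^ b) = _
    rw [map_mul, map_zpow₀, map_zpow₀, hn, hNv, ← zpow_mul, ← zpow_mul, ← zpow_add₀ ht0',
      mul_comm n a, mul_comm (p : ℤ) b, hab, zpow_one]
  have hs0 : s ≠ 0 := by
    rw [← Valuation.ne_zero_iff V.valuation, hsv]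
    exact (Valuation.ne_zero_iff _).2 ht0
  -- the group acts trivially
  have hdiv : ∀ x ∈ V, ∃ c : k, ∃ x1 ∈ V, x = algebraMap k E c + s * x1 := by
    intro x hx
    obtain ⟨c, x1, hx1, e⟩ := res_t hk ht0 ht hlt hx
    refine ⟨c, t * s⁻¹ * x1, V.mul_mem _ _ ?_ hx1, ?_⟩
    · rw [← v_le, map_mul, map_inv₀, hsv, mul_inv_cancel₀ ((Valuation.ne_zero_iff _).2 ht0)]
    · rw [e]
      have : s * (t * s⁻¹ * x1) = (s * s⁻¹) * (t * x1) := by ring
      rw [this, mul_inv_cancel₀ hs0, one_mul]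
  have htriv : ∀ g ∈ Γ, ∀ m : ℕ, ∀ x ∈ V, ∃ z ∈ V, g x - x = s ^ m * z := by
    intro g hg m
    induction m with
    | zero =>
      intro x hx
      exact ⟨g x - x, V.sub_mem ((hΓ g hg).1 x hx) hx, by rw [pow_zero, one_mul]⟩
    | succ m ih =>
      intro x hx
      obtain ⟨c, x1, hx1, e⟩ := hdiv x hx
      obtain ⟨z, hz, e1⟩ := ih x1 hx1
      refine ⟨z, hz, ?_⟩
      rw [e, map_add, map_mul, AlgEquiv.commutes, hs g hg, pow_succ]
      linear_combination s * e1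
  have hone : ∀ g ∈ Γ, ∀ x ∈ V, g x = x := by
    intro g hg x hx
    by_contra hne
    obtain ⟨m, hm⟩ := val_eq hk ht hlt (sub_ne_zero.2 hne)
    obtain ⟨z, hz, e⟩ := htriv g hg (m.toNat + 1) x hx
    have h1 : V.valuation t ^ m ≤ V.valuation t ^ ((m.toNat + 1 : ℕ) : ℤ) := by
      rw [← hm, e, map_mul, map_pow, hsv, zpow_natCast]
      calc V.valuation t ^ (m.toNat + 1) * V.valuation z ≤ V.valuation t ^ (m.toNat + 1) * 1 :=
            mul_le_mul_right (v_le.2 hz) _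
        _ = _ := mul_one _
    rw [val_inj ht0 ht] at h1
    have := Int.self_le_toNat m
    push_cast at h1
    omega
  have hone' : ∀ g ∈ Γ, g = 1 := by
    intro g hg
    apply AlgEquiv.ext
    intro x
    change g x = x
    rcases V.mem_or_inv_mem x with hx | hx
    · exact hone g hg x hx
    · have h1 := hone g hg _ hx
      rw [map_inv₀] at h1
      exact inv_injective h1
  have h1 : Fintype.card Γ ≤ 1 := by
    rw [Fintype.card_le_one_iff]
    intro a b
    exact Subtype.ext ((hone' a.1 a.2).trans (hone' b.1 b.2).symm)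
  rw [hcard] at h1
  exact absurd hp.one_lt (not_lt.2 h1)

end grp

end Pool.Agent.Zk10.Ord
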