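import Pool.Agent.Zk62.Tw.N3

/-!
The norm of the inverse of a uniformizer.
-/

set_option autoImplicit false
set_option linter.unusedVariables false
set_option linter.unusedSectionVars false

universe u

open Polynomial

namespace Pool.Agent.Zk10.Ord

open Pool.Agent.W558 Pool.Agent.H920R2 Pool.Agent.Zk10.Ram Pool.Agent.Zk10.Cur

section grp

variable {k E : Type u} [Field k] [Field E] [Algebra k E] {V : ValuationSubring E}
  (hk : ∀ c : k, algebraMap k E c ∈ V) {t : E} (ht0 : t ≠ 0) (ht : V.valuation t < 1)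
  (hlt : ∀ x : E, x ≠ 0 →
    ∃ (n : ℤ) (c : k) (z : E), c ≠ 0 ∧ z ∈ V ∧ x = t ^ n * (algebraMap k E c + t * z))
  {Γ : Subgroup (E ≃ₐ[k] E)} [Fintype Γ] (hΓ : ∀ g ∈ Γ, G3 V t g) (p : ℕ) [Fact p.Prime]
  (hcard : Fintype.card Γ = p)

include hk ht0 ht hlt hΓ hcard

/-- The norm of the inverse of a uniformizer. -/
theorem exists_norm [CharP k p] : ∃ τ0 : E, (∀ g ∈ Γ, g τ0 = τ0) ∧ τ0 - t⁻¹ ^ p ∈ V := by
  classical
  have hp : p.Prime := Fact.out
  have hcE : CharP E p := charP_of_injective_algebraMap (algebraMap k E).injective p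
  set y : E := t⁻¹ with hy
  have hyv : V.valuation y = V.valuation t ^ (-1 : ℤ) := by
    rw [hy, map_inv₀, zpow_neg_one]
  let f : E[X] := ∏ g : Γ, (X - C (g.1 y))
  have hfm : f.Monic := monic_prod_of_monic _ _ fun g _ => monic_X_sub_C _
  have hfd : f.natDegree = p := by
    change (∏ g : Γ, (X - C (g.1 y))).natDegree = p
    rw [natDegree_prod_of_monic _ _ fun g _ => monic_X_sub_C _]
    simp only [natDegree_X_sub_C, Finset.sum_const, Finset.card_univ, smul_eq_mul, mul_one]
    exact hcard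
  have hfinv : ∀ h ∈ Γ, ∀ i, h (f.coeff i) = f.coeff i := by
    intro h hh i
    have h1 : f.map ((h : E ≃ₐ[k] E) : E →+* E) = f := by
      change (∏ g : Γ, (X - C (g.1 y))).map _ = _
      rw [Polynomial.map_prod]
      refine Fintype.prod_equiv (Equiv.mulLeft (⟨h, hh⟩ : Γ)) _ _ fun g => ?_
      rw [Polynomial.map_sub, map_X, map_C]
      rfl
    conv_rhs => rw [← h1]
    rw [coeff_map]
    rfl
  have hy0 : f.eval y = 0 := by
    change (∏ g : Γ, (X - C (g.1 y))).eval y = 0
    rw [eval_prod]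
    refine Finset.prod_eq_zero (Finset.mem_univ (1 : Γ)) ?_
    rw [eval_sub, eval_X, eval_C]
    change y - y = 0
    rw [sub_self]
  have hdist : ∀ g : Γ, V.valuation (y - g.1 y) < 1 := by
    intro g
    obtain ⟨z, hz, e⟩ := (hΓ g.1 g.2).act hk ht0 ht hlt y
    have h1 : y - g.1 y = t * (-z) := by
      rw [e, hy]
      field_simp
      ring
    rw [h1]
    exact v_lt_mul ht (V.neg_mem _ hz)
  have hder : V.valuation (f.derivative.eval y) < 1 := by
    have h1 : f = (X - C y) * ∏ g ∈ Finset.univ.erase (1 : Γ), (X - C (g.1 y)) := by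
      change (∏ g : Γ, (X - C (g.1 y))) = _
      rw [← Finset.mul_prod_erase _ _ (Finset.mem_univ (1 : Γ))]
      rfl
    have h2 : f.derivative.eval y = ∏ g ∈ Finset.univ.erase (1 : Γ), (y - g.1 y) := by
      rw [h1, derivative_mul, eval_add, eval_mul, eval_mul, derivative_sub, derivative_X,
        derivative_C, sub_zero, eval_one, one_mul, eval_sub, eval_X, eval_C, sub_self, zero_mul,
        add_zero, eval_prod]
      refine Finset.prod_congr rfl fun g _ => ?_
      rw [eval_sub, eval_X, eval_C]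
    obtain ⟨g1, hg1⟩ : ∃ g : Γ, g ≠ 1 := by
      have : Nontrivial Γ := Fintype.one_lt_card_iff_nontrivial.1 (by
        rw [hcard]
        exact hp.one_lt)
      exact exists_ne 1
    rw [h2, ← Finset.mul_prod_erase _ _ (Finset.mem_erase.2 ⟨hg1, Finset.mem_univ g1⟩)]
    exact v_lt_mul (hdist g1) (prod_mem fun g _ => v_lt_mem (hdist g))
  obtain ⟨m, hm⟩ := Nat.exists_eq_succ_of_ne_zero hp.ne_zero
  have hsum : f.derivative.eval y = ∑ i ∈ Finset.range m, f.coeff (i + 1) * (i + 1) * y ^ i := by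
    have h1 : f.derivative.natDegree < p := by
      have h2 := natDegree_derivative_lt (p := f) (by rw [hfd]; exact hp.ne_zero)
      rwa [hfd] at h2
    rw [eval_eq_sum_range' h1, hm, Finset.sum_range_succ]
    have h2 : f.derivative.coeff m * y ^ m = 0 := by
      rw [coeff_derivative]
      have h3 : ((m : E) + 1) = 0 := by
        have h4 : ((m + 1 : ℕ) : E) = 0 := by
          rw [← Nat.succ_eq_add_one, ← hm]
          exact CharP.cast_eq_zero E p
        push_cast at h4
        exact h4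
      rw [h3, mul_zero, zero_mul]
    rw [h2, add_zero]
    refine Finset.sum_congr rfl fun i _ => ?_
    rw [coeff_derivative]
  have hnat : ∀ i < m, V.valuation ((i : E) + 1) = 1 := by
    intro i hi
    have h1 : ((i : E) + 1) = algebraMap k E ((i + 1 : ℕ) : k) := by
      rw [map_natCast]
      push_cast
      rfl
    rw [h1]
    refine v_k hk fun h2 => ?_
    rw [CharP.cast_eq_zero_iff k p] at h2
    have := Nat.le_of_dvd (Nat.succ_pos i) h2
    omega
  have hval : ∀ i < m, f.coeff (i + 1) * (i + 1) * y ^ i ≠ 0 → ∃ n : ℤ, (p : ℤ) ∣ n ∧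
      V.valuation (f.coeff (i + 1) * (i + 1) * y ^ i) = V.valuation t ^ (n - i) := by
    intro i hi hne
    have h1 : f.coeff (i + 1) ≠ 0 := by
      intro h
      rw [h, zero_mul, zero_mul] at hne
      exact hne rfl
    obtain ⟨n, hn⟩ := val_eq hk ht hlt h1
    have ht0' : V.valuation t ≠ 0 := (Valuation.ne_zero_iff _).2 ht0
    refine ⟨n, dvd_val hk ht0 ht hlt hΓ p hcard h1 (fun g hg => hfinv g hg _) hn, ?_⟩
    rw [map_mul, map_mul, hn, hnat i hi, mul_one, map_pow, hyv, ← zpow_natCast, ← zpow_mul,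
      ← zpow_add₀ ht0']
    congr 1
    ring
  have hlt1 : ∀ i < m, V.valuation (f.coeff (i + 1) * (i + 1) * y ^ i) < 1 := by
    by_contra hcon
    push Not at hcon
    obtain ⟨i1, hi1, hi1v⟩ := hcon
    obtain ⟨j0, hj0, hmax⟩ := Finset.exists_max_image (Finset.range m)
      (fun i => V.valuation (f.coeff (i + 1) * (i + 1) * y ^ i)) ⟨i1, Finset.mem_range.2 hi1⟩
    have h1 : 1 ≤ V.valuation (f.coeff (j0 + 1) * (j0 + 1) * y ^ j0) :=
      hi1v.trans (hmax i1 (Finset.mem_range.2 hi1))
    have hv0 : V.valuation (f.coeff (j0 + 1) * (j0 + 1) * y ^ j0) ≠ 0 := by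
      intro h
      rw [h] at h1
      exact absurd h1 (not_le.2 zero_lt_one)
    have hne0 : f.coeff (j0 + 1) * (j0 + 1) * y ^ j0 ≠ 0 := (Valuation.ne_zero_iff _).1 hv0
    have h2 := Valuation.map_sum_eq_of_lt V.valuation
      (f := fun i : ℕ => f.coeff (i + 1) * ((i : E) + 1) * y ^ i) hj0 (by
      intro i hi
      rw [Finset.mem_sdiff, Finset.mem_singleton] at hi
      refine lt_of_le_of_ne (hmax i hi.1) fun heq => ?_
      have hi0 : f.coeff (i + 1) * (i + 1) * y ^ i ≠ 0 := by
        rw [← Valuation.ne_zero_iff V.valuation, heq]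
        exact hv0
      obtain ⟨n, hn, hn'⟩ := hval i (Finset.mem_range.1 hi.1) hi0
      obtain ⟨n0, hn0, hn0'⟩ := hval j0 (Finset.mem_range.1 hj0) hne0
      rw [hn', hn0'] at heq
      have h3 := val_inj' ht0 ht heq
      have h4 : (p : ℤ) ∣ (i : ℤ) - j0 := by
        have h5 : (i : ℤ) - j0 = n - n0 := by omega
        rw [h5]
        exact dvd_sub hn hn0
      have h5 := Finset.mem_range.1 hi.1
      have h6 := Finset.mem_range.1 hj0
      have h7 : (i : ℤ) - j0 = 0 := by
        refine Int.eq_zero_of_abs_lt_dvd h4 ?_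
        rw [abs_lt]
        constructor <;> omega
      exact hi.2 (by omega))
    rw [← hsum] at h2
    rw [h2] at hder
    exact absurd hder (not_lt.2 h1)
  have hmem : ∀ i < m, f.coeff (i + 1) * y ^ (i + 1) ∈ V := by
    intro i hi
    have h1 : V.valuation (f.coeff (i + 1) * y ^ i) < 1 := by
      have h2 := hlt1 i hi
      have h3 : f.coeff (i + 1) * ((i : E) + 1) * y ^ i =
          ((i : E) + 1) * (f.coeff (i + 1) * y ^ i) := by ring
      rw [h3, map_mul, hnat i hi, one_mul] at h2
      exact h2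
    obtain ⟨z, hz, e⟩ := div_t hk ht0 ht hlt h1
    have h2 : f.coeff (i + 1) * y ^ (i + 1) = z := by
      rw [pow_succ, ← mul_assoc, e, hy]
      field_simp
    rw [h2]
    exact hz
  refine ⟨-f.coeff 0, fun g hg => by rw [map_neg, hfinv g hg], ?_⟩
  have h1 : f.coeff 0 + ∑ i ∈ Finset.range m, f.coeff (i + 1) * y ^ (i + 1) + y ^ p = 0 := by
    rw [← hy0, eval_eq_sum_range, hfd, Finset.sum_range_succ, hm, Finset.sum_range_succ', ← hm]
    have h2 : f.coeff p = 1 := by
      have := hfm.coeff_natDegree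
      rwa [hfd] at this
    rw [h2, pow_zero, mul_one, one_mul]
    ring
  have h2 : -f.coeff 0 - y ^ p = ∑ i ∈ Finset.range m, f.coeff (i + 1) * y ^ (i + 1) := by
    linear_combination -h1
  rw [h2]
  exact sum_mem fun i hi => hmem i (Finset.mem_range.1 hi)

end grp

end Pool.Agent.Zk10.Ord
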