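import Pool.Agent.Zk62.Tw.N4

/-!
Nakajima's theorem: groups acting on ordinary curves are weakly ramified.
-/

set_option autoImplicit false
set_option linter.unusedVariables false
set_option linter.unusedSectionVars false

universe u

open IntermediateField

namespace Pool.Agent.Zk10.Ord

open Pool.Agent.W558 Pool.Agent.H920R2 Pool.Agent.Zk10.Ram Pool.Agent.Zk10.Cur

/-- The curve with the function field `E` is ordinary: a function which is at every point the sum
of a `p`-th power and of a regular function is a `p`-th power. -/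
def IsOrd (p : ℕ) (k E : Type u) [Field k] [Field E] [Algebra k E] : Prop :=
  ∀ f : E, (∀ V : ValuationSubring E, (∀ c : k, algebraMap k E c ∈ V) →
    ∃ r : E, f - r ^ p ∈ V) → ∃ g : E, f = g ^ p

section main

variable {k E : Type u} [Field k] [IsAlgClosed k] [Field E] [Algebra k E]
  [Algebra.EssFiniteType k E]

/-- A separating element with a pole at a given point. -/
lemma exists_T {F : Type u} [Field F] [Algebra k F] {u : F} (hu : SepEl k u)
    {P0 : ValuationSubring F}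
    (hres : ∀ x ∈ P0, ∃ c : k, P0.valuation (x - algebraMap k F c) < 1) :
    ∃ T : F, SepEl k T ∧ T ∉ P0 := by
  by_cases huP : u ∈ P0
  · obtain ⟨c, hc⟩ := hres u huP
    have h1 : SepEl k (u - algebraMap k F c) := by
      have hle : k⟮u⟯ ≤ k⟮u - algebraMap k F c⟯ := by
        rw [adjoin_simple_le_iff]
        have h2 := add_mem (mem_adjoin_simple_self k (u - algebraMap k F c))
          (_root_.algebraMap_mem k⟮u - algebraMap k F c⟯ c)
        rwa [sub_add_cancel] at h2
      refine ⟨fun h => hu.1 ?_, tower_top_le hle hu.2⟩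
      have h2 := h.add (isAlgebraic_algebraMap c)
      rwa [sub_add_cancel] at h2
    refine ⟨(u - algebraMap k F c)⁻¹, h1.inv, fun h => ?_⟩
    have h0 : u - algebraMap k F c ≠ 0 := by
      intro h0
      apply hu.1
      rw [sub_eq_zero.1 h0]
      exact isAlgebraic_algebraMap c
    exact v_inv_lt hc h h0
  · exact ⟨u, hu, huP⟩

/-- **Nakajima's theorem** for groups of order `p`. -/
theorem ord_p (p : ℕ) [Fact p.Prime] [CharP k p] (htr : Algebra.trdeg k E = 1)
    (hord : IsOrd p k E) {V : ValuationSubring E} (hk : ∀ c : k, algebraMap k E c ∈ V)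
    {t : E} (ht0 : t ≠ 0) (ht : V.valuation t < 1) (hlt : ∀ x : E, x ≠ 0 →
      ∃ (n : ℤ) (c : k) (z : E), c ≠ 0 ∧ z ∈ V ∧ x = t ^ n * (algebraMap k E c + t * z))
    {Γ : Subgroup (E ≃ₐ[k] E)} [Fintype Γ] (hΓ : ∀ g ∈ Γ, G3 V t g)
    (hcard : Fintype.card Γ = p) : False := by
  classical
  have hp : p.Prime := Fact.out
  have hcE : CharP E p := charP_of_injective_algebraMap (algebraMap k E).injective p
  have hfΓ : Finite Γ := Finite.of_fintype Γ
  let F : IntermediateField k E := IntermediateField.fixedField Γ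
  have hF : ∀ x, x ∈ F ↔ FX Γ x := by
    intro x
    rw [IntermediateField.mem_fixedField_iff]
    rfl
  obtain ⟨hsep, hfin⟩ := sep_fix hF
  have halg : Algebra.IsAlgebraic F E := Algebra.IsSeparable.isAlgebraic _ _
  have hessF := essFiniteType_sub F
  have hVt : V ≠ ⊤ := by
    intro h
    have h1 : t⁻¹ ∈ V := by rw [h]; exact ValuationSubring.mem_top _
    exact v_inv_lt ht h1 ht0
  obtain ⟨A, hA1, hA2, hA3, hVA⟩ := exists_chart hF p htr hk
  have d1 : IsDedekindDomain (DD (E := E) A) := DD_dedekind.1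
  have d2 : IsFractionRing (DD (E := E) A) E := DD_dedekind.2
  have d3 : Algebra.FiniteType k (DD (E := E) A) := DD_finiteType
  have hV : ∀ x ∈ DD (E := E) A, x ∈ V := fun z hz => int_mem hVA hz
  obtain ⟨τE, hτE, hτV⟩ := exists_norm hk ht0 ht hlt hΓ p hcard
  let τ0 : F := ⟨τE, (hF _).2 hτE⟩
  have ht0' : V.valuation t ≠ 0 := (Valuation.ne_zero_iff _).2 ht0
  have hyv : V.valuation (t⁻¹ ^ p) = V.valuation t ^ (-(p : ℤ)) := by
    rw [map_pow, map_inv₀, zpow_neg, zpow_natCast, inv_pow]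
  have hyv1 : 1 < V.valuation (t⁻¹ ^ p) := by
    rw [hyv]
    have h1 := (val_inj (V := V) ht0 ht (n := 0) (m := -(p : ℤ)))
    rw [zpow_zero] at h1
    rw [← not_le, ← zpow_zero (V.valuation t), val_inj ht0 ht]
    have := hp.pos
    omega
  have hτv : V.valuation τE = V.valuation t ^ (-(p : ℤ)) := by
    have h1 : τE = (τE - t⁻¹ ^ p) + t⁻¹ ^ p := by ring
    rw [h1, V.valuation.map_add_eq_of_lt_right (lt_of_le_of_lt (v_le.2 hτV) hyv1), hyv]
  have hτ0 : τE ≠ 0 := by
    intro h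
    rw [h, map_zero] at hτv
    exact zpow_ne_zero _ ht0' hτv.symm
  let P0 : ValuationSubring F := V.comap (algebraMap F E)
  have hmemP : ∀ x : F, x ∈ P0 ↔ (x : E) ∈ V := fun x => Iff.rfl
  have hvP : ∀ x : F, P0.valuation x < 1 ↔ V.valuation (x : E) < 1 := by
    intro x
    rw [lt_iff_not_ge, lt_iff_not_ge, not_iff_not]
    by_cases hx : x = 0
    · rw [hx]
      change 1 ≤ P0.valuation 0 ↔ 1 ≤ V.valuation ((0 : F) : E)
      rw [ZeroMemClass.coe_zero, map_zero, map_zero]
      exact ⟨fun h => absurd h (not_le.2 zero_lt_one), fun h => absurd h (not_le.2 zero_lt_one)⟩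
    · have hxE : (x : E) ≠ 0 := fun h => hx (Subtype.ext h)
      have h1 : 1 ≤ P0.valuation x ↔ x⁻¹ ∈ P0 := by
        rw [← v_le, map_inv₀, inv_le_one₀ (zero_lt_iff.2 ((Valuation.ne_zero_iff _).2 hx))]
      have h2 : 1 ≤ V.valuation (x : E) ↔ (x : E)⁻¹ ∈ V := by
        rw [← v_le, map_inv₀, inv_le_one₀ (zero_lt_iff.2 ((Valuation.ne_zero_iff _).2 hxE))]
      rw [h1, h2]
      rfl
  have hk0 : ∀ c : k, algebraMap k F c ∈ P0 := fun c => by
    rw [hmemP]
    exact hk c
  have hdvd : ∀ z : F, z ≠ 0 → ∃ n : ℤ, (p : ℤ) ∣ n ∧ V.valuation (z : E) = V.valuation t ^ n := by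
    intro z hz
    have hzE : (z : E) ≠ 0 := fun h => hz (Subtype.ext h)
    obtain ⟨n, hn⟩ := val_eq hk ht hlt hzE
    exact ⟨n, dvd_val hk ht0 ht hlt hΓ p hcard hzE (fun g hg => (hF _).1 z.2 g hg) hn, hn⟩
  have hτP : P0.valuation τ0⁻¹ < 1 := by
    rw [hvP]
    change V.valuation τE⁻¹ < 1
    rw [map_inv₀]
    apply inv_lt_one_of_one_lt₀
    rw [hτv, ← hyv]
    exact hyv1
  have hP0 : P0 ≠ ⊤ := by
    intro h
    have h1 : τ0 ∈ P0 := by rw [h]; exact ValuationSubring.mem_top _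
    have h2 : V.valuation τE ≤ 1 := v_le.2 h1
    rw [hτv, ← hyv] at h2
    exact absurd hyv1 (not_lt.2 h2)
  have hβ : ∀ z : F, P0.valuation z < 1 → z * τ0 ∈ P0 := by
    intro z hz
    by_cases hz0 : z = 0
    · rw [hz0, zero_mul]
      exact P0.zero_mem
    obtain ⟨n, hn, hn'⟩ := hdvd z hz0
    rw [hvP, hn', ← zpow_zero (V.valuation t)] at hz
    have h1 : 0 < n := by
      by_contra hcon
      exact absurd hz (not_lt.2 ((val_inj ht0 ht).2 (not_lt.1 hcon)))
    have h2 : (p : ℤ) ≤ n := Int.le_of_dvd h1 hn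
    rw [hmemP]
    change (z : E) * τE ∈ V
    rw [← v_le, map_mul, hn', hτv, ← zpow_add₀ ht0', ← zpow_zero (V.valuation t), val_inj ht0 ht]
    omega
  have hγ : ∀ r : F, τ0 - r ^ p ∉ P0 := by
    intro r hr
    have h1 : V.valuation (τE - (r : E) ^ p) ≤ 1 := v_le.2 hr
    have h2 : V.valuation ((r : E) ^ p) = V.valuation t ^ (-(p : ℤ)) := by
      have h3 : (r : E) ^ p = -(τE - (r : E) ^ p) + τE := by ring
      rw [h3, V.valuation.map_add_eq_of_lt_right, hτv]
      rw [Valuation.map_neg, hτv, ← hyv]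
      exact lt_of_le_of_lt h1 hyv1
    have hr0 : r ≠ 0 := by
      rintro rfl
      rw [ZeroMemClass.coe_zero, zero_pow hp.ne_zero, map_zero] at h2
      exact zpow_ne_zero _ ht0' h2.symm
    obtain ⟨n, ⟨l, hl⟩, hn'⟩ := hdvd r hr0
    rw [map_pow, hn', ← zpow_natCast, ← zpow_mul] at h2
    have h3 := val_inj' ht0 ht h2
    have hp1 := hp.one_lt
    have h4 : n = -1 := by
      have h5 : (p : ℤ) * (n + 1) = 0 := by linear_combination h3
      rcases mul_eq_zero.1 h5 with h6 | h6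
      · omega
      · omega
    rw [h4] at hl
    have h5 : (p : ℤ) ∣ 1 := ⟨-l, by linear_combination -hl⟩
    have h6 := Int.le_of_dvd one_pos h5
    omega
  have hAP : ∀ a ∈ A, a ∈ P0 := fun a ha => hVA a ha
  obtain ⟨u, huF, -, -⟩ := exists_uF hF hp (CharP.cast_eq_zero k p) htr
  obtain ⟨T, hT, hTP⟩ := exists_T huF (P0 := P0) fun x hx => resV (k := k) hAP hP0 hx
  obtain ⟨g, hg1, hg2, r0, c0, hg3⟩ := exists_glob p hT hk0 hP0 hTP hτP hβ hγ
  -- the function is a `p`-th power
  obtain ⟨h, hh⟩ := hord (g : E) (by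
    intro W hkW
    let Q : ValuationSubring F := W.comap (algebraMap F E)
    have hkQ : ∀ c : k, algebraMap k F c ∈ Q := fun c => hkW c
    by_cases hQ : Q = P0
    · -- the points are equal
      have hQP : ∀ x : F, (x : E) ∈ W ↔ (x : E) ∈ V := by
        intro x
        have h1 : x ∈ Q ↔ x ∈ P0 := by rw [hQ]
        exact h1
      have hWA : ∀ a ∈ A, (a : E) ∈ W := fun a ha => (hQP a).2 (hVA a ha)
      have hWD : ∀ x ∈ DD (E := E) A, x ∈ W := fun z hz => int_mem hWA hz
      have hWt : W ≠ ⊤ := by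
        intro h
        apply hP0
        rw [← hQ, eq_top_iff]
        intro x _
        change (x : E) ∈ W
        rw [h]
        exact ValuationSubring.mem_top _
      obtain ⟨γ, hγΓ, hγW⟩ := exists_conj hF hV hWD hVt hWt (by
        intro a ha hav
        by_cases ha0 : a = 0
        · rw [ha0, ZeroMemClass.coe_zero, map_zero]
          exact zero_lt_one
        refine lt_of_le_of_ne (v_le.2 (hWA a ha)) fun heq => ?_
        have h1 := v_inv_mem heq
        have h2 : (a : E)⁻¹ ∈ V := (hQP a⁻¹).1 h1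
        exact v_inv_lt hav h2 fun h => ha0 (Subtype.ext h))
      have hWV : ∀ x, x ∈ V → x ∈ W := fun x hx => (hγW x).2 ((hΓ γ hγΓ).1 x hx)
      obtain ⟨e, he⟩ : ∃ e : k, e ^ p = c0 := IsAlgClosed.exists_pow_nat_eq _ hp.pos
      refine ⟨(r0 : E) + algebraMap k E e * t⁻¹, hWV _ ?_⟩
      have h1 : (g : E) - ((r0 : E) + algebraMap k E e * t⁻¹) ^ p =
          ((g : E) - (r0 : E) ^ p - algebraMap k E c0 * τE) +
            algebraMap k E c0 * (τE - t⁻¹ ^ p) := by
        rw [add_pow_char, mul_pow, ← map_pow, he]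
        ring
      rw [h1]
      exact V.add_mem _ _ hg3 (V.mul_mem _ _ (hk _) hτV)
    · obtain ⟨r, hr⟩ := hg2 Q hkQ hQ
      exact ⟨(r : E), hr⟩)
  have hhF : h ∈ F := by
    rw [hF]
    intro s hs
    have h1 : s (g : E) = g := (hF _).1 g.2 s hs
    have h2 : (s h - h) ^ p = 0 := by
      rw [sub_pow_char, ← map_pow, ← hh, h1, sub_self]
    exact sub_eq_zero.1 (pow_eq_zero_iff hp.ne_zero |>.1 h2)
  exact hg1 ⟨h, hhF⟩ (Subtype.ext hh)

/-- **Nakajima's theorem**: the second ramification groups of a point of an ordinary curve are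
trivial. -/
theorem ord_weak (p : ℕ) [Fact p.Prime] [CharP k p] (htr : Algebra.trdeg k E = 1)
    (hord : IsOrd p k E) {V : ValuationSubring E} (hk : ∀ c : k, algebraMap k E c ∈ V)
    (hVt : V ≠ ⊤) {s : E ≃ₐ[k] E} {n : ℕ} (hn : 0 < n) (hsn : s ^ n = 1)
    (hsV : ∀ x ∈ V, s x ∈ V) (h3 : ∀ (x : V) (h : s x - x ∈ V),
      (⟨s x - x, h⟩ : V) ∈ IsLocalRing.maximalIdeal V ^ 3) : s = 1 := by
  classical
  have hp : p.Prime := Fact.out
  -- a chart
  let Γ0 : Subgroup (E ≃ₐ[k] E) := ⊥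
  let F : IntermediateField k E := IntermediateField.fixedField Γ0
  have hF : ∀ x, x ∈ F ↔ FX Γ0 x := by
    intro x
    rw [IntermediateField.mem_fixedField_iff]
    rfl
  obtain ⟨hsep, hfin⟩ := sep_fix hF
  obtain ⟨A, hA1, hA2, hA3, hVA⟩ := exists_chart hF p htr hk
  have d1 : IsDedekindDomain (DD (E := E) A) := DD_dedekind.1
  have d2 : IsFractionRing (DD (E := E) A) E := DD_dedekind.2
  have d3 : Algebra.FiniteType k (DD (E := E) A) := DD_finiteType
  have hV : ∀ x ∈ DD (E := E) A, x ∈ V := fun z hz => int_mem hVA hz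
  obtain ⟨t, ht0, ht, hlt⟩ := exists_unif hV hVt (res_of (k := k) hV hVt)
  have hs : G3 V t s := by
    refine ⟨hsV, fun x hx => ?_⟩
    have hd : s x - x ∈ V := V.sub_mem (hsV x hx) hx
    have h4 := h3 ⟨x, hx⟩ hd
    have h5 : IsLocalRing.maximalIdeal V ≤ Ideal.span {(⟨t, v_lt_mem ht⟩ : V)} := by
      intro y hy
      have hy' : V.valuation (y : E) < 1 := (ValuationSubring.valuation_lt_one_iff V _).1 hy
      obtain ⟨z, hz, e⟩ := div_t hk ht0 ht hlt hy'
      rw [Ideal.mem_span_singleton']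
      exact ⟨⟨z, hz⟩, Subtype.ext (by
        change z * t = y
        rw [e, mul_comm])⟩
    have h6 := Ideal.pow_right_mono h5 3 h4
    rw [Ideal.span_singleton_pow, Ideal.mem_span_singleton'] at h6
    obtain ⟨z, hz⟩ := h6
    refine ⟨z, z.2, ?_⟩
    have h7 : (z : E) * t ^ 3 = s x - x := congrArg Subtype.val hz
    rw [← h7, mul_comm]
  by_contra hs1
  obtain ⟨a, m, hm, hnm⟩ := Nat.exists_eq_pow_mul_and_not_dvd hn.ne' p hp.ne_one
  have h1 : s ^ p ^ a = 1 := by
    refine (hs.pow (p ^ a)).tame hk ht0 ht hlt p hm ?_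
    rw [← pow_mul, ← hnm, hsn]
  -- an element of order `p`
  obtain ⟨i, hi, hi'⟩ : ∃ i : ℕ, s ^ p ^ i ≠ 1 ∧ s ^ p ^ (i + 1) = 1 := by
    have hex : ∃ i : ℕ, s ^ p ^ i = 1 := ⟨a, h1⟩
    have h2 := Nat.find_spec hex
    have h3 : Nat.find hex ≠ 0 := by
      intro h0
      rw [h0, pow_zero, pow_one] at h2
      exact hs1 h2
    obtain ⟨i, hi⟩ := Nat.exists_eq_succ_of_ne_zero h3
    refine ⟨i, Nat.find_min hex (by omega), ?_⟩
    rw [← Nat.succ_eq_add_one, ← hi]
    exact h2
  let g : E ≃ₐ[k] E := s ^ p ^ i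
  have hg : G3 V t g := hs.pow _
  have hgo : orderOf g = p := by
    refine orderOf_eq_prime ?_ hi
    change (s ^ p ^ i) ^ p = 1
    rw [← pow_mul, ← pow_succ]
    exact hi'
  have hfin' : Finite (Subgroup.zpowers g) := by
    exact Set.finite_coe_iff.2 (finite_zpowers.2 (by
      rw [← orderOf_pos_iff, hgo]
      exact hp.pos))
  have hft : Fintype (Subgroup.zpowers g) := Fintype.ofFinite _
  have hcard : Fintype.card (Subgroup.zpowers g) = p := by
    rw [← Nat.card_eq_fintype_card, Nat.card_zpowers, hgo]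
  refine ord_p p htr hord hk ht0 ht hlt (Γ := Subgroup.zpowers g) ?_ hcard
  intro x hx
  have hfo : IsOfFinOrder g := by
    rw [← orderOf_pos_iff, hgo]
    exact hp.pos
  obtain ⟨j, rfl⟩ := (hfo.mem_powers_iff_mem_zpowers.2 hx)
  exact hg.pow j

end main

end Pool.Agent.Zk10.Ord
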