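import Pool.Agent.Zk62.Tw.U20
import Pool.Agent.W558.WT.Asm3

/-!
The factors in explicit form.
-/

set_option autoImplicit false
set_option linter.unusedVariables false
set_option linter.unusedSectionVars false

universe u

open Polynomial

namespace Pool.Agent.Zk10.Act

open Pool.Agent.W558 Pool.Agent.W558.WT Pool.Agent.Zk10.Ram Pool.Agent.Zk10.Cur
  Pool.Agent.TH214 Pool.Agent.TH214.Q Pool.Agent.W177.WD Pool.Agent.W435.WT.Gal

section stab

variable {k A : Type u} [Field k] [CommRing A] [IsDomain A] [Algebra k A] (K : Type u) [Field K]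
  [Algebra k K] [Algebra A K] [IsScalarTower k A K] [IsFractionRing A K] {G : Type} [Group G]
  [Finite G] (ρ : G →* (A ≃ₐ[k] A))

/-- The automorphisms of the function field which are induced by the group. -/
def ind : Set (K ≃ₐ[k] K) := {s | ∃ g, ∀ a, s (algebraMap A K a) = algebraMap A K (ρ g a)}

/-- The stabilizer of a point. -/
def stab (V : ValuationSubring K) : Set (K ≃ₐ[k] K) := {s | s ∈ ind K ρ ∧ ∀ x ∈ V, s x ∈ V}

instance : Finite (lf K ρ).range := Finite.of_surjective _ (lf K ρ).rangeRestrict_surjective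

lemma mem_ind {s : K ≃ₐ[k] K} : s ∈ ind K ρ ↔ s ∈ (lf K ρ).range := (mem_lf_range K ρ).symm

lemma mem_stab {V : ValuationSubring K} {s : K ≃ₐ[k] K} :
    s ∈ stab K ρ V ↔ s ∈ dec V (lf K ρ).range := by
  rw [mem_dec, ← mem_ind]
  rfl

/-- The local condition. -/
def Mild (p : ℕ) (V : ValuationSubring K) : Prop :=
  ¬ p ^ 2 ∣ Nat.card (stab K ρ V) ∨
  (∀ s ∈ stab K ρ V, (∀ (x : V) (h : s x - x ∈ V),
    (⟨s x - x, h⟩ : V) ∈ IsLocalRing.maximalIdeal V ^ 3) → s = 1) ∨
  ∃ (θ : (K ≃ₐ[k] K) → k) (b : K),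
    (∀ s ∈ stab K ρ V, ∀ t ∈ stab K ρ V, θ (s * t) = θ s + θ t) ∧
    (∀ s ∈ stab K ρ V, θ s = 0 → ∃ m : ℕ, ¬ p ∣ m ∧ s ^ m = 1) ∧
    (∀ s ∈ ind K ρ, s b = b) ∧
    (b ∈ V ∨ ∀ a : K, (∀ s ∈ ind K ρ, s a = a) → V.valuation a ^ p ≠ V.valuation b) ∧
    ∀ lam : (K ≃ₐ[k] K) → ZMod p,
      (∀ s ∈ stab K ρ V, ∀ t ∈ stab K ρ V, lam (s * t) = lam s + lam t) →
      ∃ (w : K) (c : k), (∀ s ∈ stab K ρ V, s w = w + ((lam s).val : K)) ∧
        w ^ p - w - algebraMap k K c * b ∈ V

end stab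

section fac

variable {k A : Type u} [Field k] [IsAlgClosed k] [CommRing A] [IsDomain A] [Algebra k A]
  [Algebra.FiniteType k A] (K : Type u) [Field K]
  [Algebra k K] [Algebra A K] [IsScalarTower k A K] [IsFractionRing A K] {G : Type} [Group G]
  [Finite G] (ρ : G →* (A ≃ₐ[k] A)) (p : ℕ) [Fact p.Prime] [CharP k p] {N : ℕ}
  (hN : Prj p N (lf K ρ).range)

include hN

/-- Curves. -/
theorem fac_mild (htr : Algebra.trdeg k A = 1)
    (hc : ∀ V : ValuationSubring K, (∀ c : k, algebraMap k K c ∈ V) → V ≠ ⊤ → Mild K ρ p V) :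
    Fac p (lf K ρ).range := by
  classical
  have htrK : Algebra.trdeg k K = 1 := by
    rw [Pool.Agent.W348.WTM.trdeg_frac k A K]
    exact htr
  have hess : Algebra.EssFiniteType k K := by
    have h1 : Algebra.EssFiniteType A K :=
      Algebra.EssFiniteType.of_isLocalization K (nonZeroDivisors A)
    exact Algebra.EssFiniteType.comp k A K
  intro F hF B _ c hcB
  refine curve_packF hF p htrK ?_ c hcB
  intro V hk hV
  obtain ⟨A', hA1, hA2, hA3, hVA⟩ := exists_chart hF p htrK hk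
  have hle : dec V (lf K ρ).range ≤ (lf K ρ).range := fun s hs => hs.1
  rcases hc V hk hV with h1 | h1 | h1
  · have hfin : Finite (dec V (lf K ρ).range) := Finite.of_injective (Subgroup.inclusion hle)
      (Subgroup.inclusion_injective hle)
    have h2 : Nat.card (stab K ρ V) = Nat.card (dec V (lf K ρ).range) :=
      Nat.card_congr (Equiv.subtypeEquivRight fun s => mem_stab K ρ)
    rw [h2] at h1
    exact ga_one hF hVA hV hN (exists_s0 (hN.mono hle) h1)
  · exact ga_weak hF hVA hV hN fun s hs => h1 s ((mem_stab K ρ).2 hs)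
  · obtain ⟨θ, b, h2, h3, h4, h5, h6⟩ := h1
    have hbF : b ∈ F := (hF b).2 fun s hs => h4 s ((mem_ind K ρ).2 hs)
    refine ⟨⟨θ, fun s hs t ht => h2 s ((mem_stab K ρ).2 hs) t ((mem_stab K ρ).2 ht),
      fun s hs => h3 s ((mem_stab K ρ).2 hs)⟩, ⟨b, hbF⟩, fun hbV a => ?_, fun lam hl => ?_⟩
    · exact (h5.resolve_left hbV) a fun s hs => (hF _).1 a.2 s ((mem_ind K ρ).1 hs)
    · obtain ⟨w, c, hw, hwc⟩ := h6 lam fun s hs t ht =>
        hl s ((mem_stab K ρ).1 hs) t ((mem_stab K ρ).1 ht)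
      exact ⟨w, c, fun s hs => hw s ((mem_stab K ρ).2 hs), hwc⟩

/-- Surfaces. -/
theorem fac_surface (htr : Algebra.trdeg k A = 2) (h2 : ¬ p ^ 2 ∣ Nat.card ρ.range)
    (n : ℕ) (H : Fin (n + 1) → K) (hH : ∀ l, H l ≠ 0)
    (hsm : ∀ j, Algebra.Smooth k (Algebra.adjoin k (Set.range fun l => H l / H j)))
    (hc : ∀ j (a b : A), b ≠ 0 → ((∀ g, ρ g a * b = a * ρ g b) ↔
      ∃ u ∈ Algebra.adjoin k (Set.range fun l => H l / H j),
      ∃ v ∈ Algebra.adjoin k (Set.range fun l => H l / H j),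
        v ≠ 0 ∧ algebraMap A K a / algebraMap A K b = u / v)) :
    Fac p (lf K ρ).range := by
  classical
  have hfG : Fintype G := Fintype.ofFinite G
  obtain ⟨h3, h4⟩ := modG k A K ρ (lf K ρ) (fun g a => lf_app K ρ g a) htr n H hH hsm hc
  have h5 : Nat.card (lf K ρ).range = Nat.card ρ.range := by
    have hker : (lf K ρ).ker = ρ.ker := by
      ext g
      rw [MonoidHom.mem_ker, MonoidHom.mem_ker]
      constructor
      · exact lf_one K ρ
      · intro h
        apply AlgEquiv.ext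
        intro y
        refine frac_ext2 (C := A) ((lf K ρ g : K ≃ₐ[k] K) : K →+* K) (RingHom.id K) ?_ y
        intro a
        change lf K ρ g (algebraMap A K a) = algebraMap A K a
        rw [lf_app, h]
        rfl
    rw [← Nat.card_congr (QuotientGroup.quotientKerEquivRange ρ).toEquiv,
      ← Nat.card_congr (QuotientGroup.quotientKerEquivRange (lf K ρ)).toEquiv, hker]
  refine fac_surf p hN (by rw [h5]; exact h2) ?_
  intro F hF f B _ c hcB
  have h6 : F = fixF (Set.range (lf K ρ)) := by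
    ext x
    rw [hF, mem_fixF]
    rfl
  subst h6
  exact gma_surf ws_pack p k _ h3 h4 B f c hcB

end fac

end Pool.Agent.Zk10.Act
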