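import Pool.Agent.Zk62.Tw.N5
import Pool.Agent.Zk62.Tw.U21

/-!
Group actions on ordinary curves.
-/

set_option autoImplicit false
set_option linter.unusedVariables false
set_option linter.unusedSectionVars false

universe u

open Polynomial

namespace Pool.Agent.Zk10.Act

open Pool.Agent.W558 Pool.Agent.W558.WT Pool.Agent.Zk10.Ram Pool.Agent.Zk10.Cur
  Pool.Agent.TH214 Pool.Agent.TH214.Q Pool.Agent.W177.WD Pool.Agent.W435.WT.Gal
  Pool.Agent.Zk10.Ord

section ord

variable {k A : Type u} [Field k] [IsAlgClosed k] [CommRing A] [IsDomain A] [Algebra k A]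
  [Algebra.FiniteType k A] (K : Type u) [Field K]
  [Algebra k K] [Algebra A K] [IsScalarTower k A K] [IsFractionRing A K] {G : Type} [Group G]
  [Finite G] (ρ : G →* (A ≃ₐ[k] A)) (p : ℕ) [Fact p.Prime] [CharP k p]

/-- Nakajima's theorem: group actions on ordinary curves are weakly ramified. -/
theorem mild_ord (htr : Algebra.trdeg k A = 1) (hord : IsOrd p k K) (V : ValuationSubring K)
    (hk : ∀ c : k, algebraMap k K c ∈ V) (hV : V ≠ ⊤) : Mild K ρ p V := by
  classical
  have htrK : Algebra.trdeg k K = 1 := by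
    rw [Pool.Agent.W348.WTM.trdeg_frac k A K]
    exact htr
  have hess : Algebra.EssFiniteType k K := by
    have h1 : Algebra.EssFiniteType A K :=
      Algebra.EssFiniteType.of_isLocalization K (nonZeroDivisors A)
    exact Algebra.EssFiniteType.comp k A K
  refine Or.inr (Or.inl fun s hs h3 => ?_)
  obtain ⟨g, hg⟩ := (mem_ind K ρ).1 hs.1
  have hn : 0 < Nat.card G := Nat.card_pos
  have hs1 : s ^ Nat.card G = 1 := by
    rw [← hg, ← map_pow, pow_card_eq_one', map_one]
  exact ord_weak p htrK hord hk hV hn hs1 hs.2 h3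

end ord

end Pool.Agent.Zk10.Act
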