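import Pool.Agent.Zk62.Tw.T1

/-!
Towers over the subgroups of the Galois group of a cover with clean ramification.
-/

set_option autoImplicit false
set_option linter.unusedVariables false
set_option linter.unusedSectionVars false

universe u

open Polynomial

namespace Pool.Agent.Zk10.Ram

open Pool.Agent.W558 Pool.Agent.W435.WT.Gal Pool.Agent.Zk10

section kil

variable {k M : Type u} [Field k] [PerfectField k] [Field M] [Algebra k M] {G : Type} [Group G]
  [Finite G] (τ : G →* (M ≃ₐ[k] M)) (p : ℕ) [Fact p.Prime] [CharP k p]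

/-- The condition for the step. -/
theorem kil_G (hG : IsPGroup p G) {L0 : Type u} [Field L0] [Algebra k L0] (H : Subgroup G)
    (ρ : L0 →ₐ[k] fixH τ H) (hρ : ∀ (g : G) x, τ g (ρ x : M) = ρ x) (S : Subalgebra k L0)
    [Algebra.FiniteType k S] {ι : Type} [Fintype ι] {b0 : ι → L0} (DM : Subalgebra k M)
    (hDM : ∀ x, x ∈ DM ↔ IsInt ((fixH τ H).val.comp ρ) S x) (χ : G → ZMod p)
    (hloc : ∀ 𝔐 : Ideal DM, 𝔐.IsMaximal → ∃ (w : M) (c : ι → k),
      (∀ g ∈ H, g ∈ inert τ DM 𝔐 → τ g w = w + ((χ g).val : M)) ∧ ∃ s : DM, s ∉ 𝔐 ∧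
        (s : M) * (w ^ p - w - ∑ l, algebraMap k M (c l) * (ρ (b0 l) : M)) ∈ DM)
    (z : M) (hz : ∀ g ∈ H, τ g z = z + ((χ g).val : M)) (F : fixH τ H)
    (hF : (F : M) = z ^ p - z) :
    KIL p ρ S b0 F := by
  classical
  have hp : p.Prime := Fact.out
  have hcM : CharP M p := charP_of_injective_algebraMap (algebraMap k M).injective p
  let L := fixH τ H
  let ρM : L0 →ₐ[k] M := L.val.comp ρ
  have hρM : ∀ x, ρM x = (ρ x : M) := fun x => rfl
  let f : S →+* M := (ρM : L0 →+* M).comp (algebraMap S L0)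
  have hDMf : ∀ x : M, x ∈ DM ↔ f.IsIntegralElem x := fun x => hDM x
  have hL : ∀ x : L, IsInt ρ S x ↔ (x : M) ∈ DM := fun x => by
    rw [hDM]
    exact (isInt_map (K := M) (ρ := ρ) (S := S) (g := x)).symm
  -- the group acts
  have hτD : ∀ g, ∀ x ∈ DM, τ g x ∈ DM := by
    intro g x hx
    rw [hDMf] at hx ⊢
    obtain ⟨P, hP, hP0⟩ := hx
    refine ⟨P, hP, ?_⟩
    have h1 : (τ g : M →+* M).comp f = f := RingHom.ext fun s => hρ g s
    have h2 := congrArg (τ g : M →+* M) hP0
    rw [hom_eval₂, h1, map_zero] at h2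
    exact h2
  let S' : Subalgebra k M := S.map ρM
  have hS'D : S' ≤ DM := by
    rintro _ ⟨s, hs, rfl⟩
    exact (hDMf _).2 (RingHom.isIntegralElem_map f (x := ⟨s, hs⟩))
  have hS'ft : Algebra.FiniteType k S' := by
    have h1 := Subalgebra.fg_iff_finiteType S |>.2 inferInstance
    exact (Subalgebra.fg_iff_finiteType _).1 (h1.map ρM)
  have hint : ∀ x ∈ DM, IsIntegral S' x := by
    intro x hx
    obtain ⟨P, hP, hP0⟩ := (hDMf x).1 hx
    let φ : S →+* S' := (f.codRestrict S' fun s => ⟨s, s.2, rfl⟩)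
    refine ⟨P.map φ, hP.map φ, ?_⟩
    rw [eval₂_map]
    exact hP0
  -- integrally closed
  have hic : ∀ x : M, IsIntegral DM x → x ∈ DM := by
    intro x hx
    let _ : Algebra S M := f.toAlgebra
    let _ : Algebra S DM := (f.codRestrict DM fun s => hS'D ⟨s, s.2, rfl⟩).toAlgebra
    have _ : IsScalarTower S DM M := IsScalarTower.of_algebraMap_eq fun s => rfl
    have _ : Algebra.IsIntegral S DM := by
      constructor
      intro d
      have h1 : IsIntegral S (algebraMap DM M d) := (hDMf d).1 d.2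
      exact (isIntegral_algebraMap_iff (FaithfulSMul.algebraMap_injective DM M)).1 h1
    exact (hDMf x).2 (isIntegral_trans (R := S) x hx)
  -- the invariants
  let DH : Subalgebra k L := DM.comap L.val
  have hDH : ∀ x : L, x ∈ DH ↔ (x : M) ∈ DM := fun x => Iff.rfl
  let Q : Set DH := {s | ∃ (a : L) (c : ι → k),
    (s : L) * (F - (a ^ p - a + ∑ l, algebraMap k L (c l) * ρ (b0 l))) ∈ DH}
  have hQ : Ideal.span Q = ⊤ := by
    by_contra hne
    obtain ⟨𝔪, hm, hle⟩ := Ideal.exists_le_maximal _ hne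
    -- the maximal ideal of `DM`
    let j : DH →ₐ[k] DM :=
      { toFun := fun x => ⟨((x : L) : M), x.2⟩
        map_one' := rfl
        map_mul' := fun _ _ => rfl
        map_zero' := rfl
        map_add' := fun _ _ => rfl
        commutes' := fun _ => rfl }
    let _ : Algebra DH DM := j.toRingHom.toAlgebra
    have hinjj : Function.Injective (algebraMap DH DM) := by
      intro x y hxy
      apply Subtype.ext
      apply Subtype.ext
      exact congrArg (fun t : DM => (t : M)) hxy
    have hI : Algebra.IsIntegral DH DM := by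
      constructor
      intro x
      obtain ⟨P, hP, hP0⟩ := (hDMf x).1 x.2
      let φ : S →+* DH :=
        { toFun := fun s => ⟨ρ s, hS'D ⟨s, s.2, rfl⟩⟩
          map_one' := Subtype.ext (map_one ρ)
          map_mul' := fun _ _ => Subtype.ext (map_mul ρ _ _)
          map_zero' := Subtype.ext (map_zero ρ)
          map_add' := fun _ _ => Subtype.ext (map_add ρ _ _) }
      refine ⟨P.map φ, hP.map φ, ?_⟩
      rw [eval₂_map]
      apply Subtype.val_injective
      have h1 : f = (DM.val : DM →+* M).comp ((algebraMap DH DM).comp φ) := rfl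
      rw [h1] at hP0
      have h2 := hom_eval₂ P ((algebraMap DH DM).comp φ) (DM.val : DM →+* M) x
      exact h2.trans hP0
    obtain ⟨𝔐, h𝔐m, h𝔐⟩ := Ideal.exists_ideal_over_maximal_of_isIntegral (S := DM) 𝔪 (by
      rw [(RingHom.injective_iff_ker_eq_bot _).1 hinjj]
      exact bot_le)
    have h𝔐p : 𝔐.IsPrime := h𝔐m.isPrime
    obtain ⟨w, c, hw, s, hs, hsw⟩ := hloc 𝔐 h𝔐m
    let bb : L := ∑ l, algebraMap k L (c l) * ρ (b0 l)
    have hbb : (bb : M) = ∑ l, algebraMap k M (c l) * (ρ (b0 l) : M) := by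
      change L.val (∑ l, algebraMap k L (c l) * ρ (b0 l)) = _
      rw [map_sum]
      rfl
    obtain ⟨a, ha, e, he, heH, hea⟩ := desc_core τ p hG hic hτD H (F := ((F - bb : L) : M))
      (v := z - w) (fun g hg => (F - bb : L).2 g hg) (by
        intro g hg hgI
        rw [map_sub, hz g hg, hw g hg hgI]
        ring) hs (by
        have h1 : ((F - bb : L) : M) - ((z - w) ^ p - (z - w)) =
            w ^ p - w - ∑ l, algebraMap k M (c l) * (ρ (b0 l) : M) := by
          change (F : M) - (bb : M) - _ = _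
          rw [hF, hbb, sub_pow_char]
          ring
        rw [h1]
        exact hsw)
    let a' : L := ⟨a, ha⟩
    let e' : L := ⟨e, heH⟩
    have h1 : (⟨e', e.2⟩ : DH) ∈ 𝔪 := by
      refine hle (Ideal.subset_span ⟨a', c, ?_⟩)
      change (e : M) * ((F - (a' ^ p - a' + bb) : L) : M) ∈ DM
      have h2 : ((F - (a' ^ p - a' + bb) : L) : M) = ((F - bb : L) : M) - (a ^ p - a) := by
        change (F : M) - (a ^ p - a + (bb : M)) = (F : M) - (bb : M) - (a ^ p - a)
        ring
      rw [h2]
      exact hea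
    rw [← h𝔐] at h1
    exact he h1
  -- the partition of unity
  have h1 : (1 : DH) ∈ Ideal.span Q := by rw [hQ]; trivial
  obtain ⟨m, α, s, hsum⟩ := Submodule.mem_span_set'.1 h1
  refine ⟨m, fun v => ((s v : DH) : L), fun v => (α v : L), fun v => (hL _).2 (s v : DH).2,
    fun v => (hL _).2 (α v).2, ?_, ?_⟩
  · have h2 := congrArg (fun x : DH => (x : L)) hsum
    change ((∑ i, α i • (s i : DH) : DH) : L) = 1 at h2
    rw [← h2, AddSubmonoidClass.coe_finsetSum]
    rfl
  · intro v
    obtain ⟨a, c, hac⟩ := (s v).2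
    exact ⟨a, c, (hL _).2 hac⟩

end kil

section tower

variable {k M : Type u} [Field k] [PerfectField k] [Field M] [Algebra k M] {G : Type} [Group G]
  [Finite G] (τ : G →* (M ≃ₐ[k] M)) (hinj : Function.Injective τ) (p : ℕ) [Fact p.Prime] [CharP k p]

lemma zc_val {M : Type u} [Field M] [CharP M p] (c : ZMod p) : zc p M c = (c.val : M) := by
  have h1 : ((c.val : ℕ) : ZMod p) = c := ZMod.natCast_zmod_val c
  conv_lhs => rw [← h1]
  exact map_natCast _ _

include hinj in
/-- The towers for all subgroups. -/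
theorem gkt_G {L0 : Type u} [Field L0] [Algebra k L0] (ρ0 : L0 →ₐ[k] fixH τ ⊤)
    (hG : IsPGroup p G) {T0 X ι0 : Type} [Fintype ι0] {B : T0 → Subalgebra k L0}
    (hBft : ∀ s, Algebra.FiniteType k (B s)) {b0 : T0 → ι0 → L0}
    (DM : T0 → Subalgebra k M)
    (hDM : ∀ s x, x ∈ DM s ↔ IsInt ((fixH τ ⊤).val.comp ρ0) (B s) x)
    (hloc : ∀ s (𝔐 : Ideal (DM s)), 𝔐.IsMaximal → ∀ (H : Subgroup G) (χ : G → ZMod p),
      (∀ g ∈ H, ∀ h ∈ H, χ (g * h) = χ g + χ h) → ∃ (w : M) (c : ι0 → k),
      (∀ g ∈ H, g ∈ inert τ (DM s) 𝔐 → τ g w = w + ((χ g).val : M)) ∧ ∃ q : DM s, q ∉ 𝔐 ∧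
        (q : M) * (w ^ p - w - ∑ l, algebraMap k M (c l) * (ρ0 (b0 s l) : M)) ∈ DM s)
    {g : X → L0} (hbase : GKT p k B b0 ρ0 (fun a => ρ0 (g a))) (H : Subgroup G) :
    GKT p k B b0 ((incH τ H).comp ρ0) (fun a => incH τ H (ρ0 (g a))) := by
  classical
  have hcM : CharP M p := charP_of_injective_algebraMap (algebraMap k M).injective p
  have hcard : ∀ (m : ℕ) (H : Subgroup G), Nat.card G - Nat.card H ≤ m →
      GKT p k B b0 ((incH τ H).comp ρ0) (fun a => incH τ H (ρ0 (g a))) := by
    intro m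
    induction m with
    | zero =>
      intro H hH
      have h1 : Nat.card H ≤ Nat.card G :=
        Nat.card_le_card_of_injective _ H.subtype_injective
      have h2 : H = ⊤ := Subgroup.eq_top_of_card_eq H (by omega)
      subst h2
      exact hbase
    | succ m ih =>
      intro H hH
      by_cases hHt : H = ⊤
      · subst hHt
        exact hbase
      obtain ⟨H1, χ, hlt, hχ, hχ0⟩ := exists_char p hG H hHt
      have h1 : Nat.card H < Nat.card H1 := by
        refine lt_of_le_of_ne (Nat.card_le_card_of_injective _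
          (Subgroup.inclusion_injective hlt.le)) ?_
        intro h
        apply hlt.ne
        exact Subgroup.eq_of_le_of_card_ge hlt.le h.ge
      have hprev := ih H1 (by
        have h2 : Nat.card H1 ≤ Nat.card G :=
          Nat.card_le_card_of_injective _ H1.subtype_injective
        omega)
      -- the Artin-Schreier element
      let lam : (M ≃ₐ[k] M) → ZMod p := fun s =>
        if h : ∃ g ∈ H1, τ g = s then χ h.choose else 0
      have hlam : ∀ g ∈ H1, lam (τ g) = χ g := by
        intro g hg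
        have hex : ∃ g' ∈ H1, τ g' = τ g := ⟨g, hg, rfl⟩
        have h2 : lam (τ g) = χ hex.choose := dif_pos hex
        rw [h2]
        congr 1
        exact hinj hex.choose_spec.2
      have hfinm : Finite (H1.map τ) := Finite.of_surjective
        (fun h : H1 => (⟨τ h.1, h.1, h.2, rfl⟩ : H1.map τ)) (by
          rintro ⟨_, g, hg, rfl⟩
          exact ⟨⟨g, hg⟩, rfl⟩)
      obtain ⟨z, hz⟩ := h90 p (H1.map τ) lam (by
        rintro _ ⟨g, hg, rfl⟩ _ ⟨h, hh, rfl⟩
        rw [← map_mul, hlam _ (H1.mul_mem hg hh), hlam _ hg, hlam _ hh, hχ g hg h hh])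
      have hz' : ∀ g ∈ H1, τ g z = z + zc p M (χ g) := by
        intro g hg
        rw [hz _ ⟨g, hg, rfl⟩, hlam g hg]
      let L := fixH τ H1
      let K := fixH τ H
      have hLK : L ≤ K := fixH_anti τ hlt.le
      let _ : Algebra L K := (IntermediateField.inclusion hLK).toRingHom.toAlgebra
      have tLK : IsScalarTower k L K := IsScalarTower.of_algebraMap_eq fun c => rfl
      have hzK : z ∈ K := by
        intro g hg
        rw [hz' g (hlt.le hg), (hχ0 g (hlt.le hg)).2 hg, map_zero, add_zero]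
      have hFL : z ^ p - z ∈ L := by
        intro g hg
        rw [map_sub, map_pow, hz' g hg, add_pow_char, Pool.Agent.W435.WT.Gal.zc_pow]
        ring
      have hkil : ∀ s, KIL p ((incH τ H1).comp ρ0) (B s) (b0 s) (⟨z ^ p - z, hFL⟩ : L) := by
        intro s
        have := hBft s
        refine kil_G τ p hG H1 ((incH τ H1).comp ρ0) (fun g x => (ρ0 x).2 g trivial) (B s)
          (b0 := b0 s) (DM s) (hDM s) χ (fun 𝔐 h𝔐 => hloc s 𝔐 h𝔐 H1 χ hχ) z (fun g hg => by
          rw [hz' g hg, zc_val]) _ rfl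
      have h2 := gkt_stepL (K := K) p hprev (⟨z ^ p - z, hFL⟩ : L) hkil ⟨z, hzK⟩ rfl (by
        rw [eq_top_iff]
        intro y _
        let K1 : IntermediateField k M :=
          ((IntermediateField.adjoin L {(⟨z, hzK⟩ : K)}).restrictScalars k).map K.val
        have h3 : fixH τ H ≤ K1 := by
          refine fix_adjoin τ hinj hlt.le (z := z) ?_ K1 ?_ ?_
          · intro h hh hhz
            rw [hz' h hh] at hhz
            have h4 : zc p M (χ h) = 0 := by linear_combination hhz
            have h5 : χ h = 0 := zc_inj p M (by rw [h4, map_zero])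
            exact (hχ0 h hh).1 h5
          · intro x hx
            exact ⟨⟨x, hLK hx⟩, (IntermediateField.adjoin L {(⟨z, hzK⟩ : K)}).algebraMap_mem
              ⟨x, hx⟩, rfl⟩
          · exact ⟨⟨z, hzK⟩, IntermediateField.mem_adjoin_simple_self L _, rfl⟩
        obtain ⟨y', hy', hyy⟩ := h3 y.2
        have h4 : y' = y := Subtype.ext hyy
        rw [← h4]
        exact hy')
      exact h2
  exact hcard _ H le_rfl

end tower

end Pool.Agent.Zk10.Ram
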