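import Pool.Agent.Zk62.Tw.T2
import Mathlib.Algebra.Group.Shrink

/-!
Galois covers with clean ramification: the models of the intermediate fields.
-/

set_option autoImplicit false
set_option linter.unusedVariables false
set_option linter.unusedSectionVars false

universe u

open Polynomial

namespace Pool.Agent.Zk10.Ram

open Pool.Agent.W558 Pool.Agent.W435.WT.Gal Pool.Agent.Zk10 Pool.Agent.TH214

section main

variable (p : ℕ) [Fact p.Prime] {k K K' : Type u} [Field k] [PerfectField k] [CharP k p] [Field K]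
  [Algebra k K] [Field K'] [Algebra k K'] [Algebra K K'] [IsScalarTower k K K']
  [FiniteDimensional K K'] [IsGalois K K']

/-- The integral closure of a chart. -/
def icl (A : Subalgebra k K) : Subalgebra k K' := (integralClosure A K').restrictScalars k

/-- The models of the intermediate fields of a Galois extension with clean ramification. -/
theorem main_G (hG : IsPGroup p (K' ≃ₐ[K] K')) {T0 I0 ι X : Type} [Finite T0] [Fintype I0]
    [Fintype ι] (M : LM (⊥ : Subalgebra k K) ⊤ T0 I0) {n : T0 → ι → I0 → ℤ} {h : T0 → ι → K}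
    (hN : KC M n h) {g : X → K} {Γ : X → I0 → ℤ} (hGn : Fn M g Γ) (hR : Frc M)
    (hloc : ∀ t (𝔐 : Ideal (icl (K' := K') (M.A t))), 𝔐.IsMaximal →
      ∀ (H : Subgroup (K' ≃ₐ[K] K')) (lam : (K' ≃ₐ[K] K') → ZMod p),
      (∀ σ ∈ H, ∀ x y : icl (K' := K') (M.A t), (y : K') = σ x → y - x ∈ 𝔐) →
      (∀ σ ∈ H, ∀ τ ∈ H, lam (σ * τ) = lam σ + lam τ) → ∃ (w : K') (c : ι → k),
      (∀ σ ∈ H, σ w = w + ((lam σ).val : K')) ∧ ∃ q : icl (K' := K') (M.A t), q ∉ 𝔐 ∧
        (q : K') * (w ^ p - w - ∑ l, algebraMap k K' (c l) * algebraMap K K' (bf M n h t l)) ∈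
          icl (K' := K') (M.A t))
    (L : IntermediateField K K') :
    ∃ (T I : Type) (_ : Finite T) (_ : Fintype I) (M' : LM (⊥ : Subalgebra k L) ⊤ T I)
      (Γ' : X → I → ℤ), Fn M' (fun b => algebraMap K L (g b)) Γ' ∧ Frc M' ∧
        Dm M.A (algebraMap K L) M' := by
  classical
  have hfin : Finite (K' ≃ₐ[K] K') := inferInstance
  let G := Shrink.{0} (K' ≃ₐ[K] K')
  let e : G ≃* (K' ≃ₐ[K] K') := Shrink.mulEquiv
  have hfG : Finite G := Finite.of_equiv _ e.symm.toEquiv
  let τ : G →* (K' ≃ₐ[k] K') := (AlgEquiv.restrictScalarsHom k).comp e.toMonoidHom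
  have hτ : ∀ g x, τ g x = e g x := fun g x => rfl
  have hinj : Function.Injective τ := by
    intro a b hab
    apply e.injective
    apply AlgEquiv.ext
    intro x
    exact DFunLike.congr_fun hab x
  have hG' : IsPGroup p G := hG.of_equiv e.symm
  have hcM : CharP K' p := charP_of_injective_algebraMap (algebraMap k K').injective p
  -- the base
  have hmem : ∀ x : K, algebraMap K K' x ∈ fixH τ ⊤ := fun x g _ => (e g).commutes x
  let ρ0 : K →ₐ[k] fixH τ ⊤ :=
    { toFun := fun x => ⟨algebraMap K K' x, hmem x⟩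
      map_one' := Subtype.ext (map_one _)
      map_mul' := fun x y => Subtype.ext (map_mul _ _ _)
      map_zero' := Subtype.ext (map_zero _)
      map_add' := fun x y => Subtype.ext (map_add _ _ _)
      commutes' := fun c => Subtype.ext (IsScalarTower.algebraMap_apply k K K' c).symm }
  have hbase0 := gkt_base p M hN hGn hR
  let _ : Algebra K (fixH τ ⊤) := ρ0.toRingHom.toAlgebra
  have t1 : IsScalarTower k K (fixH τ ⊤) := IsScalarTower.of_algebraMap_eq fun c => by
    exact (ρ0.commutes c).symm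
  have hsurj : Function.Surjective (algebraMap K (fixH τ ⊤)) := by
    intro y
    have h1 : (y : K') ∈ (⊥ : IntermediateField K K') := by
      rw [IsGalois.mem_bot_iff_fixed]
      intro s
      have h2 := y.2 (e.symm s) trivial
      rw [hτ, MulEquiv.apply_symm_apply] at h2
      exact h2
    obtain ⟨x, hx⟩ := IntermediateField.mem_bot.1 h1
    exact ⟨x, Subtype.ext hx⟩
  have hbase := gkt_iso (K := fixH τ ⊤) p hbase0 hsurj
  have hft : ∀ t, Algebra.FiniteType k (M.A t) := fun t => by
    have := M.sm t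
    infer_instance
  let HL : Subgroup G := L.fixingSubgroup.comap e.toMonoidHom
  have hmain := gkt_G τ hinj p ρ0 hG' (B := M.A) hft (b0 := bf M n h)
    (fun t => icl (K' := K') (M.A t)) (fun s x => Iff.rfl) (by
      intro t 𝔐 h𝔐 H χ hχ
      let H' : Subgroup G := inertH τ (𝔐 := 𝔐) H (by
        intro g x hx
        have h1 : IsIntegral (M.A t) x := hx
        have h2 : IsIntegral (M.A t) ((e g).restrictScalars (M.A t) x) :=
          h1.map ((e g).restrictScalars (M.A t))
        exact h2)
      obtain ⟨w, c, hw, q, hq, hqw⟩ := hloc t 𝔐 h𝔐 (H'.map e.toMonoidHom)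
        (fun s => χ (e.symm s)) (by
          rintro _ ⟨g, hg, rfl⟩ x y hy
          exact hg.2 x y hy) (by
          rintro _ ⟨a, ha, rfl⟩ _ ⟨b, hb, rfl⟩
          change χ (e.symm (e a * e b)) = χ (e.symm (e a)) + χ (e.symm (e b))
          rw [map_mul, MulEquiv.symm_apply_apply, MulEquiv.symm_apply_apply]
          exact hχ a ha.1 b hb.1)
      refine ⟨w, c, fun g hg hg' => ?_, q, hq, hqw⟩
      have h1 := hw (e g) ⟨g, ⟨hg, hg'⟩, rfl⟩
      rw [MulEquiv.symm_apply_apply] at h1
      exact h1) hbase HL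
  -- the intermediate field
  have hmemL : ∀ x : K', x ∈ fixH τ HL ↔ x ∈ L := by
    intro x
    rw [mem_fixH]
    conv_rhs => rw [← IsGalois.fixedField_fixingSubgroup L]
    constructor
    · intro hx s
      have h1 := hx (e.symm s.1) (by
        change e (e.symm s.1) ∈ L.fixingSubgroup
        rw [MulEquiv.apply_symm_apply]
        exact s.2)
      rw [hτ, MulEquiv.apply_symm_apply] at h1
      exact h1
    · intro hx g hg
      exact hx ⟨e g, hg⟩
  let jL : fixH τ HL →+* L :=
    { toFun := fun x => ⟨x, (hmemL x).1 x.2⟩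
      map_one' := rfl
      map_mul' := fun _ _ => rfl
      map_zero' := rfl
      map_add' := fun _ _ => rfl }
  let _ : Algebra (fixH τ HL) L := jL.toAlgebra
  have t2 : IsScalarTower k (fixH τ HL) L := IsScalarTower.of_algebraMap_eq fun c => rfl
  have hsurjL : Function.Surjective (algebraMap (fixH τ HL) L) := fun y =>
    ⟨⟨y, (hmemL y).2 y.2⟩, rfl⟩
  have hfinal := gkt_iso (K := L) p hmain hsurjL
  obtain ⟨T, I, ι', hT, hI, hι, M', n', h', Γ', σ, -, hF, hR', hD, -⟩ := hfinal
  exact ⟨T, I, hT, hI, M', Γ', hF, hR', fun t => ⟨σ t, hD t⟩⟩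

end main

end Pool.Agent.Zk10.Ram
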