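import Pool.Agent.Zk62.Tw.T3

/-!
Descent of local Artin-Schreier normal forms from the inertia field, for arbitrary finite groups
over algebraically closed fields.
-/

set_option autoImplicit false
set_option linter.unusedVariables false
set_option linter.unusedSectionVars false

universe u

open Polynomial

namespace Pool.Agent.Zk10.Ram

open Pool.Agent.W558 Pool.Agent.W435.WT.Gal Pool.Agent.Zk10

section desc

variable {k M : Type u} [Field k] [Field M] [Algebra k M] {G : Type} [Group G] [Finite G]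
  (τ : G →* (M ≃ₐ[k] M)) {DM : Subalgebra k M} {𝔐 : Ideal DM} (p : ℕ) [Fact p.Prime] [CharP M p]

/-- The descent. -/
theorem desc_res [h𝔐p : 𝔐.IsPrime] (hic : ∀ x : M, IsIntegral DM x → x ∈ DM)
    (hτD : ∀ g, ∀ x ∈ DM, τ g x ∈ DM) (H : Subgroup G)
    (hres : ∀ x : DM, ∃ c : k, x - algebraMap k DM c ∈ 𝔐) {F v : M}
    (hF : ∀ g ∈ H, τ g F = F) (hv : ∀ g ∈ H, g ∈ inert τ DM 𝔐 → τ g v = v) {s : DM} (hs : s ∉ 𝔐)
    (hsh : (s : M) * (F - (v ^ p - v)) ∈ DM) :
    ∃ a : M, (∀ g ∈ H, τ g a = a) ∧ ∃ e : DM, e ∉ 𝔐 ∧ (∀ g ∈ H, τ g (e : M) = e) ∧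
      (e : M) * (F - (a ^ p - a)) ∈ DM := by
  classical
  have hp : p.Prime := Fact.out
  have hfG : Fintype G := Fintype.ofFinite G
  let HI := inertH τ (𝔐 := 𝔐) H hτD
  let τD : G → DM →+* DM := fun g =>
    { toFun := fun x => ⟨τ g x, hτD g x x.2⟩
      map_one' := Subtype.ext (map_one (τ g))
      map_mul' := fun x y => Subtype.ext (map_mul (τ g) _ _)
      map_zero' := Subtype.ext (map_zero (τ g))
      map_add' := fun x y => Subtype.ext (map_add (τ g) _ _) }
  have hτ1 : ∀ x : M, τ 1 x = x := fun x => by rw [map_one]; rfl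
  have hτm : ∀ g h (x : M), τ (g * h) x = τ g (τ h x) := fun g h x => by rw [map_mul]; rfl
  have hτD1 : ∀ x : DM, τD 1 x = x := fun x => Subtype.ext (hτ1 _)
  -- separating elements
  have hsep : ∀ γ : G, ∃ y : DM, y ∉ 𝔐 ∧ (γ ∈ H → γ ∉ HI → τD γ y ∈ 𝔐) := by
    intro γ
    by_cases hγ : γ ∈ H ∧ γ ∉ HI
    · obtain ⟨h1, h2⟩ := hγ
      have h3 : γ ∉ inert τ DM 𝔐 := fun h => h2 ⟨h1, h⟩
      simp only [inert, Set.mem_ofPred_eq, not_forall] at h3
      obtain ⟨x, y, hy, hxy⟩ := h3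
      obtain ⟨c, hc⟩ := hres y
      refine ⟨x - algebraMap k DM c, fun h4 => hxy ?_, fun _ _ => ?_⟩
      · have h5 : y - x = (y - algebraMap k DM c) - (x - algebraMap k DM c) := by ring
        rw [h5]
        exact 𝔐.sub_mem hc h4
      · have h5 : τD γ (x - algebraMap k DM c) = y - algebraMap k DM c := by
          apply Subtype.ext
          change τ γ ((x : M) - algebraMap k M c) = (y : M) - algebraMap k M c
          rw [map_sub, AlgEquiv.commutes, hy]
        rw [h5]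
        exact hc
    · refine ⟨1, (Ideal.ne_top_iff_one _).1 h𝔐p.ne_top, fun h1 h2 => absurd ⟨h1, h2⟩ hγ⟩
  choose y hy hyγ using hsep
  let f0 : DM := ∏ γ : G, y γ
  have hf0 : f0 ∉ 𝔐 := by
    intro h
    obtain ⟨γ, -, hγ⟩ := (Ideal.IsPrime.prod_mem_iff (p := 𝔐)).1 h
    exact hy γ hγ
  have hf0γ : ∀ γ ∈ H, γ ∉ HI → τD γ f0 ∈ 𝔐 := by
    intro γ h1 h2
    have h3 : f0 = y γ * ∏ γ' ∈ Finset.univ.erase γ, y γ' :=
      (Finset.mul_prod_erase _ _ (Finset.mem_univ γ)).symm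
    rw [h3, map_mul]
    exact 𝔐.mul_mem_right _ (hyγ γ h1 h2)
  let SI : Finset G := Finset.univ.filter fun g => g ∈ HI
  have hSI : ∀ g, g ∈ SI ↔ g ∈ HI := fun g => by simp [SI]
  let f : DM := ∏ η ∈ SI, τD η (f0 * s)
  have hfM : (f : M) = ∏ η ∈ SI, τ η ((f0 * s : DM) : M) := by
    change ((∏ η ∈ SI, τD η (f0 * s) : DM) : M) = _
    rw [SubmonoidClass.coe_finsetProd]
    rfl
  have hf1 : f = (f0 * s) * ∏ η ∈ SI.erase 1, τD η (f0 * s) := by
    have h1 : (1 : G) ∈ SI := (hSI 1).2 HI.one_mem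
    have h3 := (Finset.mul_prod_erase SI (fun η => τD η (f0 * s)) h1).symm
    simp only [hτD1] at h3
    exact h3
  have hf𝔐 : f ∉ 𝔐 := by
    intro h
    obtain ⟨η, hη, h1⟩ := (Ideal.IsPrime.prod_mem_iff (p := 𝔐)).1 h
    have h2 : τD η (f0 * s) - f0 * s ∈ 𝔐 := ((hSI η).1 hη).2 _ _ rfl
    have h3 : f0 * s ∈ 𝔐 := by
      have h4 : f0 * s = τD η (f0 * s) - (τD η (f0 * s) - f0 * s) := by ring
      rw [h4]
      exact 𝔐.sub_mem h1 h2
    rcases h𝔐p.mem_or_mem h3 with h | h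
    · exact hf0 h
    · exact hs h
  have hfI : ∀ g ∈ HI, τ g (f : M) = f := by
    intro g hg
    rw [hfM, map_prod]
    refine Finset.prod_nbij' (fun h => g * h) (fun h => g⁻¹ * h) ?_ ?_ ?_ ?_ ?_
    · intro h hh
      exact (hSI _).2 (HI.mul_mem hg ((hSI _).1 hh))
    · intro h hh
      exact (hSI _).2 (HI.mul_mem (HI.inv_mem hg) ((hSI _).1 hh))
    · intro h _
      exact inv_mul_cancel_left g h
    · intro h _
      exact mul_inv_cancel_left g h
    · intro h _
      rw [hτm]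
  have hfγ : ∀ γ ∈ H, γ ∉ HI → τD γ f ∈ 𝔐 := by
    intro γ h1 h2
    rw [hf1, map_mul, map_mul]
    exact 𝔐.mul_mem_right _ (𝔐.mul_mem_right _ (hf0γ γ h1 h2))
  have hfh : (f : M) * (F - (v ^ p - v)) ∈ DM := by
    have h1 : (f : M) * (F - (v ^ p - v)) = ((f0 * ∏ η ∈ SI.erase 1, τD η (f0 * s) : DM) : M) *
        ((s : M) * (F - (v ^ p - v))) := by
      rw [hf1]
      push_cast
      ring
    rw [h1]
    exact DM.mul_mem (Subtype.mem _) hsh
  -- the sum over the cosets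
  obtain ⟨T, hT1, hTK, hTs⟩ := exists_transversal2.{u} (HI.subgroupOf H)
  have hTout : ∀ γ ∈ T.erase 1, γ.1 ∉ HI := by
    intro γ hγ hcon
    refine (Finset.ne_of_mem_erase hγ) (hTK 1 hT1 γ (Finset.mem_of_mem_erase hγ)
      (Subgroup.mem_subgroupOf.2 ?_)).symm
    rw [inv_one, one_mul]
    exact hcon
  let u : DM := ∑ γ ∈ T, τD γ.1 f
  have huM : (u : M) = ∑ γ ∈ T, τ γ.1 (f : M) := by
    change ((∑ γ ∈ T, τD γ.1 f : DM) : M) = _
    rw [AddSubmonoidClass.coe_finsetSum]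
    rfl
  have hu𝔐 : u ∉ 𝔐 := by
    intro h1
    apply hf𝔐
    have h2 : f = u - ∑ γ ∈ T.erase 1, τD γ.1 f := by
      have h3 : u = τD 1 f + ∑ γ ∈ T.erase 1, τD γ.1 f := (Finset.add_sum_erase _ _ hT1).symm
      rw [h3, add_sub_cancel_right, hτD1]
    rw [h2]
    exact 𝔐.sub_mem h1 (𝔐.sum_mem fun γ hγ => hfγ _ γ.2 (hTout γ hγ))
  have hinv : ∀ q : M, (∀ g ∈ HI, τ g q = q) → ∀ g ∈ H, τ g (∑ γ ∈ T, τ γ.1 q) =
      ∑ γ ∈ T, τ γ.1 q := by
    intro q hq g hg
    have h1 := hTs M (fun γ : H => τ γ.1 q) (fun γ ι hι => by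
      rw [Subgroup.mem_subgroupOf] at hι
      change τ (γ.1 * ι.1) q = τ γ.1 q
      rw [hτm, hq _ hι]) ⟨g, hg⟩
    rw [map_sum]
    refine Eq.trans (Finset.sum_congr rfl fun γ _ => ?_) h1
    change _ = τ (g * γ.1) q
    rw [hτm]
  have huH : ∀ g ∈ H, τ g (u : M) = u := by
    intro g hg
    rw [huM]
    exact hinv _ hfI g hg
  have hu0 : (u : M) ≠ 0 := by
    intro h0
    apply hu𝔐
    have : u = 0 := Subtype.ext h0
    rw [this]
    exact 𝔐.zero_mem
  let N : M := ∑ γ ∈ T, τ γ.1 ((f : M) * v)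
  have hNH : ∀ g ∈ H, τ g N = N := hinv _ fun g hg => by
    rw [map_mul, hfI g hg, hv g hg.1 hg.2]
  let a : M := (u : M)⁻¹ * N
  have haN : (u : M) * a = N := mul_inv_cancel_left₀ hu0 N
  have haH : ∀ g ∈ H, τ g a = a := by
    intro g hg
    change τ g ((u : M)⁻¹ * N) = _
    rw [map_mul, map_inv₀, huH g hg, hNH g hg]
  refine ⟨a, haH, u ^ p, fun h => hu𝔐 (h𝔐p.mem_of_pow_mem p h), fun g hg => by
    rw [SubmonoidClass.coe_pow, map_pow, huH g hg], ?_⟩
  -- the Artin-Schreier ring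
  let Pol : M[X] := X ^ p - (X + C F)
  have hmon : Pol.Monic := by
    apply monic_X_pow_sub
    rw [degree_X_add_C]
    exact_mod_cast hp.one_lt
  have hdeg : Pol.degree ≠ 0 := by
    have h1 : Pol.degree = p := by
      have h2 : (X + C F : M[X]).degree < ((X : M[X]) ^ p).degree := by
        rw [degree_X_add_C, degree_X_pow]
        exact_mod_cast hp.one_lt
      rw [degree_sub_eq_left_of_degree_lt h2, degree_X_pow]
    rw [h1]
    exact_mod_cast hp.ne_zero
  let R := AdjoinRoot Pol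
  have hinj : Function.Injective (algebraMap M R) := AdjoinRoot.of.injective_of_degree_ne_zero hdeg
  have hcR : CharP R p := charP_of_injective_algebraMap hinj p
  let x : R := AdjoinRoot.root Pol
  have hx : x ^ p = x + algebraMap M R F := by
    have h1 : aeval x Pol = 0 := by
      rw [AdjoinRoot.aeval_eq, AdjoinRoot.mk_self]
    rw [map_sub, map_add, map_pow, aeval_X, aeval_C] at h1
    exact sub_eq_zero.1 h1
  let j := algebraMap M R
  have hjD : ∀ d : DM, IsIntegral DM (j d) := fun d => by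
    have h1 : j d = algebraMap DM R d := (IsScalarTower.algebraMap_apply DM M R d).symm
    rw [h1]
    exact isIntegral_algebraMap
  have hy1 : ∀ γ ∈ H, IsIntegral DM (j (τ γ (f : M)) * (x - j (τ γ v))) := by
    intro γ hγ
    let α : DM := τD γ f ^ (p - 1)
    have hβ : τ γ (f : M) ^ p * (F - ((τ γ v) ^ p - τ γ v)) ∈ DM := by
      have h1 : τ γ (f : M) ^ p * (F - ((τ γ v) ^ p - τ γ v)) =
          τ γ (f : M) ^ (p - 1) * τ γ ((f : M) * (F - (v ^ p - v))) := by
        rw [map_mul, map_sub, map_sub, map_pow, hF γ hγ, ← mul_assoc, ← pow_succ,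
          Nat.sub_add_cancel hp.one_le]
      rw [h1]
      exact DM.mul_mem (DM.pow_mem (hτD _ _ f.2) _) (hτD _ _ hfh)
    let β : DM := ⟨_, hβ⟩
    refine ⟨X ^ p - (C α * X + C β), ?_, ?_⟩
    · apply monic_X_pow_sub
      refine lt_of_le_of_lt degree_linear_le ?_
      exact_mod_cast hp.one_lt
    · rw [← aeval_def]
      rw [map_sub, map_add, map_mul, map_pow, aeval_X, aeval_C, aeval_C]
      have h1 : algebraMap DM R α = j (τ γ (f : M)) ^ (p - 1) := by
        rw [IsScalarTower.algebraMap_apply DM M R]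
        change j ((τD γ f ^ (p - 1) : DM) : M) = _
        rw [SubmonoidClass.coe_pow, map_pow]
        rfl
      have h2 : algebraMap DM R β = j (τ γ (f : M)) ^ p * (j F - ((j (τ γ v)) ^ p - j (τ γ v))) := by
        rw [IsScalarTower.algebraMap_apply DM M R]
        change j (τ γ (f : M) ^ p * (F - ((τ γ v) ^ p - τ γ v))) = _
        rw [map_mul, map_pow, map_sub, map_sub, map_pow]
      rw [h1, h2, mul_pow, sub_pow_char, hx, ← mul_assoc, ← pow_succ, Nat.sub_add_cancel hp.one_le]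
      ring
  have hY : IsIntegral DM (j u * x - j N) := by
    have h1 : j u * x - j N = ∑ γ ∈ T, j (τ γ.1 (f : M)) * (x - j (τ γ.1 v)) := by
      rw [huM]
      change j (∑ γ ∈ T, τ γ.1 (f : M)) * x - j (∑ γ ∈ T, τ γ.1 ((f : M) * v)) = _
      rw [map_sum, map_sum, Finset.sum_mul, ← Finset.sum_sub_distrib]
      refine Finset.sum_congr rfl fun γ _ => ?_
      rw [map_mul (τ γ.1), map_mul]
      ring
    rw [h1]
    exact IsIntegral.sum _ fun γ _ => hy1 _ γ.2
  have h1 : j ((u : M) ^ p * (F - (a ^ p - a))) = (j u * x - j N) ^ p -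
      j u ^ (p - 1) * (j u * x - j N) := by
    have h2 : j u ^ (p - 1) * j u = j u ^ p := by
      rw [← pow_succ, Nat.sub_add_cancel hp.one_le]
    have h3 : j N = j u * j a := by rw [← haN, map_mul]
    have h4 : j ((u : M) ^ p * (F - (a ^ p - a))) = j u ^ p * (j F - (j a ^ p - j a)) := by
      rw [map_mul, map_pow, map_sub, map_sub, map_pow]
    rw [h4, h3, sub_pow_char, mul_pow, mul_pow, hx]
    linear_combination (x - j a) * h2
  apply hic
  rw [← isIntegral_algebraMap_iff hinj]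
  change IsIntegral DM (j (((u ^ p : DM) : M) * (F - (a ^ p - a))))
  rw [SubmonoidClass.coe_pow, h1]
  exact (hY.pow p).sub ((hjD u).pow _ |>.mul hY)

end desc

end Pool.Agent.Zk10.Ram
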