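import Pool.Agent.Zk62.Tw.U9

/-!
Curves with a group action: models with a family of functions.
-/

set_option autoImplicit false
set_option linter.unusedVariables false
set_option linter.unusedSectionVars false

universe u

namespace Pool.Agent.Zk10.Cur

open Pool.Agent.W558 Pool.Agent.H920R2 Pool.Agent.Zk10.Ram Polynomial IntermediateField
  Pool.Agent.W435.WT.Gal Pool.Agent.Zk10 Pool.Agent.W177.WD Pool.Agent.TH214

section pack

variable {k E : Type u} [Field k] [IsAlgClosed k] [Field E] [Algebra k E]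
  {F : IntermediateField k E}

/-- The center of a valuation of the quotient. -/
lemma center_F {A A' : Subalgebra k F} [IsDedekindDomain A'] [Algebra.FiniteType k A']
    [IsFractionRing A' F] (hle : A ≤ A') {𝔪 : Ideal A} {x : F} (hxA : x ∈ A') (hx0 : x ≠ 0)
    (hcl : ∀ V : ValuationSubring E, (∀ z ∈ DD (E := E) A', z ∈ V) →
      V.valuation (x : E) < 1 → ∀ a : A, a ∈ 𝔪 ↔ V.valuation ((a : F) : E) < 1)
    {W : ValuationSubring F} (hW : ∀ a ∈ A', a ∈ W) (hx : W.valuation x < 1) (a : A) :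
    a ∈ 𝔪 ↔ W.valuation (a : F) < 1 := by
  obtain ⟨P, hPp, hP, hP0⟩ := exists_center (k := k) (D := A') (V := W) hW
  have hxP : (⟨x, hxA⟩ : A') ∈ P := (hP _).2 hx
  have hP0' : P ≠ ⊥ := by
    intro h
    rw [h, Ideal.mem_bot] at hxP
    exact hx0 (congrArg Subtype.val hxP)
  have hPm : P.IsMaximal := hPp.isMaximal hP0'
  obtain ⟨V, hV1, hV2⟩ := exists_over (E := E) P hPp.ne_top
  have hVP : ∀ b : A', b ∈ P ↔ V.valuation ((b : F) : E) < 1 := by
    intro b
    refine ⟨hV2 b, fun hb => ?_⟩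
    by_contra hcon
    obtain ⟨c, d, hd, e⟩ := hPm.exists_inv hcon
    have h1 : V.valuation ((1 : F) : E) < 1 := by
      have h2 : ((1 : F) : E) = (((c : A') : F) : E) * ((b : F) : E) + (((d : A') : F) : E) := by
        have h3 := congrArg (fun z : A' => ((z : F) : E)) e
        exact h3.symm
      rw [h2]
      refine Valuation.map_add_lt _ ?_ (hV2 d hd)
      rw [mul_comm]
      exact v_lt_mul hb (hV1 _ c.2)
    have h4 : ((1 : F) : E) = 1 := rfl
    rw [h4, map_one] at h1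
    exact lt_irrefl _ h1
  have hVx : V.valuation (x : E) < 1 := (hVP ⟨x, hxA⟩).1 hxP
  have h5 := hcl V (fun z hz => int_mem hV1 hz) hVx a
  rw [h5, ← hVP ⟨a, hle a.2⟩]
  exact hP ⟨a, hle a.2⟩

variable [Algebra.EssFiniteType k E] {Γ : Subgroup (E ≃ₐ[k] E)} [Finite Γ]
  (hF : ∀ x, x ∈ F ↔ FX Γ x)

include hF in
/-- The model of the quotient of a curve, with the local functions and a family of functions. -/
theorem curve_packF (p : ℕ) [Fact p.Prime] [CharP k p] (htr : Algebra.trdeg k E = 1)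
    (hGA : ∀ V : ValuationSubring E, (∀ c : k, algebraMap k E c ∈ V) → V ≠ ⊤ → GA p Γ F V)
    {B : Type} [Finite B] (c : B → F) (hc : ∀ b, c b ≠ 0) :
    ∃ (T I : Type) (_ : Finite T) (_ : Fintype I) (M : LM (⊥ : Subalgebra k F) ⊤ T I)
      (n : T → Unit → I → ℤ) (h : T → Unit → F) (Λ : B → I → ℤ), KC M n h ∧ Fn M c Λ ∧ Frc M ∧
      ∀ t (𝔐 : Ideal (DD (E := E) (M.A t))), 𝔐.IsMaximal →
        PG p Γ (DD (E := E) (M.A t)) 𝔐 ((bf M n h t () : F) : E) := by
  classical
  have hfB : Fintype B := Fintype.ofFinite B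
  obtain ⟨hsep, hfin⟩ := sep_fix hF
  have halg : Algebra.IsAlgebraic F E := Algebra.IsSeparable.isAlgebraic _ _
  have hess := essFiniteType_sub F
  have hp : p.Prime := Fact.out
  obtain ⟨u, huF, huE, hu, huc⟩ := exists_uF2 hF hp (CharP.cast_eq_zero k p) htr
    (Finset.univ.image c ∪ Finset.univ.image fun b => (c b)⁻¹)
  obtain ⟨T, hT, M, hFrc, hDed, hCq, hS⟩ := exists_curveM huF ∅
  have hFr : ∀ t, IsFractionRing (M.A t) F := fun t => isFrac_of (hFrc t)
  have hft : ∀ t, Algebra.FiniteType k (M.A t) := fun t => by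
    have := M.sm t
    infer_instance
  have hnc : ∀ t, ∃ y ∈ M.A t, ∀ c : k, y ≠ algebraMap k F c := by
    intro t
    by_contra hcon
    push Not at hcon
    apply huF.1
    obtain ⟨a, ha, b, hb, hb0, e⟩ := hFrc t u
    obtain ⟨c, rfl⟩ := hcon a ha
    obtain ⟨d, rfl⟩ := hcon b hb
    rw [e, ← map_inv₀, ← map_mul]
    exact isAlgebraic_algebraMap _
  let Q : T → F → Prop := fun t f => (∃ (m : ℕ) (h : F), h ∈ adj (M.A t) f⁻¹ ∧
    (m = 0 ∨ (¬ p ∣ m ∧ h ≠ 0 ∧ h⁻¹ ∈ adj (M.A t) f⁻¹)) ∧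
      ∀ 𝔐 : Ideal (DD (E := E) (adj (M.A t) f⁻¹)), 𝔐.IsMaximal →
        PG p Γ (DD (E := E) (adj (M.A t) f⁻¹)) 𝔐 (((M.x t ()) ^ (-(m : ℤ)) * h : F) : E)) ∧
    ∀ V W : ValuationSubring F, (∀ a ∈ adj (M.A t) f⁻¹, a ∈ V) →
      (∀ a ∈ adj (M.A t) f⁻¹, a ∈ W) → V.valuation (M.x t ()) < 1 →
      W.valuation (M.x t ()) < 1 → V = W
  obtain ⟨J, hJ, d, M1, -, hx, hmem, hne, hQ, hA⟩ := Pool.Agent.N98.exists_refine_local M Q (by
    intro t 𝔪 hm
    have i1 := hDed t
    have i2 := hFr t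
    have i3 := hft t
    have i4 : Ideal.IsMaximal (𝔪 : Ideal (M.A t)) := hm
    obtain ⟨f, hf, h1, hf0, hcl, m, h, h3, h4, h5⟩ := good_chart hF p (hnc t) (M.xA t ())
      (M.x0 t ()) (hCq t) hu hGA (𝔪 : Ideal (M.A t))
    have j1 : IsDedekindDomain (adj (M.A t) f⁻¹) := dedekind_adj hf hf0
    have j2 : IsFractionRing (adj (M.A t) f⁻¹) F := by
      refine isFrac_of fun y => ?_
      obtain ⟨a, ha, b, hb, hb0, e⟩ := hFrc t y
      exact ⟨a, le_adj _ _ ha, b, le_adj _ _ hb, hb0, e⟩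
    have j3 : Algebra.FiniteType k (adj (M.A t) f⁻¹) := finiteType_adj _
    refine ⟨⟨f, hf⟩, h1, ⟨m, h, h3, h4, h5⟩, ?_⟩
    intro V W hV hW hxV hxW
    have key : ∀ (V : ValuationSubring F), (∀ a ∈ adj (M.A t) f⁻¹, a ∈ V) →
        V.valuation (M.x t ()) < 1 → ∀ a : M.A t, a ∈ (𝔪 : Ideal (M.A t)) ↔
          V.valuation (a : F) < 1 := fun V hV hx a =>
      center_F (le_adj _ _) (le_adj _ _ (M.xA t ())) (M.x0 t ()) hcl hV hx a
    refine eq_of_center (D := M.A t) (fun a ha => hV a (le_adj _ _ ha))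
      (fun a ha => hW a (le_adj _ _ ha)) fun a ha => ?_
    rw [← key V hV hxV ⟨a, ha⟩, ← key W hW hxW ⟨a, ha⟩])
  choose hQ1 hQ2 using hQ
  choose m h h1 h2 h3 using hQ1
  have hA' : ∀ q : T × J, M1.A q = adj (M.A q.1) (d q.1 q.2)⁻¹ := hA
  have hx' : ∀ q : T × J, M1.x q () = M.x q.1 () := fun q => by rw [hx]
  have hFrc1 : Frc M1 := by
    intro q y
    obtain ⟨a, ha, b, hb, hb0, e⟩ := hFrc q.1 y
    refine ⟨a, ?_, b, ?_, hb0, e⟩
    · rw [hA']; exact le_adj _ _ ha
    · rw [hA']; exact le_adj _ _ hb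
  have hfJ : Fintype (T × J) := Fintype.ofFinite _
  obtain ⟨M2, Λ, hM2, hFn, hcase⟩ := split_div M1 (fun q => by
      rw [hA']
      have i1 := hDed q.1
      exact dedekind_adj (hmem _ _) (hne _ _)) hFrc1 (fun q V W hV hW hxV hxW => by
      rw [hA'] at hV hW
      rw [hx'] at hxV hxW
      exact hQ2 q.1 q.2 V W hV hW hxV hxW) (u := u) (fun q => by
      rw [hx', hA']
      exact (hCq q.1).mono (le_adj _ _)) c hc (fun W hk huW b => by
      refine ⟨huc W hk huW _ ?_, huc W hk huW _ ?_⟩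
      · exact Finset.mem_union_left _ (Finset.mem_image.2 ⟨b, Finset.mem_univ _, rfl⟩)
      · exact Finset.mem_union_right _ (Finset.mem_image.2 ⟨b, Finset.mem_univ _, rfl⟩))
  have hA2 : ∀ q : T × J, M2.A q = adj (M.A q.1) (d q.1 q.2)⁻¹ := fun q => by rw [hM2, hA']
  have hcase' : ∀ q : T × J, ∃ i0 : Option (T × J), (i0 = none → (M.x q.1 ())⁻¹ ∈ M2.A q) ∧
      (∀ i, i0 ≠ some i → M2.x q i = 1) ∧ ∀ i, i0 = some i → M2.x q i = M.x q.1 () := by
    intro q
    rcases hcase q with ⟨h4, h5⟩ | ⟨i, h4, h5⟩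
    · refine ⟨none, fun _ => ?_, fun i _ => h4 i, fun i h => by simp at h⟩
      rw [hx'] at h5
      rw [hM2]
      exact h5
    · refine ⟨some i, fun h => by simp at h, fun j hj => h5 j fun h => hj (by rw [h]), ?_⟩
      intro j hj
      rw [← Option.some.inj hj, h4, hx']
  choose i0 hi1 hi2 hi3 using hcase'
  let h' : T × J → F := fun q => if i0 q = none then (M.x q.1 ()) ^ (-(m q.1 q.2 : ℤ)) * h q.1 q.2
    else h q.1 q.2
  have hh' : ∀ q, h' q ∈ M2.A q := by
    intro q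
    change (if i0 q = none then (M.x q.1 ()) ^ (-(m q.1 q.2 : ℤ)) * h q.1 q.2
      else h q.1 q.2) ∈ M2.A q
    split_ifs with hc0
    · refine (M2.A q).mul_mem ?_ ?_
      · rw [zpow_neg, zpow_natCast, ← inv_pow]
        exact (M2.A q).pow_mem (hi1 q hc0) _
      · rw [hA2]; exact h1 q.1 q.2
    · rw [hA2]; exact h1 q.1 q.2
  have hKC := kc_split p M2 (fun q => m q.1 q.2) i0 h' hh' hi2 (by
    intro q hq
    have hne : i0 q ≠ none := by
      intro h0
      rw [h0] at hq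
      simp at hq
    have e : h' q = h q.1 q.2 := if_neg hne
    rw [e, hA2]
    exact h2 q.1 q.2)
  refine ⟨T × J, T × J, inferInstance, hfJ, M2, _, _, Λ, hKC, hFn, ?_, ?_⟩
  · intro q y
    rw [hM2]
    exact hFrc1 q y
  · intro q
    have hb : bf M2 (nS (fun q => m q.1 q.2) i0) (fun q _ => h' q) q () =
        M.x q.1 () ^ (-(m q.1 q.2 : ℤ)) * h q.1 q.2 := by
      unfold bf
      rcases hc0 : i0 q with _ | i
      · have e1 : ∏ i, M2.x q i ^ nS (fun q : T × J => m q.1 q.2) i0 q () i = 1 := by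
          refine Finset.prod_eq_one fun i _ => ?_
          rw [hi2 q i (by rw [hc0]; simp), one_zpow]
        have e2 : h' q = M.x q.1 () ^ (-(m q.1 q.2 : ℤ)) * h q.1 q.2 := if_pos hc0
        rw [e1, one_mul]
        exact e2
      · have e1 : ∏ i, M2.x q i ^ nS (fun q : T × J => m q.1 q.2) i0 q () i =
            M.x q.1 () ^ (-(m q.1 q.2 : ℤ)) := by
          rw [Finset.prod_eq_single i]
          · rw [hi3 q i hc0]
            unfold nS
            rw [if_pos hc0]
          · intro j _ hj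
            rw [hi2 q j (by
              rw [hc0]
              intro h
              exact hj (Option.some.inj h).symm), one_zpow]
          · intro h
            exact absurd (Finset.mem_univ _) h
        have e2 : h' q = h q.1 q.2 := if_neg (by rw [hc0]; simp)
        rw [e1]
        exact congrArg _ e2
    rw [hb, hA2]
    exact h3 q.1 q.2

end pack

end Pool.Agent.Zk10.Cur
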