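import Pool.Agent.Zk62.Tw.U10
import Pool.Agent.Zk10.U11
import Pool.Agent.Zk10.U13
import Pool.Agent.Zk10.U14

/-!
Towers for the fixed fields on products.
-/

set_option autoImplicit false
set_option linter.unusedVariables false
set_option linter.unusedSectionVars false

universe u

namespace Pool.Agent.Zk10.Act

open Pool.Agent.W558 Pool.Agent.W558.WT Polynomial TensorProduct Pool.Agent.Zk10.Ram
  Pool.Agent.Zk10.Cur

section cmx

variable {k D D' : Type u} [Field k] [CommRing D] [Algebra k D] [CommRing D'] [Algebra k D']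

/-- Preimages of points are points. -/
lemma comap_max (f : D →+* D') (hf : ∀ c : k, f (algebraMap k D c) = algebraMap k D' c)
    (𝔐 : Ideal D') (h1 : 𝔐 ≠ ⊤) (h2 : ∀ x : D', ∃ c : k, x - algebraMap k D' c ∈ 𝔐) :
    (𝔐.comap f).IsMaximal := by
  rw [Ideal.isMaximal_iff]
  constructor
  · intro h
    rw [Ideal.mem_comap, map_one] at h
    exact h1 ((Ideal.eq_top_iff_one _).2 h)
  · intro J x hJ hx hxJ
    obtain ⟨c, hc⟩ := h2 (f x)
    have h3 : x - algebraMap k D c ∈ 𝔐.comap f := by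
      rw [Ideal.mem_comap, map_sub, hf]
      exact hc
    have hc0 : c ≠ 0 := by
      rintro rfl
      rw [map_zero, sub_zero] at h3
      exact hx h3
    have h4 : algebraMap k D c ∈ J := by
      have h5 := J.sub_mem hxJ (hJ h3)
      rwa [sub_sub_cancel] at h5
    have h6 := J.mul_mem_left (algebraMap k D c⁻¹) h4
    rwa [← map_mul, inv_mul_cancel₀ hc0, map_one] at h6

end cmx

section main

variable {k : Type u} [Field k] [IsAlgClosed k] (p : ℕ) [Fact p.Prime] [CharP k p] {n : ℕ}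
  {K : Fin n → Type u} [∀ i, Field (K i)] [∀ i, Algebra k (K i)] {E : Type u} [Field E]
  [Algebra k E] (e : ∀ i, K i →ₐ[k] E) {P C : Type} [Group P] [Finite P] [Group C] [Finite C]
  (τ : P × C →* (E ≃ₐ[k] E)) (hinj : Function.Injective τ)
  (σ : ∀ i, P × C →* (K i ≃ₐ[k] K i)) (hτ : ∀ g i x, τ g (e i x) = e i (σ i g x))
  (hσinj : ∀ g, (∀ i, σ i g = 1) → g = 1)
  (F : ∀ i, IntermediateField k (K i))

include hinj hτ hσinj in
/-- The towers over the model of the product. -/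
theorem gkt_prod (hG : IsPGroup p P) {T I : Fin n → Type} [∀ i, Fintype (I i)]
    (M : ∀ i, LM (⊥ : Subalgebra k (F i)) ⊤ (T i) (I i)) (nn : ∀ i, T i → Unit → I i → ℤ)
    (hh : ∀ i, T i → Unit → F i)
    (hPG : ∀ i t (𝔐 : Ideal (DD (E := K i) ((M i).A t))), 𝔐.IsMaximal →
      PG p (σ i).range (DD (E := K i) ((M i).A t)) 𝔐 ((bf (M i) (nn i) (hh i) t () : F i) : K i))
    {L0 : Type u} [Field L0] [Algebra k L0] (e' : ∀ i, F i →ₐ[k] L0)
    (ρ0 : L0 →ₐ[k] fixH τ ⊤) (he' : ∀ i x, ((ρ0 (e' i x) : fixH τ ⊤) : E) = e i (x : K i))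
    {T0 I0 : Type} [Fintype I0] (M0 : LM (⊥ : Subalgebra k L0) ⊤ T0 I0)
    (n0 : T0 → Fin n → I0 → ℤ) (h0 : T0 → Fin n → L0) (sT : T0 → ∀ i, T i)
    (hle : ∀ t i, ∀ a ∈ (M i).A (sT t i), e' i a ∈ M0.A t)
    (hbf : ∀ t i, bf M0 n0 h0 t i = e' i (bf (M i) (nn i) (hh i) (sT t i) ()))
    {X : Type} {g : X → L0} (hbase : GKT p k M0.A (bf M0 n0 h0) ρ0 (fun a => ρ0 (g a)))
    (Q : Subgroup P) :
    GKT p k M0.A (bf M0 n0 h0) ((incH τ (qC Q)).comp ρ0)
      (fun a => incH τ (qC Q) (ρ0 (g a))) := by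
  classical
  let ρM : L0 →ₐ[k] E := (fixH τ ⊤).val.comp ρ0
  let f : ∀ t, M0.A t →+* E := fun t => (ρM : L0 →+* E).comp (algebraMap (M0.A t) L0)
  let DM : T0 → Subalgebra k E := fun t =>
    { carrier := {x | (f t).IsIntegralElem x}
      mul_mem' := fun ha hb => RingHom.IsIntegralElem.mul (f t) ha hb
      add_mem' := fun ha hb => RingHom.IsIntegralElem.add (f t) ha hb
      algebraMap_mem' := fun c => by
        have h1 : algebraMap k E c = f t (algebraMap k (M0.A t) c) := by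
          change _ = ρM (algebraMap k L0 c)
          rw [AlgHom.commutes]
        rw [h1]
        exact RingHom.isIntegralElem_map (f t) }
  have hDM : ∀ t (x : E), x ∈ DM t ↔ IsInt ((fixH τ ⊤).val.comp ρ0) (M0.A t) x :=
    fun t x => Iff.rfl
  have hft : ∀ t, Algebra.FiniteType k (M0.A t) := fun t => by
    have := M0.sm t
    infer_instance
  refine gkt_PC τ hinj p ρ0 hG hft DM hDM ?_ hbase Q
  intro t 𝔐 h𝔐 H χ hχ
  have h𝔐p : 𝔐.IsPrime := h𝔐.isPrime
  have hτD : ∀ g, ∀ x ∈ DM t, τ g x ∈ DM t := by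
    rintro g x ⟨P, hP, hP0⟩
    refine ⟨P, hP, ?_⟩
    have h1 : (τ g : E →+* E).comp (f t) = f t :=
      RingHom.ext fun s => (ρ0 (s : L0)).2 g trivial
    have h2 := congrArg (τ g : E →+* E) hP0
    rw [hom_eval₂, h1, map_zero] at h2
    exact h2
  let S' : Subalgebra k E := (M0.A t).map ρM
  have hS'D : S' ≤ DM t := by
    rintro _ ⟨s, hs, rfl⟩
    exact RingHom.isIntegralElem_map (f t) (x := ⟨s, hs⟩)
  have hS'ft : Algebra.FiniteType k S' := by
    have h1 := Subalgebra.fg_iff_finiteType (M0.A t) |>.2 (hft t)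
    exact (Subalgebra.fg_iff_finiteType _).1 (h1.map ρM)
  have hint : ∀ x ∈ DM t, IsIntegral S' x := by
    rintro x ⟨P, hP, hP0⟩
    let φ : M0.A t →+* S' := ((f t).codRestrict S' fun s => ⟨s, s.2, rfl⟩)
    refine ⟨P.map φ, hP.map φ, ?_⟩
    rw [eval₂_map]
    exact hP0
  have hres := exists_residue hS'D hint 𝔐
  have he : ∀ i, ∀ x ∈ DD (E := K i) ((M i).A (sT t i)), e i x ∈ DM t := by
    intro i x hx
    obtain ⟨Q, hQ, hQ0⟩ := hx
    let ψ : (M i).A (sT t i) →+* M0.A t :=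
      { toFun := fun a => ⟨e' i a, hle t i a a.2⟩
        map_one' := Subtype.ext (map_one (e' i))
        map_mul' := fun a b => Subtype.ext (map_mul (e' i) _ _)
        map_zero' := Subtype.ext (map_zero (e' i))
        map_add' := fun a b => Subtype.ext (map_add (e' i) _ _) }
    refine ⟨Q.map ψ, hQ.map ψ, ?_⟩
    rw [eval₂_map]
    have h1 := congrArg (e i) hQ0
    rw [map_zero] at h1
    have h2 : (f t).comp ψ = (e i : K i →+* E).comp ((algebraMap (F i) (K i)).comp
          (algebraMap ((M i).A (sT t i)) (F i))) := by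
      apply RingHom.ext
      intro a
      exact he' i a
    rw [h2, ← h1]
    exact (hom_eval₂ Q _ (e i : K i →+* E) x).symm
  obtain ⟨w, c, hw, q, hq, hqw⟩ := loc_prod e τ σ hτ hσinj p (𝔐 := 𝔐) he
    (b := fun i => ((bf (M i) (nn i) (hh i) (sT t i) () : F i) : K i)) (fun i =>
      hPG i (sT t i) _ (comap_max (eD e he i) (fun c => Subtype.ext ((e i).commutes c)) 𝔐
        h𝔐.ne_top hres)) H χ hχ hτD
  refine ⟨w, c, hw, q, hq, ?_⟩
  have h5 : ∀ l, (ρ0 (bf M0 n0 h0 t l) : E) =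
      e l ((bf (M l) (nn l) (hh l) (sT t l) () : F l) : K l) := by
    intro l
    rw [hbf, he']
  simp only [h5]
  exact hqw

end main

end Pool.Agent.Zk10.Act
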