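import Pool.Agent.Zk62.Tw.U16
import Pool.Agent.Zk62.Tw.U7

/-!
Factors: curves and surfaces.
-/

set_option autoImplicit false
set_option linter.unusedVariables false
set_option linter.unusedSectionVars false

universe u

open Polynomial

namespace Pool.Agent.Zk10.Act

open Pool.Agent.W558 Pool.Agent.W558.WT Pool.Agent.Zk10.Ram Pool.Agent.Zk10.Cur
  Pool.Agent.TH214 Pool.Agent.TH214.Q Pool.Agent.W177.WD Pool.Agent.W435.WT.Gal

section grp

variable {G : Type*} [Group G] {p N : ℕ} [Fact p.Prime] {I : Subgroup G}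

/-- The projection to the `p`-part, if it is cyclic of order `p` or trivial. -/
lemma exists_eps (hN : Prj p N I)
    (hA : ∃ s0 ∈ I, s0 ^ p = 1 ∧ ∀ s ∈ I, ∃ j : ℕ, s ^ N = s0 ^ j) :
    ∃ ε : G → ZMod p, (∀ s ∈ I, ∀ t ∈ I, ε (s * t) = ε s + ε t) ∧
      ∀ s ∈ I, ε s = 0 → ∃ m : ℕ, ¬ p ∣ m ∧ s ^ m = 1 := by
  classical
  have hp : p.Prime := Fact.out
  obtain ⟨s0, hs0, hs0p, hgen⟩ := hA
  by_cases h1 : s0 = 1
  · refine ⟨fun _ => 0, fun _ _ _ _ => (add_zero _).symm, fun s hs _ => ?_⟩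
    obtain ⟨j, hj⟩ := hgen s hs
    obtain ⟨m, hm, hm1⟩ := hN.pc s hs
    rw [hj, h1, one_pow, inv_one, mul_one] at hm1
    exact ⟨m, hm, hm1⟩
  have hord : orderOf s0 = p := orderOf_eq_prime hs0p h1
  have hjj : ∀ a b : ℕ, s0 ^ a = s0 ^ b → (a : ZMod p) = (b : ZMod p) := by
    intro a b h
    rw [pow_eq_pow_iff_modEq, hord] at h
    exact (ZMod.natCast_eq_natCast_iff a b p).2 h
  have hj : ∀ s : G, ∃ j : ℕ, s ∈ I → s ^ N = s0 ^ j := by
    intro s
    by_cases hs : s ∈ I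
    · obtain ⟨j, hj⟩ := hgen s hs
      exact ⟨j, fun _ => hj⟩
    · exact ⟨0, fun h => absurd h hs⟩
  choose j hj using hj
  refine ⟨fun s => (j s : ZMod p), ?_, ?_⟩
  · intro s hs t ht
    have h2 : s0 ^ (j (s * t)) = s0 ^ (j s + j t) := by
      rw [pow_add, ← hj s hs, ← hj t ht, ← hj _ (I.mul_mem hs ht), hN.mul s hs t ht]
    change ((j (s * t) : ℕ) : ZMod p) = (j s : ZMod p) + (j t : ZMod p)
    rw [hjj _ _ h2, Nat.cast_add]
  · intro s hs h0
    have h3 : p ∣ j s := (ZMod.natCast_eq_zero_iff _ _).1 h0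
    obtain ⟨m, hm, hm1⟩ := hN.pc s hs
    refine ⟨m, hm, ?_⟩
    obtain ⟨q, hq⟩ := h3
    rw [hj s hs, hq, pow_mul, hs0p, one_pow, inv_one, mul_one] at hm1
    exact hm1

/-- The `p`-part is cyclic of order `p` or trivial. -/
lemma exists_s0 [Finite I] (hN : Prj p N I) (h : ¬ p ^ 2 ∣ Nat.card I) :
    ∃ s0 ∈ I, s0 ^ p = 1 ∧ ∀ s ∈ I, ∃ j : ℕ, s ^ N = s0 ^ j := by
  classical
  have hp : p.Prime := Fact.out
  let f : I →* I := MonoidHom.mk' (fun s => s ^ N) fun s t =>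
    Subtype.ext (hN.mul s s.2 t t.2)
  have hR : IsPGroup p f.range := by
    rintro ⟨_, s, rfl⟩
    obtain ⟨n, hn⟩ := hN.pp s s.2
    exact ⟨n, Subtype.ext (Subtype.ext hn)⟩
  obtain ⟨e, he⟩ := IsPGroup.iff_card.1 hR
  have h1 : Nat.card f.range ∣ Nat.card I := Subgroup.card_subgroup_dvd_card _
  have he1 : e ≤ 1 := by
    by_contra hcon
    push Not at hcon
    apply h
    refine (pow_dvd_pow p hcon).trans ?_
    rw [← he]
    exact h1
  have hmem : ∀ s : I, f s ∈ f.range := fun s => ⟨s, rfl⟩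
  interval_cases e
  · rw [pow_zero] at he
    refine ⟨1, I.one_mem, one_pow p, fun s hs => ⟨0, ?_⟩⟩
    have h2 : Subsingleton f.range := (Nat.card_eq_one_iff_unique.1 he).1
    have h3 : (⟨f ⟨s, hs⟩, hmem _⟩ : f.range) = 1 := Subsingleton.elim _ _
    have h4 : f ⟨s, hs⟩ = 1 := congrArg Subtype.val h3
    rw [pow_zero]
    exact congrArg Subtype.val h4
  · rw [pow_one] at he
    have h2 : IsCyclic f.range := isCyclic_of_prime_card he
    obtain ⟨g, hg⟩ := h2.exists_generator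
    refine ⟨((g : I) : G), (g : I).2, ?_, fun s hs => ?_⟩
    · have h3 : g ^ p = 1 := by
        rw [← he]
        exact pow_card_eq_one'
      exact congrArg (fun x : f.range => ((x : I) : G)) h3
    · have h3 := hg ⟨f ⟨s, hs⟩, hmem _⟩
      rw [← mem_powers_iff_mem_zpowers] at h3
      obtain ⟨j, hj⟩ := h3
      exact ⟨j, (congrArg (fun x : f.range => ((x : I) : G)) hj).symm⟩

/-- Products of `p`-groups and groups of order prime to `p`. -/
lemma prj_prod {P C : Type*} [Group P] [Finite P] [Group C] [Finite C] (hP : IsPGroup p P)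
    (hC : ¬ p ∣ Nat.card C) : ∃ N : ℕ, Prj p N (⊤ : Subgroup (P × C)) := by
  have hp : p.Prime := Fact.out
  obtain ⟨a, ha⟩ := IsPGroup.iff_card.1 hP
  have hcop : Nat.Coprime (p ^ a) (Nat.card C) :=
    Nat.Coprime.pow_left a ((Nat.Prime.coprime_iff_not_dvd hp).2 hC)
  obtain ⟨N, hN1, hN2⟩ := Nat.chineseRemainder hcop 1 0
  have h1 : ∀ g : P × C, g ^ N = (g.1, 1) := by
    intro g
    apply Prod.ext
    · change g.1 ^ N = g.1
      have h2 : orderOf g.1 ∣ p ^ a := by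
        rw [← ha]
        exact orderOf_dvd_natCard g.1
      have h3 : g.1 ^ N = g.1 ^ 1 := by
        rw [pow_eq_pow_iff_modEq]
        exact hN1.of_dvd h2
      rw [h3, pow_one]
    · change g.2 ^ N = 1
      have h2 : Nat.card C ∣ N := (Nat.modEq_zero_iff_dvd).1 hN2
      obtain ⟨q, hq⟩ := h2
      rw [hq, pow_mul, pow_card_eq_one', one_pow]
  refine ⟨N, ?_, ?_, ?_⟩
  · intro s _ t _
    rw [h1, h1, h1]
    apply Prod.ext
    · rfl
    · exact (one_mul _).symm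
  · intro s _
    refine ⟨a, ?_⟩
    rw [h1]
    apply Prod.ext
    · change s.1 ^ p ^ a = 1
      rw [← ha, pow_card_eq_one']
    · exact one_pow _
  · intro s _
    refine ⟨Nat.card C, hC, ?_⟩
    rw [h1]
    apply Prod.ext
    · change (s.1 * s.1⁻¹) ^ _ = 1
      rw [mul_inv_cancel, one_pow]
    · change (s.2 * 1⁻¹) ^ _ = 1
      rw [inv_one, mul_one, pow_card_eq_one']

end grp

section ig

variable {k E : Type u} [Field k] [Field E] [Algebra k E] {D : Subalgebra k E}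
  {Γ : Subgroup (E ≃ₐ[k] E)}

/-- The inertia group. -/
def IgS (Γ : Subgroup (E ≃ₐ[k] E)) (D : Subalgebra k E) (𝔐 : Ideal D)
    (hΓD : ∀ σ ∈ Γ, ∀ x ∈ D, σ x ∈ D) : Subgroup (E ≃ₐ[k] E) where
  carrier := Ig Γ D 𝔐
  one_mem' := ⟨Γ.one_mem, fun x y h => by
    have h1 : y = x := Subtype.ext h
    rw [h1, sub_self]
    exact 𝔐.zero_mem⟩
  mul_mem' := by
    rintro a b ⟨ha, ha'⟩ ⟨hb, hb'⟩
    refine ⟨Γ.mul_mem ha hb, fun x y h => ?_⟩
    let z : D := ⟨b x, hΓD b hb x x.2⟩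
    have h1 : y - z ∈ 𝔐 := ha' z y h
    have h2 : z - x ∈ 𝔐 := hb' x z rfl
    have h3 : y - x = (y - z) + (z - x) := by ring
    rw [h3]
    exact 𝔐.add_mem h1 h2
  inv_mem' := by
    rintro a ⟨ha, ha'⟩
    refine ⟨Γ.inv_mem ha, fun x y h => ?_⟩
    have h1 : x - y ∈ 𝔐 := ha' y x (by
      rw [h]
      change (x : E) = (a * a⁻¹) (x : E)
      rw [mul_inv_cancel]
      rfl)
    rw [← neg_sub]
    exact 𝔐.neg_mem h1

variable (p : ℕ) [Fact p.Prime] [CharP k p] [CharP E p]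

/-- Local functions which are given by a function on the whole surface. -/
theorem pg_glob {N : ℕ} (hN : Prj p N Γ) (hΓD : ∀ σ ∈ Γ, ∀ x ∈ D, σ x ∈ D) (𝔐 : Ideal D)
    (h1 : (1 : D) ∉ 𝔐) {ε : (E ≃ₐ[k] E) → ZMod p}
    (hε : ∀ s ∈ Γ, ∀ t ∈ Γ, ε (s * t) = ε s + ε t)
    (hε0 : ∀ s ∈ Γ, ε s = 0 → ∃ m : ℕ, ¬ p ∣ m ∧ s ^ m = 1) {w : E}
    (hw : ∀ s ∈ Γ, s w = w + zc p E (ε s)) {b : E} (hb : w ^ p - w = b) : PG p Γ D 𝔐 b := by
  classical
  have hp : p.Prime := Fact.out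
  let J := IgS Γ D 𝔐 hΓD
  have hJ : J ≤ Γ := fun s hs => hs.1
  refine ⟨⟨fun s => zc p k (ε s), fun s hs t ht => ?_, fun s hs h0 => ?_⟩, ?_⟩
  · change zc p k (ε (s * t)) = _
    rw [hε s (hJ hs) t (hJ ht), map_add]
  · exact hε0 s (hJ hs) ((zc p k).injective (by rw [map_zero]; exact h0))
  · intro lam hlam
    have hl : ∀ s ∈ J, ∀ t ∈ J, lam (s * t) = lam s + lam t := hlam
    have hεJ : ∀ s ∈ J, ∀ t ∈ J, ε (s * t) = ε s + ε t := fun s hs t ht =>
      hε s (hJ hs) t (hJ ht)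
    have h2 : ∀ s ∈ J, ε s = 0 → lam s = 0 := by
      intro s hs h0
      obtain ⟨m, hm, hm1⟩ := hε0 s (hJ hs) h0
      exact lam_tame hl hs hm hm1
    obtain ⟨c, hc⟩ : ∃ c : ZMod p, ∀ s ∈ J, lam s = c * ε s := by
      by_cases hall : ∀ s ∈ J, ε s = 0
      · exact ⟨0, fun s hs => by rw [h2 s hs (hall s hs), zero_mul]⟩
      · push Not at hall
        obtain ⟨s0, hs0, hne⟩ := hall
        refine ⟨lam s0 * (ε s0)⁻¹, fun s hs => ?_⟩
        obtain ⟨j, hj⟩ := ZMod.natCast_zmod_surjective (ε s * (ε s0)⁻¹)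
        have h3 : ε s = j * ε s0 := by
          rw [hj, inv_mul_cancel_right₀ hne]
        have hsj := J.inv_mem (J.pow_mem hs0 j)
        have h4 : ε (s * (s0 ^ j)⁻¹) = 0 := by
          have h5 : ε s = ε (s * (s0 ^ j)⁻¹) + ε (s0 ^ j) := by
            rw [← hεJ _ (J.mul_mem hs hsj) _ (J.pow_mem hs0 j), inv_mul_cancel_right]
          rw [lam_pow hεJ hs0, ← h3] at h5
          exact (add_eq_right.1 h5.symm)
        have h6 := h2 _ (J.mul_mem hs hsj) h4
        have h7 : lam s = lam (s * (s0 ^ j)⁻¹) + lam (s0 ^ j) := by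
          rw [← hl _ (J.mul_mem hs hsj) _ (J.pow_mem hs0 j), inv_mul_cancel_right]
        rw [h7, h6, zero_add, lam_pow hl hs0, hj]
        ring
    refine ⟨zc p E c * w, zc p k c, fun s hs => ?_, 1, h1, ?_⟩
    · rw [map_mul, zc_fix, hw s (hJ hs), mul_add, ← map_mul, ← hc s hs, zc_val p (lam s)]
    · have h3 : (zc p E c * w) ^ p - zc p E c * w - algebraMap k E (zc p k c) * b = 0 := by
        rw [mul_pow, ← map_pow, ZMod.pow_card, zc_alg, ← hb]
        ring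
      rw [h3, mul_zero]
      exact D.zero_mem

end ig

section fac

variable {k K : Type u} [Field k] [IsAlgClosed k] [Field K] [Algebra k K] (p : ℕ) [Fact p.Prime]
  [CharP k p] {Γ : Subgroup (K ≃ₐ[k] K)} [Finite Γ] {N : ℕ} (hN : Prj p N Γ)

include hN

/-- Surfaces. -/
theorem fac_surf (h2 : ¬ p ^ 2 ∣ Nat.card Γ)
    (hGM : ∀ F : IntermediateField k K, (∀ x, x ∈ F ↔ FX Γ x) → ∀ (f : F) (B : Type) [Finite B]
      (c : B → F), (∀ b, c b ≠ 0) → GMA p k (fun _ : Unit => f) c) : Fac p Γ := by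
  classical
  have hp : p.Prime := Fact.out
  have hcE : CharP K p := charP_of_injective_algebraMap (algebraMap k K).injective p
  obtain ⟨ε, hε, hε0⟩ := exists_eps hN (exists_s0 hN h2)
  obtain ⟨z, hz⟩ := h90 p Γ ε hε
  intro F hF B _ c hc
  have hfF : z ^ p - z ∈ F := by
    rw [hF]
    intro s hs
    rw [map_sub, map_pow, hz s hs, add_pow_char, ← map_pow, ZMod.pow_card]
    ring
  obtain ⟨T, I, hT, hI, M, n, a, h, Λ, hNB, hFn, hFr⟩ := hGM F hF ⟨_, hfF⟩ B c hc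
  have hσD : ∀ t, ∀ σ ∈ Γ, ∀ x ∈ DD (E := K) (M.A t), σ x ∈ DD (E := K) (M.A t) := by
    rintro t σ hσ x ⟨P, hP, hP0⟩
    refine ⟨P, hP, ?_⟩
    have h2 := congrArg (σ : K →+* K) hP0
    rw [Polynomial.hom_eval₂, map_zero] at h2
    have h3 : (σ : K →+* K).comp (algebraMap (M.A t) K) = algebraMap (M.A t) K :=
      RingHom.ext fun a => (hF _).1 (a : F).2 σ hσ
    rw [h3] at h2
    exact h2
  refine ⟨T, I, hT, hI, M, fun _ => n, h, Λ, ⟨fun t => hNB.n0, hNB.hA, ?_⟩, hFn, hFr, ?_⟩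
  · intro t κ _ _ φ l hP
    obtain ⟨v, hv, -⟩ := hNB.ln t κ φ l hP
    exact ⟨v, hv, fun l' hl' => absurd (Subsingleton.elim l' l) hl'⟩
  · intro t 𝔐 h𝔐
    refine pg_glob p hN (hσD t) 𝔐 (fun h1 => h𝔐.ne_top ((Ideal.eq_top_iff_one _).2 h1)) hε hε0
      (w := z - (a t () : K)) ?_ ?_
    · intro s hs
      have haF : s (a t () : K) = (a t () : K) := (hF _).1 (a t ()).2 s hs
      rw [map_sub, haF, hz s hs]
      ring
    · have h3 := congrArg (fun x : F => (x : K)) (hNB.eq t ())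
      change z ^ p - z = (a t () : K) ^ p - (a t () : K) +
        ((bf M (fun _ => n) h t () : F) : K) at h3
      rw [sub_pow_char]
      linear_combination h3

/-- Curves. -/
theorem fac_curve [Algebra.EssFiniteType k K] (htr : Algebra.trdeg k K = 1)
    (hc : ∀ V : ValuationSubring K, (∀ c : k, algebraMap k K c ∈ V) → V ≠ ⊤ →
      ¬ p ^ 2 ∣ Nat.card (dec V Γ) ∨
      ∀ s ∈ dec V Γ, (∀ (x : V) (h : s x - x ∈ V),
        (⟨s x - x, h⟩ : V) ∈ IsLocalRing.maximalIdeal V ^ 3) → s = 1) : Fac p Γ := by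
  classical
  intro F hF B _ c hcB
  refine curve_packF hF p htr ?_ c hcB
  intro V hk hV
  obtain ⟨A, hA1, hA2, hA3, hVA⟩ := exists_chart hF p htr hk
  rcases hc V hk hV with h1 | h1
  · have hle : dec V Γ ≤ Γ := fun s hs => hs.1
    have hfin : Finite (dec V Γ) := Finite.of_injective (Subgroup.inclusion hle)
      (Subgroup.inclusion_injective hle)
    exact ga_one hF hVA hV hN (exists_s0 (hN.mono hle) h1)
  · exact ga_weak hF hVA hV hN h1

end fac

end Pool.Agent.Zk10.Act
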