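import Pool.Agent.Zk62.Tw.U17

/-!
Quotients of products by products of `p`-groups and commutative groups of order prime to `p`.
-/

set_option autoImplicit false
set_option linter.unusedVariables false
set_option linter.unusedSectionVars false

universe u

open Polynomial AlgebraicGeometry CategoryTheory TensorProduct

namespace Pool.Agent.Zk10.Act

open Pool.Agent.W558 Pool.Agent.W558.WT Pool.Agent.Zk10.Ram Pool.Agent.Zk10.Cur
  Pool.Agent.TH214 Pool.Agent.TH214.Q Pool.Agent.W177.WD Pool.Agent.W410.WT Pool.Agent.H920R2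

section prj

/-- The projection to the `p`-part. -/
lemma prj_range {p : ℕ} [Fact p.Prime] {G H : Type*} [Group G] [Finite G] [Group H]
    (P C : Subgroup G) (hP : IsPGroup p P)
    (hC : ¬ p ∣ Nat.card C) (hCc : ∀ a ∈ C, ∀ b ∈ C, a * b = b * a)
    (hPC : ∀ a ∈ P, ∀ c ∈ C, a * c = c * a) (hgen : ∀ g : G, ∃ a ∈ P, ∃ c ∈ C, g = a * c)
    (r : G →* H) : ∃ N : ℕ, Prj p N r.range := by
  obtain ⟨N, hN⟩ := prj_prod (p := p) (P := P) (C := C) hP hC
  let f : P × C →* G := MonoidHom.noncommCoprod P.subtype C.subtype fun a c => hPC a a.2 c c.2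
  refine ⟨N, hN.of_surj (r.comp f) ?_⟩
  rintro _ ⟨g, rfl⟩
  obtain ⟨a, ha, c, hc, rfl⟩ := hgen g
  exact ⟨(⟨a, ha⟩, ⟨c, hc⟩), trivial, rfl⟩

end prj

section range

variable {k A : Type u} [Field k] [CommRing A] [IsDomain A] [Algebra k A] (K : Type u) [Field K]
  [Algebra k K] [Algebra A K] [IsScalarTower k A K] [IsFractionRing A K] {G G' : Type} [Group G]
  [Group G'] (ρ : G →* (A ≃ₐ[k] A)) (ρ' : G' →* (A ≃ₐ[k] A))

/-- The group of automorphisms of the fraction field. -/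
lemma lf_range (h : ∀ g, ∃ g', ρ g = ρ' g') (h' : ∀ g', ∃ g, ρ g = ρ' g') :
    (lf K ρ).range = (lf K ρ').range := by
  have h1 : ∀ g g', ρ g = ρ' g' → lf K ρ g = lf K ρ' g' := by
    intro g g' hg
    apply AlgEquiv.ext
    intro y
    refine frac_ext2 (C := A) ((lf K ρ g : K ≃ₐ[k] K) : K →+* K)
      ((lf K ρ' g' : K ≃ₐ[k] K) : K →+* K) ?_ y
    intro a
    change lf K ρ g (algebraMap A K a) = lf K ρ' g' (algebraMap A K a)
    rw [lf_app, lf_app, hg]
  apply le_antisymm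
  · rintro _ ⟨g, rfl⟩
    obtain ⟨g', hg⟩ := h g
    exact ⟨g', (h1 g g' hg).symm⟩
  · rintro _ ⟨g', rfl⟩
    obtain ⟨g, hg⟩ := h' g'
    exact ⟨g, h1 g g' hg⟩

lemma mem_lf_range {s : K ≃ₐ[k] K} :
    s ∈ (lf K ρ).range ↔ ∃ g, ∀ a, s (algebraMap A K a) = algebraMap A K (ρ g a) := by
  constructor
  · rintro ⟨g, rfl⟩
    exact ⟨g, fun a => lf_app K ρ g a⟩
  · rintro ⟨g, hg⟩
    refine ⟨g, AlgEquiv.ext fun y => ?_⟩
    refine frac_ext2 (C := A) ((lf K ρ g : K ≃ₐ[k] K) : K →+* K)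
      ((s : K ≃ₐ[k] K) : K →+* K) ?_ y
    intro a
    change lf K ρ g (algebraMap A K a) = s (algebraMap A K a)
    rw [lf_app, hg]

end range

section main

variable (p : ℕ) [Fact p.Prime] (k : Type u) [Field k] [IsAlgClosed k] [CharP k p] (n : ℕ)
  (A K : Fin n → Type u) [∀ i, CommRing (A i)] [∀ i, IsDomain (A i)] [∀ i, Algebra k (A i)]
  [∀ i, Algebra.FiniteType k (A i)] [∀ i, Field (K i)] [∀ i, Algebra k (K i)]
  [∀ i, Algebra (A i) (K i)] [∀ i, IsScalarTower k (A i) (K i)] [∀ i, IsFractionRing (A i) (K i)]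
  (B : Type u) [CommRing B] [IsDomain B] [Algebra k B] (j : ∀ i, A i →ₐ[k] B) (hj : IsTP j)

include hj

/-- Quotients of products. -/
theorem quotPC1 {P C : Type} [Group P] [Finite P] [CommGroup C] [Finite C]
    (ρ : ∀ i, P × C →* (A i ≃ₐ[k] A i)) (s : P × C →* (B ≃ₐ[k] B))
    (hP : IsPGroup p P) (hC : ¬ p ∣ Nat.card C)
    (hfac : ∀ i, Fac p (lf (K i) (ρ i)).range)
    (hs : ∀ g i a, s g (j i a) = j i (ρ i g a))
    (Inv : Subalgebra k B) (hInv : ∀ b, b ∈ Inv ↔ ∀ g, s g b = b) :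
    Algebra.FiniteType k Inv ∧ HasResolution (X := Spec (CommRingCat.of Inv))
      (Spec.map (CommRingCat.ofHom (algebraMap k Inv))) := by
  classical
  let sP : P →* (B ≃ₐ[k] B) := s.comp (MonoidHom.inl P C)
  let sC : C →* (B ≃ₐ[k] B) := s.comp (MonoidHom.inr P C)
  let ρP : ∀ i, P →* (A i ≃ₐ[k] A i) := fun i => (ρ i).comp (MonoidHom.inl P C)
  let ρC : ∀ i, C →* (A i ≃ₐ[k] A i) := fun i => (ρ i).comp (MonoidHom.inr P C)
  let N : Subgroup C := sC.ker
  let C1 := C ⧸ N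
  let s1 : C1 →* (B ≃ₐ[k] B) := QuotientGroup.kerLift sC
  have hNi : ∀ i, N ≤ (ρC i).ker := by
    intro i c hc
    rw [MonoidHom.mem_ker] at hc ⊢
    apply AlgEquiv.ext
    intro a
    apply hj.injective i
    change j i (ρ i (1, c) a) = j i a
    rw [← hs]
    change sC c (j i a) = _
    rw [hc]
    rfl
  let r1 : ∀ i, C1 →* (A i ≃ₐ[k] A i) := fun i => QuotientGroup.lift N (ρC i) fun x hx => hNi i hx
  have hs1 : ∀ c : C, s1 (QuotientGroup.mk c) = sC c := fun c => rfl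
  have hr1 : ∀ i (c : C), r1 i (QuotientGroup.mk c) = ρC i c := fun i c => rfl
  have hcm : ∀ (g : P) (c : C1), Commute (sP g) (s1 c) := by
    intro g c
    obtain ⟨c, rfl⟩ := QuotientGroup.mk_surjective c
    rw [hs1]
    change s (g, 1) * s (1, c) = s (1, c) * s (g, 1)
    rw [← map_mul, ← map_mul, Prod.mk_mul_mk, Prod.mk_mul_mk, mul_one, one_mul, mul_one, one_mul]
  have hcm' : ∀ i (g : P) (c : C1), Commute (ρP i g) (r1 i c) := by
    intro i g c
    obtain ⟨c, rfl⟩ := QuotientGroup.mk_surjective c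
    rw [hr1]
    change ρ i (g, 1) * ρ i (1, c) = ρ i (1, c) * ρ i (g, 1)
    rw [← map_mul, ← map_mul, Prod.mk_mul_mk, Prod.mk_mul_mk, mul_one, one_mul, mul_one, one_mul]
  let S : P × C1 →* (B ≃ₐ[k] B) := MonoidHom.noncommCoprod sP s1 hcm
  let R : ∀ i, P × C1 →* (A i ≃ₐ[k] A i) := fun i => MonoidHom.noncommCoprod (ρP i) (r1 i) (hcm' i)
  have hS : ∀ (g : P) (c : C), S (g, QuotientGroup.mk c) = s (g, c) := by
    intro g c
    change s (g, 1) * s (1, c) = _
    rw [← map_mul, Prod.mk_mul_mk, mul_one, one_mul]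
  have hR : ∀ i (g : P) (c : C), R i (g, QuotientGroup.mk c) = ρ i (g, c) := by
    intro i g c
    change ρ i (g, 1) * ρ i (1, c) = _
    rw [← map_mul, Prod.mk_mul_mk, mul_one, one_mul]
  refine quotPC0 p k n A K B j hj (P := P) (C := C1) R S hP ?_ ?_ ?_ ?_ Inv ?_
  · intro h
    exact hC (h.trans (Subgroup.card_quotient_dvd_card N))
  · intro c hc
    obtain ⟨c, rfl⟩ := QuotientGroup.mk_surjective c
    rw [hS] at hc
    rw [QuotientGroup.eq_one_iff]
    exact hc
  · intro i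
    have h1 : (lf (K i) (R i)).range = (lf (K i) (ρ i)).range := by
      apply lf_range
      · rintro ⟨g, c⟩
        obtain ⟨c, rfl⟩ := QuotientGroup.mk_surjective c
        exact ⟨(g, c), hR i g c⟩
      · rintro ⟨g, c⟩
        exact ⟨(g, QuotientGroup.mk c), hR i g c⟩
    rw [h1]
    exact hfac i
  · rintro ⟨g, c⟩ i a
    obtain ⟨c, rfl⟩ := QuotientGroup.mk_surjective c
    rw [hS, hR, hs]
  · intro b
    rw [hInv]
    constructor
    · rintro h ⟨g, c⟩
      obtain ⟨c, rfl⟩ := QuotientGroup.mk_surjective c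
      rw [hS]
      exact h _
    · rintro h ⟨g, c⟩
      have h1 := h (g, QuotientGroup.mk c)
      rw [hS] at h1
      exact h1

/-- Quotients of products. -/
theorem quotPC {G : Type} [Group G] [Finite G] (P C : Subgroup G) (hP : IsPGroup p P)
    (hC : ¬ p ∣ Nat.card C) (hCc : ∀ a ∈ C, ∀ b ∈ C, a * b = b * a)
    (hPC : ∀ a ∈ P, ∀ c ∈ C, a * c = c * a) (hgen : ∀ g : G, ∃ a ∈ P, ∃ c ∈ C, g = a * c)
    (ρ : ∀ i, G →* (A i ≃ₐ[k] A i)) (s : G →* (B ≃ₐ[k] B))
    (hfac : ∀ i, Fac p (lf (K i) (ρ i)).range)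
    (hs : ∀ g i a, s g (j i a) = j i (ρ i g a))
    (Inv : Subalgebra k B) (hInv : ∀ b, b ∈ Inv ↔ ∀ g, s g b = b) :
    Algebra.FiniteType k Inv ∧ HasResolution (X := Spec (CommRingCat.of Inv))
      (Spec.map (CommRingCat.ofHom (algebraMap k Inv))) := by
  classical
  let _ : CommGroup C := { (inferInstance : Group C) with
    mul_comm := fun a b => Subtype.ext (hCc a a.2 b b.2) }
  let f : P × C →* G := MonoidHom.noncommCoprod P.subtype C.subtype fun a c => hPC a a.2 c c.2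
  have hf : ∀ x : P × C, f x = x.1 * x.2 := fun x => rfl
  have hfs : Function.Surjective f := by
    intro g
    obtain ⟨a, ha, c, hc, rfl⟩ := hgen g
    exact ⟨(⟨a, ha⟩, ⟨c, hc⟩), rfl⟩
  refine quotPC1 p k n A K B j hj (P := P) (C := C) (fun i => (ρ i).comp f) (s.comp f) hP hC ?_ ?_
    Inv ?_
  · intro i
    have h1 : (lf (K i) ((ρ i).comp f)).range = (lf (K i) (ρ i)).range := by
      apply lf_range
      · intro g
        exact ⟨f g, rfl⟩
      · intro g
        obtain ⟨g', rfl⟩ := hfs g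
        exact ⟨g', rfl⟩
    rw [h1]
    exact hfac i
  · intro g i a
    exact hs (f g) i a
  · intro b
    rw [hInv]
    constructor
    · intro h g
      exact h (f g)
    · intro h g
      obtain ⟨g', rfl⟩ := hfs g
      exact h g'

end main

end Pool.Agent.Zk10.Act
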