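import Pool.Agent.Zk62.Tw.U18

/-!
Varieties which are birational to quotients of products.
-/

set_option autoImplicit false
set_option linter.unusedVariables false
set_option linter.unusedSectionVars false

universe u

open Polynomial AlgebraicGeometry CategoryTheory TensorProduct

namespace Pool.Agent.Zk10.Act

open Pool.Agent.W558 Pool.Agent.W558.WT Pool.Agent.Zk10.Ram Pool.Agent.Zk10.Cur
  Pool.Agent.TH214 Pool.Agent.TH214.Q Pool.Agent.W177.WD Pool.Agent.W410.WT Pool.Agent.H920R2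

section fnp

variable {k K : Type u} [Field k] [Field K] [Algebra k K] {R0 R : Subalgebra k K} {T I : Type}
  [Fintype I]

/-- Products of functions. -/
lemma fn_prod {M : LM R0 R T I} {J X : Type} [Fintype J] {g : J → X → K} {Γ : J → X → I → ℤ}
    (h : ∀ j, Fn M (g j) (Γ j)) : Fn M (fun x => ∏ j, g j x) (fun x i => ∑ j, Γ j x i) := by
  classical
  intro x t
  choose w hw0 hw hw' e using fun j => h j x t
  refine ⟨∏ j, w j, Finset.prod_ne_zero_iff.2 fun j _ => hw0 j,
    (M.A t).prod_mem fun j _ => hw j, ?_, ?_⟩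
  · rw [← Finset.prod_inv_distrib]
    exact (M.A t).prod_mem fun j _ => hw' j
  · have h1 : ∀ i, M.x t i ^ (∑ j, Γ j x i) = ∏ j, M.x t i ^ Γ j x i := by
      intro i
      have h2 : ∀ S : Finset J, M.x t i ^ (∑ j ∈ S, Γ j x i) = ∏ j ∈ S, M.x t i ^ Γ j x i := by
        intro S
        induction S using Finset.induction_on with
        | empty => simp
        | insert a S ha ih =>
          rw [Finset.sum_insert ha, Finset.prod_insert ha, zpow_add₀ (M.x0 t i), ih]
      exact h2 _
    simp only [h1]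
    rw [Finset.prod_comm, ← Finset.prod_mul_distrib]
    exact Finset.prod_congr rfl fun j _ => e j

end fnp

section main

variable (p : ℕ) [Fact p.Prime] (k : Type u) [Field k] [IsAlgClosed k] [CharP k p] (n : ℕ)
  (A K : Fin n → Type u) [∀ i, CommRing (A i)] [∀ i, IsDomain (A i)] [∀ i, Algebra k (A i)]
  [∀ i, Algebra.FiniteType k (A i)] [∀ i, Field (K i)] [∀ i, Algebra k (K i)]
  [∀ i, Algebra (A i) (K i)] [∀ i, IsScalarTower k (A i) (K i)] [∀ i, IsFractionRing (A i) (K i)]
  (B : Type u) [CommRing B] [IsDomain B] [Algebra k B] (j : ∀ i, A i →ₐ[k] B) (hj : IsTP j)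
  {P C : Type} [Group P] [Finite P] [CommGroup C] [Finite C]
  (ρ : ∀ i, P × C →* (A i ≃ₐ[k] A i)) (s : P × C →* (B ≃ₐ[k] B))

include hj

/-- Varieties which are birational to quotients of products. -/
theorem quotR0 (hP : IsPGroup p P) (hC : ¬ p ∣ Nat.card C) (hCf : ∀ c : C, s (1, c) = 1 → c = 1)
    (hfac : ∀ i, Fac p (lf (K i) (ρ i)).range)
    (hs : ∀ g i a, s g (j i a) = j i (ρ i g a))
    (e0 : ∀ i, K i →ₐ[k] FractionRing B)
    (he0 : ∀ i a, e0 i (algebraMap (A i) (K i) a) = algebraMap B (FractionRing B) (j i a))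
    (R : Type u) [CommRing R] [IsDomain R] [Algebra k R] [Algebra.FiniteType k R]
    (ι : R →ₐ[k] FractionRing B) (hι : Function.Injective ι)
    (hR1 : ∀ r g, lf (FractionRing B) s g (ι r) = ι r)
    (hR2 : ∀ y, (∀ g, lf (FractionRing B) s g y = y) → ∃ a b : R, b ≠ 0 ∧ y * ι b = ι a)
    {X : Type} [Finite X] (aX : X → R) (cX : ∀ i, X → K i) (hcX0 : ∀ i x, cX i x ≠ 0)
    (hcX : ∀ i x g, lf (K i) (ρ i) g (cX i x) = cX i x)
    (haX : ∀ x, ι (aX x) = ∏ i, e0 i (cX i x))
    (hint : ∀ r : R, IsIntegral (Algebra.adjoin k (Set.range aX)) r) :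
    HasResolution (X := Spec (CommRingCat.of R))
      (Spec.map (CommRingCat.ofHom (algebraMap k R))) := by
  classical
  have hp : p.Prime := Fact.out
  have hfP : Fintype P := Fintype.ofFinite P
  have hfC : Fintype C := Fintype.ofFinite C
  let m : ℕ := Nat.card C
  have hm0 : 0 < m := Nat.card_pos
  have hCm : ∀ c : C, c ^ m = 1 := fun c => pow_card_eq_one'
  have hm : (m : k) ≠ 0 := by
    intro h
    exact hC ((CharP.cast_eq_zero_iff k p m).1 h)
  obtain ⟨ζ, hζ⟩ : ∃ ζ : k, IsPrimitiveRoot ζ m := by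
    have : NeZero (m : k) := ⟨hm⟩
    exact HasEnoughRootsOfUnity.exists_primitiveRoot k m
  let E := FractionRing B
  have hcE : CharP E p := charP_of_injective_algebraMap (algebraMap k E).injective p
  have hcK : ∀ i, CharP (K i) p := fun i =>
    charP_of_injective_algebraMap (algebraMap k (K i)).injective p
  obtain ⟨e, he, hΦ⟩ := exists_e2 (K := K) (E := E) hj
  have hee : ∀ i x, e0 i x = e i x := by
    intro i x
    refine frac_ext2 (C := A i) (e0 i : K i →+* E) (e i : K i →+* E) ?_ x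
    intro a
    change e0 i (algebraMap (A i) (K i) a) = e i (algebraMap (A i) (K i) a)
    rw [he0, he]
  -- the groups
  let ρP : ∀ i, P →* (A i ≃ₐ[k] A i) := fun i => (ρ i).comp (MonoidHom.inl P C)
  let γA : ∀ i, C →* (A i ≃ₐ[k] A i) := fun i => (ρ i).comp (MonoidHom.inr P C)
  let P' : Fin n → Type := fun i => P ⧸ (ρP i).ker
  have hfP' : ∀ i, Fintype (P' i) := fun i => Fintype.ofFinite _
  let q : ∀ i, P →* P' i := fun i => QuotientGroup.mk' (ρP i).ker
  have hq : ∀ i, Function.Surjective (q i) := fun i => QuotientGroup.mk'_surjective _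
  let r : ∀ i, P' i →* (A i ≃ₐ[k] A i) := fun i => QuotientGroup.kerLift (ρP i)
  have hri : ∀ i, Function.Injective (r i) := fun i => QuotientGroup.kerLift_injective (ρP i)
  have hrq : ∀ i g, r i (q i g) = ρP i g := fun i g => QuotientGroup.kerLift_mk (ρP i) g
  have hcm : ∀ i (g : P' i) (c : C), Commute (r i g) (γA i c) := by
    intro i g c
    obtain ⟨g, rfl⟩ := hq i g
    rw [hrq]
    change ρ i (g, 1) * ρ i (1, c) = ρ i (1, c) * ρ i (g, 1)
    rw [← map_mul, ← map_mul, Prod.mk_mul_mk, Prod.mk_mul_mk, mul_one, one_mul, mul_one, one_mul]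
  let rr : ∀ i, (∀ i, P' i) × C →* (A i ≃ₐ[k] A i) := fun i =>
    MonoidHom.noncommCoprod ((r i).comp (Pi.evalMonoidHom P' i)) (γA i) fun g c => hcm i _ c
  have hrr : ∀ i g, rr i g = r i (g.1 i) * γA i g.2 := fun i g => rfl
  have hPp : ∀ i, IsPGroup p (P' i) := fun i => hP.of_surjective (q i) (hq i)
  have hPG : IsPGroup p (∀ i, P' i) := by
    intro g
    choose N hN using fun i => hPp i (g i)
    refine ⟨∑ i, N i, ?_⟩
    funext i
    rw [Pi.pow_apply, ← Finset.add_sum_erase _ _ (Finset.mem_univ i), pow_add, pow_mul, hN,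
      one_pow, Pi.one_apply]
  obtain ⟨s0, hs0⟩ := exists_act hj rr
  let τ : (∀ i, P' i) × C →* (E ≃ₐ[k] E) := lf E s0
  let σ : ∀ i, (∀ i, P' i) × C →* (K i ≃ₐ[k] K i) := fun i => lf (K i) (rr i)
  have hτ : ∀ g i (x : K i), τ g (e i x) = e i (σ i g x) := by
    intro g i y
    refine frac_ext2 (C := A i) ((τ g : E →+* E).comp (e i : K i →+* E))
      ((e i : K i →+* E).comp ((σ i g : K i ≃ₐ[k] K i) : K i →+* K i)) ?_ y
    intro a
    change τ g (e i (algebraMap (A i) (K i) a)) = e i (lf (K i) (rr i) g (algebraMap (A i) (K i) a))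
    rw [lf_app, he, he]
    exact (lf_app E s0 g _).trans (congrArg _ (hs0 g i a))
  let rK : ∀ i, P' i →* (K i ≃ₐ[k] K i) := fun i => lf (K i) (r i)
  let γ : ∀ i, C →* (K i ≃ₐ[k] K i) := fun i => lf (K i) (γA i)
  have hrKi : ∀ i, Function.Injective (rK i) := by
    intro i
    rw [injective_iff_map_eq_one]
    intro g hg
    apply hri i
    rw [map_one]
    exact lf_one (K i) (r i) hg
  have hσ : ∀ i g x, σ i g x = rK i (g.1 i) (γ i g.2 x) := by
    intro i g x
    refine frac_ext2 (C := A i) ((σ i g : K i ≃ₐ[k] K i) : K i →+* K i)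
      (((rK i (g.1 i) : K i ≃ₐ[k] K i) : K i →+* K i).comp
        ((γ i g.2 : K i ≃ₐ[k] K i) : K i →+* K i)) ?_ x
    intro a
    change lf (K i) (rr i) g (algebraMap (A i) (K i) a) =
      lf (K i) (r i) (g.1 i) (lf (K i) (γA i) g.2 (algebraMap (A i) (K i) a))
    rw [lf_app, lf_app, lf_app, hrr]
    rfl
  have hcomm : ∀ i g c x, rK i g (γ i c x) = γ i c (rK i g x) := by
    intro i g c x
    refine frac_ext2 (C := A i) (((rK i g : K i ≃ₐ[k] K i) : K i →+* K i).comp
        ((γ i c : K i ≃ₐ[k] K i) : K i →+* K i)) (((γ i c : K i ≃ₐ[k] K i) : K i →+* K i).comp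
        ((rK i g : K i ≃ₐ[k] K i) : K i →+* K i)) ?_ x
    intro a
    change lf (K i) (r i) g (lf (K i) (γA i) c (algebraMap (A i) (K i) a)) =
      lf (K i) (γA i) c (lf (K i) (r i) g (algebraMap (A i) (K i) a))
    rw [lf_app, lf_app, lf_app, lf_app]
    congr 1
    exact DFunLike.congr_fun (hcm i g c) a
  have hB1 : ∀ g h : B ≃ₐ[k] B, (∀ i a, g (j i a) = h (j i a)) → g = h := by
    intro g h hgh
    have h1 : (g : B →ₐ[k] B) = (h : B →ₐ[k] B) := by
      apply hj.ext
      intro i a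
      exact hgh i a
    apply AlgEquiv.ext
    intro b
    exact DFunLike.congr_fun h1 b
  have hσinj : ∀ g, (∀ i, σ i g = 1) → g = 1 := by
    rintro ⟨g, c⟩ hg
    have h1 : ∀ i, r i (g i) * γA i c = 1 := fun i => by
      have h2 := lf_one (K i) (rr i) (hg i)
      rw [hrr] at h2
      exact h2
    have h2 : ∀ i, g i = 1 := by
      intro i
      apply hri i
      rw [map_one]
      have h3 : r i (g i) = γA i c⁻¹ := by
        rw [map_inv]
        exact eq_inv_of_mul_eq_one_left (h1 i)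
      obtain ⟨N, hN⟩ := hPp i (g i)
      have h4 : r i (g i) ^ p ^ N = 1 := by rw [← map_pow, hN, map_one]
      have h5 : r i (g i) ^ m = 1 := by rw [h3, ← map_pow, hCm, map_one]
      have h6 : orderOf (r i (g i)) ∣ Nat.gcd (p ^ N) m :=
        Nat.dvd_gcd (orderOf_dvd_of_pow_eq_one h4) (orderOf_dvd_of_pow_eq_one h5)
      have h7 : Nat.Coprime (p ^ N) m := Nat.Coprime.pow_left N ((Nat.Prime.coprime_iff_not_dvd
        hp).2 hC)
      rw [h7.gcd_eq_one, Nat.dvd_one, orderOf_eq_one_iff] at h6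
      exact h6
    have h3 : c = 1 := by
      apply hCf
      apply hB1
      intro i a
      rw [hs]
      have h4 := h1 i
      rw [h2 i, map_one, one_mul] at h4
      change j i (γA i c a) = j i a
      rw [h4]
      rfl
    rw [h3]
    exact Prod.ext (funext h2) rfl
  have hinj : Function.Injective τ := by
    rw [injective_iff_map_eq_one]
    intro g hg
    apply hσinj
    intro i
    apply AlgEquiv.ext
    intro x
    refine RingHom.injective (e i : K i →+* E) ?_
    change e i (σ i g x) = e i x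
    rw [← hτ, hg]
    rfl
  -- the image of the group
  let Q : Subgroup (∀ i, P' i) := (MonoidHom.pi q).range
  have hτq : ∀ g : P × C, τ (MonoidHom.pi q g.1, g.2) = lf E s g := by
    intro g
    have h1 : s0 (MonoidHom.pi q g.1, g.2) = s g := by
      apply hB1
      intro i a
      rw [hs0, hs, hrr]
      change j i ((r i (q i g.1) * γA i g.2) a) = _
      rw [hrq]
      change j i ((ρ i (g.1, 1) * ρ i (1, g.2)) a) = _
      rw [← map_mul, Prod.mk_mul_mk, mul_one, one_mul]
    apply AlgEquiv.ext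
    intro y
    refine frac_ext2 (C := B) ((τ (MonoidHom.pi q g.1, g.2) : E ≃ₐ[k] E) : E →+* E)
      ((lf E s g : E ≃ₐ[k] E) : E →+* E) ?_ y
    intro b
    change lf E s0 (MonoidHom.pi q g.1, g.2) (algebraMap B E b) = lf E s g (algebraMap B E b)
    rw [lf_app, lf_app, h1]
  let H : Subgroup ((∀ i, P' i) × C) := qC Q
  have hH : ∀ y, y ∈ fixH τ H ↔ ∀ g, lf E s g y = y := by
    intro y
    rw [mem_fixH]
    constructor
    · intro h g
      rw [← hτq]
      exact h _ (mem_qC.2 ⟨g.1, rfl⟩)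
    · rintro h ⟨g, c⟩ hg
      obtain ⟨g', hg'⟩ := mem_qC.1 hg
      have h1 : g = MonoidHom.pi q g' := hg'.symm
      rw [h1, hτq (g', c)]
      exact h _
  -- the fixed fields of the factors
  let F : ∀ i, IntermediateField k (K i) := fun i => fixH (σ i) ⊤
  have hF0 : ∀ i x, x ∈ F i ↔ ∀ g, σ i g x = x := fun i x =>
    ⟨fun h g => h g trivial, fun h g _ => h g⟩
  have hF : ∀ i x, x ∈ F i ↔ (∀ g, rK i g x = x) ∧ ∀ c, γ i c x = x := by
    intro i x
    rw [hF0]
    constructor
    · intro h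
      constructor
      · intro g
        have h1 := h (Function.update 1 i g, 1)
        rw [hσ] at h1
        change rK i (Function.update (1 : ∀ i, P' i) i g i) (γ i 1 x) = x at h1
        rw [Function.update_self, map_one] at h1
        exact h1
      · intro c
        have h1 := h (1, c)
        rw [hσ] at h1
        change rK i 1 (γ i c x) = x at h1
        rw [map_one] at h1
        exact h1
    · rintro ⟨h1, h2⟩ g
      rw [hσ, h2, h1]
  have hrange : ∀ i, (σ i).range = (lf (K i) (ρ i)).range := by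
    intro i
    have h1 : ∀ (g : P) (c : C) (g' : ∀ i, P' i), g' i = q i g →
        σ i (g', c) = lf (K i) (ρ i) (g, c) := by
      intro g c g' hg'
      apply AlgEquiv.ext
      intro y
      refine frac_ext2 (C := A i) ((σ i (g', c) : K i ≃ₐ[k] K i) : K i →+* K i)
        ((lf (K i) (ρ i) (g, c) : K i ≃ₐ[k] K i) : K i →+* K i) ?_ y
      intro a
      change lf (K i) (rr i) (g', c) (algebraMap (A i) (K i) a) =
        lf (K i) (ρ i) (g, c) (algebraMap (A i) (K i) a)
      rw [lf_app, lf_app, hrr]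
      change algebraMap (A i) (K i) ((r i (g' i) * γA i c) a) = _
      rw [hg', hrq]
      change algebraMap (A i) (K i) ((ρ i (g, 1) * ρ i (1, c)) a) = _
      rw [← map_mul, Prod.mk_mul_mk, mul_one, one_mul]
    apply le_antisymm
    · rintro _ ⟨⟨g', c⟩, rfl⟩
      obtain ⟨g, hg⟩ := hq i (g' i)
      exact ⟨(g, c), (h1 g c g' hg.symm).symm⟩
    · rintro _ ⟨⟨g, c⟩, rfl⟩
      exact ⟨(MonoidHom.pi q g, c), h1 g c _ rfl⟩
  have hFX : ∀ i x, x ∈ F i ↔ FX (lf (K i) (ρ i)).range x := by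
    intro i x
    rw [hF0, ← hrange]
    constructor
    · rintro h _ ⟨g, rfl⟩
      exact h _
    · intro h g
      exact h _ ⟨g, rfl⟩
  -- generation
  have hgenE : ∀ M : IntermediateField k E, (∀ i y, e i y ∈ M) → M = ⊤ := by
    intro M hM
    have h2 : ∀ b : B, algebraMap B E b ∈ M := by
      intro b
      have h3 : Algebra.adjoin k (⋃ i, Set.range (j i)) ≤
          M.toSubalgebra.comap (IsScalarTower.toAlgHom k B E) := by
        rw [Algebra.adjoin_le_iff]
        intro b hb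
        obtain ⟨i, a, rfl⟩ := Set.mem_iUnion.1 hb
        change algebraMap B E (j i a) ∈ M
        rw [← he]
        exact hM _ _
      rw [hj.adjoin] at h3
      exact h3 (x := b) trivial
    rw [eq_top_iff]
    intro y _
    obtain ⟨a, b, hb, rfl⟩ := IsFractionRing.div_surjective (A := B) y
    exact M.div_mem (h2 a) (h2 b)
  obtain ⟨NX, r1, c1, lam, w, hc1, hw0, hwF, hwm, hwgen⟩ := tame_gen e rK hrKi γ hcomm τ
    (fun g i x => by rw [hτ, hσ]) hgenE F hF m hζ hm hCm p
  have hfPC : Fintype (P × C) := Fintype.ofFinite _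
  have hfX : Fintype X := Fintype.ofFinite X
  have hcF : ∀ i x, cX i x ∈ F i := fun i x => (hFX i _).2 fun g hg => by
    obtain ⟨g', rfl⟩ := hg
    exact hcX i x g'
  let cc : ∀ i, X ⊕ Fin NX → F i := fun i => Sum.elim (fun b => ⟨cX i b, hcF i b⟩) (c1 i)
  have hcc0 : ∀ i b, cc i b ≠ 0 := by
    rintro i (b | a)
    · intro h1
      exact hcX0 i b (congrArg Subtype.val h1)
    · exact hc1 i a
  -- the models of the factors
  choose T I hT hI M nn hh Λ hKC hFn hFrc hPD using fun i =>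
    hfac i (F i) (hFX i) (X ⊕ Fin NX) (cc i) (hcc0 i)
  -- the model of the compositum
  let L0 : IntermediateField k E := IntermediateField.adjoin k {y | ∃ i, ∃ x ∈ F i, y = e i x}
  have hL0 : ∀ i, ∀ y ∈ F i, e i y ∈ L0 := fun i y hy =>
    IntermediateField.subset_adjoin k _ ⟨i, y, hy, rfl⟩
  have hL0K : L0 ≤ fixH τ ⊤ := by
    rw [IntermediateField.adjoin_le_iff]
    rintro _ ⟨i, x, hx, rfl⟩
    intro g _
    rw [hτ, (hF0 i x).1 hx]
  obtain ⟨e', φ, he', hφe, hφi, hφf⟩ := exists_L0 e hΦ F L0 rfl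
  obtain ⟨T0, I0, hT0, hI0, M0, n0, h0, sT, Λ0, hKC0, hFn0, hFr0, hle0, hbf0⟩ :=
    fmodg_family (X ⊕ Fin NX) n L0 (fun i => F i) e' φ hφe hφi hφf T I M nn hh cc Λ hKC hFn hFrc
  -- the Kummer extension
  let K0 := fixH τ ⊤
  let ρ0 : L0 →ₐ[k] K0 := IntermediateField.inclusion hL0K
  let _ : Algebra L0 K0 := ρ0.toRingHom.toAlgebra
  have tLK : IsScalarTower k L0 K0 := IsScalarTower.of_algebraMap_eq fun c => rfl
  obtain ⟨d0, htr⟩ : ∃ d0 : ℕ, Algebra.trdeg k L0 = d0 := by
    have hfB : Algebra.FiniteType k B := hj.finiteType fun i => inferInstance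
    have h3 : Algebra.trdeg k L0 ≤ Algebra.trdeg k B := by
      rw [← Pool.Agent.W348.WTM.trdeg_frac k B E]
      exact _root_.trdeg_le_of_injective L0.val L0.val.injective
    have h4 : Algebra.trdeg k B < Cardinal.aleph0 := _root_.trdeg_lt_aleph0_of_finiteType
    exact Cardinal.lt_aleph0.1 (h3.trans_lt h4)
  let w' : Fin r1 → K0 := fun l => ⟨w l, hwF l⟩
  let lam' : Fin r1 → Fin n × (X ⊕ Fin NX) → ℤ := fun l x =>
    Sum.elim (fun _ => 0) (fun a => lam l (x.1, a)) x.2
  have hw' : ∀ l, w' l ^ m = algebraMap L0 K0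
      (∏ x : Fin n × (X ⊕ Fin NX), e' x.1 (cc x.1 x.2) ^ lam' l x) := by
    intro l
    apply Subtype.ext
    have h1 : ((algebraMap L0 K0 (∏ x : Fin n × (X ⊕ Fin NX),
        e' x.1 (cc x.1 x.2) ^ lam' l x) : K0) : E) =
        L0.val (∏ x : Fin n × (X ⊕ Fin NX), e' x.1 (cc x.1 x.2) ^ lam' l x) := rfl
    rw [h1, map_prod]
    change w l ^ m = _
    rw [hwm, Fintype.prod_prod_type, Fintype.prod_prod_type]
    refine Finset.prod_congr rfl fun i _ => ?_
    rw [Fintype.prod_sum_type]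
    have h4 : ∏ b : X, L0.val (e' i (cc i (Sum.inl b)) ^ lam' l (i, Sum.inl b)) = 1 :=
      Finset.prod_eq_one fun b _ => by
        change L0.val (e' i (cc i (Sum.inl b)) ^ (0 : ℤ)) = 1
        rw [zpow_zero, map_one]
    rw [h4, one_mul]
    refine Finset.prod_congr rfl fun a _ => ?_
    rw [map_zpow₀]
    change _ = ((e' i (c1 i a) : L0) : E) ^ lam l (i, a)
    rw [he']
  have hgen' : IntermediateField.adjoin L0 (Set.range w') = ⊤ := by
    rw [eq_top_iff]
    intro y _
    let K1 : IntermediateField k E :=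
      ((IntermediateField.adjoin L0 (Set.range w')).restrictScalars k).map K0.val
    have h3 : fixH τ ⊤ ≤ K1 := by
      refine hwgen K1 ?_ ?_
      · intro i x hx
        refine ⟨ρ0 (e' i ⟨x, hx⟩),
          (IntermediateField.adjoin L0 (Set.range w')).algebraMap_mem (e' i ⟨x, hx⟩), ?_⟩
        exact he' i ⟨x, hx⟩
      · intro l
        exact ⟨w' l, IntermediateField.subset_adjoin L0 _ ⟨l, rfl⟩, rfl⟩
    obtain ⟨y', hy', hyy⟩ := h3 y.2
    have h4 : y' = y := Subtype.ext hyy
    rw [← h4]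
    exact hy'
  have hw'0 : ∀ l, w' l ≠ 0 := fun l h => hw0 l (congrArg Subtype.val h)
  obtain ⟨T1, I1, hT1, hI1, M1, n1, h1, Γ1, σ1, hKC1, hFn1, hFr1, hle1, hbf1⟩ :=
    kummer_kc (K0 := K0) htr hm hw'0 hKC0 hFn0 hFr0 lam' hw' hgen'
  let gX : X → L0 := fun b => ∏ i, e' i (cc i (Sum.inl b))
  have hbase : GKT p k M0.A (bf M0 n0 h0) ρ0 (fun b => ρ0 (gX b)) := by
    have hFp := fn_prod (M := M1) (g := fun (i : Fin n) (b : X) => ρ0 (e' i (cc i (Sum.inl b))))
      (Γ := fun i b => Γ1 (Sum.inl (i, Sum.inl b))) (fun i b t =>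
        hFn1 (Sum.inl (i, Sum.inl b)) t)
    refine ⟨T1, I1, Fin n, hT1, hI1, inferInstance, M1, n1, h1,
      fun b i => ∑ l, Γ1 (Sum.inl (l, Sum.inl b)) i, σ1, hKC1, ?_, hFr1, hle1, ?_⟩
    · intro b t
      have h5 : ρ0 (gX b) = ∏ i, ρ0 (e' i (cc i (Sum.inl b))) := map_prod _ _ _
      obtain ⟨w2, hw20, hw2, hw2', e2⟩ := hFp b t
      exact ⟨w2, hw20, hw2, hw2', h5.trans e2⟩
    · intro t l c
      have h5 : ρ0 (bf M0 n0 h0 (σ1 t) l) = bf M1 n1 h1 t l := (hbf1 t l).symm
      rw [h5]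
      exact KB.smul p c l
  have hGH := gkt_prod p e τ hinj σ hτ hσinj F hPG M nn hh (fun i t 𝔐 h𝔐 => by
    rw [hrange]
    exact hPD i t 𝔐 h𝔐) e' ρ0 (fun i x => he' i x) M0 n0 h0 sT hle0 hbf0 hbase Q
  obtain ⟨T2, I2, ι2, hT2, hI2, hι2, M2, n2, h2, Γ2, σ2, -, hFn2, hFr2, -, -⟩ := hGH
  -- the coordinate ring
  let KG := fixH τ H
  let ρI : R →+* KG :=
    { toFun := fun r => ⟨ι r, (hH _).2 fun g => hR1 r g⟩
      map_one' := Subtype.ext (map_one ι)
      map_mul' := fun a b => Subtype.ext (map_mul ι _ _)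
      map_zero' := Subtype.ext (map_zero ι)
      map_add' := fun a b => Subtype.ext (map_add ι _ _) }
  let _ : Algebra R KG := ρI.toAlgebra
  have hvi : Function.Injective KG.val := KG.val.injective
  have hρ : ∀ b : R, KG.val (algebraMap R KG b) = ι b := fun b => rfl
  have tI : IsScalarTower k R KG := IsScalarTower.of_algebraMap_eq fun c => by
    apply Subtype.ext
    exact (ι.commutes c).symm
  have hρi : Function.Injective (algebraMap R KG) := fun a b hab =>
    hι (congrArg KG.val hab)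
  have hfs : FaithfulSMul R KG := (faithfulSMul_iff_algebraMap_injective R KG).2 hρi
  have hfr : IsFractionRing R KG := by
    refine IsFractionRing.of_field _ _ fun y => ?_
    obtain ⟨a, b, hb0, hab⟩ := hR2 y ((hH y).1 y.2)
    refine ⟨a, b, ?_⟩
    apply hvi
    rw [map_div₀, hρ, hρ]
    change (y : E) = ι a / ι b
    rw [eq_div_iff ((map_ne_zero_iff ι hι).2 hb0)]
    exact hab
  obtain ⟨T', I', hT', hI', ⟨M'⟩⟩ := LM_of_fn M2 _ Γ2 hFn2 hFr2 R aX (by
    intro b
    apply hvi
    rw [hρ, haX]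
    symm
    change L0.val (∏ i, e' i (cc i (Sum.inl b))) = _
    rw [map_prod]
    refine Finset.prod_congr rfl fun i _ => ?_
    rw [hee]
    exact he' i _) hint
  exact hasResolution_of_LM _ hρi M'

end main

end Pool.Agent.Zk10.Act
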