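import Pool.Agent.Zk62.Tw.U1

/-!
Towers over subgroups of products of `p`-groups and groups of order prime to `p`, and the local
condition for products.
-/

set_option autoImplicit false
set_option linter.unusedVariables false
set_option linter.unusedSectionVars false

universe u

open Polynomial

namespace Pool.Agent.Zk10.Ram

open Pool.Agent.W558 Pool.Agent.W435.WT.Gal Pool.Agent.Zk10

section kil

variable {k M : Type u} [Field k] [IsAlgClosed k] [Field M] [Algebra k M] {G : Type} [Group G]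
  [Finite G] (τ : G →* (M ≃ₐ[k] M)) (p : ℕ) [Fact p.Prime] [CharP k p]

/-- The condition for the step. -/
theorem kil_R {L0 : Type u} [Field L0] [Algebra k L0] (H : Subgroup G)
    (ρ : L0 →ₐ[k] fixH τ H) (hρ : ∀ (g : G) x, τ g (ρ x : M) = ρ x) (S : Subalgebra k L0)
    [Algebra.FiniteType k S] {ι : Type} [Fintype ι] {b0 : ι → L0} (DM : Subalgebra k M)
    (hDM : ∀ x, x ∈ DM ↔ IsInt ((fixH τ H).val.comp ρ) S x) (χ : G → ZMod p)
    (hloc : ∀ 𝔐 : Ideal DM, 𝔐.IsMaximal → ∃ (w : M) (c : ι → k),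
      (∀ g ∈ H, g ∈ inert τ DM 𝔐 → τ g w = w + ((χ g).val : M)) ∧ ∃ s : DM, s ∉ 𝔐 ∧
        (s : M) * (w ^ p - w - ∑ l, algebraMap k M (c l) * (ρ (b0 l) : M)) ∈ DM)
    (z : M) (hz : ∀ g ∈ H, τ g z = z + ((χ g).val : M)) (F : fixH τ H)
    (hF : (F : M) = z ^ p - z) :
    KIL p ρ S b0 F := by
  classical
  have hp : p.Prime := Fact.out
  have hcM : CharP M p := charP_of_injective_algebraMap (algebraMap k M).injective p
  let L := fixH τ H
  let ρM : L0 →ₐ[k] M := L.val.comp ρ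
  have hρM : ∀ x, ρM x = (ρ x : M) := fun x => rfl
  let f : S →+* M := (ρM : L0 →+* M).comp (algebraMap S L0)
  have hDMf : ∀ x : M, x ∈ DM ↔ f.IsIntegralElem x := fun x => hDM x
  have hL : ∀ x : L, IsInt ρ S x ↔ (x : M) ∈ DM := fun x => by
    rw [hDM]
    exact (isInt_map (K := M) (ρ := ρ) (S := S) (g := x)).symm
  -- the group acts
  have hτD : ∀ g, ∀ x ∈ DM, τ g x ∈ DM := by
    intro g x hx
    rw [hDMf] at hx ⊢
    obtain ⟨P, hP, hP0⟩ := hx
    refine ⟨P, hP, ?_⟩
    have h1 : (τ g : M →+* M).comp f = f := RingHom.ext fun s => hρ g s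
    have h2 := congrArg (τ g : M →+* M) hP0
    rw [hom_eval₂, h1, map_zero] at h2
    exact h2
  let S' : Subalgebra k M := S.map ρM
  have hS'D : S' ≤ DM := by
    rintro _ ⟨s, hs, rfl⟩
    exact (hDMf _).2 (RingHom.isIntegralElem_map f (x := ⟨s, hs⟩))
  have hS'ft : Algebra.FiniteType k S' := by
    have h1 := Subalgebra.fg_iff_finiteType S |>.2 inferInstance
    exact (Subalgebra.fg_iff_finiteType _).1 (h1.map ρM)
  have hint : ∀ x ∈ DM, IsIntegral S' x := by
    intro x hx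
    obtain ⟨P, hP, hP0⟩ := (hDMf x).1 hx
    let φ : S →+* S' := (f.codRestrict S' fun s => ⟨s, s.2, rfl⟩)
    refine ⟨P.map φ, hP.map φ, ?_⟩
    rw [eval₂_map]
    exact hP0
  -- integrally closed
  have hic : ∀ x : M, IsIntegral DM x → x ∈ DM := by
    intro x hx
    let _ : Algebra S M := f.toAlgebra
    let _ : Algebra S DM := (f.codRestrict DM fun s => hS'D ⟨s, s.2, rfl⟩).toAlgebra
    have _ : IsScalarTower S DM M := IsScalarTower.of_algebraMap_eq fun s => rfl
    have _ : Algebra.IsIntegral S DM := by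
      constructor
      intro d
      have h1 : IsIntegral S (algebraMap DM M d) := (hDMf d).1 d.2
      exact (isIntegral_algebraMap_iff (FaithfulSMul.algebraMap_injective DM M)).1 h1
    exact (hDMf x).2 (isIntegral_trans (R := S) x hx)
  -- the invariants
  let DH : Subalgebra k L := DM.comap L.val
  have hDH : ∀ x : L, x ∈ DH ↔ (x : M) ∈ DM := fun x => Iff.rfl
  let Q : Set DH := {s | ∃ (a : L) (c : ι → k),
    (s : L) * (F - (a ^ p - a + ∑ l, algebraMap k L (c l) * ρ (b0 l))) ∈ DH}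
  have hQ : Ideal.span Q = ⊤ := by
    by_contra hne
    obtain ⟨𝔪, hm, hle⟩ := Ideal.exists_le_maximal _ hne
    -- the maximal ideal of `DM`
    let j : DH →ₐ[k] DM :=
      { toFun := fun x => ⟨((x : L) : M), x.2⟩
        map_one' := rfl
        map_mul' := fun _ _ => rfl
        map_zero' := rfl
        map_add' := fun _ _ => rfl
        commutes' := fun _ => rfl }
    let _ : Algebra DH DM := j.toRingHom.toAlgebra
    have hinjj : Function.Injective (algebraMap DH DM) := by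
      intro x y hxy
      apply Subtype.ext
      apply Subtype.ext
      exact congrArg (fun t : DM => (t : M)) hxy
    have hI : Algebra.IsIntegral DH DM := by
      constructor
      intro x
      obtain ⟨P, hP, hP0⟩ := (hDMf x).1 x.2
      let φ : S →+* DH :=
        { toFun := fun s => ⟨ρ s, hS'D ⟨s, s.2, rfl⟩⟩
          map_one' := Subtype.ext (map_one ρ)
          map_mul' := fun _ _ => Subtype.ext (map_mul ρ _ _)
          map_zero' := Subtype.ext (map_zero ρ)
          map_add' := fun _ _ => Subtype.ext (map_add ρ _ _) }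
      refine ⟨P.map φ, hP.map φ, ?_⟩
      rw [eval₂_map]
      apply Subtype.val_injective
      have h1 : f = (DM.val : DM →+* M).comp ((algebraMap DH DM).comp φ) := rfl
      rw [h1] at hP0
      have h2 := hom_eval₂ P ((algebraMap DH DM).comp φ) (DM.val : DM →+* M) x
      exact h2.trans hP0
    obtain ⟨𝔐, h𝔐m, h𝔐⟩ := Ideal.exists_ideal_over_maximal_of_isIntegral (S := DM) 𝔪 (by
      rw [(RingHom.injective_iff_ker_eq_bot _).1 hinjj]
      exact bot_le)
    have h𝔐p : 𝔐.IsPrime := h𝔐m.isPrime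
    have hres := exists_residue hS'D hint 𝔐
    obtain ⟨w, c, hw, s, hs, hsw⟩ := hloc 𝔐 h𝔐m
    let bb : L := ∑ l, algebraMap k L (c l) * ρ (b0 l)
    have hbb : (bb : M) = ∑ l, algebraMap k M (c l) * (ρ (b0 l) : M) := by
      change L.val (∑ l, algebraMap k L (c l) * ρ (b0 l)) = _
      rw [map_sum]
      rfl
    obtain ⟨a, ha, e, he, heH, hea⟩ := desc_res τ p hic hτD H hres (F := ((F - bb : L) : M))
      (v := z - w) (fun g hg => (F - bb : L).2 g hg) (by
        intro g hg hgI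
        rw [map_sub, hz g hg, hw g hg hgI]
        ring) hs (by
        have h1 : ((F - bb : L) : M) - ((z - w) ^ p - (z - w)) =
            w ^ p - w - ∑ l, algebraMap k M (c l) * (ρ (b0 l) : M) := by
          change (F : M) - (bb : M) - _ = _
          rw [hF, hbb, sub_pow_char]
          ring
        rw [h1]
        exact hsw)
    let a' : L := ⟨a, ha⟩
    let e' : L := ⟨e, heH⟩
    have h1 : (⟨e', e.2⟩ : DH) ∈ 𝔪 := by
      refine hle (Ideal.subset_span ⟨a', c, ?_⟩)
      change (e : M) * ((F - (a' ^ p - a' + bb) : L) : M) ∈ DM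
      have h2 : ((F - (a' ^ p - a' + bb) : L) : M) = ((F - bb : L) : M) - (a ^ p - a) := by
        change (F : M) - (a ^ p - a + (bb : M)) = (F : M) - (bb : M) - (a ^ p - a)
        ring
      rw [h2]
      exact hea
    rw [← h𝔐] at h1
    exact he h1
  -- the partition of unity
  have h1 : (1 : DH) ∈ Ideal.span Q := by rw [hQ]; trivial
  obtain ⟨m, α, s, hsum⟩ := Submodule.mem_span_set'.1 h1
  refine ⟨m, fun v => ((s v : DH) : L), fun v => (α v : L), fun v => (hL _).2 (s v : DH).2,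
    fun v => (hL _).2 (α v).2, ?_, ?_⟩
  · have h2 := congrArg (fun x : DH => (x : L)) hsum
    change ((∑ i, α i • (s i : DH) : DH) : L) = 1 at h2
    rw [← h2, AddSubmonoidClass.coe_finsetSum]
    rfl
  · intro v
    obtain ⟨a, c, hac⟩ := (s v).2
    exact ⟨a, c, (hL _).2 hac⟩

end kil

section tower

variable {k M : Type u} [Field k] [IsAlgClosed k] [Field M] [Algebra k M] {P C : Type} [Group P]
  [Finite P] [Group C] [Finite C] (τ : P × C →* (M ≃ₐ[k] M)) (hinj : Function.Injective τ) (p : ℕ)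
  [Fact p.Prime] [CharP k p]

/-- The subgroup `Q × C`. -/
abbrev qC (Q : Subgroup P) : Subgroup (P × C) := Q.prod ⊤

lemma mem_qC {Q : Subgroup P} {g : P × C} : g ∈ qC (C := C) Q ↔ g.1 ∈ Q := by
  rw [Subgroup.mem_prod]
  exact ⟨fun h => h.1, fun h => ⟨h, trivial⟩⟩

include hinj in
/-- The towers for the subgroups `Q × C`. -/
theorem gkt_PC {L0 : Type u} [Field L0] [Algebra k L0] (ρ0 : L0 →ₐ[k] fixH τ ⊤)
    (hG : IsPGroup p P) {T0 X ι0 : Type} [Fintype ι0] {B : T0 → Subalgebra k L0}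
    (hBft : ∀ s, Algebra.FiniteType k (B s)) {b0 : T0 → ι0 → L0}
    (DM : T0 → Subalgebra k M)
    (hDM : ∀ s x, x ∈ DM s ↔ IsInt ((fixH τ ⊤).val.comp ρ0) (B s) x)
    (hloc : ∀ s (𝔐 : Ideal (DM s)), 𝔐.IsMaximal → ∀ (H : Subgroup (P × C)) (χ : P × C → ZMod p),
      (∀ g ∈ H, ∀ h ∈ H, χ (g * h) = χ g + χ h) → ∃ (w : M) (c : ι0 → k),
      (∀ g ∈ H, g ∈ inert τ (DM s) 𝔐 → τ g w = w + ((χ g).val : M)) ∧ ∃ q : DM s, q ∉ 𝔐 ∧
        (q : M) * (w ^ p - w - ∑ l, algebraMap k M (c l) * (ρ0 (b0 s l) : M)) ∈ DM s)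
    {g : X → L0} (hbase : GKT p k B b0 ρ0 (fun a => ρ0 (g a))) (Q : Subgroup P) :
    GKT p k B b0 ((incH τ (qC Q)).comp ρ0) (fun a => incH τ (qC Q) (ρ0 (g a))) := by
  classical
  have hcM : CharP M p := charP_of_injective_algebraMap (algebraMap k M).injective p
  have htop : qC (C := C) (⊤ : Subgroup P) = ⊤ := Subgroup.top_prod_top
  have hcard : ∀ (m : ℕ) (Q : Subgroup P), Nat.card P - Nat.card Q ≤ m →
      GKT p k B b0 ((incH τ (qC Q)).comp ρ0) (fun a => incH τ (qC Q) (ρ0 (g a))) := by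
    intro m
    induction m with
    | zero =>
      intro Q hH
      have h1 : Nat.card Q ≤ Nat.card P :=
        Nat.card_le_card_of_injective _ Q.subtype_injective
      have h2 : Q = ⊤ := Subgroup.eq_top_of_card_eq Q (by omega)
      subst h2
      rw [htop]
      exact hbase
    | succ m ih =>
      intro Q hH
      by_cases hHt : Q = ⊤
      · subst hHt
        rw [htop]
        exact hbase
      obtain ⟨Q1, χ0, hlt, hχ0m, hχ00⟩ := exists_char p hG Q hHt
      have h1 : Nat.card Q < Nat.card Q1 := by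
        refine lt_of_le_of_ne (Nat.card_le_card_of_injective _
          (Subgroup.inclusion_injective hlt.le)) ?_
        intro h
        apply hlt.ne
        exact Subgroup.eq_of_le_of_card_ge hlt.le h.ge
      have hprev := ih Q1 (by
        have h2 : Nat.card Q1 ≤ Nat.card P :=
          Nat.card_le_card_of_injective _ Q1.subtype_injective
        omega)
      let H : Subgroup (P × C) := qC Q
      let H1 : Subgroup (P × C) := qC Q1
      have hle : H ≤ H1 := fun g hg => mem_qC.2 (hlt.le (mem_qC.1 hg))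
      let χ : P × C → ZMod p := fun g => χ0 g.1
      have hχ : ∀ g ∈ H1, ∀ h ∈ H1, χ (g * h) = χ g + χ h := fun g hg h hh =>
        hχ0m _ (mem_qC.1 hg) _ (mem_qC.1 hh)
      have hχ0 : ∀ g ∈ H1, χ g = 0 ↔ g ∈ H := fun g hg =>
        (hχ00 _ (mem_qC.1 hg)).trans mem_qC.symm
      -- the Artin-Schreier element
      let lam : (M ≃ₐ[k] M) → ZMod p := fun s =>
        if h : ∃ g ∈ H1, τ g = s then χ h.choose else 0
      have hlam : ∀ g ∈ H1, lam (τ g) = χ g := by
        intro g hg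
        have hex : ∃ g' ∈ H1, τ g' = τ g := ⟨g, hg, rfl⟩
        have h2 : lam (τ g) = χ hex.choose := dif_pos hex
        rw [h2]
        congr 1
        exact hinj hex.choose_spec.2
      have hfinm : Finite (H1.map τ) := Finite.of_surjective
        (fun h : H1 => (⟨τ h.1, h.1, h.2, rfl⟩ : H1.map τ)) (by
          rintro ⟨_, g, hg, rfl⟩
          exact ⟨⟨g, hg⟩, rfl⟩)
      obtain ⟨z, hz⟩ := h90 p (H1.map τ) lam (by
        rintro _ ⟨g, hg, rfl⟩ _ ⟨h, hh, rfl⟩
        rw [← map_mul, hlam _ (H1.mul_mem hg hh), hlam _ hg, hlam _ hh, hχ g hg h hh])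
      have hz' : ∀ g ∈ H1, τ g z = z + zc p M (χ g) := by
        intro g hg
        rw [hz _ ⟨g, hg, rfl⟩, hlam g hg]
      let L := fixH τ H1
      let K := fixH τ H
      have hLK : L ≤ K := fixH_anti τ hle
      let _ : Algebra L K := (IntermediateField.inclusion hLK).toRingHom.toAlgebra
      have tLK : IsScalarTower k L K := IsScalarTower.of_algebraMap_eq fun c => rfl
      have hzK : z ∈ K := by
        intro g hg
        rw [hz' g (hle hg), (hχ0 g (hle hg)).2 hg, map_zero, add_zero]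
      have hFL : z ^ p - z ∈ L := by
        intro g hg
        rw [map_sub, map_pow, hz' g hg, add_pow_char, Pool.Agent.W435.WT.Gal.zc_pow]
        ring
      have hkil : ∀ s, KIL p ((incH τ H1).comp ρ0) (B s) (b0 s) (⟨z ^ p - z, hFL⟩ : L) := by
        intro s
        have := hBft s
        refine kil_R τ p H1 ((incH τ H1).comp ρ0) (fun g x => (ρ0 x).2 g trivial) (B s)
          (b0 := b0 s) (DM s) (hDM s) χ (fun 𝔐 h𝔐 => hloc s 𝔐 h𝔐 H1 χ hχ) z (fun g hg => by
          rw [hz' g hg, zc_val]) _ rfl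
      have h2 := gkt_stepL (K := K) p hprev (⟨z ^ p - z, hFL⟩ : L) hkil ⟨z, hzK⟩ rfl (by
        rw [eq_top_iff]
        intro y _
        let K1 : IntermediateField k M :=
          ((IntermediateField.adjoin L {(⟨z, hzK⟩ : K)}).restrictScalars k).map K.val
        have h3 : fixH τ H ≤ K1 := by
          refine fix_adjoin τ hinj hle (z := z) ?_ K1 ?_ ?_
          · intro h hh hhz
            rw [hz' h hh] at hhz
            have h4 : zc p M (χ h) = 0 := by linear_combination hhz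
            have h5 : χ h = 0 := zc_inj p M (by rw [h4, map_zero])
            exact (hχ0 h hh).1 h5
          · intro x hx
            exact ⟨⟨x, hLK hx⟩, (IntermediateField.adjoin L {(⟨z, hzK⟩ : K)}).algebraMap_mem
              ⟨x, hx⟩, rfl⟩
          · exact ⟨⟨z, hzK⟩, IntermediateField.mem_adjoin_simple_self L _, rfl⟩
        obtain ⟨y', hy', hyy⟩ := h3 y.2
        have h4 : y' = y := Subtype.ext hyy
        rw [← h4]
        exact hy')
      exact h2
  exact hcard _ Q le_rfl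

end tower

section prod

variable {k E : Type u} [Field k] [Field E] [Algebra k E]

/-- The elements of the group `Γ` in the inertia group of the ideal `𝔐`. -/
def Ig (Γ : Subgroup (E ≃ₐ[k] E)) (D : Subalgebra k E) (𝔐 : Ideal D) : Set (E ≃ₐ[k] E) :=
  {s | s ∈ Γ ∧ ∀ x y : D, (y : E) = s x → y - x ∈ 𝔐}

/-- The ramification at the point `𝔐` is given by the function `b`. -/
structure PG (p : ℕ) (Γ : Subgroup (E ≃ₐ[k] E)) (D : Subalgebra k E) (𝔐 : Ideal D) (b : E) :
    Prop where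
  θ : ∃ θ : (E ≃ₐ[k] E) → k, (∀ s ∈ Ig Γ D 𝔐, ∀ t ∈ Ig Γ D 𝔐, θ (s * t) = θ s + θ t) ∧
    ∀ s ∈ Ig Γ D 𝔐, θ s = 0 → ∃ m : ℕ, ¬ p ∣ m ∧ s ^ m = 1
  gen : ∀ lam : (E ≃ₐ[k] E) → ZMod p,
    (∀ s ∈ Ig Γ D 𝔐, ∀ t ∈ Ig Γ D 𝔐, lam (s * t) = lam s + lam t) →
    ∃ (w : E) (c : k), (∀ s ∈ Ig Γ D 𝔐, s w = w + ((lam s).val : E)) ∧
      ∃ q : D, q ∉ 𝔐 ∧ (q : E) * (w ^ p - w - algebraMap k E c * b) ∈ D

variable {M : Type u} [Field M] [Algebra k M] {n : ℕ} {F : Fin n → Type u}
  [∀ i, Field (F i)] [∀ i, Algebra k (F i)] (e : ∀ i, F i →ₐ[k] M) {G : Type} [Group G]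
  [Finite G] (τ : G →* (M ≃ₐ[k] M)) (σ : ∀ i, G →* (F i ≃ₐ[k] F i))
  (hτ : ∀ g i x, τ g (e i x) = e i (σ i g x)) (hσinj : ∀ g, (∀ i, σ i g = 1) → g = 1)
  (p : ℕ) [Fact p.Prime] [CharP k p]

/-- The map of the local algebras. -/
def eD {D : ∀ i, Subalgebra k (F i)} {DM : Subalgebra k M} (he : ∀ i, ∀ x ∈ D i, e i x ∈ DM)
    (i : Fin n) : D i →+* DM where
  toFun := fun x => ⟨e i x, he i x x.2⟩
  map_one' := Subtype.ext (map_one (e i))
  map_mul' := fun x y => Subtype.ext (map_mul (e i) _ _)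
  map_zero' := Subtype.ext (map_zero (e i))
  map_add' := fun x y => Subtype.ext (map_add (e i) _ _)

include hτ hσinj in
/-- The local condition for products. -/
theorem loc_prod {D : ∀ i, Subalgebra k (F i)} {DM : Subalgebra k M} {𝔐 : Ideal DM} [𝔐.IsPrime]
    (he : ∀ i, ∀ x ∈ D i, e i x ∈ DM) {b : ∀ i, F i}
    (hPG : ∀ i, PG p (σ i).range (D i) (𝔐.comap (eD e he i)) (b i))
    (H : Subgroup G) (χ : G → ZMod p) (hχ : ∀ g ∈ H, ∀ h ∈ H, χ (g * h) = χ g + χ h)
    (hτD : ∀ g, ∀ x ∈ DM, τ g x ∈ DM) :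
    ∃ (w : M) (c : Fin n → k), (∀ g ∈ H, g ∈ inert τ DM 𝔐 → τ g w = w + ((χ g).val : M)) ∧
      ∃ q : DM, q ∉ 𝔐 ∧
        (q : M) * (w ^ p - w - ∑ i, algebraMap k M (c i) * e i (b i)) ∈ DM := by
  classical
  have hp : p.Prime := Fact.out
  have hcM : CharP M p := charP_of_injective_algebraMap (algebraMap k M).injective p
  have hcF : ∀ i, CharP (F i) p := fun i =>
    charP_of_injective_algebraMap (algebraMap k (F i)).injective p
  let J : ∀ i, Set (F i ≃ₐ[k] F i) := fun i => Ig (σ i).range (D i) (𝔐.comap (eD e he i))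
  let HI := inertH τ (𝔐 := 𝔐) H hτD
  have hJ : ∀ g ∈ HI, ∀ i, σ i g ∈ J i := by
    intro g hg i
    refine ⟨⟨g, rfl⟩, fun x y hxy => ?_⟩
    rw [Ideal.mem_comap, map_sub]
    refine hg.2 (eD e he i x) (eD e he i y) ?_
    change e i (y : F i) = τ g (e i (x : F i))
    rw [hxy, hτ]
  have hχ1 : χ 1 = 0 := by
    have h := hχ 1 H.one_mem 1 H.one_mem
    rw [one_mul] at h
    simpa using h
  have hχinv : ∀ g ∈ H, χ g⁻¹ = -χ g := by
    intro g hg
    have h := hχ g hg g⁻¹ (H.inv_mem hg)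
    rw [mul_inv_cancel, hχ1] at h
    exact (neg_eq_of_add_eq_zero_right h.symm).symm
  have hχpow : ∀ g ∈ H, ∀ m : ℕ, χ (g ^ m) = m * χ g := by
    intro g hg m
    induction m with
    | zero => rw [pow_zero, hχ1]; simp
    | succ m ih =>
      rw [pow_succ, hχ _ (H.pow_mem hg m) _ hg, ih]
      push_cast
      ring
  choose θ hθ hθ0 using fun i => (hPG i).θ
  let Θ : G → (Fin n → k) := fun g i => θ i (σ i g)
  have hΘ : ∀ g ∈ HI, ∀ h ∈ HI, Θ (g * h) = Θ g + Θ h := by
    intro g hg h hh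
    funext i
    change θ i (σ i (g * h)) = θ i (σ i g) + θ i (σ i h)
    rw [map_mul]
    exact hθ i _ (hJ g hg i) _ (hJ h hh i)
  have hΘ1 : Θ 1 = 0 := by
    have h := hΘ 1 HI.one_mem 1 HI.one_mem
    rw [one_mul] at h
    simpa using h
  have hΘinv : ∀ g ∈ HI, Θ g⁻¹ = -Θ g := by
    intro g hg
    have h := hΘ g hg g⁻¹ (HI.inv_mem hg)
    rw [mul_inv_cancel, hΘ1] at h
    exact (neg_eq_of_add_eq_zero_right h.symm).symm
  have hker : ∀ g ∈ HI, Θ g = 0 → χ g = 0 := by
    intro g hg h0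
    choose m hm hm1 using fun i => hθ0 i _ (hJ g hg i) (congrFun h0 i)
    let m' : ℕ := ∏ i, m i
    have h1 : g ^ m' = 1 := by
      apply hσinj
      intro i
      rw [map_pow]
      have h2 : m' = m i * ∏ l ∈ Finset.univ.erase i, m l :=
        (Finset.mul_prod_erase _ _ (Finset.mem_univ i)).symm
      rw [h2, pow_mul, hm1, one_pow]
    have h2 : ¬ p ∣ m' := by
      intro h
      obtain ⟨i, -, hi⟩ := (Prime.dvd_finsetProd_iff hp.prime _).1 h
      exact hm i hi
    have h3 := hχpow g hg.1 m'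
    rw [h1, hχ1] at h3
    rcases mul_eq_zero.1 h3.symm with h4 | h4
    · exact absurd ((ZMod.natCast_eq_zero_iff m' p).1 h4) h2
    · exact h4
  have hwd : ∀ g ∈ HI, ∀ h ∈ HI, Θ g = Θ h → χ g = χ h := by
    intro g hg h hh hgh
    have h1 : Θ (g * h⁻¹) = 0 := by
      rw [hΘ _ hg _ (HI.inv_mem hh), hΘinv _ hh, hgh, add_neg_cancel]
    have h3 := hker _ (HI.mul_mem hg (HI.inv_mem hh)) h1
    rw [hχ _ hg.1 _ (H.inv_mem hh.1), hχinv _ hh.1] at h3
    linear_combination h3
  -- extension of the character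
  obtain ⟨Fc, hFc⟩ : ∃ Fc : (Fin n → k) →+ ZMod p, ∀ g ∈ HI, Fc (Θ g) = χ g := by
    let _ : Algebra (ZMod p) k := ZMod.algebra k p
    let W0 : AddSubgroup (Fin n → k) :=
      { carrier := {x | ∃ g ∈ HI, Θ g = x}
        zero_mem' := ⟨1, HI.one_mem, hΘ1⟩
        add_mem' := by
          rintro _ _ ⟨g, hg, rfl⟩ ⟨h, hh, rfl⟩
          exact ⟨g * h, HI.mul_mem hg hh, hΘ g hg h hh⟩
        neg_mem' := by
          rintro _ ⟨g, hg, rfl⟩
          exact ⟨g⁻¹, HI.inv_mem hg, hΘinv g hg⟩ }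
    let W : Submodule (ZMod p) (Fin n → k) := AddSubgroup.toZModSubmodule p W0
    have hW : ∀ x : W, ∃ g ∈ HI, Θ g = x := fun x => x.2
    choose γ hγ1 hγ2 using hW
    let f0 : W →+ ZMod p :=
      { toFun := fun x => χ (γ x)
        map_zero' := by
          rw [← hχ1]
          exact hwd _ (hγ1 _) _ HI.one_mem (by rw [hγ2, hΘ1]; rfl)
        map_add' := fun x y => by
          rw [← hχ _ (hγ1 x).1 _ (hγ1 y).1]
          refine hwd _ (hγ1 _) _ (HI.mul_mem (hγ1 x) (hγ1 y)) ?_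
          rw [hΘ _ (hγ1 x) _ (hγ1 y), hγ2, hγ2, hγ2]
          rfl }
    let f : W →ₗ[ZMod p] ZMod p := f0.toZModLinearMap p
    obtain ⟨Fc, hFc⟩ := LinearMap.exists_extend f
    refine ⟨Fc.toAddMonoidHom, ?_⟩
    intro g hg
    have hgW : Θ g ∈ W := ⟨g, hg, rfl⟩
    have h1 := LinearMap.congr_fun hFc ⟨Θ g, hgW⟩
    have h2 : Fc (Θ g) = χ (γ ⟨Θ g, hgW⟩) := h1
    change Fc (Θ g) = χ g
    rw [h2]
    exact hwd _ (hγ1 _) _ hg (hγ2 _)
  let lam : ∀ i, (F i ≃ₐ[k] F i) → ZMod p := fun i s => Fc (Pi.single i (θ i s))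
  have hlam : ∀ i, ∀ s ∈ J i, ∀ t ∈ J i, lam i (s * t) = lam i s + lam i t := by
    intro i s hs t ht
    change Fc (Pi.single i (θ i (s * t))) = _
    rw [hθ i s hs t ht, Pi.single_add, map_add]
  have hχlam : ∀ g ∈ HI, χ g = ∑ i, lam i (σ i g) := by
    intro g hg
    rw [← hFc g hg]
    change _ = ∑ i, Fc (Pi.single i (θ i (σ i g)))
    rw [← map_sum]
    congr 1
    exact (Finset.univ_sum_single (Θ g)).symm
  -- the Artin-Schreier elements
  choose w c hw q hq hqw using fun i => (hPG i).gen (lam i) (hlam i)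
  refine ⟨∑ i, e i (w i), c, ?_, ∏ i, eD e he i (q i), ?_, ?_⟩
  · intro g hg hg'
    have hgI : g ∈ HI := ⟨hg, hg'⟩
    have h1 : (((χ g).val : ℕ) : M) = ∑ i, (((lam i (σ i g)).val : ℕ) : M) := by
      rw [← zc_val p, hχlam g hgI, map_sum]
      exact Finset.sum_congr rfl fun i _ => zc_val p _
    rw [map_sum, h1, ← Finset.sum_add_distrib]
    refine Finset.sum_congr rfl fun i _ => ?_
    rw [hτ, hw i _ (hJ g hgI i), map_add, map_natCast]
  · rw [Ideal.IsPrime.prod_mem_iff]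
    rintro ⟨i, -, hi⟩
    exact hq i (Ideal.mem_comap.2 hi)
  · have h1 : (∑ i, e i (w i)) ^ p - ∑ i, e i (w i) - ∑ i, algebraMap k M (c i) * e i (b i) =
        ∑ i, e i (w i ^ p - w i - algebraMap k (F i) (c i) * b i) := by
      rw [sum_pow_char, ← Finset.sum_sub_distrib, ← Finset.sum_sub_distrib]
      refine Finset.sum_congr rfl fun i _ => ?_
      rw [map_sub, map_sub, map_pow, map_mul, AlgHom.commutes]
    rw [h1, Finset.mul_sum]
    refine DM.sum_mem fun i _ => ?_
    rw [← Finset.mul_prod_erase _ _ (Finset.mem_univ i)]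
    push_cast
    have h2 : ((eD e he i (q i) : DM) : M) = e i (q i) := rfl
    rw [h2, mul_right_comm, ← map_mul]
    refine DM.mul_mem (he i _ (hqw i)) ?_
    exact DM.prod_mem fun l _ => (eD e he l (q l)).2

end prod

end Pool.Agent.Zk10.Ram
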