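import Pool.Agent.Zk62.Tw.U19

/-!
Varieties which are birational to quotients of products, for general groups.
-/

set_option autoImplicit false
set_option linter.unusedVariables false
set_option linter.unusedSectionVars false

universe u

open Polynomial AlgebraicGeometry CategoryTheory TensorProduct

namespace Pool.Agent.Zk10.Act

open Pool.Agent.W558 Pool.Agent.W558.WT Pool.Agent.Zk10.Ram Pool.Agent.Zk10.Cur
  Pool.Agent.TH214 Pool.Agent.TH214.Q Pool.Agent.W177.WD Pool.Agent.W410.WT Pool.Agent.H920R2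

section congr

variable {k A : Type u} [Field k] [CommRing A] [IsDomain A] [Algebra k A] (K : Type u) [Field K]
  [Algebra k K] [Algebra A K] [IsScalarTower k A K] [IsFractionRing A K] {G G' : Type} [Group G]
  [Group G'] (ρ : G →* (A ≃ₐ[k] A)) (ρ' : G' →* (A ≃ₐ[k] A))

lemma lf_congr {g : G} {g' : G'} (h : ρ g = ρ' g') : lf K ρ g = lf K ρ' g' := by
  apply AlgEquiv.ext
  intro y
  refine frac_ext2 (C := A) ((lf K ρ g : K ≃ₐ[k] K) : K →+* K)
    ((lf K ρ' g' : K ≃ₐ[k] K) : K →+* K) ?_ y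
  intro a
  change lf K ρ g (algebraMap A K a) = lf K ρ' g' (algebraMap A K a)
  rw [lf_app, lf_app, h]

end congr

section main

variable (p : ℕ) [Fact p.Prime] (k : Type u) [Field k] [IsAlgClosed k] [CharP k p] (n : ℕ)
  (A K : Fin n → Type u) [∀ i, CommRing (A i)] [∀ i, IsDomain (A i)] [∀ i, Algebra k (A i)]
  [∀ i, Algebra.FiniteType k (A i)] [∀ i, Field (K i)] [∀ i, Algebra k (K i)]
  [∀ i, Algebra (A i) (K i)] [∀ i, IsScalarTower k (A i) (K i)] [∀ i, IsFractionRing (A i) (K i)]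
  (B : Type u) [CommRing B] [IsDomain B] [Algebra k B] (j : ∀ i, A i →ₐ[k] B) (hj : IsTP j)

include hj

/-- Varieties which are birational to quotients of products. -/
theorem quotR1 {P C : Type} [Group P] [Finite P] [CommGroup C] [Finite C]
    (ρ : ∀ i, P × C →* (A i ≃ₐ[k] A i)) (s : P × C →* (B ≃ₐ[k] B))
    (hP : IsPGroup p P) (hC : ¬ p ∣ Nat.card C)
    (hfac : ∀ i, Fac p (lf (K i) (ρ i)).range)
    (hs : ∀ g i a, s g (j i a) = j i (ρ i g a))
    (e0 : ∀ i, K i →ₐ[k] FractionRing B)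
    (he0 : ∀ i a, e0 i (algebraMap (A i) (K i) a) = algebraMap B (FractionRing B) (j i a))
    (R : Type u) [CommRing R] [IsDomain R] [Algebra k R] [Algebra.FiniteType k R]
    (ι : R →ₐ[k] FractionRing B) (hι : Function.Injective ι)
    (hR1 : ∀ r g, lf (FractionRing B) s g (ι r) = ι r)
    (hR2 : ∀ y, (∀ g, lf (FractionRing B) s g y = y) → ∃ a b : R, b ≠ 0 ∧ y * ι b = ι a)
    {X : Type} [Finite X] (aX : X → R) (cX : ∀ i, X → K i) (hcX0 : ∀ i x, cX i x ≠ 0)
    (hcX : ∀ i x g, lf (K i) (ρ i) g (cX i x) = cX i x)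
    (haX : ∀ x, ι (aX x) = ∏ i, e0 i (cX i x))
    (hint : ∀ r : R, IsIntegral (Algebra.adjoin k (Set.range aX)) r) :
    HasResolution (X := Spec (CommRingCat.of R))
      (Spec.map (CommRingCat.ofHom (algebraMap k R))) := by
  classical
  let sP : P →* (B ≃ₐ[k] B) := s.comp (MonoidHom.inl P C)
  let sC : C →* (B ≃ₐ[k] B) := s.comp (MonoidHom.inr P C)
  let ρP : ∀ i, P →* (A i ≃ₐ[k] A i) := fun i => (ρ i).comp (MonoidHom.inl P C)
  let ρC : ∀ i, C →* (A i ≃ₐ[k] A i) := fun i => (ρ i).comp (MonoidHom.inr P C)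
  let N : Subgroup C := sC.ker
  let C1 := C ⧸ N
  let s1 : C1 →* (B ≃ₐ[k] B) := QuotientGroup.kerLift sC
  have hNi : ∀ i, N ≤ (ρC i).ker := by
    intro i c hc
    rw [MonoidHom.mem_ker] at hc ⊢
    apply AlgEquiv.ext
    intro a
    apply hj.injective i
    change j i (ρ i (1, c) a) = j i a
    rw [← hs]
    change sC c (j i a) = _
    rw [hc]
    rfl
  let r1 : ∀ i, C1 →* (A i ≃ₐ[k] A i) := fun i => QuotientGroup.lift N (ρC i) fun x hx => hNi i hx
  have hs1 : ∀ c : C, s1 (QuotientGroup.mk c) = sC c := fun c => rfl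
  have hr1 : ∀ i (c : C), r1 i (QuotientGroup.mk c) = ρC i c := fun i c => rfl
  have hcm : ∀ (g : P) (c : C1), Commute (sP g) (s1 c) := by
    intro g c
    obtain ⟨c, rfl⟩ := QuotientGroup.mk_surjective c
    rw [hs1]
    change s (g, 1) * s (1, c) = s (1, c) * s (g, 1)
    rw [← map_mul, ← map_mul, Prod.mk_mul_mk, Prod.mk_mul_mk, mul_one, one_mul, mul_one, one_mul]
  have hcm' : ∀ i (g : P) (c : C1), Commute (ρP i g) (r1 i c) := by
    intro i g c
    obtain ⟨c, rfl⟩ := QuotientGroup.mk_surjective c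
    rw [hr1]
    change ρ i (g, 1) * ρ i (1, c) = ρ i (1, c) * ρ i (g, 1)
    rw [← map_mul, ← map_mul, Prod.mk_mul_mk, Prod.mk_mul_mk, mul_one, one_mul, mul_one, one_mul]
  let S : P × C1 →* (B ≃ₐ[k] B) := MonoidHom.noncommCoprod sP s1 hcm
  let Rr : ∀ i, P × C1 →* (A i ≃ₐ[k] A i) := fun i =>
    MonoidHom.noncommCoprod (ρP i) (r1 i) (hcm' i)
  have hS : ∀ (g : P) (c : C), S (g, QuotientGroup.mk c) = s (g, c) := by
    intro g c
    change s (g, 1) * s (1, c) = _
    rw [← map_mul, Prod.mk_mul_mk, mul_one, one_mul]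
  have hR : ∀ i (g : P) (c : C), Rr i (g, QuotientGroup.mk c) = ρ i (g, c) := by
    intro i g c
    change ρ i (g, 1) * ρ i (1, c) = _
    rw [← map_mul, Prod.mk_mul_mk, mul_one, one_mul]
  refine quotR0 p k n A K B j hj (P := P) (C := C1) Rr S hP ?_ ?_ ?_ ?_ e0 he0 R ι hι ?_ ?_ aX cX
    hcX0 ?_ haX hint
  · intro h
    exact hC (h.trans (Subgroup.card_quotient_dvd_card N))
  · intro c hc
    obtain ⟨c, rfl⟩ := QuotientGroup.mk_surjective c
    rw [hS] at hc
    rw [QuotientGroup.eq_one_iff]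
    exact hc
  · intro i
    have h1 : (lf (K i) (Rr i)).range = (lf (K i) (ρ i)).range := by
      apply lf_range
      · rintro ⟨g, c⟩
        obtain ⟨c, rfl⟩ := QuotientGroup.mk_surjective c
        exact ⟨(g, c), hR i g c⟩
      · rintro ⟨g, c⟩
        exact ⟨(g, QuotientGroup.mk c), hR i g c⟩
    rw [h1]
    exact hfac i
  · rintro ⟨g, c⟩ i a
    obtain ⟨c, rfl⟩ := QuotientGroup.mk_surjective c
    rw [hS, hR, hs]
  · rintro r ⟨g, c⟩
    obtain ⟨c, rfl⟩ := QuotientGroup.mk_surjective c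
    rw [lf_congr (FractionRing B) S s (hS g c)]
    exact hR1 r _
  · intro y hy
    refine hR2 y fun g => ?_
    obtain ⟨g, c⟩ := g
    rw [← lf_congr (FractionRing B) S s (hS g c)]
    exact hy _
  · rintro i x ⟨g, c⟩
    obtain ⟨c, rfl⟩ := QuotientGroup.mk_surjective c
    rw [lf_congr (K i) (Rr i) (ρ i) (hR i g c)]
    exact hcX i x _

/-- Varieties which are birational to quotients of products. -/
theorem quotR {G : Type} [Group G] [Finite G] (P C : Subgroup G) (hP : IsPGroup p P)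
    (hC : ¬ p ∣ Nat.card C) (hCc : ∀ a ∈ C, ∀ b ∈ C, a * b = b * a)
    (hPC : ∀ a ∈ P, ∀ c ∈ C, a * c = c * a) (hgen : ∀ g : G, ∃ a ∈ P, ∃ c ∈ C, g = a * c)
    (ρ : ∀ i, G →* (A i ≃ₐ[k] A i)) (s : G →* (B ≃ₐ[k] B))
    (hfac : ∀ i, Fac p (lf (K i) (ρ i)).range)
    (hs : ∀ g i a, s g (j i a) = j i (ρ i g a))
    (e0 : ∀ i, K i →ₐ[k] FractionRing B)
    (he0 : ∀ i a, e0 i (algebraMap (A i) (K i) a) = algebraMap B (FractionRing B) (j i a))
    (R : Type u) [CommRing R] [IsDomain R] [Algebra k R] [Algebra.FiniteType k R]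
    (ι : R →ₐ[k] FractionRing B) (hι : Function.Injective ι)
    (hR1 : ∀ r g, lf (FractionRing B) s g (ι r) = ι r)
    (hR2 : ∀ y, (∀ g, lf (FractionRing B) s g y = y) → ∃ a b : R, b ≠ 0 ∧ y * ι b = ι a)
    {X : Type} [Finite X] (aX : X → R) (cX : ∀ i, X → K i) (hcX0 : ∀ i x, cX i x ≠ 0)
    (hcX : ∀ i x g, lf (K i) (ρ i) g (cX i x) = cX i x)
    (haX : ∀ x, ι (aX x) = ∏ i, e0 i (cX i x))
    (hint : ∀ r : R, IsIntegral (Algebra.adjoin k (Set.range aX)) r) :
    HasResolution (X := Spec (CommRingCat.of R))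
      (Spec.map (CommRingCat.ofHom (algebraMap k R))) := by
  classical
  let _ : CommGroup C := { (inferInstance : Group C) with
    mul_comm := fun a b => Subtype.ext (hCc a a.2 b b.2) }
  let f : P × C →* G := MonoidHom.noncommCoprod P.subtype C.subtype fun a c => hPC a a.2 c c.2
  have hfs : Function.Surjective f := by
    intro g
    obtain ⟨a, ha, c, hc, rfl⟩ := hgen g
    exact ⟨(⟨a, ha⟩, ⟨c, hc⟩), rfl⟩
  refine quotR1 p k n A K B j hj (P := P) (C := C) (fun i => (ρ i).comp f) (s.comp f) hP hC ?_ ?_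
    e0 he0 R ι hι ?_ ?_ aX cX hcX0 ?_ haX hint
  · intro i
    have h1 : (lf (K i) ((ρ i).comp f)).range = (lf (K i) (ρ i)).range := by
      apply lf_range
      · intro g
        exact ⟨f g, rfl⟩
      · intro g
        obtain ⟨g', rfl⟩ := hfs g
        exact ⟨g', rfl⟩
    rw [h1]
    exact hfac i
  · intro g i a
    exact hs (f g) i a
  · intro r g
    rw [lf_congr (FractionRing B) (s.comp f) s (g := g) (g' := f g) rfl]
    exact hR1 r _
  · intro y hy
    refine hR2 y fun g => ?_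
    obtain ⟨g', rfl⟩ := hfs g
    rw [← lf_congr (FractionRing B) (s.comp f) s (g := g') (g' := f g') rfl]
    exact hy _
  · intro i x g
    rw [lf_congr (K i) ((ρ i).comp f) (ρ i) (g := g) (g' := f g) rfl]
    exact hcX i x _

end main

end Pool.Agent.Zk10.Act
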