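import Pool.Agent.Zk62.Tw.U28

/-!
Models of the function fields of quotients of products, for general groups.
-/

set_option autoImplicit false
set_option linter.unusedVariables false
set_option linter.unusedSectionVars false

universe u

open Polynomial AlgebraicGeometry CategoryTheory TensorProduct

namespace Pool.Agent.Zk10.Act

open Pool.Agent.W558 Pool.Agent.W558.WT Pool.Agent.Zk10.Ram Pool.Agent.Zk10.Cur
  Pool.Agent.TH214 Pool.Agent.TH214.Q Pool.Agent.W177.WD Pool.Agent.W410.WT Pool.Agent.H920R2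

section main

variable (p : ℕ) [Fact p.Prime] (k : Type u) [Field k] [IsAlgClosed k] [CharP k p] (n : ℕ)
  (A K : Fin n → Type u) [∀ i, CommRing (A i)] [∀ i, IsDomain (A i)] [∀ i, Algebra k (A i)]
  [∀ i, Algebra.FiniteType k (A i)] [∀ i, Field (K i)] [∀ i, Algebra k (K i)]
  [∀ i, Algebra (A i) (K i)] [∀ i, IsScalarTower k (A i) (K i)] [∀ i, IsFractionRing (A i) (K i)]
  (B : Type u) [CommRing B] [IsDomain B] [Algebra k B] (j : ∀ i, A i →ₐ[k] B) (hj : IsTP j)

include hj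

/-- Models of the function fields of quotients of products. -/
theorem quotM {P C : Type} [Group P] [Finite P] [CommGroup C] [Finite C]
    (ρ : ∀ i, P × C →* (A i ≃ₐ[k] A i)) (s : P × C →* (B ≃ₐ[k] B))
    (hP : IsPGroup p P) (hC : ¬ p ∣ Nat.card C)
    (hfac : ∀ i, Fac p (lf (K i) (ρ i)).range)
    (hs : ∀ g i a, s g (j i a) = j i (ρ i g a))
    (e0 : ∀ i, K i →ₐ[k] FractionRing B)
    (he0 : ∀ i a, e0 i (algebraMap (A i) (K i) a) = algebraMap B (FractionRing B) (j i a))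
    {X : Type} [Finite X] (cX : ∀ i, X → K i) (hcX0 : ∀ i x, cX i x ≠ 0)
    (hcX : ∀ i x g, lf (K i) (ρ i) g (cX i x) = cX i x) :
    ∃ (KG : IntermediateField k (FractionRing B)) (T I : Type) (_ : Finite T) (_ : Fintype I)
      (M : LM (⊥ : Subalgebra k KG) ⊤ T I) (g : X → KG) (Γ : X → I → ℤ),
      (∀ y, y ∈ KG ↔ ∀ g, lf (FractionRing B) s g y = y) ∧
      (∀ x, (g x : FractionRing B) = ∏ i, e0 i (cX i x)) ∧ Fn M g Γ ∧ Frc M := by
  classical
  let sP : P →* (B ≃ₐ[k] B) := s.comp (MonoidHom.inl P C)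
  let sC : C →* (B ≃ₐ[k] B) := s.comp (MonoidHom.inr P C)
  let ρP : ∀ i, P →* (A i ≃ₐ[k] A i) := fun i => (ρ i).comp (MonoidHom.inl P C)
  let ρC : ∀ i, C →* (A i ≃ₐ[k] A i) := fun i => (ρ i).comp (MonoidHom.inr P C)
  let N : Subgroup C := sC.ker
  let C1 := C ⧸ N
  let s1 : C1 →* (B ≃ₐ[k] B) := QuotientGroup.kerLift sC
  have hNi : ∀ i, N ≤ (ρC i).ker := by
    intro i c hc
    rw [MonoidHom.mem_ker] at hc ⊢
    apply AlgEquiv.ext
    intro a
    apply hj.injective i
    change j i (ρ i (1, c) a) = j i a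
    rw [← hs]
    change sC c (j i a) = _
    rw [hc]
    rfl
  let r1 : ∀ i, C1 →* (A i ≃ₐ[k] A i) := fun i => QuotientGroup.lift N (ρC i) fun x hx => hNi i hx
  have hs1 : ∀ c : C, s1 (QuotientGroup.mk c) = sC c := fun c => rfl
  have hr1 : ∀ i (c : C), r1 i (QuotientGroup.mk c) = ρC i c := fun i c => rfl
  have hcm : ∀ (g : P) (c : C1), Commute (sP g) (s1 c) := by
    intro g c
    obtain ⟨c, rfl⟩ := QuotientGroup.mk_surjective c
    rw [hs1]
    change s (g, 1) * s (1, c) = s (1, c) * s (g, 1)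
    rw [← map_mul, ← map_mul, Prod.mk_mul_mk, Prod.mk_mul_mk, mul_one, one_mul, mul_one, one_mul]
  have hcm' : ∀ i (g : P) (c : C1), Commute (ρP i g) (r1 i c) := by
    intro i g c
    obtain ⟨c, rfl⟩ := QuotientGroup.mk_surjective c
    rw [hr1]
    change ρ i (g, 1) * ρ i (1, c) = ρ i (1, c) * ρ i (g, 1)
    rw [← map_mul, ← map_mul, Prod.mk_mul_mk, Prod.mk_mul_mk, mul_one, one_mul, mul_one, one_mul]
  let S : P × C1 →* (B ≃ₐ[k] B) := MonoidHom.noncommCoprod sP s1 hcm
  let Rr : ∀ i, P × C1 →* (A i ≃ₐ[k] A i) := fun i =>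
    MonoidHom.noncommCoprod (ρP i) (r1 i) (hcm' i)
  have hS : ∀ (g : P) (c : C), S (g, QuotientGroup.mk c) = s (g, c) := by
    intro g c
    change s (g, 1) * s (1, c) = _
    rw [← map_mul, Prod.mk_mul_mk, mul_one, one_mul]
  have hR : ∀ i (g : P) (c : C), Rr i (g, QuotientGroup.mk c) = ρ i (g, c) := by
    intro i g c
    change ρ i (g, 1) * ρ i (1, c) = _
    rw [← map_mul, Prod.mk_mul_mk, mul_one, one_mul]
  obtain ⟨KG, T, I, hT, hI, M, g, Γ, hKG, hg, hF, hFr⟩ := quotM0 p k n A K B j hj (P := P)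
    (C := C1) Rr S hP (fun h => hC (h.trans (Subgroup.card_quotient_dvd_card N))) (by
      intro c hc
      obtain ⟨c, rfl⟩ := QuotientGroup.mk_surjective c
      rw [hS] at hc
      rw [QuotientGroup.eq_one_iff]
      exact hc) (by
      intro i
      have h1 : (lf (K i) (Rr i)).range = (lf (K i) (ρ i)).range := by
        apply lf_range
        · rintro ⟨g, c⟩
          obtain ⟨c, rfl⟩ := QuotientGroup.mk_surjective c
          exact ⟨(g, c), hR i g c⟩
        · rintro ⟨g, c⟩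
          exact ⟨(g, QuotientGroup.mk c), hR i g c⟩
      rw [h1]
      exact hfac i) (by
      rintro ⟨g, c⟩ i a
      obtain ⟨c, rfl⟩ := QuotientGroup.mk_surjective c
      rw [hS, hR, hs]) e0 he0 cX hcX0 (by
      rintro i x ⟨g, c⟩
      obtain ⟨c, rfl⟩ := QuotientGroup.mk_surjective c
      rw [lf_congr (K i) (Rr i) (ρ i) (hR i g c)]
      exact hcX i x _)
  refine ⟨KG, T, I, hT, hI, M, g, Γ, fun y => ?_, hg, hF, hFr⟩
  rw [hKG]
  constructor
  · rintro hy ⟨g, c⟩
    rw [← lf_congr (FractionRing B) S s (hS g c)]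
    exact hy _
  · rintro hy ⟨g, c⟩
    obtain ⟨c, rfl⟩ := QuotientGroup.mk_surjective c
    rw [lf_congr (FractionRing B) S s (hS g c)]
    exact hy _

end main

end Pool.Agent.Zk10.Act
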