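import Pool.Agent.Zk62.Tw.U2
import Pool.Agent.Zk10.C5

/-!
The points of a Galois cover of a curve, and local functions.
-/

set_option autoImplicit false
set_option linter.unusedVariables false
set_option linter.unusedSectionVars false

universe u

namespace Pool.Agent.Zk10.Cur

open Pool.Agent.W558 Pool.Agent.H920R2 Pool.Agent.Zk10.Ram Polynomial IntermediateField
  Pool.Agent.W435.WT.Gal

section val

variable {E : Type u} [Field E] {V : ValuationSubring E}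

lemma v_inv_lt {x : E} (hx : V.valuation x < 1) (h : x⁻¹ ∈ V) (hx0 : x ≠ 0) : False := by
  rw [v_lt_iff] at hx
  rcases hx with h1 | h1
  · exact hx0 h1
  · exact h1 h

lemma v_one_of {x : E} (hx : x ∈ V) (h : ¬ V.valuation x < 1) : V.valuation x = 1 :=
  le_antisymm (v_le.2 hx) (not_lt.1 h)

end val

section ga

variable {k E : Type u} [Field k] [Field E] [Algebra k E]

/-- The local condition at a point: the Artin-Schreier elements of the decomposition group are given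
by the multiples of one invariant function, whose pole order is prime to `p`. -/
def GA (p : ℕ) (Γ : Subgroup (E ≃ₐ[k] E)) [Finite Γ] (F : IntermediateField k E)
    (V : ValuationSubring E) : Prop :=
  (∃ θ : (E ≃ₐ[k] E) → k, (∀ s ∈ dec V Γ, ∀ t ∈ dec V Γ, θ (s * t) = θ s + θ t) ∧
    ∀ s ∈ dec V Γ, θ s = 0 → ∃ m : ℕ, ¬ p ∣ m ∧ s ^ m = 1) ∧
  ∃ b : F, ((b : E) ∉ V → ∀ a : F, V.valuation (a : E) ^ p ≠ V.valuation (b : E)) ∧
    ∀ lam : (E ≃ₐ[k] E) → ZMod p,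
      (∀ s ∈ dec V Γ, ∀ t ∈ dec V Γ, lam (s * t) = lam s + lam t) →
      ∃ (w : E) (c : k), (∀ s ∈ dec V Γ, s w = w + ((lam s).val : E)) ∧
        w ^ p - w - algebraMap k E c * (b : E) ∈ V

end ga

section ig

variable {k E : Type u} [Field k] [IsAlgClosed k] [Field E] [Algebra k E] {D : Subalgebra k E}
  [IsDedekindDomain D] [IsFractionRing D E] [Algebra.FiniteType k D]
  {Γ : Subgroup (E ≃ₐ[k] E)} [Finite Γ]

/-- The valuation ring of a maximal ideal. -/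
lemma exists_valM (𝔐 : Ideal D) [𝔐.IsMaximal] (h0 : 𝔐 ≠ ⊥) : ∃ V : ValuationSubring E,
    (∀ x ∈ D, x ∈ V) ∧ (∀ x : D, x ∈ 𝔐 ↔ V.valuation (x : E) < 1) ∧ V ≠ ⊤ := by
  obtain ⟨V, h1, h2⟩ := Ideal.image_subset_nonunits_valuationSubring (A := D.toSubring)
    (𝔐 : Ideal D.toSubring) ‹𝔐.IsMaximal›.ne_top
  have hDV : ∀ x ∈ D, x ∈ V := fun x hx => h1 hx
  obtain ⟨P, hPp, hP, -⟩ := exists_center (k := k) hDV
  have hle : 𝔐 ≤ P := fun x hx => (hP x).2 ((ValuationSubring.mem_nonunits_iff V).1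
    (h2 ⟨x, hx, rfl⟩))
  have heq : 𝔐 = P := ‹𝔐.IsMaximal›.eq_of_le hPp.ne_top hle
  refine ⟨V, hDV, fun x => by rw [heq]; exact hP x, ?_⟩
  rintro rfl
  obtain ⟨x, hx, hx0⟩ := Submodule.exists_mem_ne_zero_of_ne_bot h0
  rw [heq, hP] at hx
  exact v_inv_lt hx (ValuationSubring.mem_top _) fun h => hx0 (Subtype.ext h)

/-- The inertia group is the decomposition group. -/
lemma mem_Ig {V : ValuationSubring E} (hDV : ∀ x ∈ D, x ∈ V) (hV : V ≠ ⊤)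
    (hΓD : ∀ σ ∈ Γ, ∀ x ∈ D, σ x ∈ D) {𝔐 : Ideal D}
    (h𝔐 : ∀ x : D, x ∈ 𝔐 ↔ V.valuation (x : E) < 1) {s : E ≃ₐ[k] E} :
    s ∈ Ig Γ D 𝔐 ↔ s ∈ dec V Γ := by
  constructor
  · rintro ⟨h1, h2⟩
    refine ⟨h1, fun x hx => ?_⟩
    obtain ⟨q, hq, hq1, hqx⟩ := exists_loc hDV hx
    have h3 := h2 ⟨q, hq⟩ ⟨s q, hΓD s h1 q hq⟩ rfl
    have h4 : V.valuation (s q - q) < 1 := (h𝔐 _).1 h3
    have h5 : V.valuation (s q) = 1 := by
      have h6 : s q = q + (s q - q) := by ring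
      rw [h6]
      exact v_add hq1 h4
    have hq0 : q ≠ 0 := by
      rintro rfl
      rw [map_zero] at hq1
      exact zero_ne_one hq1
    have h7 : s x = (s q)⁻¹ * s (q * x) := by
      rw [map_mul, ← mul_assoc, inv_mul_cancel₀ ((_root_.map_ne_zero _).2 hq0), one_mul]
    rw [h7]
    exact V.mul_mem _ _ (v_inv_mem h5) (hDV _ (hΓD s h1 _ hqx))
  · intro hs
    refine ⟨hs.1, fun x y hxy => ?_⟩
    obtain ⟨c, hc⟩ := res_of (k := k) hDV hV x x.2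
    have hIV : ∀ σ ∈ dec V Γ, ∀ x ∈ V, σ x ∈ V := fun σ hσ => hσ.2
    have h1 := v_sigma hIV hs hc
    rw [map_sub, AlgEquiv.commutes, ← hxy] at h1
    rw [h𝔐]
    have h2 : ((y - x : D) : E) = ((y : E) - algebraMap k E c) - ((x : E) - algebraMap k E c) := by
      change (y : E) - x = _
      ring
    rw [h2]
    exact v_sub_lt h1 hc

/-- The local condition at a maximal ideal from that at the valuation ring. -/
lemma pg_of {p : ℕ} {V : ValuationSubring E} (hDV : ∀ x ∈ D, x ∈ V) (hV : V ≠ ⊤)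
    (hΓD : ∀ σ ∈ Γ, ∀ x ∈ D, σ x ∈ D) {𝔐 : Ideal D}
    (h𝔐 : ∀ x : D, x ∈ 𝔐 ↔ V.valuation (x : E) < 1)
    (hθ : ∃ θ : (E ≃ₐ[k] E) → k, (∀ s ∈ dec V Γ, ∀ t ∈ dec V Γ, θ (s * t) = θ s + θ t) ∧
      ∀ s ∈ dec V Γ, θ s = 0 → ∃ m : ℕ, ¬ p ∣ m ∧ s ^ m = 1) {b : E}
    (hgen : ∀ lam : (E ≃ₐ[k] E) → ZMod p,
      (∀ s ∈ dec V Γ, ∀ t ∈ dec V Γ, lam (s * t) = lam s + lam t) →
      ∃ (w : E) (c : k), (∀ s ∈ dec V Γ, s w = w + ((lam s).val : E)) ∧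
        w ^ p - w - algebraMap k E c * b ∈ V) : PG p Γ D 𝔐 b := by
  have hm : ∀ s, s ∈ Ig Γ D 𝔐 ↔ s ∈ dec V Γ := fun s => mem_Ig hDV hV hΓD h𝔐
  constructor
  · obtain ⟨θ, h1, h2⟩ := hθ
    exact ⟨θ, fun s hs t ht => h1 s ((hm s).1 hs) t ((hm t).1 ht), fun s hs => h2 s ((hm s).1 hs)⟩
  · intro lam hlam
    obtain ⟨w, c, hw, hwc⟩ := hgen lam fun s hs t ht => hlam s ((hm s).2 hs) t ((hm t).2 ht)
    obtain ⟨q, hq, hq1, hqx⟩ := exists_loc hDV hwc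
    refine ⟨w, c, fun s hs => hw s ((hm s).1 hs), ⟨q, hq⟩, ?_, hqx⟩
    rw [h𝔐]
    change ¬ V.valuation q < 1
    rw [hq1]
    exact lt_irrefl _

/-- The local condition if the decomposition group is trivial. -/
lemma pg_triv {p : ℕ} [Fact p.Prime] {V : ValuationSubring E} (hDV : ∀ x ∈ D, x ∈ V) (hV : V ≠ ⊤)
    (hΓD : ∀ σ ∈ Γ, ∀ x ∈ D, σ x ∈ D) {𝔐 : Ideal D}
    (h𝔐 : ∀ x : D, x ∈ 𝔐 ↔ V.valuation (x : E) < 1) (h1 : ∀ σ ∈ dec V Γ, σ = 1) (b : E) :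
    PG p Γ D 𝔐 b := by
  have hp : p.Prime := Fact.out
  refine pg_of hDV hV hΓD h𝔐 ⟨fun _ => 0, fun _ _ _ _ => (add_zero 0).symm, fun s hs _ =>
    ⟨1, fun h => hp.one_lt.ne' (Nat.dvd_one.1 h), by rw [h1 s hs, one_pow]⟩⟩ ?_
  intro lam hlam
  refine ⟨0, 0, fun s hs => ?_, ?_⟩
  · have hl1 : lam 1 = 0 := by
      have h := hlam 1 (dec V Γ).one_mem 1 (dec V Γ).one_mem
      rw [one_mul] at h
      simpa using h
    rw [h1 s hs, hl1]
    simp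
  · rw [zero_pow hp.ne_zero, map_zero]
    simp only [sub_zero, zero_mul]
    exact V.zero_mem

end ig

section conj

variable {k E : Type u} [Field k] [IsAlgClosed k] [Field E] [Algebra k E]
  {F : IntermediateField k E} {Γ : Subgroup (E ≃ₐ[k] E)} [Finite Γ] (hF : ∀ x, x ∈ F ↔ FX Γ x)
  {A : Subalgebra k F} [IsDedekindDomain A] [IsFractionRing A F] [Algebra.FiniteType k A]

include hF in
/-- Points over the same point are conjugate. -/
theorem exists_conj {V V0 : ValuationSubring E} (hV : ∀ x ∈ DD (E := E) A, x ∈ V)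
    (hV0 : ∀ x ∈ DD (E := E) A, x ∈ V0) (hVt : V ≠ ⊤) (hV0t : V0 ≠ ⊤)
    (h : ∀ a ∈ A, V.valuation (a : E) < 1 → V0.valuation (a : E) < 1) :
    ∃ γ ∈ Γ, ∀ x, x ∈ V0 ↔ γ x ∈ V := by
  classical
  obtain ⟨hsep, hfin⟩ := sep_fix hF
  have halg : Algebra.IsAlgebraic F E := Algebra.IsSeparable.isAlgebraic _ _
  have d1 : IsDedekindDomain (DD (E := E) A) := DD_dedekind.1
  have d2 : IsFractionRing (DD (E := E) A) E := DD_dedekind.2
  have d3 : Algebra.FiniteType k (DD (E := E) A) := DD_finiteType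
  have hfΓ : Fintype Γ := Fintype.ofFinite Γ
  have hσF : ∀ σ ∈ Γ, ∀ x ∈ F, σ x = x := fun σ hσ x hx => (hF x).1 hx σ hσ
  have hσD : ∀ σ ∈ Γ, ∀ x ∈ DD (E := E) A, σ x ∈ DD (E := E) A := fun σ hσ x hx =>
    DD_sigma σ (hσF σ hσ) x hx
  obtain ⟨P, hPp, hP, hP0⟩ := exists_center (k := k) hV
  obtain ⟨P0, hP0p, hPP0, hP00⟩ := exists_center (k := k) hV0
  have hPm : P.IsMaximal := hPp.isMaximal (hP0 hVt)
  let τD : Γ → DD (E := E) A →+* DD (E := E) A := fun g =>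
    { toFun := fun x => ⟨g.1 x, hσD g.1 g.2 x x.2⟩
      map_one' := Subtype.ext (map_one g.1)
      map_mul' := fun x y => Subtype.ext (map_mul g.1 _ _)
      map_zero' := Subtype.ext (map_zero g.1)
      map_add' := fun x y => Subtype.ext (map_add g.1 _ _) }
  -- one of the conjugates contains the ideal
  have hex : ∃ γ : Γ, P ≤ P0.comap (τD γ⁻¹) := by
    by_contra hcon
    push Not at hcon
    have h1 : ¬ ((P : Set (DD (E := E) A)) ⊆ ⋃ g ∈ ((Finset.univ : Finset Γ) : Set Γ),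
        ((P0.comap (τD g⁻¹) : Ideal (DD (E := E) A)) : Set (DD (E := E) A))) := by
      intro h2
      obtain ⟨g, -, hg⟩ := (Ideal.subset_union_prime (1 : Γ) 1 (fun i _ _ _ =>
        Ideal.IsPrime.comap (τD i⁻¹))).1 h2
      exact hcon g hg
    obtain ⟨y, hyP, hy⟩ := Set.not_subset.1 h1
    simp only [Set.mem_iUnion, not_exists] at hy
    have hy' : ∀ g : Γ, V0.valuation (g.1 (y : E)) = 1 := by
      intro g
      have h2 := hy g⁻¹ (by simp)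
      rw [inv_inv] at h2
      refine v_one_of (hV0 _ (hσD g.1 g.2 _ y.2)) fun h3 => h2 ?_
      exact (hPP0 _).2 h3
    let N : E := ∏ g : Γ, g.1 (y : E)
    have hNF : N ∈ F := by
      rw [hF]
      intro σ hσ
      change σ (∏ g : Γ, g.1 (y : E)) = _
      rw [map_prod]
      exact Fintype.prod_equiv (Equiv.mulLeft (⟨σ, hσ⟩ : Γ)) _ _ fun g => rfl
    have hND : N ∈ DD (E := E) A := (DD (E := E) A).prod_mem fun g _ => hσD g.1 g.2 _ y.2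
    have hNA : (⟨N, hNF⟩ : F) ∈ A := by
      have h2 : IsIntegral A (algebraMap F E (⟨N, hNF⟩ : F)) := hND
      have h3 : IsIntegral A (⟨N, hNF⟩ : F) :=
        (isIntegral_algebraMap_iff (algebraMap F E).injective).1 h2
      obtain ⟨a, ha⟩ := IsIntegrallyClosed.isIntegral_iff.1 h3
      rw [← ha]
      exact a.2
    have hVN : V.valuation N < 1 := by
      change V.valuation (∏ g : Γ, g.1 (y : E)) < 1
      rw [← Finset.mul_prod_erase _ _ (Finset.mem_univ (1 : Γ)), mul_comm]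
      rw [mul_comm]
      refine v_lt_mul ?_ (hV _ ((DD (E := E) A).prod_mem fun g _ => hσD g.1 g.2 _ y.2))
      exact (hP y).1 hyP
    have h2 := h _ hNA hVN
    have h3 : V0.valuation N = 1 := by
      change V0.valuation (∏ g : Γ, g.1 (y : E)) = 1
      rw [map_prod]
      exact Finset.prod_eq_one fun g _ => hy' g
    change V0.valuation N < 1 at h2
    rw [h3] at h2
    exact lt_irrefl _ h2
  obtain ⟨γ, hγ⟩ := hex
  have heq : P = P0.comap (τD γ⁻¹) := hPm.eq_of_le (Ideal.IsPrime.comap (τD γ⁻¹)).ne_top hγ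
  have hinv : ∀ x : E, γ.1 ((γ⁻¹ : Γ).1 x) = x := fun x => by
    change (γ.1 * γ.1⁻¹) x = x
    rw [mul_inv_cancel]
    rfl
  have hinv' : ∀ x : E, (γ⁻¹ : Γ).1 (γ.1 x) = x := fun x => by
    change (γ.1⁻¹ * γ.1) x = x
    rw [inv_mul_cancel]
    rfl
  have key : ∀ s ∈ DD (E := E) A, V0.valuation s = 1 → V.valuation (γ.1 s) = 1 := by
    intro s hs hs1
    refine v_one_of (hV _ (hσD _ γ.2 _ hs)) fun h3 => ?_
    have h4 : (⟨γ.1 s, hσD _ γ.2 _ hs⟩ : DD (E := E) A) ∈ P := (hP _).2 h3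
    rw [heq, Ideal.mem_comap, hPP0] at h4
    change V0.valuation ((γ⁻¹ : Γ).1 (γ.1 s)) < 1 at h4
    rw [hinv', hs1] at h4
    exact lt_irrefl _ h4
  have key' : ∀ s ∈ DD (E := E) A, V.valuation s = 1 → V0.valuation ((γ⁻¹ : Γ).1 s) = 1 := by
    intro s hs hs1
    refine v_one_of (hV0 _ (hσD _ (γ⁻¹ : Γ).2 _ hs)) fun h3 => ?_
    have h4 : (⟨s, hs⟩ : DD (E := E) A) ∈ P := by
      rw [heq, Ideal.mem_comap, hPP0]
      exact h3
    rw [hP] at h4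
    change V.valuation s < 1 at h4
    rw [hs1] at h4
    exact lt_irrefl _ h4
  refine ⟨γ.1, γ.2, fun x => ⟨fun hx => ?_, fun hx => ?_⟩⟩
  · obtain ⟨s, hs, hs1, hsx⟩ := exists_loc hV0 hx
    have hs0 : s ≠ 0 := by
      rintro rfl
      rw [map_zero] at hs1
      exact zero_ne_one hs1
    have h3 : γ.1 x = (γ.1 s)⁻¹ * γ.1 (s * x) := by
      rw [map_mul, ← mul_assoc, inv_mul_cancel₀ ((_root_.map_ne_zero _).2 hs0), one_mul]
    rw [h3]
    exact V.mul_mem _ _ (v_inv_mem (key s hs hs1)) (hV _ (hσD _ γ.2 _ hsx))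
  · obtain ⟨s, hs, hs1, hsx⟩ := exists_loc hV hx
    have hs0 : s ≠ 0 := by
      rintro rfl
      rw [map_zero] at hs1
      exact zero_ne_one hs1
    have h3 : x = ((γ⁻¹ : Γ).1 s)⁻¹ * (γ⁻¹ : Γ).1 (s * γ.1 x) := by
      rw [map_mul, hinv', ← mul_assoc, inv_mul_cancel₀ ((_root_.map_ne_zero _).2 hs0), one_mul]
    rw [h3]
    exact V0.mul_mem _ _ (v_inv_mem (key' s hs hs1)) (hV0 _ (hσD _ (γ⁻¹ : Γ).2 _ hsx))

omit [IsAlgClosed k] in
/-- The local condition at a conjugate point. -/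
theorem gen_conj {p : ℕ} {V V0 : ValuationSubring E} {γ : E ≃ₐ[k] E} (hγ : γ ∈ Γ)
    (hV : ∀ x, x ∈ V0 ↔ γ x ∈ V) {b : E} (hb : FX Γ b)
    (hθ : ∃ θ : (E ≃ₐ[k] E) → k, (∀ s ∈ dec V0 Γ, ∀ t ∈ dec V0 Γ, θ (s * t) = θ s + θ t) ∧
      ∀ s ∈ dec V0 Γ, θ s = 0 → ∃ m : ℕ, ¬ p ∣ m ∧ s ^ m = 1)
    (hgen : ∀ lam : (E ≃ₐ[k] E) → ZMod p,
      (∀ s ∈ dec V0 Γ, ∀ t ∈ dec V0 Γ, lam (s * t) = lam s + lam t) →
      ∃ (w : E) (c : k), (∀ s ∈ dec V0 Γ, s w = w + ((lam s).val : E)) ∧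
        w ^ p - w - algebraMap k E c * b ∈ V0) :
    (∃ θ : (E ≃ₐ[k] E) → k, (∀ s ∈ dec V Γ, ∀ t ∈ dec V Γ, θ (s * t) = θ s + θ t) ∧
      ∀ s ∈ dec V Γ, θ s = 0 → ∃ m : ℕ, ¬ p ∣ m ∧ s ^ m = 1) ∧
    ∀ lam : (E ≃ₐ[k] E) → ZMod p,
      (∀ s ∈ dec V Γ, ∀ t ∈ dec V Γ, lam (s * t) = lam s + lam t) →
      ∃ (w : E) (c : k), (∀ s ∈ dec V Γ, s w = w + ((lam s).val : E)) ∧
        w ^ p - w - algebraMap k E c * b ∈ V := by
  have hinv : ∀ x : E, γ (γ⁻¹ x) = x := fun x => by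
    change (γ * γ⁻¹) x = x
    rw [mul_inv_cancel]
    rfl
  have hd : ∀ s ∈ dec V Γ, γ⁻¹ * s * γ ∈ dec V0 Γ := by
    intro s hs
    refine ⟨Γ.mul_mem (Γ.mul_mem (Γ.inv_mem hγ) hs.1) hγ, fun x hx => ?_⟩
    rw [hV]
    change γ (γ⁻¹ (s (γ x))) ∈ V
    rw [hinv]
    exact hs.2 _ ((hV x).1 hx)
  have hd' : ∀ s ∈ dec V0 Γ, γ * s * γ⁻¹ ∈ dec V Γ := by
    intro s hs
    refine ⟨Γ.mul_mem (Γ.mul_mem hγ hs.1) (Γ.inv_mem hγ), fun x hx => ?_⟩
    change γ (s (γ⁻¹ x)) ∈ V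
    rw [← hV]
    refine hs.2 _ ?_
    rw [hV, hinv]
    exact hx
  refine ⟨?_, ?_⟩
  · obtain ⟨θ, h1, h2⟩ := hθ
    refine ⟨fun s => θ (γ⁻¹ * s * γ), fun s hs t ht => ?_, fun s hs h0 => ?_⟩
    · have e : γ⁻¹ * (s * t) * γ = (γ⁻¹ * s * γ) * (γ⁻¹ * t * γ) := by group
      change θ (γ⁻¹ * (s * t) * γ) = _
      rw [e]
      exact h1 _ (hd s hs) _ (hd t ht)
    · obtain ⟨m, hm, hm1⟩ := h2 _ (hd s hs) h0
      refine ⟨m, hm, ?_⟩
      have e : s = γ * (γ⁻¹ * s * γ) * γ⁻¹ := by group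
      rw [e, conj_pow, hm1]
      group
  · intro lam hlam
    obtain ⟨w, c, hw, hwc⟩ := hgen (fun t => lam (γ * t * γ⁻¹)) (by
      intro s hs t ht
      have e : γ * (s * t) * γ⁻¹ = (γ * s * γ⁻¹) * (γ * t * γ⁻¹) := by group
      rw [e]
      exact hlam _ (hd' s hs) _ (hd' t ht))
    refine ⟨γ w, c, fun s hs => ?_, ?_⟩
    · have h1 := hw _ (hd s hs)
      have e : γ * (γ⁻¹ * s * γ) * γ⁻¹ = s := by group
      rw [e] at h1
      have h2 := congrArg γ h1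
      rw [map_add, map_natCast] at h2
      rw [← h2]
      change s (γ w) = γ (γ⁻¹ (s (γ w)))
      rw [hinv]
    · have h1 := (hV _).1 hwc
      rw [map_sub, map_sub, map_pow, map_mul, AlgEquiv.commutes, hb γ hγ] at h1
      exact h1

end conj

end Pool.Agent.Zk10.Cur
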