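import Pool.Agent.Zk62.Tw.U3
import Pool.Agent.N98.Loc

/-!
Curves with a group action: charts and local functions on the quotient.
-/

set_option autoImplicit false
set_option linter.unusedVariables false
set_option linter.unusedSectionVars false

universe u

namespace Pool.Agent.Zk10.Cur

open Pool.Agent.W558 Pool.Agent.H920R2 Pool.Agent.Zk10.Ram Polynomial IntermediateField
  Pool.Agent.W435.WT.Gal Pool.Agent.Zk10

section int

variable {k E : Type u} [Field k] [Field E] [Algebra k E] {F : IntermediateField k E}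

/-- Valuation rings are integrally closed. -/
lemma int_mem {A : Subalgebra k F} {V : ValuationSubring E} (hV : ∀ a ∈ A, (a : E) ∈ V) {z : E}
    (hz : IsIntegral A z) : z ∈ V := by
  obtain ⟨P, hP, hP0⟩ := hz
  let j : A →+* V :=
    { toFun := fun a => ⟨((a : F) : E), hV a a.2⟩
      map_one' := rfl
      map_mul' := fun a b => rfl
      map_zero' := rfl
      map_add' := fun a b => rfl }
  have h1 : IsIntegral V z := by
    refine ⟨P.map j, hP.map j, ?_⟩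
    rw [eval₂_map]
    exact hP0
  obtain ⟨y, hy⟩ := IsIntegrallyClosed.isIntegral_iff.1 h1
  rw [← hy]
  exact y.2

/-- A valuation ring over a prime ideal. -/
lemma exists_over {A : Subalgebra k F} (𝔪 : Ideal A) (h𝔪 : 𝔪 ≠ ⊤) : ∃ V : ValuationSubring E,
    (∀ a ∈ A, (a : E) ∈ V) ∧ ∀ a : A, a ∈ 𝔪 → V.valuation ((a : F) : E) < 1 := by
  let j : A →+* E := (algebraMap F E).comp (algebraMap A F)
  have hj : Function.Injective j := by
    intro a b hab
    apply Subtype.ext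
    exact (algebraMap F E).injective hab
  let e : A ≃+* j.range := RingEquiv.ofBijective j.rangeRestrict
    ⟨fun a b hab => hj (by
      have h1 := congrArg Subtype.val hab
      exact h1), j.rangeRestrict_surjective⟩
  let I : Ideal j.range := 𝔪.comap (e.symm : j.range →+* A)
  have hI : I ≠ ⊤ := Ideal.comap_ne_top _ h𝔪
  obtain ⟨V, h1, h2⟩ := Ideal.image_subset_nonunits_valuationSubring I hI
  refine ⟨V, fun a ha => h1 (⟨⟨a, ha⟩, rfl⟩ : (a : E) ∈ j.range), fun a ha => ?_⟩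
  refine (ValuationSubring.mem_nonunits_iff V).1 (h2 ⟨e a, ?_, rfl⟩)
  change e.symm (e a) ∈ 𝔪
  rw [RingEquiv.symm_apply_apply]
  exact ha

end int

section chart

variable {k E : Type u} [Field k] [IsAlgClosed k] [Field E] [Algebra k E]
  {F : IntermediateField k E} {Γ : Subgroup (E ≃ₐ[k] E)} [Finite Γ] (hF : ∀ x, x ∈ F ↔ FX Γ x)
  {A : Subalgebra k F} [IsDedekindDomain A] [IsFractionRing A F] [Algebra.FiniteType k A]

/-- The function `x` generates the maximal ideal: valuations are powers. -/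
lemma val_x {V : ValuationSubring E} (hVA : ∀ a ∈ A, (a : E) ∈ V) {x : F}
    (hx : V.valuation (x : E) < 1) (hx0 : x ≠ 0)
    (hgen : ∀ y : F, V.valuation (y : E) < 1 → ((y * x⁻¹ : F) : E) ∈ V) (y : F) (hy : y ≠ 0) :
    ∃ n : ℤ, V.valuation (y : E) = V.valuation (x : E) ^ n := by
  let W : ValuationSubring F := V.comap (algebraMap F E)
  have hWA : ∀ a ∈ A, a ∈ W := fun a ha => hVA a ha
  have hW : W ≠ ⊤ := by
    intro h
    have h1 : x⁻¹ ∈ W := by rw [h]; exact ValuationSubring.mem_top _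
    exact v_inv_lt hx h1 (fun h => hx0 ((algebraMap F E).injective (by rw [map_zero]; exact h)))
  obtain ⟨t, ht0, ht, hlt⟩ := exists_unif hWA hW (res_of hWA hW)
  have hk : ∀ c : k, algebraMap k E c ∈ V := fun c => hVA _ (A.algebraMap_mem c)
  have htV : V.valuation (t : E) < 1 := v_comap_lt.1 ht
  have ht0' : V.valuation (t : E) ≠ 0 := by
    rw [Valuation.ne_zero_iff]
    exact fun h => ht0 ((algebraMap F E).injective (by rw [map_zero]; exact h))
  have key : ∀ y : F, y ≠ 0 → ∃ n : ℤ, V.valuation (y : E) = V.valuation (t : E) ^ n := by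
    intro y hy
    obtain ⟨n, c, z, hc, hz, e⟩ := hlt y hy
    refine ⟨n, ?_⟩
    have h1 : (y : E) = (t : E) ^ n * (algebraMap k E c + (t : E) * (z : E)) := by
      have h2 := congrArg (algebraMap F E) e
      rw [map_mul, map_zpow₀, map_add, map_mul, ← IsScalarTower.algebraMap_apply] at h2
      exact h2
    have hz' : (z : E) ∈ V := hz
    rw [h1, map_mul, map_zpow₀, v_add (v_k hk hc) (v_lt_mul htV hz'), mul_one]
  obtain ⟨n1, hn1⟩ := key x hx0
  have hn1' : n1 = 1 := by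
    have h1 : 1 ≤ n1 := by
      by_contra hcon
      have h2 : n1 ≤ 0 := by omega
      rw [hn1] at hx
      exact absurd hx (not_lt.2 (one_le_zpow_of_nonpos₀ (zero_lt_iff.2 ht0') htV.le h2))
    have h2 := hgen t htV
    have h3 : V.valuation (((t * x⁻¹ : F)) : E) = V.valuation (t : E) ^ (1 - n1) := by
      change V.valuation ((t : E) * (x : E)⁻¹) = _
      rw [map_mul, map_inv₀, hn1, zpow_sub₀ ht0', zpow_one, div_eq_mul_inv]
    by_contra hne
    have h4 : 1 - n1 < 0 := by omega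
    rw [← v_le, h3] at h2
    obtain ⟨m, hm⟩ : ∃ m : ℕ, n1 - 1 = m := ⟨(n1 - 1).toNat, by omega⟩
    have h5 : (1 : ℤ) - n1 = -(m : ℤ) := by omega
    rw [h5, zpow_neg, zpow_natCast, inv_le_one₀ (pow_pos (zero_lt_iff.2 ht0') m)] at h2
    have h6 : V.valuation (t : E) ^ m < 1 := pow_lt_one₀ zero_le htV (by omega)
    exact absurd h2 (not_le.2 h6)
  rw [hn1', zpow_one] at hn1
  obtain ⟨n, hn⟩ := key y hy
  exact ⟨n, by rw [hn, hn1]⟩

omit [IsAlgClosed k] in
lemma finiteType_adj (v : F) : Algebra.FiniteType k (adj A v) := by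
  have h1 : Algebra.FiniteType k (A)[X] :=
    Algebra.FiniteType.trans (S := A) inferInstance inferInstance
  exact Algebra.FiniteType.of_surjective (evA' A v) (evA A v).rangeRestrict_surjective

include hF in
/-- The charts. -/
theorem good_chart (p : ℕ) [Fact p.Prime] (hnc : ∃ y ∈ A, ∀ c : k, y ≠ algebraMap k F c) {x u : F}
    (hxA : x ∈ A) (hx0 : x ≠ 0) (hCq : Cq A x u)
    (hu : ∀ V : ValuationSubring E, (∀ c : k, algebraMap k E c ∈ V) → (u : E) ∈ V →
      (∀ x ∈ V, ∃ c : k, V.valuation (x - algebraMap k E c) < 1) → ∀ σ ∈ dec V Γ, σ = 1)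
    (hGA : ∀ V : ValuationSubring E, (∀ c : k, algebraMap k E c ∈ V) → V ≠ ⊤ → GA p Γ F V)
    (𝔪 : Ideal A) [h𝔪 : 𝔪.IsMaximal] :
    ∃ (f : F) (hf : f ∈ A), (⟨f, hf⟩ : A) ∉ 𝔪 ∧ f ≠ 0 ∧
      (∀ V : ValuationSubring E, (∀ z ∈ DD (E := E) (adj A f⁻¹), z ∈ V) →
        V.valuation (x : E) < 1 → ∀ a : A, a ∈ 𝔪 ↔ V.valuation ((a : F) : E) < 1) ∧
      ∃ (m : ℕ) (h : F), h ∈ adj A f⁻¹ ∧ (m = 0 ∨ (¬ p ∣ m ∧ h ≠ 0 ∧ h⁻¹ ∈ adj A f⁻¹)) ∧
        ∀ 𝔐 : Ideal (DD (E := E) (adj A f⁻¹)), 𝔐.IsMaximal →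
          PG p Γ (DD (E := E) (adj A f⁻¹)) 𝔐 ((x ^ (-(m : ℤ)) * h : F) : E) := by
  classical
  have hp : p.Prime := Fact.out
  obtain ⟨hsep, hfin⟩ := sep_fix hF
  have halg : Algebra.IsAlgebraic F E := Algebra.IsSeparable.isAlgebraic _ _
  have hσF : ∀ σ ∈ Γ, ∀ x ∈ F, σ x = x := fun σ hσ x hx => (hF x).1 hx σ hσ
  have hcoe : ∀ {y : F}, y ≠ 0 → (y : E) ≠ 0 := fun {y} hy h =>
    hy ((algebraMap F E).injective (by rw [map_zero]; exact h))
  have hkA : ∀ c : k, algebraMap k F c ∈ A := fun c => A.algebraMap_mem c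
  -- facts about refined charts
  have hfacts : ∀ (f : F), f ∈ A → f ≠ 0 → IsDedekindDomain (DD (E := E) (adj A f⁻¹)) ∧
      IsFractionRing (DD (E := E) (adj A f⁻¹)) E ∧
      Algebra.FiniteType k (DD (E := E) (adj A f⁻¹)) ∧
      (∀ 𝔐 : Ideal (DD (E := E) (adj A f⁻¹)), 𝔐.IsMaximal → 𝔐 ≠ ⊥) ∧
      (∀ σ ∈ Γ, ∀ z ∈ DD (E := E) (adj A f⁻¹), σ z ∈ DD (E := E) (adj A f⁻¹)) := by
    intro f hf hf0
    have h1 : IsDedekindDomain (adj A f⁻¹) := dedekind_adj hf hf0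
    have h2 : IsFractionRing (adj A f⁻¹) F := by
      refine isFrac_of fun y => ?_
      obtain ⟨a, ha, b, hb, hb0, e⟩ := of_isFrac (A := A) y
      exact ⟨a, le_adj _ _ ha, b, le_adj _ _ hb, hb0, e⟩
    have h3 : Algebra.FiniteType k (adj A f⁻¹) := finiteType_adj _
    have d1 : IsDedekindDomain (DD (E := E) (adj A f⁻¹)) := DD_dedekind.1
    have d2 : IsFractionRing (DD (E := E) (adj A f⁻¹)) E := DD_dedekind.2
    have d3 : Algebra.FiniteType k (DD (E := E) (adj A f⁻¹)) := DD_finiteType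
    refine ⟨d1, d2, d3, ?_, fun σ hσ z hz => DD_sigma σ (hσF σ hσ) z hz⟩
    intro 𝔐 h𝔐 h0
    obtain ⟨y, hy, hyc⟩ := hnc
    obtain ⟨c, hc⟩ := exists_residue (S := DD (E := E) (adj A f⁻¹))
      (DM := DD (E := E) (adj A f⁻¹)) le_rfl (fun x hx =>
        isIntegral_algebraMap (x := (⟨x, hx⟩ : DD (E := E) (adj A f⁻¹)))) 𝔐
        ⟨y, coe_mem_DD (le_adj _ _ hy)⟩
    rw [h0, Ideal.mem_bot, sub_eq_zero] at hc
    apply hyc c
    apply (algebraMap F E).injective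
    have h5 := congrArg Subtype.val hc
    rw [← IsScalarTower.algebraMap_apply k F E]
    exact h5
  -- trivial decomposition groups
  have htriv : ∀ V : ValuationSubring E, (∀ a ∈ A, (a : E) ∈ V) → V ≠ ⊤ → (x : E)⁻¹ ∈ V →
      (∀ z ∈ V, ∃ c : k, V.valuation (z - algebraMap k E c) < 1) → ∀ σ ∈ dec V Γ, σ = 1 := by
    intro V hVA hVt hx hres
    have hk : ∀ c : k, algebraMap k E c ∈ V := fun c => by
      rw [IsScalarTower.algebraMap_apply k F E]
      exact hVA _ (hkA c)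
    rcases hCq (V.comap (algebraMap F E)) (fun a ha => hVA a ha) with ⟨h1, -⟩ | ⟨-, h1⟩
    · exfalso
      apply h1
      rw [ValuationSubring.mem_comap, map_inv₀]
      exact hx
    · exact hu V hk h1 hres
  -- centers
  have hcen : ∀ V : ValuationSubring E, (∀ a ∈ A, (a : E) ∈ V) →
      (∀ a : A, a ∈ 𝔪 → V.valuation ((a : F) : E) < 1) →
      ∀ a : A, a ∈ 𝔪 ↔ V.valuation ((a : F) : E) < 1 := by
    intro V hVA hle a
    obtain ⟨P, hPp, hP, -⟩ := exists_center (k := k) (D := A)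
      (V := V.comap (algebraMap F E)) (fun a ha => hVA a ha)
    have hP' : ∀ a : A, a ∈ P ↔ V.valuation ((a : F) : E) < 1 := fun a =>
      (hP a).trans v_comap_lt
    have heq : 𝔪 = P := h𝔪.eq_of_le hPp.ne_top fun a ha => (hP' a).2 (hle a ha)
    rw [heq]
    exact hP' a
  by_cases hxm : (⟨x, hxA⟩ : A) ∈ 𝔪
  swap
  · -- no zeros
    obtain ⟨d1, d2, d3, d4, d5⟩ := hfacts x hxA hx0
    have hxi : ∀ V : ValuationSubring E, (∀ z ∈ DD (E := E) (adj A x⁻¹), z ∈ V) →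
        (x : E)⁻¹ ∈ V := by
      intro V hV
      have h1 := hV _ (coe_mem_DD (self_mem_adj A x⁻¹))
      exact h1
    refine ⟨x, hxA, hxm, hx0, fun V hV hx => (v_inv_lt hx (hxi V hV) (hcoe hx0)).elim, 0, 0,
      (adj A x⁻¹).zero_mem, Or.inl rfl, fun 𝔐 h𝔐 => ?_⟩
    obtain ⟨V, hV1, hV2, hV3⟩ := exists_valM 𝔐 (d4 𝔐 h𝔐)
    have hres := res_of (k := k) hV1 hV3
    exact pg_triv hV1 hV3 d5 hV2 (htriv V (fun a ha => hV1 _ (coe_mem_DD (le_adj _ _ ha))) hV3
      (hxi V hV1) fun z hz => exists_res hV1 hres hz) _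
  -- the zero
  obtain ⟨V0, hV0A, hV0m⟩ := exists_over (E := E) 𝔪 h𝔪.ne_top
  have hx1 : V0.valuation (x : E) < 1 := hV0m ⟨x, hxA⟩ hxm
  have hV0t : V0 ≠ ⊤ := by
    rintro rfl
    exact v_inv_lt hx1 (ValuationSubring.mem_top _) (hcoe hx0)
  have hV0D : ∀ z ∈ DD (E := E) A, z ∈ V0 := fun z hz => int_mem hV0A hz
  have hk0 : ∀ c : k, algebraMap k E c ∈ V0 := fun c => by
    rw [IsScalarTower.algebraMap_apply k F E]
    exact hV0A _ (hkA c)
  have h𝔪V : ∀ a : A, a ∈ 𝔪 ↔ V0.valuation ((a : F) : E) < 1 := hcen V0 hV0A hV0m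
  have hWA : ∀ a ∈ A, a ∈ V0.comap (algebraMap F E) := fun a ha => hV0A a ha
  have hgen0 : ∀ y : F, V0.valuation (y : E) < 1 → ((y * x⁻¹ : F) : E) ∈ V0 := by
    intro y hy
    rcases hCq (V0.comap (algebraMap F E)) hWA with ⟨-, h1⟩ | ⟨h1, -⟩
    · exact h1 y (v_comap_lt.2 hy)
    · rw [ValuationSubring.mem_comap, map_inv₀] at h1
      exact (v_inv_lt hx1 h1 (hcoe hx0)).elim
  have hloc : ∀ y : F, (y : E) ∈ V0 → ∃ s ∈ A, V0.valuation (s : E) = 1 ∧ s * y ∈ A := by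
    intro y hy
    obtain ⟨s, hs, hs1, hsy⟩ := exists_loc (D := A) hWA (x := y) hy
    refine ⟨s, hs, v_one_of (hV0A s hs) fun h => ?_, hsy⟩
    have h1 : (V0.comap (algebraMap F E)).valuation s < 1 := v_comap_lt.2 h
    rw [hs1] at h1
    exact lt_irrefl _ h1
  -- the local generator
  obtain ⟨s3, hs3A, hs31, hs3⟩ : ∃ s3 ∈ A, V0.valuation (s3 : E) = 1 ∧
      ∀ a : A, a ∈ 𝔪 → s3 * a * x⁻¹ ∈ A := by
    have h𝔪0 : 𝔪 ≠ ⊥ := by
      intro h
      rw [h, Ideal.mem_bot] at hxm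
      exact hx0 (congrArg Subtype.val hxm)
    obtain ⟨ι, hι, y, z, hy, hz, hsum⟩ := inv_gen A 𝔪 h𝔪0
    have hyz : ∀ b, y b * z b ∈ A := fun b => by
      obtain ⟨h1, h2⟩ := hy b
      exact hz b ⟨y b, h1⟩ h2
    obtain ⟨b, hb⟩ : ∃ b, V0.valuation ((y b * z b : F) : E) = 1 := by
      by_contra hcon
      push Not at hcon
      have h1 : ∀ b, V0.valuation ((y b * z b : F) : E) < 1 := fun b =>
        lt_of_le_of_ne (v_le.2 (hV0A _ (hyz b))) (hcon b)
      have h2 : ((∑ b, y b * z b : F) : E) = ∑ b, ((y b * z b : F) : E) :=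
        map_sum (algebraMap F E) _ _
      have h3 : V0.valuation (∑ b, ((y b * z b : F) : E)) < 1 :=
        Valuation.map_sum_lt _ one_ne_zero fun b _ => h1 b
      rw [← h2, hsum] at h3
      have h4 : (((1 : F)) : E) = 1 := rfl
      rw [h4, map_one] at h3
      exact lt_irrefl _ h3
    obtain ⟨hyA, hym⟩ := hy b
    have hzx : x * z b ∈ A := hz b ⟨x, hxA⟩ hxm
    have hyx := hgen0 (y b) ((h𝔪V ⟨y b, hyA⟩).1 hym)
    refine ⟨x * z b, hzx, le_antisymm (v_le.2 (hV0A _ hzx)) ?_, fun a ha => ?_⟩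
    · have h1 : ((y b * z b : F) : E) = ((y b * x⁻¹ : F) : E) * ((x * z b : F) : E) := by
        change (y b : E) * (z b : E) = (y b : E) * (x : E)⁻¹ * ((x : E) * (z b : E))
        rw [mul_assoc, inv_mul_cancel_left₀ (hcoe hx0)]
      rw [← hb, h1, map_mul]
      exact mul_le_of_le_one_left zero_le (v_le.2 hyx)
    · have h1 : x * z b * (a : F) * x⁻¹ = (a : F) * z b := by
        field_simp
      rw [h1]
      exact hz b a ha
  obtain ⟨hθ, b, hb, hgen⟩ := hGA V0 hk0 hV0t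
  -- the exponent and the unit
  obtain ⟨m, h, hmh, hhV, hhV', hbb⟩ : ∃ (m : ℕ) (h : F), (m = 0 ∨ (¬ p ∣ m ∧ h ≠ 0)) ∧
      (h : E) ∈ V0 ∧ (m = 0 ∨ ((h⁻¹ : F) : E) ∈ V0) ∧
      (((b : E) ∈ V0 ∧ x ^ (-(m : ℤ)) * h = 0) ∨ x ^ (-(m : ℤ)) * h = b) := by
    by_cases hbV : (b : E) ∈ V0
    · exact ⟨0, 0, Or.inl rfl, V0.zero_mem, Or.inl rfl, Or.inl ⟨hbV, by rw [mul_zero]⟩⟩
    · have hb0 : b ≠ 0 := by
        rintro rfl
        exact hbV V0.zero_mem
      obtain ⟨n, hn⟩ := val_x hV0A hx1 hx0 hgen0 b hb0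
      have hxv0 : V0.valuation (x : E) ≠ 0 := by
        rw [Valuation.ne_zero_iff]
        exact hcoe hx0
      have hn0 : n < 0 := by
        by_contra hcon
        apply hbV
        rw [← v_le, hn]
        obtain ⟨n', rfl⟩ := Int.eq_ofNat_of_zero_le (not_lt.1 hcon)
        rw [zpow_natCast]
        exact pow_le_one₀ zero_le hx1.le
      obtain ⟨m, rfl⟩ : ∃ m : ℕ, n = -(m : ℤ) := ⟨n.natAbs, by omega⟩
      have hxm0 : x ^ (m : ℤ) ≠ 0 := zpow_ne_zero _ hx0
      have hv1 : V0.valuation ((b * x ^ (m : ℤ) : F) : E) = 1 := by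
        have h1 : ((b * x ^ (m : ℤ) : F) : E) = (b : E) * (x : E) ^ (m : ℤ) := by
          change algebraMap F E (b * x ^ (m : ℤ)) = _
          rw [map_mul, map_zpow₀]
          rfl
        rw [h1, map_mul, map_zpow₀, hn, ← zpow_add₀ hxv0, neg_add_cancel, zpow_zero]
      refine ⟨m, b * x ^ (m : ℤ), Or.inr ⟨?_, mul_ne_zero hb0 hxm0⟩, v_le.1 hv1.le, Or.inr ?_,
        Or.inr ?_⟩
      · rintro ⟨m', rfl⟩
        refine hb hbV (x ^ (-(m' : ℤ))) ?_
        have h1 : ((x ^ (-(m' : ℤ)) : F) : E) = (x : E) ^ (-(m' : ℤ)) := map_zpow₀ (algebraMap F E) _ _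
        rw [h1, map_zpow₀, hn, ← zpow_natCast, ← zpow_mul]
        congr 1
        push_cast
        ring
      · have h1 : (((b * x ^ (m : ℤ))⁻¹ : F) : E) = ((b * x ^ (m : ℤ) : F) : E)⁻¹ := rfl
        rw [h1]
        exact v_inv_mem hv1
      · rw [mul_left_comm, ← zpow_add₀ hx0, neg_add_cancel, zpow_zero, mul_one]
  obtain ⟨s1, hs1A, hs11, hs1⟩ := hloc h hhV
  obtain ⟨s2, hs2A, hs21, hs2⟩ : ∃ s2 ∈ A, V0.valuation (s2 : E) = 1 ∧
      (m = 0 ∨ s2 * h⁻¹ ∈ A) := by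
    rcases hhV' with h1 | h1
    · exact ⟨1, A.one_mem, by
        have h4 : (((1 : F)) : E) = 1 := rfl
        rw [h4, map_one], Or.inl h1⟩
    · obtain ⟨s2, h2, h3, h4⟩ := hloc _ h1
      exact ⟨s2, h2, h3, Or.inr h4⟩
  let f : F := s1 * s2 * s3
  have hfA : f ∈ A := A.mul_mem (A.mul_mem hs1A hs2A) hs3A
  have hf1 : V0.valuation (f : E) = 1 := by
    change V0.valuation ((s1 : E) * (s2 : E) * (s3 : E)) = 1
    rw [map_mul, map_mul, hs11, hs21, hs31, mul_one, mul_one]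
  have hf0 : f ≠ 0 := by
    intro h0
    rw [h0] at hf1
    have h4 : (((0 : F)) : E) = 0 := rfl
    rw [h4, map_zero] at hf1
    exact zero_ne_one hf1
  have hdiv : ∀ s r y : F, f = s * r → r ∈ A → s * y ∈ A → y ∈ adj A f⁻¹ := by
    intro s r y e hr hy
    have h1 : y = (s * y) * r * f⁻¹ := by
      have hs0 : s ≠ 0 := by
        rintro rfl
        rw [zero_mul] at e
        exact hf0 e
      have hr0 : r ≠ 0 := by
        rintro rfl
        rw [mul_zero] at e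
        exact hf0 e
      rw [e]
      field_simp
    rw [h1]
    exact (adj A f⁻¹).mul_mem (le_adj _ _ (A.mul_mem hy hr)) (self_mem_adj _ _)
  have hs3i : s3⁻¹ ∈ adj A f⁻¹ := hdiv s3 (s1 * s2) _ (by ring) (A.mul_mem hs1A hs2A) (by
    rw [mul_inv_cancel₀]
    · exact A.one_mem
    · rintro rfl
      have h4 : (((0 : F)) : E) = 0 := rfl
      rw [h4, map_zero] at hs31
      exact zero_ne_one hs31)
  obtain ⟨d1, d2, d3, d4, d5⟩ := hfacts f hfA hf0
  have hzero : ∀ V : ValuationSubring E, (∀ z ∈ DD (E := E) (adj A f⁻¹), z ∈ V) →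
      V.valuation (x : E) < 1 → ∀ a : A, a ∈ 𝔪 ↔ V.valuation ((a : F) : E) < 1 := by
    intro V hV hx
    refine hcen V (fun a ha => hV _ (coe_mem_DD (le_adj _ _ ha))) fun a ha => ?_
    have h1 : ((s3 * a * x⁻¹ : F) : E) ∈ V := hV _ (coe_mem_DD (le_adj _ _ (hs3 a ha)))
    have h2 : ((s3⁻¹ : F) : E) ∈ V := hV _ (coe_mem_DD hs3i)
    have h3 : ((a : F) : E) = (x : E) * (((s3 * a * x⁻¹ : F) : E) * ((s3⁻¹ : F) : E)) := by
      change ((a : F) : E) = (x : E) * ((s3 : E) * ((a : F) : E) * (x : E)⁻¹ * (s3 : E)⁻¹)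
      have hs30 : (s3 : E) ≠ 0 := by
        intro h0
        rw [h0, map_zero] at hs31
        exact zero_ne_one hs31
      have hx0' := hcoe hx0
      field_simp
    rw [h3]
    exact v_lt_mul hx (V.mul_mem _ _ h1 h2)
  refine ⟨f, hfA, ?_, hf0, hzero, m, h, ?_, ?_, ?_⟩
  · rw [h𝔪V]
    change ¬ V0.valuation (f : E) < 1
    rw [hf1]
    exact lt_irrefl _
  · exact hdiv s1 (s2 * s3) h (by ring) (A.mul_mem hs2A hs3A) hs1
  · rcases hmh with h1 | ⟨h1, h2⟩
    · exact Or.inl h1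
    · rcases hs2 with h3 | h3
      · exact Or.inl h3
      · exact Or.inr ⟨h1, h2, hdiv s2 (s1 * s3) _ (by ring) (A.mul_mem hs1A hs3A) h3⟩
  · intro 𝔐 h𝔐
    obtain ⟨V, hV1, hV2, hV3⟩ := exists_valM 𝔐 (d4 𝔐 h𝔐)
    have hVA : ∀ a ∈ A, (a : E) ∈ V := fun a ha => hV1 _ (coe_mem_DD (le_adj _ _ ha))
    by_cases hxV : V.valuation (x : E) < 1
    · have hz := hzero V hV1 hxV
      obtain ⟨γ, hγ, hiff⟩ := exists_conj hF (A := A) (V := V) (V0 := V0)
        (fun z hz => int_mem hVA hz) hV0D hV3 hV0t fun a ha h1 =>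
          (h𝔪V ⟨a, ha⟩).1 ((hz ⟨a, ha⟩).2 h1)
      have hbF : FX Γ (b : E) := (hF _).1 b.2
      obtain ⟨hθ', hgen'⟩ := gen_conj (p := p) hγ hiff hbF hθ hgen
      refine pg_of hV1 hV3 d5 hV2 hθ' ?_
      rcases hbb with ⟨hb1, hb2⟩ | hb2
      · intro lam hlam
        obtain ⟨w, c, hw, hwc⟩ := hgen' lam hlam
        refine ⟨w, c, hw, ?_⟩
        have hbV : (b : E) ∈ V := by
          have h1 := (hiff _).1 hb1
          rwa [hbF γ hγ] at h1
        have h0 : (((x ^ (-(m : ℤ)) * h : F)) : E) = 0 := by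
          rw [hb2]
          rfl
        rw [h0, mul_zero, sub_zero]
        have h1 : w ^ p - w = (w ^ p - w - algebraMap k E c * (b : E)) +
            algebraMap k E c * (b : E) := by ring
        rw [h1]
        refine V.add_mem _ _ hwc (V.mul_mem _ _ ?_ hbV)
        rw [IsScalarTower.algebraMap_apply k F E]
        exact hVA _ (hkA c)
      · rw [hb2]
        exact hgen'
    · have hres := res_of (k := k) hV1 hV3
      have h1 : V.valuation (x : E) = 1 := v_one_of (hVA x hxA) hxV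
      exact pg_triv hV1 hV3 d5 hV2 (htriv V hVA hV3 (v_inv_mem h1)
        fun z hz => exists_res hV1 hres hz) _

end chart

end Pool.Agent.Zk10.Cur
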