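import Pool.Agent.Zk62.Tw.U4

/-!
Curves with a group action: the models of the quotients.
-/

set_option autoImplicit false
set_option linter.unusedVariables false
set_option linter.unusedSectionVars false

universe u

namespace Pool.Agent.Zk10.Cur

open Pool.Agent.W558 Pool.Agent.H920R2 Pool.Agent.Zk10.Ram Polynomial IntermediateField
  Pool.Agent.W435.WT.Gal Pool.Agent.Zk10 Pool.Agent.W177.WD Pool.Agent.TH214

section kc

variable {k L : Type u} [Field k] [Field L] [Algebra k L] {T : Type}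

/-- One local function with a pole of order prime to `p` and a unit as coefficient. -/
lemma kc_unit (p : ℕ) [Fact p.Prime] [CharP k p] (M : LM (⊥ : Subalgebra k L) ⊤ T Unit) (m : T → ℕ)
    (h : T → L) (hA : ∀ t, h t ∈ M.A t)
    (hm : ∀ t, m t = 0 ∨ (¬ p ∣ m t ∧ h t ≠ 0 ∧ (h t)⁻¹ ∈ M.A t)) :
    KC M (fun t (_ : Unit) _ => -(m t : ℤ)) (fun t _ => h t) where
  n0 := fun t l i => by
    have := Int.natCast_nonneg (m t)
    omega
  hA := fun t l => hA t
  ln := by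
    intro t κ _ _ φ l hpol
    obtain ⟨i, hi, hi0⟩ := hpol
    have hm0 : m t ≠ 0 := by
      intro h0
      change -(m t : ℤ) < 0 at hi
      rw [h0] at hi
      simp at hi
    obtain ⟨h1, h2, h3⟩ := (hm t).resolve_left hm0
    have hcκ : CharP κ p := charP_of_injective_algebraMap (algebraMap k κ).injective p
    refine ⟨⟨⟨0, fun a b => by simp⟩, fun _ => 1, ?_⟩, ?_, ?_⟩
    · intro i' hi'
      change (0 : κ) = _
      have e : φ ⟨M.x t i', hi'⟩ = 0 := hi0
      rw [e, zero_mul]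
    · unfold om
      have e1 : φ ⟨h t, hA t⟩ ≠ 0 := by
        intro h0
        have h4 : (⟨h t, hA t⟩ : M.A t) * ⟨(h t)⁻¹, h3⟩ = 1 :=
          Subtype.ext (mul_inv_cancel₀ h2)
        have h5 := congrArg φ h4
        rw [map_mul, h0, zero_mul, map_one] at h5
        exact zero_ne_one h5
      change (0 : κ) + φ ⟨h t, hA t⟩ * ∑ i : Unit, ((-(m t : ℤ) : ℤ) : κ) * 1 ≠ 0
      rw [zero_add, Finset.univ_unique, Finset.sum_singleton, mul_one, Int.cast_neg,
        Int.cast_natCast]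
      refine mul_ne_zero e1 (neg_ne_zero.2 ?_)
      intro h0
      exact h1 ((CharP.cast_eq_zero_iff κ p (m t)).1 h0)
    · intro l' hl'
      exact absurd rfl hl'

end kc

section pack

variable {k E : Type u} [Field k] [IsAlgClosed k] [Field E] [Algebra k E]
  [Algebra.EssFiniteType k E] {Γ : Subgroup (E ≃ₐ[k] E)} [Finite Γ]
  {F : IntermediateField k E} (hF : ∀ x, x ∈ F ↔ FX Γ x)

include hF in
/-- The model of the quotient of a curve, with the local functions. -/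
theorem curve_packG (p : ℕ) [Fact p.Prime] [CharP k p] (htr : Algebra.trdeg k E = 1)
    (hGA : ∀ V : ValuationSubring E, (∀ c : k, algebraMap k E c ∈ V) → V ≠ ⊤ → GA p Γ F V)
    (S : Finset F) :
    ∃ (T : Type) (_ : Finite T) (M : LM (⊥ : Subalgebra k F) ⊤ T Unit)
      (n : T → Unit → Unit → ℤ) (h : T → Unit → F), KC M n h ∧ Frc M ∧
      (∀ s ∈ S, ∀ t, s ∈ M.A t ∨ s⁻¹ ∈ M.A t) ∧
      ∀ t (𝔐 : Ideal (DD (E := E) (M.A t))), 𝔐.IsMaximal →
        PG p Γ (DD (E := E) (M.A t)) 𝔐 ((bf M n h t () : F) : E) := by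
  classical
  obtain ⟨hsep, hfin⟩ := sep_fix hF
  have halg : Algebra.IsAlgebraic F E := Algebra.IsSeparable.isAlgebraic _ _
  have hess := essFiniteType_sub F
  have hp : p.Prime := Fact.out
  obtain ⟨u, huF, huE, hu⟩ := exists_uF hF hp (CharP.cast_eq_zero k p) htr
  obtain ⟨T, hT, M, hFrc, hDed, hCq, hS⟩ := exists_curveM huF S
  have hFr : ∀ t, IsFractionRing (M.A t) F := fun t => isFrac_of (hFrc t)
  have hft : ∀ t, Algebra.FiniteType k (M.A t) := fun t => by
    have := M.sm t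
    infer_instance
  have hnc : ∀ t, ∃ y ∈ M.A t, ∀ c : k, y ≠ algebraMap k F c := by
    intro t
    by_contra hcon
    push Not at hcon
    apply huF.1
    obtain ⟨a, ha, b, hb, hb0, e⟩ := hFrc t u
    obtain ⟨c, rfl⟩ := hcon a ha
    obtain ⟨d, rfl⟩ := hcon b hb
    rw [e, ← map_inv₀, ← map_mul]
    exact isAlgebraic_algebraMap _
  let Q : T → F → Prop := fun t f => ∃ (m : ℕ) (h : F), h ∈ adj (M.A t) f⁻¹ ∧
    (m = 0 ∨ (¬ p ∣ m ∧ h ≠ 0 ∧ h⁻¹ ∈ adj (M.A t) f⁻¹)) ∧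
      ∀ 𝔐 : Ideal (DD (E := E) (adj (M.A t) f⁻¹)), 𝔐.IsMaximal →
        PG p Γ (DD (E := E) (adj (M.A t) f⁻¹)) 𝔐 (((M.x t ()) ^ (-(m : ℤ)) * h : F) : E)
  obtain ⟨J, hJ, d, M1, -, hx, hmem, hne, hQ, hA⟩ := Pool.Agent.N98.exists_refine_local M Q (by
    intro t 𝔪 hm
    have i1 := hDed t
    have i2 := hFr t
    have i3 := hft t
    have i4 : Ideal.IsMaximal (𝔪 : Ideal (M.A t)) := hm
    obtain ⟨f, hf, h1, -, -, m, h, h3, h4, h5⟩ := good_chart hF p (hnc t) (M.xA t ()) (M.x0 t ())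
      (hCq t) hu hGA (𝔪 : Ideal (M.A t))
    exact ⟨⟨f, hf⟩, h1, m, h, h3, h4, h5⟩)
  choose m h h1 h2 h3 using hQ
  have hA' : ∀ q : T × J, M1.A q = adj (M.A q.1) (d q.1 q.2)⁻¹ := hA
  have hKC := kc_unit p M1 (fun q => m q.1 q.2) (fun q => h q.1 q.2) (fun q => by
    rw [hA']; exact h1 _ _) (fun q => by rw [hA']; exact h2 _ _)
  refine ⟨T × J, inferInstance, M1, _, _, hKC, ?_, ?_, ?_⟩
  · intro q y
    obtain ⟨a, ha, b, hb, hb0, e⟩ := hFrc q.1 y
    refine ⟨a, ?_, b, ?_, hb0, e⟩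
    · rw [hA']; exact le_adj _ _ ha
    · rw [hA']; exact le_adj _ _ hb
  · intro s hs q
    rw [hA']
    rcases hS s hs q.1 with h4 | h4
    · exact Or.inl (le_adj _ _ h4)
    · exact Or.inr (le_adj _ _ h4)
  · intro q
    have hb : bf M1 (fun t (_ : Unit) _ => -(m t.1 t.2 : ℤ)) (fun t _ => h t.1 t.2) q () =
        M.x q.1 () ^ (-(m q.1 q.2 : ℤ)) * h q.1 q.2 := by
      unfold bf
      rw [Finset.univ_unique, Finset.prod_singleton, hx]
    rw [hb, hA']
    exact h3 q.1 q.2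

end pack

end Pool.Agent.Zk10.Cur
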