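import Pool.Agent.Zk62.Tw.U5

/-!
Local functions at a point of a curve: density and the Artin-Schreier normal form.
-/

set_option autoImplicit false
set_option linter.unusedVariables false
set_option linter.unusedSectionVars false

universe u

namespace Pool.Agent.Zk10.Cur

open Pool.Agent.W558 Pool.Agent.H920R2 Pool.Agent.Zk10.Ram Polynomial IntermediateField
  Pool.Agent.W435.WT.Gal Pool.Agent.Zk10

section dens

variable {k E : Type u} [Field k] [IsAlgClosed k] [Field E] [Algebra k E]
  {F : IntermediateField k E} {Γ : Subgroup (E ≃ₐ[k] E)} [Finite Γ] (hF : ∀ x, x ∈ F ↔ FX Γ x)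
  {A : Subalgebra k F} [IsDedekindDomain A] [IsFractionRing A F] [Algebra.FiniteType k A]
  {V : ValuationSubring E} (hVA : ∀ a ∈ A, (a : E) ∈ V) (hVt : V ≠ ⊤)

include hF hVA hVt

/-- The decomposition field is dense over the invariants. -/
theorem dens (f : E) (hf : FX (dec V Γ) f) : ∃ b : F, (b : E) - f ∈ V := by
  classical
  obtain ⟨hsep, hfin⟩ := sep_fix hF
  have halg : Algebra.IsAlgebraic F E := Algebra.IsSeparable.isAlgebraic _ _
  have d1 : IsDedekindDomain (DD (E := E) A) := DD_dedekind.1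
  have d2 : IsFractionRing (DD (E := E) A) E := DD_dedekind.2
  have d3 : Algebra.FiniteType k (DD (E := E) A) := DD_finiteType
  have hV : ∀ x ∈ DD (E := E) A, x ∈ V := fun z hz => int_mem hVA hz
  have hσF : ∀ σ ∈ Γ, ∀ x ∈ F, σ x = x := fun σ hσ x hx => (hF x).1 hx σ hσ
  have hσD : ∀ σ ∈ Γ, ∀ x ∈ DD (E := E) A, σ x ∈ DD (E := E) A := fun σ hσ x hx =>
    DD_sigma σ (hσF σ hσ) x hx
  have hres := res_of (k := k) hV hVt
  have hk : ∀ c : k, algebraMap k E c ∈ V := fun c => hV _ ((DD (E := E) A).algebraMap_mem c)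
  obtain ⟨t, ht0, ht, hlt⟩ := exists_unif hV hVt hres
  let q : E → E := fun x => if x ∈ V then 1 else x⁻¹
  have hq0 : ∀ x, q x ≠ 0 := by
    intro x
    change (if x ∈ V then 1 else x⁻¹) ≠ 0
    split_ifs with h
    · exact one_ne_zero
    · refine inv_ne_zero ?_
      rintro rfl
      exact h V.zero_mem
  have hqx : ∀ x, q x * x ∈ V := by
    intro x
    change (if x ∈ V then 1 else x⁻¹) * x ∈ V
    split_ifs with h
    · rw [one_mul]; exact h
    · rw [inv_mul_cancel₀]
      · exact V.one_mem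
      · rintro rfl
        exact h V.zero_mem
  have hqV : ∀ x, q x ∈ V := by
    intro x
    change (if x ∈ V then 1 else x⁻¹) ∈ V
    split_ifs with h
    · exact V.one_mem
    · exact (V.mem_or_inv_mem x).resolve_left h
  obtain ⟨e, heD, he1, heI, heγ⟩ := exists_sep hV hVt hres hσD (fun γ => q (γ f))
    (fun γ => hq0 _)
  obtain ⟨c, hc⟩ := hres e heD
  have hc0 : c ≠ 0 := by
    rintro rfl
    rw [map_zero, sub_zero, he1] at hc
    exact lt_irrefl _ hc
  let cE : E := algebraMap k E c
  have hcE0 : cE ≠ 0 := (_root_.map_ne_zero _).2 hc0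
  let e' : E := cE⁻¹ * e
  have hcEi : cE⁻¹ = algebraMap k E c⁻¹ := (map_inv₀ (algebraMap k E) c).symm
  have he'D : e' ∈ DD (E := E) A := (DD (E := E) A).mul_mem (by
    rw [hcEi]; exact (DD (E := E) A).algebraMap_mem _) heD
  have h1e : V.valuation (1 - e') < 1 := by
    have h1 : 1 - e' = (-(e - cE)) * cE⁻¹ := by
      change 1 - cE⁻¹ * e = _
      field_simp
      ring
    rw [h1]
    refine v_lt_mul (by rw [Valuation.map_neg]; exact hc) ?_
    rw [hcEi]
    exact hk _
  -- a high power
  obtain ⟨N, hN0, hN⟩ : ∃ N : ℕ, N ≠ 0 ∧ (1 - e') ^ N * f ∈ V := by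
    by_cases hfV : f ∈ V
    · refine ⟨1, one_ne_zero, V.mul_mem _ _ ?_ hfV⟩
      rw [pow_one]
      exact v_lt_mem h1e
    · have hf0 : f ≠ 0 := by
        rintro rfl
        exact hfV V.zero_mem
      have hfi : f⁻¹ ∈ V := (V.mem_or_inv_mem f).resolve_left hfV
      have hfi1 : V.valuation f⁻¹ < 1 := by
        rw [v_lt_iff]
        right
        rw [inv_inv]
        exact hfV
      obtain ⟨N, hN0, hN⟩ := arch (D := DD (E := E) A) hV h1e (inv_ne_zero hf0) hfi1
      refine ⟨N, hN0, ?_⟩
      rw [← v_le, map_mul]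
      calc V.valuation ((1 - e') ^ N) * V.valuation f ≤ V.valuation f⁻¹ * V.valuation f :=
            mul_le_mul_left hN _
        _ = 1 := by rw [← map_mul, inv_mul_cancel₀ hf0, map_one]
  let s' : E := 1 - (1 - e') ^ N
  obtain ⟨r, hrD, hr⟩ : ∃ r ∈ DD (E := E) A, s' = e' * r := by
    have h1 : (e' : E) ∣ 1 := (⟨e'⁻¹, (mul_inv_cancel₀ (mul_ne_zero (inv_ne_zero hcE0) (by
      rintro rfl
      rw [map_zero] at he1
      exact zero_ne_one he1))).symm⟩)
    have key : ∀ n : ℕ, ∃ r ∈ DD (E := E) A, 1 - (1 - e') ^ n = e' * r := by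
      intro n
      induction n with
      | zero => exact ⟨0, (DD (E := E) A).zero_mem, by rw [pow_zero, sub_self, mul_zero]⟩
      | succ n ih =>
        obtain ⟨r, hr, h2⟩ := ih
        refine ⟨r + (1 - e') ^ n, (DD (E := E) A).add_mem hr ((DD (E := E) A).pow_mem
          ((DD (E := E) A).sub_mem (DD (E := E) A).one_mem he'D) n), ?_⟩
        rw [pow_succ, mul_add, ← h2]
        ring
    exact key N
  have hs'D : s' ∈ DD (E := E) A := by
    rw [hr]
    exact (DD (E := E) A).mul_mem he'D hrD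
  have he'I : FX (dec V Γ) e' := fun σ hσ => by
    change σ (cE⁻¹ * e) = cE⁻¹ * e
    rw [map_mul, heI σ hσ, hcEi, AlgEquiv.commutes]
  have hs'I : FX (dec V Γ) s' := fun σ hσ => by
    change σ (1 - (1 - e') ^ N) = _
    rw [map_sub, map_one, map_pow, map_sub, map_one, he'I σ hσ]
  obtain ⟨T, hT1, hTK, hTs⟩ := exists_transversal.{u} ((dec V Γ).subgroupOf Γ)
  let φ : Γ → E := fun γ => γ.1 (f * s')
  have hφ : ∀ γ : Γ, ∀ ι ∈ (dec V Γ).subgroupOf Γ, φ (γ * ι) = φ γ := by
    intro γ ι hι
    rw [Subgroup.mem_subgroupOf] at hι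
    change γ.1 (ι.1 (f * s')) = γ.1 (f * s')
    rw [map_mul ι.1, hf _ hι, hs'I _ hι]
  let b := ∑ γ ∈ T, φ γ
  have hbΓ : FX Γ b := by
    intro g hg
    have h1 := hTs E φ hφ ⟨g, hg⟩
    change g (∑ γ ∈ T, φ γ) = ∑ γ ∈ T, φ γ
    rw [map_sum]
    exact h1
  refine ⟨⟨b, (hF b).2 hbΓ⟩, ?_⟩
  change b - f ∈ V
  have h2 : b - f = -((1 - e') ^ N * f) + ∑ γ ∈ T.erase 1, φ γ := by
    change ∑ γ ∈ T, φ γ - f = _
    rw [← Finset.add_sum_erase _ _ hT1]
    change f * (1 - (1 - e') ^ N) + _ - f = _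
    ring
  rw [h2]
  refine V.add_mem _ _ (V.neg_mem _ hN) (sum_mem fun γ hγ => ?_)
  have h3 : γ.1 ∉ dec V Γ := by
    intro h4
    exact (Finset.ne_of_mem_erase hγ) (hTK γ (Finset.mem_of_mem_erase hγ)
      (Subgroup.mem_subgroupOf.2 h4))
  have h5 := heγ γ.1 γ.2 h3
  have h6 : φ γ = (γ.1 f * γ.1 e) * (γ.1 cE⁻¹ * γ.1 r) := by
    change γ.1 (f * s') = _
    rw [hr]
    change γ.1 (f * (cE⁻¹ * e * r)) = _
    rw [map_mul, map_mul, map_mul]
    ring
  rw [h6]
  refine V.mul_mem _ _ ?_ (V.mul_mem _ _ ?_ (hV _ (hσD _ γ.2 _ hrD)))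
  · rw [← v_le, map_mul]
    calc V.valuation (γ.1 f) * V.valuation (γ.1 e) ≤
          V.valuation (γ.1 f) * V.valuation (q (γ.1 f)) := mul_le_mul_right h5 _
      _ = V.valuation (q (γ.1 f) * γ.1 f) := by rw [map_mul, mul_comm]
      _ ≤ 1 := v_le.2 (hqx _)
  · rw [hcEi, AlgEquiv.commutes]
    exact hk _

omit hF [Finite Γ] in
/-- The Artin-Schreier normal form of a function on the quotient. -/
theorem as_normal (p : ℕ) [Fact p.Prime] [CharP k p] (b : F) :
    ∃ a : F, ((b - (a ^ p - a) : F) : E) ∈ V ∨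
      ∀ a' : F, V.valuation (a' : E) ^ p ≠ V.valuation ((b - (a ^ p - a) : F) : E) := by
  classical
  have hp : p.Prime := Fact.out
  let W : ValuationSubring F := V.comap (algebraMap F E)
  have hWA : ∀ a ∈ A, a ∈ W := fun a ha => hVA a ha
  have hk : ∀ c : k, algebraMap k E c ∈ V := fun c => hVA _ (A.algebraMap_mem c)
  have hcoe : ∀ {y : F}, y ≠ 0 → (y : E) ≠ 0 := fun {y} hy h =>
    hy ((algebraMap F E).injective (by rw [map_zero]; exact h))
  by_cases hW : W = ⊤
  · refine ⟨0, Or.inl ?_⟩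
    have h1 : b - (0 ^ p - 0) ∈ W := by rw [hW]; exact ValuationSubring.mem_top _
    exact h1
  obtain ⟨t, ht0, ht, hlt⟩ := exists_unif hWA hW (res_of hWA hW)
  have htV : V.valuation (t : E) < 1 := v_comap_lt.1 ht
  have ht0' : V.valuation (t : E) ≠ 0 := by
    rw [Valuation.ne_zero_iff]
    exact hcoe ht0
  have htp : 0 < V.valuation (t : E) := zero_lt_iff.2 ht0'
  have hexp : ∀ y : F, y ≠ 0 → ∃ (n : ℤ) (c : k) (z : F), c ≠ 0 ∧ (z : E) ∈ V ∧
      y = t ^ n * (algebraMap k F c + t * z) ∧ V.valuation (y : E) = V.valuation (t : E) ^ n := by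
    intro y hy
    obtain ⟨n, c, z, hc, hz, e⟩ := hlt y hy
    refine ⟨n, c, z, hc, hz, e, ?_⟩
    have h1 : (y : E) = (t : E) ^ n * (algebraMap k E c + (t : E) * (z : E)) := by
      have h2 := congrArg (algebraMap F E) e
      rw [map_mul, map_zpow₀, map_add, map_mul, ← IsScalarTower.algebraMap_apply] at h2
      exact h2
    have hz' : (z : E) ∈ V := hz
    rw [h1, map_mul, map_zpow₀, v_add (v_k hk hc) (v_lt_mul htV hz'), mul_one]
  have hlt' : ∀ m n : ℤ, V.valuation (t : E) ^ m ≤ V.valuation (t : E) ^ n → n ≤ m := by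
    intro m n h
    by_contra hcon
    have h1 := zpow_lt_zpow_right_of_lt_one₀ htp htV (not_le.1 hcon)
    exact absurd h (not_le.2 h1)
  have key : ∀ (N : ℕ) (b : F), V.valuation (b : E) ≤ V.valuation (t : E) ^ (-(N : ℤ)) →
      ∃ a : F, ((b - (a ^ p - a) : F) : E) ∈ V ∨
      ∀ a' : F, V.valuation (a' : E) ^ p ≠ V.valuation ((b - (a ^ p - a) : F) : E) := by
    intro N
    induction N with
    | zero =>
      intro b hb
      refine ⟨0, Or.inl ?_⟩
      rw [zero_pow hp.ne_zero, sub_zero, sub_zero]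
      rw [Nat.cast_zero, neg_zero, zpow_zero] at hb
      exact v_le.1 hb
    | succ N ih =>
      intro b hb
      by_cases hb1 : V.valuation (b : E) ≤ V.valuation (t : E) ^ (-(N : ℤ))
      · exact ih b hb1
      have hb0 : b ≠ 0 := by
        rintro rfl
        apply hb1
        have h4 : (((0 : F)) : E) = 0 := rfl
        rw [h4, map_zero]
        exact zero_le
      obtain ⟨n, c, z, hc, hz, e, hn⟩ := hexp b hb0
      have hn1 : n = -((N + 1 : ℕ) : ℤ) := by
        rw [hn] at hb hb1
        have h1 := hlt' _ _ hb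
        have h2 : ¬ -(N : ℤ) ≤ n := by
          intro h3
          apply hb1
          exact zpow_le_zpow_right_of_le_one₀ htp htV.le h3
        omega
      by_cases hdiv : p ∣ N + 1
      · obtain ⟨N', hN'⟩ := hdiv
        obtain ⟨c', hc'⟩ := IsAlgClosed.exists_pow_nat_eq c hp.pos
        let a : F := algebraMap k F c' * t ^ (-(N' : ℤ))
        have hN'1 : N' ≤ N := by
          have h1 : 2 * N' ≤ p * N' := Nat.mul_le_mul_right _ hp.two_le
          rcases Nat.eq_zero_or_pos N' with h2 | h2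
          · omega
          · omega
        have hap : a ^ p = t ^ n * algebraMap k F c := by
          change (algebraMap k F c' * t ^ (-(N' : ℤ))) ^ p = _
          rw [mul_pow, ← map_pow, hc', ← zpow_natCast, ← zpow_mul, mul_comm]
          congr 2
          rw [hn1, hN']
          push_cast
          ring
        have hb2 : b - (a ^ p - a) = t ^ (n + 1) * z + a := by
          rw [hap, zpow_add₀ ht0, zpow_one]
          conv_lhs => rw [e]
          ring
        have hv2 : V.valuation ((b - (a ^ p - a) : F) : E) ≤ V.valuation (t : E) ^ (-(N : ℤ)) := by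
          rw [hb2]
          have h3 : ((t ^ (n + 1) * z + a : F) : E) = (t : E) ^ (n + 1) * (z : E) +
              algebraMap k E c' * (t : E) ^ (-(N' : ℤ)) := by
            change algebraMap F E (t ^ (n + 1) * z + algebraMap k F c' * t ^ (-(N' : ℤ))) = _
            rw [map_add, map_mul, map_mul, map_zpow₀, map_zpow₀, ← IsScalarTower.algebraMap_apply]
            rfl
          rw [h3]
          refine Valuation.map_add_le _ ?_ ?_
          · rw [map_mul, map_zpow₀]
            have h4 : n + 1 = -(N : ℤ) := by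
              rw [hn1]
              push_cast
              ring
            rw [h4]
            exact mul_le_of_le_one_right zero_le (v_le.2 hz)
          · rw [map_mul, map_zpow₀]
            refine le_trans (mul_le_of_le_one_left zero_le (v_le.2 (hk c'))) ?_
            exact zpow_le_zpow_right_of_le_one₀ htp htV.le (by omega)
        obtain ⟨a2, ha2⟩ := ih _ hv2
        refine ⟨a + a2, ?_⟩
        have hcF : CharP F p := charP_of_injective_algebraMap (algebraMap k F).injective p
        have h5 : b - ((a + a2) ^ p - (a + a2)) = b - (a ^ p - a) - (a2 ^ p - a2) := by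
          rw [add_pow_char]
          ring
        rw [h5]
        exact ha2
      · refine ⟨0, Or.inr fun a' h => ?_⟩
        rw [zero_pow hp.ne_zero, sub_zero, sub_zero, hn] at h
        have ha'0 : a' ≠ 0 := by
          rintro rfl
          have h4 : (((0 : F)) : E) = 0 := rfl
          rw [h4, map_zero, zero_pow hp.ne_zero] at h
          exact zpow_ne_zero _ ht0' h.symm
        obtain ⟨j, -, -, -, -, -, hj⟩ := hexp a' ha'0
        rw [hj, ← zpow_natCast, ← zpow_mul] at h
        have h1 := hlt' _ _ h.le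
        have h2 := hlt' _ _ h.ge
        have h3 : n = j * p := le_antisymm h1 h2
        apply hdiv
        have h4 : (p : ℤ) ∣ ((N + 1 : ℕ) : ℤ) := ⟨-j, by
          have h5 : ((N + 1 : ℕ) : ℤ) = -n := by omega
          rw [h5, h3]
          ring⟩
        exact_mod_cast h4
  by_cases hb0 : b = 0
  · subst hb0
    refine key 0 0 ?_
    have h4 : (((0 : F)) : E) = 0 := rfl
    rw [h4, map_zero]
    exact zero_le
  · obtain ⟨n, c, z, hc, hz, e, hn⟩ := hexp b hb0
    refine key n.natAbs b ?_
    rw [hn]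
    exact zpow_le_zpow_right_of_le_one₀ htp htV.le (by omega)

end dens

end Pool.Agent.Zk10.Cur
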