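import Pool.Agent.Zk62.Tw.U7

/-!
Curves with a group action: models with a family of functions.
-/

set_option autoImplicit false
set_option linter.unusedVariables false
set_option linter.unusedSectionVars false

universe u

namespace Pool.Agent.Zk10.Cur

open Pool.Agent.W558 Pool.Agent.H920R2 Pool.Agent.Zk10.Ram Polynomial IntermediateField
  Pool.Agent.W435.WT.Gal Pool.Agent.Zk10 Pool.Agent.W177.WD Pool.Agent.TH214

section sup

variable {k L : Type u} [Field k] [Field L] [Algebra k L]

/-- A multiple of `b` in `k[x]`. -/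
lemma exists_Gb {x b : L} (hb : b ∈ CC k x) (hb0 : b ≠ 0) :
    ∃ G : k[X], G.Monic ∧ aeval x G ≠ 0 ∧ ∃ y ∈ CC k x, aeval x G = b * y := by
  let J' : Ideal (integralClosure (Algebra.adjoin k {x}) L) := Ideal.span {⟨b, hb⟩}
  have hbJ : (⟨b, hb⟩ : integralClosure (Algebra.adjoin k {x}) L) ∈ J' :=
    Ideal.mem_span_singleton_self _
  have hJ : J'.comap (algebraMap (Algebra.adjoin k {x})
      (integralClosure (Algebra.adjoin k {x}) L)) ≠ ⊥ :=
    Ideal.comap_ne_bot_of_integral_mem (x := (⟨b, hb⟩ :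
        integralClosure (Algebra.adjoin k {x}) L)) (fun h => hb0 (congrArg Subtype.val h)) hbJ
      (Algebra.IsIntegral.isIntegral _)
  obtain ⟨c, hcJ, hc0⟩ := Submodule.exists_mem_ne_zero_of_ne_bot hJ
  obtain ⟨G0, hG0⟩ :=
    (SetLike.ext_iff.1 (Algebra.adjoin_singleton_eq_range_aeval k x) (c : L)).1 c.2
  change aeval x G0 = (c : L) at hG0
  have hG00 : G0 ≠ 0 := by
    intro h
    rw [h, map_zero] at hG0
    exact hc0 (Subtype.ext hG0.symm)
  have hlc : G0.leadingCoeff ≠ 0 := leadingCoeff_ne_zero.2 hG00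
  obtain ⟨y, hy⟩ := Ideal.mem_span_singleton'.1 (show algebraMap (Algebra.adjoin k {x})
      (integralClosure (Algebra.adjoin k {x}) L) c ∈ J' from hcJ)
  have hy' : (y : L) * b = (c : L) := congrArg Subtype.val hy
  refine ⟨G0 * C G0.leadingCoeff⁻¹, monic_mul_leadingCoeff_inv hG00, ?_,
    y * algebraMap k L G0.leadingCoeff⁻¹, ?_, ?_⟩
  · rw [map_mul, hG0, aeval_C]
    refine mul_ne_zero (fun h => hc0 (Subtype.ext h)) ?_
    rw [_root_.map_ne_zero]
    exact inv_ne_zero hlc
  · exact (CC k x).mul_mem y.2 ((CC k x).algebraMap_mem _)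
  · rw [map_mul, hG0, aeval_C, ← hy']
    ring

end sup

section fix

variable {k E : Type u} [Field k] [Field E] [Algebra k E] {Γ : Subgroup (E ≃ₐ[k] E)} [Finite Γ]
  {F : IntermediateField k E} (hF : ∀ x, x ∈ F ↔ FX Γ x)

include hF in
/-- A function on the quotient whose poles contain the branch points and the poles of the given
functions. -/
theorem exists_uF2 {p : ℕ} (hp : p.Prime) (hpk : (p : k) = 0) [PerfectField k]
    [Algebra.EssFiniteType k E] (htr : Algebra.trdeg k E = 1) (S : Finset F) :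
    ∃ u : F, SepEl k u ∧ SepEl k (u : E) ∧ (∀ V : ValuationSubring E,
      (∀ c : k, algebraMap k E c ∈ V) → (u : E) ∈ V →
      (∀ x ∈ V, ∃ c : k, V.valuation (x - algebraMap k E c) < 1) → ∀ σ ∈ dec V Γ, σ = 1) ∧
      ∀ W : ValuationSubring F, (∀ c : k, algebraMap k F c ∈ W) → u ∈ W → ∀ s ∈ S, s ∈ W := by
  classical
  obtain ⟨hsep, hfin⟩ := sep_fix hF
  have halg : Algebra.IsAlgebraic F E := Algebra.IsSeparable.isAlgebraic _ _
  have hess := essFiniteType_sub F
  obtain ⟨u, huF, huE, hu⟩ := exists_uF hF hp hpk htr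
  have i3 := huF.finite
  have i4 := huF.2
  have hF0 := (CC_dedekind k u).2.2
  have hex : ∀ s : F, ∃ G : k[X], G.Monic ∧ aeval u G ≠ 0 ∧ aeval u G * s ∈ CC k u := by
    intro s
    obtain ⟨a, b, hb, rfl⟩ := IsFractionRing.div_surjective (A := CC k u) s
    have hb0 : (b : F) ≠ 0 := fun h => nonZeroDivisors.ne_zero hb (Subtype.ext h)
    obtain ⟨G, hG, hG0, y, hy, e⟩ := exists_Gb b.2 hb0
    refine ⟨G, hG, hG0, ?_⟩
    have h1 : aeval u G * ((algebraMap (CC k u) F a) / (algebraMap (CC k u) F b)) = y * a := by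
      change aeval u G * ((a : F) / (b : F)) = y * a
      rw [e]
      field_simp
    rw [h1]
    exact (CC k u).mul_mem hy a.2
  choose G hG hG0 hGs using hex
  let P : k[X] := ∏ s ∈ S, G s
  have hP : P.Monic := monic_prod_of_monic _ _ fun s _ => hG s
  have hP0 : aeval u P ≠ 0 := by
    rw [map_prod]
    exact Finset.prod_ne_zero_iff.2 fun s _ => hG0 s
  have hPE : ((aeval u P : F) : E) = aeval (u : E) P := by
    have := Polynomial.aeval_algHom_apply F.val u P
    exact this.symm
  have hP0E : aeval (u : E) P ≠ 0 := by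
    rw [← hPE]
    exact fun h => hP0 ((algebraMap F E).injective (by rw [map_zero]; exact h))
  let u' : F := u + (aeval u P ^ p)⁻¹
  have huE' : (u' : E) = (u : E) + (aeval (u : E) P ^ p)⁻¹ := by
    change (u : E) + (((aeval u P : F) : E) ^ p)⁻¹ = _
    rw [hPE]
  refine ⟨u', sepEl_of huF (isSeparable_x hp hpk P u hP0 hP), ?_, ?_, ?_⟩
  · rw [huE']
    exact sepEl_of huE (isSeparable_x hp hpk P (u : E) hP0E hP)
  · intro V hk hV hres
    refine hu V hk ?_ hres
    have hx1 : (u : E) ∈ CC k (u' : E) := by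
      rw [huE']
      exact x_mem_CC P (u : E) hP0E hP
    exact CC_le_val k (u' : E) V hk hV _ hx1
  · intro W hk hW s hs
    have hx1 : u ∈ CC k u' := x_mem_CC P u hP0 hP
    have huW : u ∈ W := CC_le_val k u' W hk hW _ hx1
    have hCC : ∀ z ∈ CC k u, z ∈ W := fun z hz => CC_le_val k u W hk huW z hz
    have hpol : ∀ Q : k[X], aeval u Q ∈ W := by
      intro Q
      rw [aeval_eq_sum_range]
      refine sum_mem fun i _ => ?_
      rw [Algebra.smul_def]
      exact W.mul_mem _ _ (hk _) (pow_mem huW _)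
    have hinv : (aeval u P)⁻¹ ∈ W := by
      have h1 : (aeval u P ^ p)⁻¹ ∈ W := by
        have e : (aeval u P ^ p)⁻¹ = u' - u := by
          change _ = u + (aeval u P ^ p)⁻¹ - u
          ring
        rw [e]
        exact sub_mem hW huW
      have e : (aeval u P)⁻¹ = (aeval u P ^ p)⁻¹ * aeval u P ^ (p - 1) := by
        obtain ⟨m, rfl⟩ := Nat.exists_eq_succ_of_ne_zero hp.ne_zero
        rw [Nat.succ_sub_one, Nat.succ_eq_add_one, pow_succ]
        field_simp
      rw [e]
      exact W.mul_mem _ _ h1 (pow_mem (hpol P) _)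
    have e : s = (aeval u P)⁻¹ * (aeval u (∏ t ∈ S.erase s, G t) * (aeval u (G s) * s)) := by
      have h1 : aeval u P = aeval u (G s) * aeval u (∏ t ∈ S.erase s, G t) := by
        rw [← map_mul, Finset.mul_prod_erase _ _ hs]
      rw [h1]
      have h2 : aeval u (∏ t ∈ S.erase s, G t) ≠ 0 := by
        rw [map_prod]
        exact Finset.prod_ne_zero_iff.2 fun s _ => hG0 s
      have h3 := hG0 s
      field_simp
    rw [e]
    exact W.mul_mem _ _ hinv (W.mul_mem _ _ (hpol _) (hCC _ (hGs s)))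

end fix

section val

variable {k L : Type u} [Field k] [Field L] [Algebra k L] {D : Subalgebra k L}
  [IsDedekindDomain D] [IsFractionRing D L]

/-- A Dedekind domain is the intersection of its valuation rings. -/
lemma mem_of_val {y : L} (h : ∀ V : ValuationSubring L, (∀ a ∈ D, a ∈ V) → y ∈ V) : y ∈ D := by
  by_contra hy
  let I : Ideal D :=
    { carrier := {d | (d : L) * y ∈ D}
      zero_mem' := by
        change ((0 : D) : L) * y ∈ D
        rw [ZeroMemClass.coe_zero, zero_mul]
        exact D.zero_mem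
      add_mem' := fun {a b} ha hb => by
        change ((a + b : D) : L) * y ∈ D
        rw [Subalgebra.coe_add, add_mul]
        exact D.add_mem ha hb
      smul_mem' := fun c a ha => by
        change ((c • a : D) : L) * y ∈ D
        rw [smul_eq_mul, Subalgebra.coe_mul, mul_assoc]
        exact D.mul_mem c.2 ha }
  have hI : I ≠ ⊤ := by
    intro h1
    have h2 : (1 : D) ∈ I := by rw [h1]; trivial
    apply hy
    have h3 : ((1 : D) : L) * y ∈ D := h2
    rwa [OneMemClass.coe_one, one_mul] at h3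
  obtain ⟨V, h1, h2⟩ := Ideal.image_subset_nonunits_valuationSubring (A := D.toSubring)
    (I : Ideal D.toSubring) hI
  have hDV : ∀ x ∈ D, x ∈ V := fun x hx => h1 hx
  obtain ⟨s, hs, hs1, hsy⟩ := exists_loc hDV (h V hDV)
  have h3 : V.valuation s < 1 := (ValuationSubring.mem_nonunits_iff V).1
    (h2 ⟨⟨s, hs⟩, hsy, rfl⟩)
  rw [hs1] at h3
  exact lt_irrefl _ h3

/-- Valuation rings with the same center. -/
lemma eq_of_center {V W : ValuationSubring L} (hV : ∀ a ∈ D, a ∈ V) (hW : ∀ a ∈ D, a ∈ W)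
    (h : ∀ a ∈ D, V.valuation a < 1 ↔ W.valuation a < 1) : V = W := by
  have key : ∀ {V W : ValuationSubring L}, (∀ a ∈ D, a ∈ V) → (∀ a ∈ D, a ∈ W) →
      (∀ a ∈ D, V.valuation a < 1 ↔ W.valuation a < 1) → ∀ x ∈ V, x ∈ W := by
    intro V W hV hW h x hx
    obtain ⟨s, hs, hs1, hsx⟩ := exists_loc hV hx
    have h1 : W.valuation s = 1 := v_one_of (hW s hs) fun h2 => by
      rw [← h s hs, hs1] at h2
      exact lt_irrefl _ h2
    have hs0 : s ≠ 0 := by
      rintro rfl
      rw [map_zero] at h1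
      exact zero_ne_one h1
    have h3 : x = s⁻¹ * (s * x) := by rw [← mul_assoc, inv_mul_cancel₀ hs0, one_mul]
    rw [h3]
    exact W.mul_mem _ _ (v_inv_mem h1) (hW _ hsx)
  exact le_antisymm (key hV hW h) (key hW hV fun a ha => (h a ha).symm)

end val

end Pool.Agent.Zk10.Cur
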