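import Pool.Agent.Zk62.Tw.U8

/-!
Curves with a group action: models with a family of functions; splitting of the divisor.
-/

set_option autoImplicit false
set_option linter.unusedVariables false
set_option linter.unusedSectionVars false

universe u

namespace Pool.Agent.Zk10.Cur

open Pool.Agent.W558 Pool.Agent.H920R2 Pool.Agent.Zk10.Ram Polynomial IntermediateField
  Pool.Agent.W435.WT.Gal Pool.Agent.Zk10 Pool.Agent.W177.WD Pool.Agent.TH214

section ord

variable {k L : Type u} [Field k] [IsAlgClosed k] [Field L] [Algebra k L] {A : Subalgebra k L}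
  [IsDedekindDomain A] [IsFractionRing A L] [Algebra.FiniteType k A]

/-- The order. -/
lemma val_ord {W : ValuationSubring L} (hWA : ∀ a ∈ A, a ∈ W) {x : L} (hx : W.valuation x < 1)
    (hx0 : x ≠ 0) (hgen : ∀ y, W.valuation y < 1 → y * x⁻¹ ∈ W) (y : L) (hy : y ≠ 0) :
    ∃ n : ℤ, W.valuation y = W.valuation x ^ n := by
  have hW : W ≠ ⊤ := by
    intro h
    exact v_inv_lt hx (by rw [h]; exact ValuationSubring.mem_top _) hx0
  obtain ⟨t, ht0, ht, hlt⟩ := exists_unif hWA hW (res_of hWA hW)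
  have hk : ∀ c : k, algebraMap k L c ∈ W := fun c => hWA _ (A.algebraMap_mem c)
  have ht0' : W.valuation t ≠ 0 := by
    rw [Valuation.ne_zero_iff]
    exact ht0
  have key : ∀ y : L, y ≠ 0 → ∃ n : ℤ, W.valuation y = W.valuation t ^ n := by
    intro y hy
    obtain ⟨n, c, z, hc, hz, e⟩ := hlt y hy
    refine ⟨n, ?_⟩
    rw [e, map_mul, map_zpow₀, v_add (v_k hk hc) (v_lt_mul ht hz), mul_one]
  obtain ⟨n1, hn1⟩ := key x hx0
  have hn1' : n1 = 1 := by
    have h1 : 1 ≤ n1 := by
      by_contra hcon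
      have h2 : n1 ≤ 0 := by omega
      rw [hn1] at hx
      exact absurd hx (not_lt.2 (one_le_zpow_of_nonpos₀ (zero_lt_iff.2 ht0') ht.le h2))
    have h2 := hgen t ht
    have h3 : W.valuation (t * x⁻¹) = W.valuation t ^ (1 - n1) := by
      rw [map_mul, map_inv₀, hn1, zpow_sub₀ ht0', zpow_one, div_eq_mul_inv]
    by_contra hne
    have h4 : 1 - n1 < 0 := by omega
    rw [← v_le, h3] at h2
    obtain ⟨m, hm⟩ : ∃ m : ℕ, n1 - 1 = m := ⟨(n1 - 1).toNat, by omega⟩
    have h5 : (1 : ℤ) - n1 = -(m : ℤ) := by omega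
    rw [h5, zpow_neg, zpow_natCast, inv_le_one₀ (pow_pos (zero_lt_iff.2 ht0') m)] at h2
    have h6 : W.valuation t ^ m < 1 := pow_lt_one₀ zero_le ht (by omega)
    exact absurd h2 (not_le.2 h6)
  rw [hn1', zpow_one] at hn1
  obtain ⟨n, hn⟩ := key y hy
  exact ⟨n, by rw [hn, hn1]⟩

end ord

section split

variable {k L : Type u} [Field k] [IsAlgClosed k] [Field L] [Algebra k L] {T : Type} [Fintype T]

/-- The components of the divisor. -/
theorem split_div (M : LM (⊥ : Subalgebra k L) ⊤ T Unit) (hDed : ∀ t, IsDedekindDomain (M.A t))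
    (hFrc : Frc M)
    (hone : ∀ t (V W : ValuationSubring L), (∀ a ∈ M.A t, a ∈ V) → (∀ a ∈ M.A t, a ∈ W) →
      V.valuation (M.x t ()) < 1 → W.valuation (M.x t ()) < 1 → V = W)
    {u : L} (hCq : ∀ t, Cq (M.A t) (M.x t ()) u) {B : Type} (c : B → L) (hc : ∀ b, c b ≠ 0)
    (hcu : ∀ W : ValuationSubring L, (∀ a : k, algebraMap k L a ∈ W) → u ∈ W →
      ∀ b, c b ∈ W ∧ (c b)⁻¹ ∈ W) :
    ∃ (M' : LM (⊥ : Subalgebra k L) ⊤ T T) (Λ : B → T → ℤ), M'.A = M.A ∧ Fn M' c Λ ∧
      ∀ t, ((∀ i, M'.x t i = 1) ∧ (M.x t ())⁻¹ ∈ M.A t) ∨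
        ∃ i0, M'.x t i0 = M.x t () ∧ ∀ i, i ≠ i0 → M'.x t i = 1 := by
  classical
  have hFr : ∀ t, IsFractionRing (M.A t) L := fun t => isFrac_of (hFrc t)
  have hft : ∀ t, Algebra.FiniteType k (M.A t) := fun t => by
    have := M.sm t
    infer_instance
  let x : T → L := fun t => M.x t ()
  have hx0 : ∀ t, x t ≠ 0 := fun t => M.x0 t ()
  have hxA : ∀ t, x t ∈ M.A t := fun t => M.xA t ()
  let Z : T → Prop := fun t => ∃ W : ValuationSubring L, (∀ a ∈ M.A t, a ∈ W) ∧
    W.valuation (x t) < 1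
  let W : T → ValuationSubring L := fun t => if h : Z t then h.choose else ⊤
  have hW : ∀ t, Z t → (∀ a ∈ M.A t, a ∈ W t) ∧ (W t).valuation (x t) < 1 := by
    intro t h
    have e : W t = h.choose := dif_pos h
    rw [e]
    exact h.choose_spec
  have hWu : ∀ t (V : ValuationSubring L), (∀ a ∈ M.A t, a ∈ V) → V.valuation (x t) < 1 →
      Z t ∧ V = W t := by
    intro t V hV hx
    have hZ : Z t := ⟨V, hV, hx⟩
    exact ⟨hZ, hone t V (W t) hV (hW t hZ).1 hx (hW t hZ).2⟩
  let idx : T → T := fun t => @Classical.epsilon T ⟨t⟩ (fun t' => Z t' ∧ W t' = W t)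
  have hidx : ∀ t, Z t → Z (idx t) ∧ W (idx t) = W t := by
    intro t h
    exact @Classical.epsilon_spec T (fun t' => Z t' ∧ W t' = W t) ⟨t, h, rfl⟩
  have hidx2 : ∀ t t', W t = W t' → idx t = idx t' := by
    intro t t' h
    change @Classical.epsilon T ⟨t⟩ (fun t' => Z t' ∧ W t' = W t) =
      @Classical.epsilon T ⟨t'⟩ (fun s => Z s ∧ W s = W t')
    rw [h]
  -- ratios
  have hrat : ∀ t t' (V : ValuationSubring L), (∀ a ∈ M.A t, a ∈ V) → (∀ a ∈ M.A t', a ∈ V) →
      x t' / x t ∈ V := by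
    intro t t' V hV hV'
    obtain ⟨n, hn⟩ := M.gi t t' ()
    have h1 : (M.H t' / M.H t)⁻¹ ∈ V := by
      rw [inv_div]
      exact hV' _ (M.rt t' t)
    have h2 : M.H t' / M.H t ≠ 0 := div_ne_zero (M.H0 _) (M.H0 _)
    have e : x t' / x t = ((M.H t' / M.H t)⁻¹) ^ n * ((M.H t' / M.H t) ^ n *
        (M.x t' () / M.x t ())) := by
      rw [← mul_assoc, ← mul_pow, inv_mul_cancel₀ h2, one_pow, one_mul]
    rw [e]
    exact V.mul_mem _ _ (pow_mem h1 n) (hV _ hn)
  have hrat1 : ∀ t t' (V : ValuationSubring L), (∀ a ∈ M.A t, a ∈ V) → (∀ a ∈ M.A t', a ∈ V) →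
      V.valuation (x t') = V.valuation (x t) := by
    intro t t' V hV hV'
    have h1 : ∀ s s' : T, x s' / x s ∈ V → V.valuation (x s') ≤ V.valuation (x s) := by
      intro s s' h
      have h2 : x s' = (x s' / x s) * x s := (div_mul_cancel₀ _ (hx0 s)).symm
      rw [h2, map_mul]
      exact mul_le_of_le_one_left zero_le (v_le.2 h)
    exact le_antisymm (h1 _ _ (hrat t t' V hV hV')) (h1 _ _ (hrat t' t V hV' hV))
  let x' : T → T → L := fun t i => if Z t ∧ i = idx t then x t else 1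
  have hx'1 : ∀ t i, Z t → i = idx t → x' t i = x t := fun t i h1 h2 => if_pos ⟨h1, h2⟩
  have hx'2 : ∀ t i, ¬ (Z t ∧ i = idx t) → x' t i = 1 := fun t i h => if_neg h
  have hx'A : ∀ t i, x' t i ∈ M.A t := by
    intro t i
    change (if Z t ∧ i = idx t then x t else 1) ∈ M.A t
    split_ifs
    · exact hxA t
    · exact (M.A t).one_mem
  have hx'0 : ∀ t i, x' t i ≠ 0 := by
    intro t i
    change (if Z t ∧ i = idx t then x t else 1) ≠ 0
    split_ifs
    · exact hx0 t
    · exact one_ne_zero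
  have hgi : ∀ t t' i, ∃ n : ℕ, (M.H t' / M.H t) ^ n * (x' t' i / x' t i) ∈ M.A t := by
    intro t t' i
    have j1 := hDed t
    have j2 := hFr t
    have hh : M.H t' / M.H t ∈ M.A t := M.rt t t'
    have hh0 : M.H t' / M.H t ≠ 0 := div_ne_zero (M.H0 _) (M.H0 _)
    have j3 : IsDedekindDomain (adj (M.A t) (M.H t' / M.H t)⁻¹) := dedekind_adj hh hh0
    have j4 : IsFractionRing (adj (M.A t) (M.H t' / M.H t)⁻¹) L := by
      refine isFrac_of fun y => ?_
      obtain ⟨a, ha, b, hb, hb0, e⟩ := hFrc t y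
      exact ⟨a, le_adj _ _ ha, b, le_adj _ _ hb, hb0, e⟩
    have h1 : x' t' i / x' t i ∈ adj (M.A t) (M.H t' / M.H t)⁻¹ := by
      refine mem_of_val fun V hV => ?_
      have hVt : ∀ a ∈ M.A t, a ∈ V := fun a ha => hV a (le_adj _ _ ha)
      have hVi : (M.H t' / M.H t)⁻¹ ∈ V := hV _ (self_mem_adj _ _)
      have hVt' : ∀ a ∈ M.A t', a ∈ V := by
        intro a ha
        obtain ⟨n, hn⟩ := M.gl t t' a ha
        have e : a = ((M.H t' / M.H t)⁻¹) ^ n * ((M.H t' / M.H t) ^ n * a) := by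
          rw [← mul_assoc, ← mul_pow, inv_mul_cancel₀ hh0, one_pow, one_mul]
        rw [e]
        exact V.mul_mem _ _ (pow_mem hVi n) (hVt _ hn)
      by_cases c1 : Z t ∧ i = idx t
      · rw [hx'1 t i c1.1 c1.2]
        by_cases c2 : Z t' ∧ i = idx t'
        · rw [hx'1 t' i c2.1 c2.2]
          exact hrat t t' V hVt hVt'
        · rw [hx'2 t' i c2, one_div]
          by_contra hcon
          have hlt : V.valuation (x t) < 1 := v_lt_iff.2 (Or.inr hcon)
          obtain ⟨-, hVW⟩ := hWu t V hVt hlt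
          obtain ⟨hZ', hVW'⟩ := hWu t' V hVt' (by rw [hrat1 t t' V hVt hVt']; exact hlt)
          exact c2 ⟨hZ', by rw [c1.2, hidx2 t t' (hVW.symm.trans hVW')]⟩
      · rw [hx'2 t i c1, div_one]
        exact hVt' _ (hx'A t' i)
    obtain ⟨n, hn⟩ := (mem_adj_inv hh hh0).1 h1
    exact ⟨n, by rw [mul_comm]; exact hn⟩
  have hsnc : ∀ t, SNC (M.A t) (x' t) := by
    intro t κ _ _ φ i hi hφ
    have hcase : ∀ j (hj : x' t j ∈ M.A t), φ ⟨x' t j, hj⟩ = 0 → Z t ∧ j = idx t := by
      intro j hj h0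
      by_contra hcon
      have e : (⟨x' t j, hj⟩ : M.A t) = 1 := Subtype.ext (hx'2 t j hcon)
      rw [e, map_one] at h0
      exact one_ne_zero h0
    obtain ⟨hZ, hid⟩ := hcase i hi hφ
    have e : x' t i = M.x t () := hx'1 t i hZ hid
    have e1 : (⟨x' t i, hi⟩ : M.A t) = ⟨M.x t (), hxA t⟩ := Subtype.ext e
    rw [e1] at hφ
    obtain ⟨D, hD, -⟩ := M.snc t κ φ () (hxA t) hφ
    refine ⟨D, ?_, ?_⟩
    · rw [e1]
      exact hD
    · intro j hj hji h0
      exact absurd ((hcase j hj h0).2.trans hid.symm) hji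
  let M' : LM (⊥ : Subalgebra k L) ⊤ T T :=
    { A := M.A, H := M.H, x := x', sm := M.sm, base := M.base, H0 := M.H0,
      HR := M.HR, rt := M.rt, gl := M.gl, dn := M.dn, cv := M.cv, xA := hx'A,
      x0 := hx'0, gi := hgi, snc := hsnc }
  -- the orders
  have hk : ∀ t (V : ValuationSubring L), (∀ a ∈ M.A t, a ∈ V) → ∀ a : k, algebraMap k L a ∈ V :=
    fun t V hV a => hV _ ((M.A t).algebraMap_mem a)
  have hord : ∀ t b, Z t → ∃ n : ℤ, (W t).valuation (c b) = (W t).valuation (x t) ^ n := by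
    intro t b hZ
    have j1 := hDed t
    have j2 := hFr t
    have j3 := hft t
    obtain ⟨h1, h2⟩ := hW t hZ
    refine val_ord h1 h2 (hx0 t) ?_ (c b) (hc b)
    rcases hCq t (W t) h1 with h3 | h3
    · exact h3.2
    · exact (v_inv_lt h2 h3.1 (hx0 t)).elim
  let Λ : B → T → ℤ := fun b i => if h : Z i then (hord i b h).choose else 0
  have hΛ : ∀ b i, Z i → (W i).valuation (c b) = (W i).valuation (x i) ^ Λ b i := by
    intro b i h
    have e : Λ b i = (hord i b h).choose := dif_pos h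
    rw [e]
    exact (hord i b h).choose_spec
  refine ⟨M', Λ, rfl, ?_, ?_⟩
  · intro b t
    have j1 := hDed t
    have j2 := hFr t
    let q : L := ∏ i, x' t i ^ Λ b i
    have hq0 : q ≠ 0 := Finset.prod_ne_zero_iff.2 fun i _ => zpow_ne_zero _ (hx'0 t i)
    have hw : ∀ V : ValuationSubring L, (∀ a ∈ M.A t, a ∈ V) →
        V.valuation (c b * q⁻¹) = 1 := by
      intro V hV
      have hcv0 : V.valuation (c b) ≠ 0 := (Valuation.ne_zero_iff _).2 (hc b)
      by_cases hlt : V.valuation (x t) < 1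
      · obtain ⟨hZ, hVW⟩ := hWu t V hV hlt
        obtain ⟨hZ', hW'⟩ := hidx t hZ
        have hq : q = x t ^ Λ b (idx t) := by
          change ∏ i, x' t i ^ Λ b i = _
          rw [Finset.prod_eq_single (idx t)]
          · rw [hx'1 t _ hZ rfl]
          · intro i _ hi
            rw [hx'2 t i fun h => hi h.2, one_zpow]
          · intro h
            exact absurd (Finset.mem_univ _) h
        have h1 := hΛ b (idx t) hZ'
        have hVi : ∀ a ∈ M.A (idx t), a ∈ V := by
          rw [hVW, ← hW']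
          exact (hW _ hZ').1
        rw [hW', ← hVW, hrat1 t (idx t) V hV hVi] at h1
        have hxv0 : V.valuation (x t) ≠ 0 := (Valuation.ne_zero_iff _).2 (hx0 t)
        rw [map_mul, map_inv₀, hq, map_zpow₀, h1, mul_inv_cancel₀ (zpow_ne_zero _ hxv0)]
      · have hx1 : V.valuation (x t) = 1 := v_one_of (hV _ (hxA t)) hlt
        have hq1 : V.valuation q = 1 := by
          change V.valuation (∏ i, x' t i ^ Λ b i) = 1
          rw [map_prod]
          refine Finset.prod_eq_one fun i _ => ?_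
          rw [map_zpow₀]
          by_cases h : Z t ∧ i = idx t
          · rw [hx'1 t i h.1 h.2, hx1, one_zpow]
          · rw [hx'2 t i h, map_one, one_zpow]
        have hu : u ∈ V := by
          rcases hCq t V hV with h3 | h3
          · exact absurd (v_inv_mem hx1) h3.1
          · exact h3.2
        obtain ⟨h4, h5⟩ := hcu V (hk t V hV) hu b
        have hc1 : V.valuation (c b) = 1 := v_one_of h4 fun h6 => v_inv_lt h6 h5 (hc b)
        rw [map_mul, map_inv₀, hc1, hq1, inv_one, mul_one]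
    refine ⟨c b * q⁻¹, mul_ne_zero (hc b) (inv_ne_zero hq0), ?_, ?_, ?_⟩
    · exact mem_of_val fun V hV => v_le.1 (hw V hV).le
    · exact mem_of_val fun V hV => v_inv_mem (hw V hV)
    · change c b = c b * q⁻¹ * q
      rw [mul_assoc, inv_mul_cancel₀ hq0, mul_one]
  · intro t
    by_cases hZ : Z t
    · right
      exact ⟨idx t, hx'1 t _ hZ rfl, fun i hi => hx'2 t i fun h => hi h.2⟩
    · left
      refine ⟨fun i => hx'2 t i fun h => hZ h.1, ?_⟩
      have j1 := hDed t
      have j2 := hFr t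
      refine mem_of_val fun V hV => ?_
      by_contra hcon
      exact hZ ⟨V, hV, v_lt_iff.2 (Or.inr hcon)⟩

end split

section kc

variable {k L : Type u} [Field k] [Field L] [Algebra k L] {T I : Type} [Fintype I]
  [DecidableEq I]

/-- The exponents. -/
def nS (m : T → ℕ) (i0 : T → Option I) (t : T) (_ : Unit) (i : I) : ℤ :=
  if i0 t = some i then -(m t : ℤ) else 0

/-- One local function with a pole of order prime to `p` and a unit as coefficient. -/
lemma kc_split (p : ℕ) [Fact p.Prime] [CharP k p] (M : LM (⊥ : Subalgebra k L) ⊤ T I) (m : T → ℕ)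
    (i0 : T → Option I) (h : T → L) (hA : ∀ t, h t ∈ M.A t)
    (hx1 : ∀ t i, i0 t ≠ some i → M.x t i = 1)
    (hm : ∀ t, (i0 t).isSome → (m t = 0 ∨ (¬ p ∣ m t ∧ h t ≠ 0 ∧ (h t)⁻¹ ∈ M.A t))) :
    KC M (nS m i0) (fun t _ => h t) where
  n0 := fun t l i => by
    have := Int.natCast_nonneg (m t)
    unfold nS
    split_ifs
    · omega
    · exact le_rfl
  hA := fun t l => hA t
  ln := by
    intro t κ _ _ φ l hpol
    obtain ⟨i, hi, hi0⟩ := hpol
    have his : i0 t = some i := by
      by_contra hcon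
      unfold nS at hi
      rw [if_neg hcon] at hi
      exact lt_irrefl _ hi
    have hm0 : m t ≠ 0 := by
      intro h0
      unfold nS at hi
      rw [if_pos his, h0] at hi
      simp at hi
    obtain ⟨h1, h2, h3⟩ := (hm t (by rw [his]; rfl)).resolve_left hm0
    have hcκ : CharP κ p := charP_of_injective_algebraMap (algebraMap k κ).injective p
    refine ⟨⟨⟨0, fun a b => by simp⟩, fun j => if j = i then 1 else 0, ?_⟩, ?_, ?_⟩
    · intro j hj
      change (0 : κ) = _
      by_cases hji : j = i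
      · subst hji
        have e : φ ⟨M.x t j, hj⟩ = 0 := hi0
        rw [e, zero_mul]
      · rw [if_neg hji, mul_zero]
    · unfold om
      have e1 : φ ⟨h t, hA t⟩ ≠ 0 := by
        intro h0
        have h4 : (⟨h t, hA t⟩ : M.A t) * ⟨(h t)⁻¹, h3⟩ = 1 :=
          Subtype.ext (mul_inv_cancel₀ h2)
        have h5 := congrArg φ h4
        rw [map_mul, h0, zero_mul, map_one] at h5
        exact zero_ne_one h5
      change (0 : κ) + φ ⟨h t, hA t⟩ * ∑ j : I, ((nS m i0 t l j : ℤ) : κ) *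
        (if j = i then 1 else 0) ≠ 0
      rw [zero_add, Finset.sum_eq_single i]
      · unfold nS
        rw [if_pos his, if_pos rfl, mul_one, Int.cast_neg, Int.cast_natCast]
        refine mul_ne_zero e1 (neg_ne_zero.2 ?_)
        intro h0
        exact h1 ((CharP.cast_eq_zero_iff κ p (m t)).1 h0)
      · intro j _ hj
        rw [if_neg hj, mul_zero]
      · intro h
        exact absurd (Finset.mem_univ _) h
    · intro l' hl'
      exact absurd rfl hl'

end kc

end Pool.Agent.Zk10.Cur
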