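import Pool.Agent.Zk10.V12
import Pool.Agent.Zk62.Tw.U29
import Pool.Agent.Zk62.Tw.N6

/-!
Quotients of products of proper schemes.
-/

set_option autoImplicit false
set_option linter.unusedVariables false
set_option linter.unusedSectionVars false

open AlgebraicGeometry CategoryTheory Limits

namespace Pool.Agent.Zk10.Sch

open Pool.Agent.Zk10.Act Pool.Agent.W558.WT Pool.Agent.N98.PJ Pool.Agent.W558

/-- Quotients of products of proper schemes. -/
theorem main (p : ℕ) [Fact p.Prime] (k : Type) [Field k] [IsAlgClosed k] [CharP k p]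
    {P C : Type} [Group P] [Finite P] [CommGroup C] [Finite C] (hP : IsPGroup p P)
    (hC : ¬ p ∣ Nat.card C) (n : ℕ) (Y : Fin n → Scheme.{0}) [∀ i, IsIntegral (Y i)]
    (y : ∀ i, Y i ⟶ Spec (.of k)) [∀ i, IsProper (y i)] (ρ : ∀ i, P × C →* Aut (Y i))
    (hρ : ∀ i g, (ρ i g).hom ≫ y i = y i)
    (hadm : ∀ i (a : Y i), ∃ V : (Y i).Opens, a ∈ V ∧ IsAffineOpen V ∧
      ∀ g, (ρ i g).hom ⁻¹ᵁ V = V)
    (hfac : ∀ i (τ : P × C →* (Fun (y i) ≃ₐ[k] Fun (y i))),
      (∀ g, Spec.map (CommRingCat.ofHom ((τ g : Fun (y i) ≃ₐ[k] Fun (y i)) :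
        Fun (y i) →+* Fun (y i))) ≫ genF (y i) = genF (y i) ≫ (ρ i g⁻¹).hom) →
      Fac p τ.range)
    (Z : Scheme.{0}) [IsIntegral Z] (z : Z ⟶ Spec (.of k)) (pr : ∀ i, Z ⟶ Y i)
    (hZ : IsProd y z pr) (σ : P × C →* Aut Z) (hσz : ∀ g, (σ g).hom ≫ z = z)
    (hσ : ∀ g i, (σ g).hom ≫ pr i = pr i ≫ (ρ i g).hom)
    (X : Scheme.{0}) [IsIntegral X] (x : X ⟶ Spec (.of k)) [IsSeparated x]
    [LocallyOfFiniteType x] (q : Z ⟶ X) (hqx : q ≫ x = z)
    (hq1 : ∀ g, (σ g).hom ≫ q = q) (U : X.Opens) (hne : Nonempty U) (hU : IsAffineOpen U)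
    (hV : IsAffineOpen (q ⁻¹ᵁ U)) (hinj : Function.Injective (q.app U))
    (hinv : ∀ a : Γ(Z, q ⁻¹ᵁ U), (∀ g (h : q ⁻¹ᵁ U ≤ (σ g).hom ⁻¹ᵁ (q ⁻¹ᵁ U)),
      (σ g).hom.appLE (q ⁻¹ᵁ U) (q ⁻¹ᵁ U) h a = a) → ∃ w : Γ(X, U), q.app U w = a) :
    ∃ (Y' : Scheme.{0}) (π : Y' ⟶ X), IsIntegral Y' ∧ IsProper π ∧
      AlgebraicGeometry.Smooth (π ≫ x) ∧
      ∃ U : X.Opens, (U : Set X).Nonempty ∧ IsIso (π ∣_ U) := by
  classical
  choose W hxW hWa hWG using fun i => hadm i (genericPoint (Y i))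
  have hWne : ∀ i, Nonempty (W i) := fun i => ⟨⟨_, hxW i⟩⟩
  let A : Fin n → Type := fun i => Sec (y i) (W i)
  let K : Fin n → Type := fun i => Fun (y i)
  have hfr : ∀ i, IsFractionRing (Sec (y i) (W i)) (Fun (y i)) := fun i =>
    isFractionRing_sec (y i) (hWa i)
  have hft : ∀ i, Algebra.FiniteType k (Sec (y i) (W i)) := fun i => finiteType_sec (y i) (hWa i)
  let ρA : ∀ i, P × C →* (Sec (y i) (W i) ≃ₐ[k] Sec (y i) (W i)) := fun i =>
    secAct (y i) (ρ i) (hρ i) (W i) (hWG i)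
  let τK : ∀ i, P × C →* (Fun (y i) ≃ₐ[k] Fun (y i)) := fun i => lf (Fun (y i)) (ρA i)
  have hτK : ∀ i g, Spec.map (CommRingCat.ofHom ((τK i g : Fun (y i) ≃ₐ[k] Fun (y i)) :
      Fun (y i) →+* Fun (y i))) ≫ genF (y i) = genF (y i) ≫ (ρ i g⁻¹).hom := fun i g =>
    spec_lf (y i) (ρ i) (hρ i) (hWG i) (hWa i) g
  choose α hα V hneV c hVa hc hint hval using fun i =>
    exists_charts (y i) (ρ i) (hρ i) (hadm i) (hτK i)
  obtain ⟨U1, hU1, hU1ne, j, hj, hjs⟩ := exists_prod hZ W hWa hWne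
  obtain ⟨s, hs⟩ := exists_act hj ρA
  let B := Sec z U1
  let E := FractionRing B
  obtain ⟨e, he, -⟩ := exists_e2 (K := fun i => Fun (y i)) (E := E) hj
  let Xi := Σ i, Σ a : α i, {u // u ∈ c i a}
  let cX : ∀ i, Xi → Fun (y i) := fun i w => Pi.mulSingle (M := fun i => Fun (y i)) w.1 w.2.2.1 i
  have hcX0 : ∀ i w, cX i w ≠ 0 := by
    rintro i ⟨i', a, u, hu⟩
    by_cases h : i = i'
    · subst h
      change Pi.mulSingle (M := fun i => Fun (y i)) i u i ≠ 0
      rw [Pi.mulSingle_eq_same]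
      exact (hc i a u hu).1
    · change Pi.mulSingle (M := fun i => Fun (y i)) i' u i ≠ 0
      rw [Pi.mulSingle_eq_of_ne h]
      exact one_ne_zero
  have hcX : ∀ i w g, τK i g (cX i w) = cX i w := by
    rintro i ⟨i', a, u, hu⟩ g
    by_cases h : i = i'
    · subst h
      change τK i g (Pi.mulSingle (M := fun i => Fun (y i)) i u i) =
        Pi.mulSingle (M := fun i => Fun (y i)) i u i
      rw [Pi.mulSingle_eq_same]
      exact (hc i a u hu).2.2 g
    · change τK i g (Pi.mulSingle (M := fun i => Fun (y i)) i' u i) =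
        Pi.mulSingle (M := fun i => Fun (y i)) i' u i
      rw [Pi.mulSingle_eq_of_ne h, map_one]
  obtain ⟨KG, T, I, hT, hI, M, g, Γ, hKG, hg, hF, hFr⟩ := quotM p k n
    (fun i => Sec (y i) (W i)) (fun i => Fun (y i)) B j hj ρA s hP hC
    (fun i => hfac i (τK i) (hτK i)) hs e he cX hcX0 hcX
  obtain ⟨Pm, hPm⟩ := exists_model M hFr g Γ hF
  let τ : P × C →* (E ≃ₐ[k] E) := lf E s
  have hBfr : IsFractionRing B (Fun z) := isFractionRing_sec z hU1
  -- the generic point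
  let δ0 : Fun z ≃ₐ[B] E := IsLocalization.algEquiv (nonZeroDivisors B) (Fun z) E
  let δ : Fun z ≃ₐ[k] E := δ0.restrictScalars k
  obtain ⟨η, hη0⟩ : ∃ η : Spec (.of E) ⟶ Z,
    η = Spec.map (CommRingCat.ofHom (algebraMap B E)) ≫ secSpec z hU1 := ⟨_, rfl⟩
  have hδ : Spec.map (CommRingCat.ofHom ((δ : Fun z ≃ₐ[k] E) : Fun z →+* E)) ≫ genF z = η := by
    rw [← genF_eq z hU1, ← Category.assoc, spec_comp, hη0]
    congr 3
    apply RingHom.ext
    intro b
    exact δ0.commutes b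
  have hηz : η ≫ z = Spec.map (CommRingCat.ofHom (algebraMap k E)) := by
    rw [hη0, Category.assoc, secSpec_str, spec_comp, ← IsScalarTower.algebraMap_eq]
  have hη : ∀ i, η ≫ pr i = Spec.map (CommRingCat.ofHom
      ((e i : Fun (y i) →ₐ[k] E) : Fun (y i) →+* E)) ≫ genF (y i) := by
    intro i
    rw [hη0, Category.assoc, ← hjs, ← genF_eq (y i) (hWa i), ← Category.assoc, ← Category.assoc,
      spec_comp, spec_comp]
    congr 3
    apply RingHom.ext
    intro a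
    exact (he i a).symm
  have hτe : ∀ g i (u : Fun (y i)), τ g (e i u) = e i (τK i g u) := by
    intro g i u
    refine frac_ext2 (C := Sec (y i) (W i)) (((τ g : E ≃ₐ[k] E) : E →+* E).comp
      (e i : Fun (y i) →+* E)) ((e i : Fun (y i) →+* E).comp
        ((τK i g : Fun (y i) ≃ₐ[k] Fun (y i)) : Fun (y i) →+* Fun (y i))) ?_ u
    intro a
    change τ g (e i (algebraMap (Sec (y i) (W i)) (Fun (y i)) a)) =
      e i (lf (Fun (y i)) (ρA i) g (algebraMap (Sec (y i) (W i)) (Fun (y i)) a))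
    rw [lf_app, he, he]
    exact (lf_app E s g _).trans (congrArg _ (hs g i a))
  have hτη : ∀ g, Spec.map (CommRingCat.ofHom ((τ g : E ≃ₐ[k] E) : E →+* E)) ≫ η =
      η ≫ (σ g⁻¹).hom := by
    intro g
    apply hZ.ext
    · rw [Category.assoc, Category.assoc, hσz, hηz, spec_comp]
      congr 2
      apply RingHom.ext
      intro c
      exact (τ g).commutes c
    · intro i
      rw [Category.assoc, Category.assoc, hσ, ← Category.assoc η, hη, Category.assoc, ← hτK,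
        ← Category.assoc, ← Category.assoc, spec_comp, spec_comp]
      congr 3
      apply RingHom.ext
      intro u
      exact hτe g i u
  obtain ⟨γ, hγ⟩ := exists_gamma z σ hσz δ τ η hδ hτη KG hKG x q hqx hq1 U hne hU hV hinj hinv
  refine res_of_model y z pr hZ τ e η hηz hη KG hKG Pm (fun j => (hPm j).1)
    (fun j => (hPm j).2.1) α V hneV c hVa ?_ hint ?_ hval x γ q hqx hγ
  · intro i a u hu l
    refine ⟨g ⟨i, a, u, hu⟩, ?_, (hPm l).2.2 _⟩
    rw [hg]
    rw [Finset.prod_eq_single i]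
    · change e i (Pi.mulSingle (M := fun i => Fun (y i)) i u i) = e i u
      rw [Pi.mulSingle_eq_same]
    · intro i' _ hi'
      change e i' (Pi.mulSingle (M := fun i => Fun (y i)) i u i') = 1
      rw [Pi.mulSingle_eq_of_ne hi', map_one]
    · intro h
      exact absurd (Finset.mem_univ i) h
  · intro i a u hu
    exact (hc i a u hu).2.1

end Pool.Agent.Zk10.Sch
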